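import Pool.Agent.CTZ.Borel

open Filter Topology Set MeasureTheory

namespace Pool.Agent.CTZ

namespace Dens

open Classical in
/-- Measurable sets of multiplicity at most `K` outside of which the densities of the parts of a
measure are at most `1 / K`. -/
theorem exists_sets {Z ι : Type} [MeasurableSpace Z] (lam : Measure Z) [IsFiniteMeasure lam]
    (T : Finset ι) (μ : ι → Measure Z)
    (hμ : ∀ A, MeasurableSet A → ∑ w ∈ T, μ w A ≤ lam A) (K : ℝ) (hK : 0 < K) :
    ∃ (D : ι → Set Z) (Nn : Set Z), (∀ w, MeasurableSet (D w)) ∧ MeasurableSet Nn ∧ lam Nn = 0 ∧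
      (∀ z, ((T.filter (fun w => z ∈ D w)).card : ℝ) ≤ K) ∧
      ∀ w ∈ T, ∀ A, MeasurableSet A → ENNReal.ofReal K * μ w (A \ (D w ∪ Nn)) ≤ lam A := by
  have hle : ∀ w ∈ T, μ w ≤ lam := by
    intro w hw
    refine Measure.le_iff.mpr fun A hA => ?_
    exact (Finset.single_le_sum (f := fun w => μ w A) (fun _ _ => zero_le) hw).trans (hμ A hA)
  have hac : ∀ w ∈ T, μ w ≪ lam := fun w hw => Measure.absolutelyContinuous_of_le (hle w hw)
  have hfin : ∀ w ∈ T, IsFiniteMeasure (μ w) := fun w hw => isFiniteMeasure_of_le lam (hle w hw)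
  set f : ι → Z → ENNReal := fun w => (μ w).rnDeriv lam with hf
  have hfm : ∀ w, Measurable (f w) := fun w => Measure.measurable_rnDeriv _ _
  have hfint : ∀ w ∈ T, ∀ A, MeasurableSet A → ∫⁻ z in A, f w z ∂lam = μ w A := by
    intro w hw A hA
    have := hfin w hw
    exact Measure.setLIntegral_rnDeriv (hac w hw) A
  set g : Z → ENNReal := fun z => ∑ w ∈ T, f w z with hg
  have hgm : Measurable g := Finset.measurable_fun_sum T fun w _ => hfm w
  have hg1 : ∀ᵐ z ∂lam, g z ≤ 1 := by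
    refine ae_le_of_forall_setLIntegral_le_of_sigmaFinite hgm fun A hA _ => ?_
    rw [hg, lintegral_finsetSum T fun w _ => hfm w, setLIntegral_one]
    rw [Finset.sum_congr rfl fun w hw => hfint w hw A hA]
    exact hμ A hA
  set Nn : Set Z := {z | ¬ g z ≤ 1} with hNn
  have hNm : MeasurableSet Nn := (measurableSet_le hgm measurable_const).compl
  have hN0 : lam Nn = 0 := hg1
  set κ : ENNReal := ENNReal.ofReal K with hκ
  have hκ0 : κ ≠ 0 := by rw [hκ]; simpa using hK
  have hκt : κ ≠ ⊤ := ENNReal.ofReal_ne_top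
  obtain ⟨D, hD⟩ : ∃ D : ι → Set Z, ∀ w z, z ∈ D w ↔ κ⁻¹ < f w z ∧ z ∉ Nn :=
    ⟨fun w => {z | κ⁻¹ < f w z} \ Nn, fun w z => Iff.rfl⟩
  have hDm : ∀ w, MeasurableSet (D w) := by
    intro w
    have h1 : D w = {z | κ⁻¹ < f w z} \ Nn := by
      ext z
      exact hD w z
    rw [h1]
    exact (measurableSet_lt measurable_const (hfm w)).diff hNm
  refine ⟨D, Nn, hDm, hNm, hN0, ?_, ?_⟩
  · intro z
    by_cases hz : z ∈ Nn
    · have : T.filter (fun w => z ∈ D w) = ∅ := by
        apply Finset.filter_eq_empty_iff.mpr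
        intro w _ h
        exact ((hD w z).mp h).2 hz
      rw [this]
      simpa using hK.le
    · have hz1 : g z ≤ 1 := by
        by_contra h
        exact hz h
      set F := T.filter (fun w => z ∈ D w) with hF
      have h1 : (F.card : ENNReal) * κ⁻¹ ≤ 1 := by
        calc (F.card : ENNReal) * κ⁻¹ = ∑ _w ∈ F, κ⁻¹ := by
              rw [Finset.sum_const, nsmul_eq_mul]
          _ ≤ ∑ w ∈ F, f w z := by
              apply Finset.sum_le_sum
              intro w hw
              exact ((hD w z).mp (Finset.mem_filter.mp hw).2).1.le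
          _ ≤ g z := Finset.sum_le_sum_of_subset (Finset.filter_subset _ _)
          _ ≤ 1 := hz1
      have h2 : (F.card : ENNReal) ≤ κ := by
        have h3 : (F.card : ENNReal) * κ⁻¹ * κ ≤ 1 * κ := mul_le_mul_left h1 κ
        rwa [mul_assoc, ENNReal.inv_mul_cancel hκ0 hκt, mul_one, one_mul] at h3
      have h4 : (F.card : ENNReal) = ENNReal.ofReal (F.card : ℝ) := by
        rw [ENNReal.ofReal_natCast]
      rw [h4, hκ, ENNReal.ofReal_le_ofReal_iff hK.le] at h2
      exact h2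
  · intro w hw A hA
    have hB : MeasurableSet (A \ (D w ∪ Nn)) := hA.diff ((hDm w).union hNm)
    rw [← hfint w hw _ hB]
    have h1 : ∫⁻ z in A \ (D w ∪ Nn), f w z ∂lam ≤
        ∫⁻ _z in A \ (D w ∪ Nn), κ⁻¹ ∂lam := by
      apply setLIntegral_mono measurable_const
      intro z hz
      by_contra h
      apply hz.2
      by_cases hzN : z ∈ Nn
      · exact Or.inr hzN
      · exact Or.inl ((hD w z).mpr ⟨not_le.mp h, hzN⟩)
    rw [setLIntegral_const] at h1
    calc κ * ∫⁻ z in A \ (D w ∪ Nn), f w z ∂lam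
        ≤ κ * (κ⁻¹ * lam (A \ (D w ∪ Nn))) := mul_le_mul_right h1 κ
      _ = lam (A \ (D w ∪ Nn)) := by
          rw [← mul_assoc, ENNReal.mul_inv_cancel hκ0 hκt, one_mul]
      _ ≤ lam A := measure_mono sdiff_subset

end Dens

section Borel

variable {H Z : Type} [Group H] [Countable H] [TopologicalSpace Z] [CompactSpace Z]
  [TopologicalSpace.MetrizableSpace Z] [MeasurableSpace Z] [BorelSpace Z] [MulAction H Z]
  (S : LineSys H Z)

namespace Dens

theorem measurable_cls : Measurable S.clsOf := S.continuous_clsOf.measurable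

theorem measurableSet_eval (k : ℤ) (w : H) : MeasurableSet {l : S.L0 | l.1 k = w} :=
  (S.isClopen_eval k {w}).2.measurableSet

theorem sum_parts (m : Measure S.L0) (T : Finset H) (k : ℤ) (A : Set Z) (hA : MeasurableSet A) :
    ∑ w ∈ T, (m.restrict {l : S.L0 | l.1 k = w}).map S.clsOf A ≤ m.map S.clsOf A := by
  have hc := measurable_cls S
  have hpre : MeasurableSet (S.clsOf ⁻¹' A) := hc hA
  have h1 : ∀ w ∈ T, (m.restrict {l : S.L0 | l.1 k = w}).map S.clsOf A =
      m (S.clsOf ⁻¹' A ∩ {l : S.L0 | l.1 k = w}) := by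
    intro w _
    rw [Measure.map_apply hc hA, Measure.restrict_apply hpre]
  rw [Finset.sum_congr rfl h1, Measure.map_apply hc hA, ← measure_biUnion_finset]
  · apply measure_mono
    intro l hl
    simp only [mem_iUnion] at hl
    obtain ⟨w, _, hw⟩ := hl
    exact hw.1
  · intro w _ w' _ hne
    refine Set.disjoint_left.mpr fun l hl hl' => hne ?_
    exact hl.2.symm.trans hl'.2
  · intro w _
    exact hpre.inter (measurableSet_eval S k w)

end Dens

/-- the sets on which the densities are at most `1/K` -/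
theorem exists_dens [ContinuousConstSMul H Z] {h : ℝ} {m : Measure S.L0} (hm : S.Good h m)
    {δ K : ℝ} {R : ℕ} (hp : Par h δ K R (S.N R)) :
    ∃ G : H → Set Z, (∀ w, MeasurableSet (G w)) ∧
      (∀ w ∈ S.L R, ∀ A : Set Z, MeasurableSet A →
        ENNReal.ofReal K * m {l | l.1 R = w ∧ S.clsOf l ∈ G w ∩ A} ≤ m {l | S.clsOf l ∈ A}) ∧
      (∀ w ∈ S.L R, ∀ A : Set Z, MeasurableSet A →
        ENNReal.ofReal K * m {l | l.1 R = w ∧ S.clsOf l ∈ G w ∩ A} ≤ m {l | w • S.clsOf l ∈ A}) ∧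
      m {l | S.clsOf l ∉ G (l.1 R)} ≤ ENNReal.ofReal (2 * δ) := by
  classical
  have hprob := hm.prob
  have hc := Dens.measurable_cls S
  have hK := hp.K0
  have hlamfin : IsFiniteMeasure (m.map S.clsOf) := inferInstance
  obtain ⟨D, Nn, hDm, hNm, hN0, hDc, hDle⟩ := Dens.exists_sets (m.map S.clsOf) (S.L R)
    (fun w => (m.restrict {l : S.L0 | l.1 R = w}).map S.clsOf)
    (fun A hA => Dens.sum_parts S m (S.L R) R A hA) K hK
  obtain ⟨D', Nn', hDm', hNm', hN0', hDc', hDle'⟩ := Dens.exists_sets (m.map S.clsOf) (S.L R)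
    (fun w => (m.restrict {l : S.L0 | l.1 (-(R : ℤ)) = w}).map S.clsOf)
    (fun A hA => Dens.sum_parts S m (S.L R) (-(R : ℤ)) A hA) K hK
  -- invariance
  have hinv : MeasurePreserving (S.tau^[R]) m m := hm.inv.iterate R
  have htau : ∀ l : S.L0, (S.tau^[R] l).1 (-(R : ℤ)) = (l.1 R)⁻¹ := by
    intro l
    rw [S.tau_iterate]
    simp
  have hshift : ∀ (P : H → Set Z), (∀ u, MeasurableSet (P u)) →
      m {l : S.L0 | (l.1 R)⁻¹ • S.clsOf l ∈ P (l.1 R)⁻¹} =
        m {l : S.L0 | S.clsOf l ∈ P (l.1 (-(R : ℤ)))} := by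
    intro P hP
    have hms : MeasurableSet {l : S.L0 | S.clsOf l ∈ P (l.1 (-(R : ℤ)))} := by
      have h1 : {l : S.L0 | S.clsOf l ∈ P (l.1 (-(R : ℤ)))} =
          ⋃ u : H, {l : S.L0 | l.1 (-(R : ℤ)) = u} ∩ S.clsOf ⁻¹' (P u) := by
        ext l
        simp
      rw [h1]
      exact MeasurableSet.iUnion fun u => (Dens.measurableSet_eval S _ u).inter (hc (hP u))
    rw [← hinv.measure_preimage hms.nullMeasurableSet]
    congr 1
    ext l
    simp only [mem_ofPred_eq, mem_preimage, htau, S.clsOf_tau_iterate]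
  refine ⟨fun w => (D w ∪ Nn)ᶜ ∩ (fun z => w⁻¹ • z) ⁻¹' (D' w⁻¹ ∪ Nn')ᶜ, ?_, ?_, ?_, ?_⟩
  · intro w
    refine ((hDm w).union hNm).compl.inter ?_
    exact (continuous_const_smul w⁻¹).measurable ((hDm' _).union hNm').compl
  · intro w hw A hA
    have h1 := hDle w hw A hA
    have h2 : m {l | S.clsOf l ∈ A} = m.map S.clsOf A := by
      rw [Measure.map_apply hc hA]
      rfl
    rw [h2]
    refine le_trans (mul_le_mul_right ?_ _) h1
    have hB : MeasurableSet (A \ (D w ∪ Nn)) := hA.diff ((hDm w).union hNm)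
    rw [Measure.map_apply hc hB, Measure.restrict_apply (hc hB)]
    apply measure_mono
    intro l hl
    exact ⟨⟨hl.2.2, hl.2.1.1⟩, hl.1⟩
  · intro w hw A hA
    have hw' : w⁻¹ ∈ S.L R := S.inv_mem_L hw
    have hA' : MeasurableSet ((fun z => w • z) ⁻¹' A) :=
      (continuous_const_smul w).measurable hA
    have h1 := hDle' w⁻¹ hw' _ hA'
    have h2 : m {l | w • S.clsOf l ∈ A} = m.map S.clsOf ((fun z => w • z) ⁻¹' A) := by
      rw [Measure.map_apply hc hA']
      rfl
    rw [h2]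
    refine le_trans (mul_le_mul_right ?_ _) h1
    have hB : MeasurableSet ((fun z => w • z) ⁻¹' A \ (D' w⁻¹ ∪ Nn')) :=
      hA'.diff ((hDm' _).union hNm')
    rw [Measure.map_apply hc hB, Measure.restrict_apply (hc hB)]
    rw [← hinv.measure_preimage
      ((hc hB).inter (Dens.measurableSet_eval S _ _)).nullMeasurableSet]
    apply measure_mono
    intro l hl
    have hlw : l.1 R = w := hl.1
    refine ⟨⟨?_, ?_⟩, ?_⟩
    · change w • S.clsOf (S.tau^[R] l) ∈ A
      rw [S.clsOf_tau_iterate, hlw, smul_inv_smul]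
      exact hl.2.2
    · rw [S.clsOf_tau_iterate, hlw]
      exact hl.2.1.2
    · change (S.tau^[R] l).1 (-(R : ℤ)) = w⁻¹
      rw [htau, hlw]
  · have hb := (good_borel S hm hp D hDm hDc).1
    have hb' := (good_borel S hm hp D' hDm' hDc').2
    have hNz : m {l | S.clsOf l ∈ Nn} = 0 := by
      rw [Measure.map_apply hc hNm] at hN0
      exact hN0
    have hNz' : m {l | S.clsOf l ∈ Nn'} = 0 := by
      rw [Measure.map_apply hc hNm'] at hN0'
      exact hN0'
    have hs := hshift (fun u => D' u ∪ Nn') fun u => (hDm' u).union hNm'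
    have hs2 : m {l : S.L0 | S.clsOf l ∈ D' (l.1 (-(R : ℤ))) ∪ Nn'} ≤ ENNReal.ofReal δ := by
      have h1 : {l : S.L0 | S.clsOf l ∈ D' (l.1 (-(R : ℤ))) ∪ Nn'} =
          {l : S.L0 | S.clsOf l ∈ D' (l.1 (-(R : ℤ)))} ∪ {l : S.L0 | S.clsOf l ∈ Nn'} := rfl
      rw [h1]
      refine (measure_union_le _ _).trans ?_
      rw [hNz', add_zero]
      exact hb'
    have hs1 : m {l : S.L0 | S.clsOf l ∈ D (l.1 R) ∪ Nn} ≤ ENNReal.ofReal δ := by
      have h1 : {l : S.L0 | S.clsOf l ∈ D (l.1 R) ∪ Nn} =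
          {l : S.L0 | S.clsOf l ∈ D (l.1 R)} ∪ {l : S.L0 | S.clsOf l ∈ Nn} := rfl
      rw [h1]
      refine (measure_union_le _ _).trans ?_
      rw [hNz, add_zero]
      exact hb
    have hcover : {l : S.L0 | S.clsOf l ∉
        (D (l.1 R) ∪ Nn)ᶜ ∩ (fun z => (l.1 R)⁻¹ • z) ⁻¹' (D' (l.1 R)⁻¹ ∪ Nn')ᶜ} ⊆
        {l : S.L0 | S.clsOf l ∈ D (l.1 R) ∪ Nn} ∪
          {l : S.L0 | (l.1 R)⁻¹ • S.clsOf l ∈ D' (l.1 R)⁻¹ ∪ Nn'} := by
      intro l hl
      by_cases h1 : S.clsOf l ∈ D (l.1 R) ∪ Nn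
      · exact Or.inl h1
      · refine Or.inr ?_
        by_contra h2
        exact hl ⟨h1, h2⟩
    refine (measure_mono hcover).trans ((measure_union_le _ _).trans ?_)
    rw [hs, two_mul, ENNReal.ofReal_add hp.δ0.le hp.δ0.le]
    exact add_le_add hs1 hs2

end Borel

end Pool.Agent.CTZ
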