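import Pool.Agent.CTZ.Sys

/-!
# Growth of the language of a line system
-/

open Filter Topology Set MeasureTheory

namespace Pool.Agent.CTZ

namespace LineSys

variable {H Z : Type} [Group H] [TopologicalSpace Z] [MulAction H Z] (S : LineSys H Z)

/-- exponential growth with exact rate `h` -/
def HasGrowth (h : ℝ) : Prop :=
  0 < h ∧ (∀ n : ℕ, Real.exp (h * n) ≤ S.N n) ∧
    ∀ ε > 0, ∀ᶠ n : ℕ in atTop, (S.N n : ℝ) ≤ Real.exp ((h + ε) * n)

theorem N_add_le (m n : ℕ) : S.N (m + n) ≤ S.N m * S.N n := by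
  classical
  unfold N
  have hsub : S.L ((m + n : ℕ) : ℤ) ⊆ (S.L m ×ˢ S.L n).image (fun p => p.1 * p.2) := by
    intro w hw
    obtain ⟨u, hu, hv⟩ := S.exists_mem_L_add hw
    refine Finset.mem_image.2 ⟨(u, u⁻¹ * w), Finset.mem_product.2 ⟨hu, hv⟩, ?_⟩
    simp
  calc (S.L ((m + n : ℕ) : ℤ)).card ≤ ((S.L m ×ˢ S.L n).image (fun p => p.1 * p.2)).card :=
        Finset.card_le_card hsub
    _ ≤ (S.L m ×ˢ S.L n).card := Finset.card_image_le
    _ = (S.L m).card * (S.L n).card := Finset.card_product _ _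

theorem N_pos [Nonempty S.L0] (n : ℕ) : 0 < S.N n := by
  obtain ⟨l⟩ := ‹Nonempty S.L0›
  exact Finset.card_pos.2 ⟨l.1 n, S.mem_L.2 ⟨l, rfl⟩⟩

theorem N_eq_zero [IsEmpty S.L0] (n : ℕ) : S.N n = 0 := by
  unfold N
  rw [Finset.card_eq_zero, Finset.eq_empty_iff_forall_notMem]
  intro w hw
  obtain ⟨l, -⟩ := S.mem_L.1 hw
  exact isEmptyElim l

theorem subadditive_logN [Nonempty S.L0] : Subadditive (fun n => Real.log (S.N n)) := by
  intro m n
  have hm : (0 : ℝ) < S.N m := by exact_mod_cast S.N_pos m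
  have hn : (0 : ℝ) < S.N n := by exact_mod_cast S.N_pos n
  have hmn : (0 : ℝ) < S.N (m + n) := by exact_mod_cast S.N_pos (m + n)
  show Real.log (S.N (m + n)) ≤ Real.log (S.N m) + Real.log (S.N n)
  rw [← Real.log_mul hm.ne' hn.ne']
  apply Real.log_le_log hmn
  exact_mod_cast S.N_add_le m n

theorem growth_dichotomy :
    (∀ s : ℝ, 0 < s → ∃ R : ℕ, 0 < R ∧ (S.N R : ℝ) < Real.exp (s * R)) ∨ ∃ h, S.HasGrowth h := by
  rcases isEmpty_or_nonempty S.L0 with hE | hE
  · left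
    intro s _
    refine ⟨1, one_pos, ?_⟩
    rw [S.N_eq_zero 1]
    simpa using Real.exp_pos (s * ((1 : ℕ) : ℝ))
  have hsub := S.subadditive_logN
  have hone : ∀ n : ℕ, (1 : ℝ) ≤ S.N n := fun n => by exact_mod_cast S.N_pos n
  have hbdd : BddBelow (range fun n : ℕ => Real.log (S.N n) / n) := by
    refine ⟨0, ?_⟩
    rintro _ ⟨n, rfl⟩
    exact div_nonneg (Real.log_nonneg (hone n)) (Nat.cast_nonneg n)
  have hlim := hsub.tendsto_lim hbdd
  have key : ∀ s : ℝ, hsub.lim < s → ∀ᶠ n : ℕ in atTop, (S.N n : ℝ) < Real.exp (s * n) := by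
    intro s hs
    filter_upwards [hlim.eventually (gt_mem_nhds hs), eventually_gt_atTop 0] with n hn hn0
    have hn0' : (0 : ℝ) < n := by exact_mod_cast hn0
    rw [div_lt_iff₀ hn0'] at hn
    have hpos : (0 : ℝ) < S.N n := lt_of_lt_of_le one_pos (hone n)
    calc (S.N n : ℝ) = Real.exp (Real.log (S.N n)) := (Real.exp_log hpos).symm
      _ < Real.exp (s * n) := Real.exp_lt_exp.2 hn
  rcases le_or_gt hsub.lim 0 with h0 | h0
  · left
    intro s hs
    obtain ⟨n, hn, hn0⟩ := ((key s (lt_of_le_of_lt h0 hs)).and (eventually_gt_atTop 0)).exists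
    exact ⟨n, hn0, hn⟩
  · right
    refine ⟨hsub.lim, h0, ?_, ?_⟩
    · intro n
      have hpos : (0 : ℝ) < S.N n := lt_of_lt_of_le one_pos (hone n)
      rcases Nat.eq_zero_or_pos n with rfl | hn
      · simpa using hone 0
      have hn0' : (0 : ℝ) < n := by exact_mod_cast hn
      have h1 := hsub.lim_le_div hbdd hn.ne'
      rw [le_div_iff₀ hn0'] at h1
      calc Real.exp (hsub.lim * n) ≤ Real.exp (Real.log (S.N n)) := Real.exp_le_exp.2 h1
        _ = S.N n := Real.exp_log hpos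
    · intro ε hε
      exact (key (hsub.lim + ε) (by linarith)).mono fun n hn => hn.le

end LineSys

end Pool.Agent.CTZ
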