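import Pool.Agent.CTZ.MainIneq
import Pool.Agent.CTZ.Dens

/-!
# CTZ row B: the main inequality
-/

open Filter Topology Set MeasureTheory

namespace Pool.Agent.CTZ

theorem main_ineq {H Z : Type} [Group H] [Countable H] [TopologicalSpace Z] [CompactSpace Z]
    [TopologicalSpace.MetrizableSpace Z] [MeasurableSpace Z] [BorelSpace Z] [MulAction H Z]
    (S : LineSys H Z) [ContinuousConstSMul H Z] {h : ℝ} {m : Measure S.L0} (hm : S.Good h m)
    {half : H → H → Prop} {C : ℕ} (hh : Halving S half C) {K : ℝ} {R : ℕ}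
    (hp : Par h (1 / 4) K R (S.N R)) (hna : ∀ z : Z, m {l | S.clsOf l = z} = 0) :
    K ^ 2 ≤ 8 * S.N R * (C * S.N (R - R / 2)) := by
  have := hm.prob
  obtain ⟨G, hG, h1, h2, h3⟩ := exists_dens S hm hp
  exact main_ineq_of_dens S hh hp.K0 hna G hG h1 h2 h3

end Pool.Agent.CTZ
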