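import Pool.Agent.CTZ.Sys

/-!
# Counting words whose letters are predicted by their past
-/

open Filter Topology Set MeasureTheory

namespace Pool.Agent.CTZ

/-- words of length `n` over `A`, most recent letter first -/
def words {α : Type} [DecidableEq α] (A : Finset α) : ℕ → Finset (List α)
  | 0 => {[]}
  | n + 1 => (A ×ˢ words A n).image (fun p => p.1 :: p.2)

/-- the number of letters that lie in the set predicted by their past -/
def badCount {α : Type} [DecidableEq α] (D : List α → Finset α) : List α → ℕ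
  | [] => 0
  | x :: l => badCount D l + if x ∈ D l then 1 else 0

theorem mem_words {α : Type} [DecidableEq α] {A : Finset α} {n : ℕ} {l : List α} :
    l ∈ words A n ↔ l.length = n ∧ ∀ x ∈ l, x ∈ A := by
  induction n generalizing l with
  | zero =>
    rw [words, Finset.mem_singleton]
    constructor
    · rintro rfl
      simp
    · rintro ⟨h, -⟩
      exact List.eq_nil_of_length_eq_zero h
  | succ n ih =>
    rw [words, Finset.mem_image]
    constructor
    · rintro ⟨⟨x, t⟩, hp, rfl⟩
      rw [Finset.mem_product] at hp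
      obtain ⟨h1, h2⟩ := ih.1 hp.2
      refine ⟨by simp [h1], ?_⟩
      intro y hy
      rcases List.mem_cons.1 hy with rfl | hy
      · exact hp.1
      · exact h2 y hy
    · rintro ⟨h1, h2⟩
      match l, h1, h2 with
      | [], h1, _ => simp at h1
      | x :: t, h1, h2 =>
        refine ⟨(x, t), Finset.mem_product.2 ⟨h2 x (by simp), ih.2 ⟨by simpa using h1, ?_⟩⟩, rfl⟩
        intro y hy
        exact h2 y (by simp [hy])

theorem sum_words_succ {α : Type} [DecidableEq α] (A : Finset α) (n : ℕ) (f : List α → ℝ) :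
    ∑ l ∈ words A (n + 1), f l = ∑ l ∈ words A n, ∑ x ∈ A, f (x :: l) := by
  rw [words, Finset.sum_image]
  · rw [Finset.sum_product_right]
  · rintro ⟨x, l⟩ - ⟨y, l'⟩ - h
    simp only [List.cons.injEq] at h
    exact Prod.ext h.1 h.2

theorem moment_words {α : Type} [DecidableEq α] (A : Finset α) (D : List α → Finset α) (K : ℝ)
    (hK : 0 < K) (hKA : K ≤ A.card) (hD : ∀ l, ((D l).card : ℝ) ≤ K) (n : ℕ) :
    ∑ l ∈ words A n, ((A.card : ℝ) / K) ^ (badCount D l) ≤ (2 * A.card) ^ n := by
  have hA : (0 : ℝ) < A.card := lt_of_lt_of_le hK hKA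
  set t : ℝ := (A.card : ℝ) / K with ht
  have ht0 : 0 < t := div_pos hA hK
  induction n with
  | zero => simp [words, badCount]
  | succ n ih =>
    rw [sum_words_succ]
    have step : ∀ l : List α, ∑ x ∈ A, t ^ (badCount D (x :: l)) ≤
        t ^ (badCount D l) * (2 * A.card) := by
      intro l
      have e : ∀ x ∈ A, t ^ (badCount D (x :: l)) ≤
          t ^ (badCount D l) * (1 + if x ∈ D l then t else 0) := by
        intro x _
        rw [badCount]
        by_cases hx : x ∈ D l
        · rw [if_pos hx, if_pos hx, pow_succ]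
          exact mul_le_mul_of_nonneg_left (by linarith) (pow_pos ht0 _).le
        · rw [if_neg hx, if_neg hx]
          simp
      refine (Finset.sum_le_sum e).trans ?_
      rw [← Finset.mul_sum]
      refine mul_le_mul_of_nonneg_left ?_ (pow_pos ht0 _).le
      rw [Finset.sum_add_distrib, Finset.sum_const, nsmul_eq_mul, mul_one,
        ← Finset.sum_filter, Finset.sum_const, nsmul_eq_mul]
      have h1 : ((A.filter (fun x => x ∈ D l)).card : ℝ) ≤ K := by
        refine le_trans ?_ (hD l)
        exact_mod_cast Finset.card_le_card fun x hx => (Finset.mem_filter.1 hx).2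
      have h2 : ((A.filter (fun x => x ∈ D l)).card : ℝ) * t ≤ A.card := by
        calc ((A.filter (fun x => x ∈ D l)).card : ℝ) * t ≤ K * t :=
              mul_le_mul_of_nonneg_right h1 ht0.le
          _ = A.card := by rw [ht]; field_simp
      linarith
    calc ∑ l ∈ words A n, ∑ x ∈ A, t ^ (badCount D (x :: l))
        ≤ ∑ l ∈ words A n, t ^ (badCount D l) * (2 * A.card) :=
          Finset.sum_le_sum fun l _ => step l
      _ = (∑ l ∈ words A n, t ^ (badCount D l)) * (2 * A.card) := by rw [Finset.sum_mul]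
      _ ≤ (2 * A.card) ^ n * (2 * A.card) :=
          mul_le_mul_of_nonneg_right ih (by positivity)
      _ = (2 * A.card) ^ (n + 1) := by rw [pow_succ]

theorem card_badWords {α : Type} [DecidableEq α] (A : Finset α) (D : List α → Finset α) (K : ℝ)
    (hK : 0 < K) (hKA : K ≤ A.card) (hD : ∀ l, ((D l).card : ℝ) ≤ K) (n : ℕ) (s : ℝ) :
    (((words A n).filter (fun l => s ≤ badCount D l)).card : ℝ) ≤
      (2 * A.card) ^ n * (K / A.card) ^ s := by
  have hA : (0 : ℝ) < A.card := lt_of_lt_of_le hK hKA
  have ht1 : 1 ≤ (A.card : ℝ) / K := (one_le_div hK).2 hKA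
  have ht0 : 0 < (A.card : ℝ) / K := div_pos hA hK
  have hm := moment_words A D K hK hKA hD n
  have h1 : (((words A n).filter (fun l => s ≤ badCount D l)).card : ℝ) * ((A.card : ℝ) / K) ^ s ≤
      ∑ l ∈ words A n, ((A.card : ℝ) / K) ^ (badCount D l) := by
    rw [← nsmul_eq_mul, ← Finset.sum_const]
    calc ∑ _l ∈ (words A n).filter (fun l => s ≤ badCount D l), ((A.card : ℝ) / K) ^ s
        ≤ ∑ l ∈ (words A n).filter (fun l => s ≤ badCount D l),
            ((A.card : ℝ) / K) ^ (badCount D l) := by
          refine Finset.sum_le_sum fun l hl => ?_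
          rw [← Real.rpow_natCast]
          exact Real.rpow_le_rpow_of_exponent_le ht1 (Finset.mem_filter.1 hl).2
      _ ≤ ∑ l ∈ words A n, ((A.card : ℝ) / K) ^ (badCount D l) :=
          Finset.sum_le_sum_of_subset_of_nonneg (Finset.filter_subset _ _)
            fun l _ _ => (pow_pos ht0 _).le
  have h2 : (K / (A.card : ℝ)) ^ s = (((A.card : ℝ) / K) ^ s)⁻¹ := by
    rw [← Real.inv_rpow ht0.le, inv_div]
  rw [h2, ← div_eq_mul_inv, le_div_iff₀ (Real.rpow_pos_of_pos ht0 s)]
  exact h1.trans hm

end Pool.Agent.CTZ
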