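import Pool.Agent.CTZ.Top
import Pool.Agent.CTZ.Growth
import Pool.Agent.CTZ.Words

/-!
# CTZ core: `incs`, `Bad`, `Par`, `Good`, `Halving` (verbatim from the skeleton)
-/

open Filter Topology Set MeasureTheory

namespace Pool.Agent.CTZ

/-- increments of the coarse past, most recent first -/
def incs {H : Type} [Group H] (R M : ℕ) (l : ℤ → H) : List H :=
  (List.range M).map (fun i => (l (-(((i + 1) * R : ℕ) : ℤ)))⁻¹ * l (-((i * R : ℕ) : ℤ)))

/-- the position at time `R` is predicted by the coarse past -/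
def Bad {H : Type} [Group H] (R M : ℕ) (Dt : List H → Finset H) (l : ℤ → H) : Prop :=
  l R ∈ Dt (incs R M l)

/-- the parameters for which predictions fail with probability at least `1 - δ` -/
structure Par (h δ K : ℝ) (R A : ℕ) : Prop where
  R0 : 0 < R
  K0 : 0 < K
  KA : K ≤ A
  δ0 : 0 < δ
  δ1 : δ ≤ 1
  q : 2 * K ^ δ * (A : ℝ) ^ (1 - δ) < Real.exp (h * R)

namespace LineSys

variable {H Z : Type} [Group H] [TopologicalSpace Z] [MulAction H Z] (S : LineSys H Z)

/-- an invariant measure for which predictions fail -/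
structure Good (h : ℝ) (m : Measure S.L0) : Prop where
  prob : IsProbabilityMeasure m
  inv : MeasurePreserving S.tau m m
  cyl : ∀ (δ K : ℝ) (R : ℕ), Par h δ K R (S.N R) → ∀ (M : ℕ) (Dt : List H → Finset H),
    (∀ l, ((Dt l).card : ℝ) ≤ K) →
      m {l | Bad R M Dt l.1} ≤ ENNReal.ofReal δ ∧ m {l | Bad R M Dt (S.rev l).1} ≤ ENNReal.ofReal δ

end LineSys

section Borel

variable {H Z : Type} [Group H] [TopologicalSpace Z] [MulAction H Z]

/-- abstract halving relation: `half o w` says that `o` is closer to `w` than to `1` -/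
structure Halving (S : LineSys H Z) (half : H → H → Prop) (C : ℕ) : Prop where
  or : ∀ (R : ℕ), ∀ w ∈ S.L R, ∀ o : H, half o w ∨ half (w⁻¹ * o) w⁻¹
  count : ∀ (R : ℕ) (o : H), {w : H | w ∈ S.L R ∧ half o w}.ncard ≤ C * S.N (R - R / 2)

end Borel

end Pool.Agent.CTZ
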