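import Pool.Agent.CTZ.CDefs
import Pool.Agent.CTZ.Growth
import Pool.Agent.CTZ.Words

/-! # Row CB: the cylinder bound -/

open Filter Topology Set MeasureTheory

namespace Pool.Agent.CTZ

namespace Cyl

variable {H : Type} [Group H]

/-- the line seen from its point at time `k` -/
def see (l : ℤ → H) (k : ℕ) : ℤ → H := fun x => (l k)⁻¹ * l (x + k)

theorem incs_length (R M : ℕ) (l : ℤ → H) : (incs R M l).length = M := by
  simp [incs]

theorem incs_take (R : ℕ) {M i : ℕ} (h : M ≤ i) (l : ℤ → H) :
    (incs R i l).take M = incs R M l := by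
  unfold incs
  rw [← List.map_take, List.take_range, min_eq_left h]

theorem incs_see_succ (R i k : ℕ) (l : ℤ → H) :
    incs R (i + 1) (see l (k + R)) = see l k R :: incs R i (see l k) := by
  unfold incs
  rw [List.range_succ_eq_map, List.map_cons, List.map_map]
  congr 1
  · unfold see
    simp only [zero_add, one_mul, zero_mul, Nat.cast_zero, neg_zero, mul_inv_rev, inv_inv]
    rw [mul_assoc, mul_inv_cancel_left]
    congr 2
    · push_cast
      ring
    · push_cast
      ring
  · apply List.map_congr_left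
    intro t _
    unfold see
    simp only [Function.comp_apply, mul_inv_rev, inv_inv]
    rw [mul_assoc, mul_inv_cancel_left, mul_assoc, mul_inv_cancel_left]
    congr 2
    · push_cast
      ring
    · push_cast
      ring

/-- the position is determined by the word -/
theorem see_prod (R i k : ℕ) (l : ℤ → H) :
    l k * (incs R i (see l (k + i * R))).reverse.prod = l ((k + i * R : ℕ) : ℤ) := by
  induction i with
  | zero => simp [incs]
  | succ i ih =>
    have e1 : k + (i + 1) * R = (k + i * R) + R := by ring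
    rw [e1, incs_see_succ, List.reverse_cons, List.prod_append, ← mul_assoc, ih]
    unfold see
    simp only [List.prod_cons, List.prod_nil, mul_one]
    rw [mul_inv_cancel_left]
    congr 1
    push_cast
    ring

/-- predictions for long pasts -/
noncomputable def DD (M : ℕ) (Dt : List H → Finset H) : List H → Finset H := fun p =>
  if M ≤ p.length then Dt (p.take M) else ∅

open Classical in
theorem badCount_eq (R M : ℕ) (Dt : List H → Finset H) (l : ℤ → H) (k i : ℕ) :
    badCount (DD M Dt) (incs R i (see l (k + i * R))) =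
      ((Finset.range i).filter (fun t => M ≤ t ∧ Bad R M Dt (see l (k + t * R)))).card := by
  induction i with
  | zero => rfl
  | succ i ih =>
    have e1 : k + (i + 1) * R = (k + i * R) + R := by ring
    rw [e1, incs_see_succ, badCount, ih, Finset.range_add_one, Finset.filter_insert]
    have h1 : (see l (k + i * R) (R : ℤ) ∈ DD M Dt (incs R i (see l (k + i * R)))) ↔
        (M ≤ i ∧ Bad R M Dt (see l (k + i * R))) := by
      unfold DD Bad
      rw [incs_length]
      by_cases hM : M ≤ i
      · rw [if_pos hM, incs_take R hM]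
        simp [hM]
      · rw [if_neg hM]
        simp [hM]
    by_cases h2 : M ≤ i ∧ Bad R M Dt (see l (k + i * R))
    · rw [if_pos (h1.2 h2), if_pos h2, Finset.card_insert_of_notMem]
      simp
    · rw [if_neg (fun h => h2 (h1.1 h)), if_neg h2, add_zero]

theorem badCount_le {α : Type} [DecidableEq α] (D : List α → Finset α) (l : List α) :
    badCount D l ≤ l.length := by
  induction l with
  | nil => simp [badCount]
  | cons a l ih =>
    unfold badCount
    rw [List.length_cons]
    split_ifs <;> omega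

/-- the bad times below `n`, sorted by their residues -/
theorem card_bad_le {R : ℕ} (hR : 0 < R) (M n : ℕ) (P : ℕ → Prop) [DecidablePred P] :
    ((Finset.range n).filter P).card ≤ ∑ j ∈ Finset.range R,
      (((Finset.range ((n - j) / R)).filter (fun t => M ≤ t ∧ P (j + t * R))).card + (M + 1)) := by
  rw [Finset.card_eq_sum_card_fiberwise (f := fun k => k % R) (t := Finset.range R)
    (fun x _ => by simpa using Nat.mod_lt x hR)]
  refine Finset.sum_le_sum fun j hj => ?_
  have hj' : j < R := Finset.mem_range.1 hj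
  set I := (n - j) / R with hI
  have h1 : ((((Finset.range n).filter P).filter (fun k => k % R = j)).image (fun k => k / R)) ⊆
      ((Finset.range I).filter (fun t => M ≤ t ∧ P (j + t * R))) ∪ (insert I (Finset.range M)) := by
    intro t ht
    rw [Finset.mem_image] at ht
    obtain ⟨k, hk, rfl⟩ := ht
    rw [Finset.mem_filter, Finset.mem_filter, Finset.mem_range] at hk
    obtain ⟨⟨hk1, hk2⟩, hk3⟩ := hk
    have hk4 : j + k / R * R = k := by
      rw [← hk3, mul_comm]
      exact Nat.mod_add_div k R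
    have hk5 : k / R ≤ I := by
      rw [hI, Nat.le_div_iff_mul_le hR]
      omega
    rw [Finset.mem_union, Finset.mem_filter, Finset.mem_range, Finset.mem_insert, Finset.mem_range,
      hk4]
    by_cases h2 : k / R < M
    · exact Or.inr (Or.inr h2)
    · rcases Nat.lt_or_ge (k / R) I with h3 | h3
      · exact Or.inl ⟨h3, by omega, hk2⟩
      · exact Or.inr (Or.inl (by omega))
  have h2 : ((((Finset.range n).filter P).filter (fun k => k % R = j)).image (fun k => k / R)).card =
      (((Finset.range n).filter P).filter (fun k => k % R = j)).card := by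
    apply Finset.card_image_of_injOn
    intro a ha b hb hab
    simp only [Finset.coe_filter, Set.mem_ofPred_eq, Finset.mem_filter] at ha hb
    have h3 := Nat.mod_add_div a R
    have h4 := Nat.mod_add_div b R
    have hab' : a / R = b / R := hab
    rw [ha.2, hab'] at h3
    rw [hb.2] at h4
    exact h3.symm.trans h4
  rw [← h2]
  refine (Finset.card_le_card h1).trans ?_
  refine (Finset.card_union_le _ _).trans ?_
  have h3 : (insert I (Finset.range M)).card ≤ M + 1 := by
    refine (Finset.card_insert_le _ _).trans ?_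
    rw [Finset.card_range]
  omega

end Cyl

namespace LineSys

open Cyl

variable {H Z : Type} [Group H] [TopologicalSpace Z] [MulAction H Z] (S : LineSys H Z)

theorem tau_see (l : S.L0) (k : ℕ) : (S.tau^[k] l).1 = see l.1 k := by
  funext x
  rw [tau_iterate]
  rfl

theorem see_mem_L (l : S.L0) (k R : ℕ) : see l.1 k R ∈ S.L R := by
  rw [← S.tau_see]
  exact S.mem_L.2 ⟨_, rfl⟩

open Classical in
theorem incs_mem_words (l : S.L0) (R k i : ℕ) :
    incs R i (see l.1 (k + i * R)) ∈ words (S.L R) i := by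
  induction i with
  | zero => simp [incs, words]
  | succ i ih =>
    have e1 : k + (i + 1) * R = (k + i * R) + R := by ring
    rw [e1, incs_see_succ, words, Finset.mem_image]
    exact ⟨(_, _), Finset.mem_product.2 ⟨S.see_mem_L l _ R, ih⟩, rfl⟩

open Classical in
/-- the number of ends with a given kind of words -/
theorem card_words_le {R n j : ℕ} (I : ℕ) (hI : j + I * R ≤ n) (ch : H → S.L0)
    (hch : ∀ w ∈ S.L n, (ch w).1 n = w) (Q : List H → Prop) :
    ((S.L n).filter (fun w => Q (incs R I (see (ch w).1 (j + I * R))))).card ≤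
      S.N j * S.N (n - (j + I * R)) * ((words (S.L R) I).filter Q).card := by
  have h1 : ((S.L n).filter (fun w => Q (incs R I (see (ch w).1 (j + I * R))))).card ≤
      (S.L j ×ˢ S.L ((n - (j + I * R) : ℕ) : ℤ) ×ˢ (words (S.L R) I).filter Q).card := by
    apply Finset.card_le_card_of_injOn (fun w => ((ch w).1 j,
      see (ch w).1 (j + I * R) ((n - (j + I * R) : ℕ) : ℤ), incs R I (see (ch w).1 (j + I * R))))
    · intro w hw
      rw [Finset.mem_coe, Finset.mem_filter] at hw
      rw [Finset.mem_coe, Finset.mem_product, Finset.mem_product, Finset.mem_filter]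
      exact ⟨S.mem_L.2 ⟨ch w, rfl⟩, S.see_mem_L _ _ _, S.incs_mem_words _ _ _ _, hw.2⟩
    · have key : ∀ w ∈ S.L n, w = (ch w).1 j * (incs R I (see (ch w).1 (j + I * R))).reverse.prod *
          see (ch w).1 (j + I * R) ((n - (j + I * R) : ℕ) : ℤ) := by
        intro w hw
        rw [see_prod]
        unfold see
        rw [mul_inv_cancel_left]
        have e : ((n - (j + I * R) : ℕ) : ℤ) + ((j + I * R : ℕ) : ℤ) = (n : ℤ) := by
          rw [← Nat.cast_add, Nat.sub_add_cancel hI]
        rw [e, hch w hw]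
      intro a ha b hb hab
      rw [Finset.mem_coe, Finset.mem_filter] at ha hb
      simp only [Prod.mk.injEq] at hab
      rw [key a ha.1, key b hb.1, hab.1, hab.2.1, hab.2.2]
  rw [Finset.card_product, Finset.card_product, ← mul_assoc] at h1
  exact h1

open Classical in
/-- the bad times of one residue class -/
theorem residue_bound {h : ℝ} (hg : S.HasGrowth h) {δ K : ℝ} {R : ℕ} (hp : Par h δ K R (S.N R))
    (M : ℕ) (Dt : List H → Finset H) (hDt : ∀ l, ((Dt l).card : ℝ) ≤ K) (B : ℝ)
    (hB : ∀ t < R, (S.N t : ℝ) ≤ B) (n j : ℕ) (hj : j < R) (hn : R ≤ n) (ch : H → S.L0)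
    (hch : ∀ w ∈ S.L n, (ch w).1 n = w) :
    (∑ w ∈ S.L n, (badCount (DD M Dt) (incs R ((n - j) / R)
      (see (ch w).1 (j + (n - j) / R * R))) : ℝ)) ≤
      ((n - j) / R : ℕ) * S.N n * (δ + B ^ 2 *
        (2 * K ^ δ * (S.N R : ℝ) ^ (1 - δ) / Real.exp (h * R)) ^ ((n - j) / R)) := by
  set I := (n - j) / R with hI
  have hIR : I * R ≤ n - j := Nat.div_mul_le_self _ _
  have hA0 : (0 : ℝ) < S.N R := hp.K0.trans_le hp.KA
  -- the count of the bad ends
  have h1 : (((S.L n).filter (fun w => δ * I ≤ badCount (DD M Dt) (incs R I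
      (see (ch w).1 (j + I * R))))).card : ℝ) ≤
      B ^ 2 * (2 * K ^ δ * (S.N R : ℝ) ^ (1 - δ) / Real.exp (h * R)) ^ I * S.N n := by
    have h2 := S.card_words_le (R := R) (n := n) (j := j) I (by omega) ch hch
      (fun p => δ * I ≤ badCount (DD M Dt) p)
    have h3 := card_badWords (S.L R) (DD M Dt) K hp.K0 hp.KA (fun p => by
      unfold DD
      split_ifs
      · exact hDt _
      · simpa using hp.K0.le) I (δ * I)
    have h4 : (S.N j : ℝ) ≤ B := hB j hj
    have h5 : (S.N (n - (j + I * R)) : ℝ) ≤ B := by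
      apply hB
      have h6 := Nat.mod_add_div (n - j) R
      have h7 := Nat.mod_lt (n - j) hp.R0
      rw [← hI, mul_comm] at h6
      omega
    have hB0 : (0 : ℝ) ≤ B := (Nat.cast_nonneg _).trans h4
    have h6 : ((2 : ℝ) * (S.L R).card) ^ I * (K / (S.L R).card) ^ (δ * I) =
        (2 * K ^ δ * (S.N R : ℝ) ^ (1 - δ)) ^ I := by
      have h7 : ((S.L R).card : ℝ) = S.N R := rfl
      rw [h7, Real.rpow_mul (by positivity [hp.K0, hA0]), Real.rpow_natCast, ← mul_pow]
      congr 1
      rw [Real.div_rpow hp.K0.le hA0.le, Real.rpow_sub hA0, Real.rpow_one]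
      ring
    have h8 : (2 * K ^ δ * (S.N R : ℝ) ^ (1 - δ)) ^ I ≤
        (2 * K ^ δ * (S.N R : ℝ) ^ (1 - δ) / Real.exp (h * R)) ^ I * S.N n := by
      rw [div_pow, div_mul_eq_mul_div, le_div_iff₀ (by positivity)]
      refine mul_le_mul_of_nonneg_left ?_ (by
        have := hp.K0
        positivity)
      refine le_trans ?_ (hg.2.1 n)
      rw [← Real.exp_nat_mul]
      apply Real.exp_le_exp.2
      have h9 : ((I * R : ℕ) : ℝ) ≤ n := by
        exact_mod_cast (hIR.trans (Nat.sub_le _ _))
      push_cast at h9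
      nlinarith [hg.1]
    calc (((S.L n).filter (fun w => δ * I ≤ badCount (DD M Dt) (incs R I
          (see (ch w).1 (j + I * R))))).card : ℝ)
        ≤ ((S.N j * S.N (n - (j + I * R)) * ((words (S.L R) I).filter
            (fun p => δ * I ≤ badCount (DD M Dt) p)).card : ℕ) : ℝ) := by exact_mod_cast h2
      _ = (S.N j : ℝ) * S.N (n - (j + I * R)) * (((words (S.L R) I).filter
            (fun p => δ * I ≤ badCount (DD M Dt) p)).card : ℝ) := by push_cast; ring
      _ ≤ B * B * ((2 * K ^ δ * (S.N R : ℝ) ^ (1 - δ) / Real.exp (h * R)) ^ I * S.N n) := by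
          refine mul_le_mul (mul_le_mul h4 h5 (Nat.cast_nonneg _) hB0) ?_ (Nat.cast_nonneg _)
            (mul_nonneg hB0 hB0)
          refine h3.trans ?_
          rw [h6]
          exact h8
      _ = B ^ 2 * (2 * K ^ δ * (S.N R : ℝ) ^ (1 - δ) / Real.exp (h * R)) ^ I * S.N n := by ring
  -- the sum
  have h2 : ∀ w ∈ S.L n, (badCount (DD M Dt) (incs R I (see (ch w).1 (j + I * R))) : ℝ) ≤
      δ * I + I * (if δ * I ≤ badCount (DD M Dt) (incs R I (see (ch w).1 (j + I * R))) then 1
        else 0) := by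
    intro w _
    split_ifs with h3
    · have h4 := badCount_le (DD M Dt) (incs R I (see (ch w).1 (j + I * R)))
      rw [incs_length] at h4
      have h5 : (badCount (DD M Dt) (incs R I (see (ch w).1 (j + I * R))) : ℝ) ≤ I := by
        exact_mod_cast h4
      have h6 : (0 : ℝ) ≤ δ * I := mul_nonneg hp.δ0.le (Nat.cast_nonneg _)
      linarith
    · rw [not_le] at h3
      linarith
  refine (Finset.sum_le_sum h2).trans ?_
  rw [Finset.sum_add_distrib, Finset.sum_const, ← Finset.mul_sum, Finset.sum_boole, nsmul_eq_mul]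
  have h3 : ((S.L n).card : ℝ) = S.N n := rfl
  rw [h3]
  have h4 : (0 : ℝ) ≤ I := Nat.cast_nonneg _
  nlinarith [mul_le_mul_of_nonneg_left h1 h4]

open Classical in
theorem cylinder_bound {h : ℝ} (hg : S.HasGrowth h) {δ K : ℝ} {R : ℕ} (hp : Par h δ K R (S.N R))
    (M : ℕ) (Dt : List H → Finset H) (hDt : ∀ l, ((Dt l).card : ℝ) ≤ K) (η : ℝ) (hη : 0 < η) :
    ∃ n₀ : ℕ, ∀ n ≥ n₀, ∀ ch : H → S.L0, (∀ w ∈ S.L n, (ch w).1 n = w) →
      (∑ w ∈ S.L n, (((Finset.range n).filter
        (fun k => Bad R M Dt (S.tau^[k] (ch w)).1)).card : ℝ)) ≤ (δ + η) * n * S.N n := by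
  obtain ⟨B, hB1, hB⟩ : ∃ B : ℝ, 0 ≤ B ∧ ∀ t < R, (S.N t : ℝ) ≤ B := by
    refine ⟨∑ t ∈ Finset.range R, (S.N t : ℝ), Finset.sum_nonneg fun _ _ => Nat.cast_nonneg _, ?_⟩
    intro t ht
    exact Finset.single_le_sum (f := fun t => (S.N t : ℝ)) (fun _ _ => Nat.cast_nonneg _)
      (Finset.mem_range.2 ht)
  set q := 2 * K ^ δ * (S.N R : ℝ) ^ (1 - δ) / Real.exp (h * R) with hq
  have hA0 : (0 : ℝ) < S.N R := hp.K0.trans_le hp.KA
  have hq0 : 0 ≤ q := by
    have := hp.K0
    positivity
  have hq1 : q < 1 := by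
    rw [hq, div_lt_one (Real.exp_pos _)]
    exact hp.q
  have hlim : Tendsto (fun I : ℕ => B ^ 2 * q ^ I) atTop (𝓝 0) := by
    have := (tendsto_pow_atTop_nhds_zero_of_lt_one hq0 hq1).const_mul (B ^ 2)
    rwa [mul_zero] at this
  obtain ⟨I₀, hI₀⟩ := eventually_atTop.1 (hlim.eventually (Iio_mem_nhds (half_pos hη)))
  obtain ⟨n₁, hn₁⟩ := exists_nat_ge (2 * (R * (M + 1) : ℝ) / η)
  refine ⟨max ((I₀ + 2) * R) n₁, fun n hn ch hch => ?_⟩
  have hn2 : (I₀ + 2) * R ≤ n := (le_max_left _ _).trans hn
  have hn3 : (2 * (R * (M + 1) : ℝ) / η) ≤ n := hn₁.trans (by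
    exact_mod_cast (le_max_right _ _).trans hn)
  have hRn : R ≤ n := by nlinarith [hp.R0]
  have hRr : (0 : ℝ) < R := by exact_mod_cast hp.R0
  -- pointwise
  have h1 : ∀ w ∈ S.L n, (((Finset.range n).filter
      (fun k => Bad R M Dt (S.tau^[k] (ch w)).1)).card : ℝ) ≤
      ∑ j ∈ Finset.range R, ((badCount (DD M Dt) (incs R ((n - j) / R)
        (see (ch w).1 (j + (n - j) / R * R))) : ℝ) + (M + 1)) := by
    intro w _
    have h2 := card_bad_le hp.R0 M n (fun k => Bad R M Dt (S.tau^[k] (ch w)).1)
    have h3 : ((∑ j ∈ Finset.range R, (((Finset.range ((n - j) / R)).filter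
        (fun t => M ≤ t ∧ Bad R M Dt (S.tau^[j + t * R] (ch w)).1)).card + (M + 1)) : ℕ) : ℝ) =
        ∑ j ∈ Finset.range R, ((badCount (DD M Dt) (incs R ((n - j) / R)
        (see (ch w).1 (j + (n - j) / R * R))) : ℝ) + (M + 1)) := by
      push_cast
      refine Finset.sum_congr rfl fun j _ => ?_
      rw [badCount_eq]
      simp only [S.tau_see]
    rw [← h3]
    exact_mod_cast h2
  refine (Finset.sum_le_sum h1).trans ?_
  rw [Finset.sum_comm]
  -- each residue
  have h2 : ∀ j ∈ Finset.range R, (∑ w ∈ S.L n, ((badCount (DD M Dt) (incs R ((n - j) / R)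
        (see (ch w).1 (j + (n - j) / R * R))) : ℝ) + (M + 1))) ≤
      (n / R : ℝ) * S.N n * (δ + η / 2) + S.N n * (M + 1) := by
    intro j hj
    have hj' : j < R := Finset.mem_range.1 hj
    rw [Finset.sum_add_distrib, Finset.sum_const, nsmul_eq_mul]
    refine add_le_add ?_ (le_of_eq rfl)
    refine (S.residue_bound hg hp M Dt hDt B hB n j hj' hRn ch hch).trans ?_
    have h3 : I₀ ≤ (n - j) / R := by
      rw [Nat.le_div_iff_mul_le hp.R0]
      have : (I₀ + 2) * R = I₀ * R + 2 * R := by ring
      omega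
    have h4 := hI₀ _ h3
    have h4' : B ^ 2 * q ^ ((n - j) / R) < η / 2 := h4
    have h5 : (((n - j) / R : ℕ) : ℝ) ≤ n / R := by
      rw [le_div_iff₀ hRr]
      exact_mod_cast (Nat.div_mul_le_self (n - j) R).trans (Nat.sub_le _ _)
    have h6 : (0 : ℝ) ≤ S.N n := Nat.cast_nonneg _
    refine mul_le_mul (mul_le_mul_of_nonneg_right h5 h6) ?_ ?_ (by positivity)
    · linarith
    · have := hp.δ0
      positivity
  refine (Finset.sum_le_sum h2).trans ?_
  rw [Finset.sum_const, Finset.card_range, nsmul_eq_mul]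
  have h3 : (R : ℝ) * ((n / R : ℝ) * S.N n * (δ + η / 2) + S.N n * (M + 1)) =
      S.N n * (n * (δ + η / 2) + R * (M + 1)) := by
    field_simp
  rw [h3]
  have h4 : (R : ℝ) * (M + 1) ≤ n * (η / 2) := by
    rw [div_le_iff₀ hη] at hn3
    linarith
  have h5 : (0 : ℝ) ≤ S.N n := Nat.cast_nonneg _
  nlinarith [mul_le_mul_of_nonneg_left h4 h5]

end LineSys

end Pool.Agent.CTZ
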