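import Pool.Agent.CTZ.Top
import Pool.Agent.CTZ.CDefs
import Pool.Agent.CTZ.Cyl

/-!
# The invariant measure

A cluster point of the empirical measures of a choice of lines through the language.
-/

open Filter Topology Set MeasureTheory

namespace Pool.Agent.CTZ

namespace LineSys

variable {H Z : Type} [Group H] [TopologicalSpace Z] [MulAction H Z] (S : LineSys H Z)

/-- the empirical measure of a family of lines -/
noncomputable def emp (n : ℕ) (ch : H → S.L0) : Measure S.L0 :=
  ∑ w ∈ S.L n, ∑ k ∈ Finset.range n,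
    (ENNReal.ofReal (1 / ((n : ℝ) * S.N n))) • Measure.dirac (S.tau^[k] (ch w))

open Classical in
theorem emp_apply (n : ℕ) (ch : H → S.L0) {A : Set S.L0} (hA : MeasurableSet A) :
    S.emp n ch A = ENNReal.ofReal ((∑ w ∈ S.L n, (((Finset.range n).filter
      (fun k => S.tau^[k] (ch w) ∈ A)).card : ℝ)) / ((n : ℝ) * S.N n)) := by
  unfold emp
  rw [Measure.coe_finsetSum, Finset.sum_apply,
    div_eq_mul_one_div (∑ w ∈ S.L n, (((Finset.range n).filter
      (fun k => S.tau^[k] (ch w) ∈ A)).card : ℝ)), Finset.sum_mul,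
    ENNReal.ofReal_sum_of_nonneg (fun w _ => by positivity)]
  refine Finset.sum_congr rfl fun w _ => ?_
  rw [Measure.coe_finsetSum, Finset.sum_apply, ENNReal.ofReal_mul (by positivity),
    ENNReal.ofReal_natCast, Finset.card_filter, Nat.cast_sum, Finset.sum_mul]
  refine Finset.sum_congr rfl fun k _ => ?_
  rw [Measure.smul_apply, Measure.dirac_apply' _ hA, smul_eq_mul, mul_comm]
  by_cases hk : S.tau^[k] (ch w) ∈ A
  · simp [hk]
  · simp [hk]

theorem emp_prob {n : ℕ} (hn : 0 < n) (hN : 0 < S.N n) (ch : H → S.L0) :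
    IsProbabilityMeasure (S.emp n ch) := by
  classical
  constructor
  rw [S.emp_apply n ch MeasurableSet.univ]
  have h1 : (∑ w ∈ S.L n, ((Finset.range n).card : ℝ)) = n * S.N n := by
    simp only [Finset.card_range, Finset.sum_const, nsmul_eq_mul]
    rw [mul_comm]
    rfl
  simp only [Set.mem_univ, Finset.filter_true]
  rw [h1]
  have h2 : (0 : ℝ) < (n : ℝ) * S.N n := by positivity
  rw [div_self h2.ne', ENNReal.ofReal_one]

theorem emp_integral (n : ℕ) (ch : H → S.L0) (f : S.L0 → ℝ) (hf : Continuous f) :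
    ∫ l, f l ∂(S.emp n ch) = (1 / ((n : ℝ) * S.N n)) *
      ∑ w ∈ S.L n, ∑ k ∈ Finset.range n, f (S.tau^[k] (ch w)) := by
  unfold emp
  have hint : ∀ l : S.L0, Integrable f ((ENNReal.ofReal (1 / ((n : ℝ) * S.N n))) • Measure.dirac l) := by
    intro l
    refine Integrable.smul_measure ?_ ENNReal.ofReal_ne_top
    exact (integrable_dirac' hf.stronglyMeasurable (by simp))
  rw [integral_finsetSum_measure]
  · rw [Finset.mul_sum]
    refine Finset.sum_congr rfl fun w _ => ?_
    rw [integral_finsetSum_measure]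
    · rw [Finset.mul_sum]
      refine Finset.sum_congr rfl fun k _ => ?_
      rw [integral_smul_measure, integral_dirac' _ _ hf.stronglyMeasurable, smul_eq_mul,
        ENNReal.toReal_ofReal (by positivity)]
    · intro k _
      exact hint _
  · intro w _
    refine integrable_finsetSum_measure.2 fun k _ => hint _

theorem emp_invariance (n : ℕ) (hn : 0 < n) (hN : 0 < S.N n) (ch : H → S.L0) (f : S.L0 → ℝ)
    (hf : Continuous f) (C : ℝ) (hC : ∀ l, |f l| ≤ C) :
    |∫ l, f (S.tau l) ∂(S.emp n ch) - ∫ l, f l ∂(S.emp n ch)| ≤ 2 * C / n := by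
  rw [S.emp_integral n ch f hf, S.emp_integral n ch (fun l => f (S.tau l)) (hf.comp S.continuous_tau),
    ← mul_sub, ← Finset.sum_sub_distrib]
  have h1 : ∀ w ∈ S.L n, (∑ k ∈ Finset.range n, f (S.tau (S.tau^[k] (ch w))) -
      ∑ k ∈ Finset.range n, f (S.tau^[k] (ch w))) = f (S.tau^[n] (ch w)) - f (ch w) := by
    intro w _
    rw [← Finset.sum_sub_distrib]
    have h2 : ∀ k ∈ Finset.range n, f (S.tau (S.tau^[k] (ch w))) - f (S.tau^[k] (ch w)) =
        (fun k => f (S.tau^[k] (ch w))) (k + 1) - (fun k => f (S.tau^[k] (ch w))) k := by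
      intro k _
      simp only [Function.iterate_succ_apply']
    rw [Finset.sum_congr rfl h2, Finset.sum_range_sub (fun k => f (S.tau^[k] (ch w))) n]
    simp
  rw [Finset.sum_congr rfl h1, abs_mul]
  have hn' : (0 : ℝ) < n := by exact_mod_cast hn
  have hN' : (0 : ℝ) < S.N n := by exact_mod_cast hN
  have h3 : |∑ w ∈ S.L n, (f (S.tau^[n] (ch w)) - f (ch w))| ≤ S.N n * (2 * C) := by
    refine (Finset.abs_sum_le_sum_abs _ _).trans ?_
    have h4 : ∀ w ∈ S.L n, |f (S.tau^[n] (ch w)) - f (ch w)| ≤ 2 * C := by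
      intro w _
      have h5 := hC (S.tau^[n] (ch w))
      have h6 := hC (ch w)
      rw [abs_le] at *
      constructor <;> linarith
    refine (Finset.sum_le_card_nsmul _ _ _ h4).trans ?_
    rw [nsmul_eq_mul]
    rfl
  rw [abs_of_nonneg (by positivity : (0 : ℝ) ≤ 1 / ((n : ℝ) * S.N n))]
  calc 1 / ((n : ℝ) * S.N n) * |∑ w ∈ S.L n, (f (S.tau^[n] (ch w)) - f (ch w))|
      ≤ 1 / ((n : ℝ) * S.N n) * (S.N n * (2 * C)) := by gcongr
    _ = 2 * C / n := by field_simp

theorem exists_choice [Nonempty S.L0] (n : ℕ) : ∃ ch : H → S.L0, ∀ w ∈ S.L n, (ch w).1 n = w := by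
  classical
  refine ⟨fun w => if h : w ∈ S.L n then (S.mem_L.1 h).choose else Classical.arbitrary _, ?_⟩
  intro w hw
  simp only [hw, dif_pos]
  exact (S.mem_L.1 hw).choose_spec

/-- the coarse predictions are clopen -/
theorem isClopen_bad (R M : ℕ) (Dt : List H → Finset H) : IsClopen {l : S.L0 | Bad R M Dt l.1} := by
  classical
  refine S.isClopen_of_coords (insert (R : ℤ)
    ((Finset.range (M + 1)).image (fun i : ℕ => (-((i * R : ℕ) : ℤ))))) _ ?_
  intro l l' hl
  have h1 : l.1 R = l'.1 R := hl _ (Finset.mem_insert_self _ _)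
  have h2 : ∀ i ≤ M, l.1 (-((i * R : ℕ) : ℤ)) = l'.1 (-((i * R : ℕ) : ℤ)) := by
    intro i hi
    refine hl _ (Finset.mem_insert_of_mem (Finset.mem_image.2 ⟨i, ?_, rfl⟩))
    exact Finset.mem_range.2 (Nat.lt_succ_of_le hi)
  have h3 : incs R M l.1 = incs R M l'.1 := by
    unfold incs
    refine List.map_congr_left fun i hi => ?_
    rw [List.mem_range] at hi
    rw [h2 i hi.le, h2 (i + 1) hi]
  unfold Bad
  rw [h1, h3]

theorem tau_iterate_rev_iterate (j : ℕ) (l : S.L0) : S.tau^[j] (S.rev (S.tau^[j] l)) = S.rev l := by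
  induction j generalizing l with
  | zero => rfl
  | succ j ih =>
    rw [Function.iterate_succ_apply' S.tau j l, Function.iterate_succ_apply, S.tau_rev_tau, ih]

theorem tau_iterate_flip {n k : ℕ} (hk : k ≤ n) (l : S.L0) :
    S.tau^[n - k] (S.flip n l) = S.rev (S.tau^[k] l) := by
  unfold flip
  have h1 : S.tau^[n] l = S.tau^[n - k] (S.tau^[k] l) := by
    rw [← Function.iterate_add_apply, Nat.sub_add_cancel hk]
  rw [h1, S.tau_iterate_rev_iterate]

open Classical in
/-- counting reversed visits by visits of the flipped line -/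
theorem card_rev_le (n : ℕ) (l : S.L0) (A : Set S.L0) :
    (((Finset.range n).filter (fun k => S.rev (S.tau^[k] l) ∈ A)).card : ℝ) ≤
      ((Finset.range n).filter (fun k => S.tau^[k] (S.flip n l) ∈ A)).card + 1 := by
  have h1 : ((Finset.range n).filter (fun k => S.rev (S.tau^[k] l) ∈ A)).card ≤
      ((Finset.range (n + 1)).filter (fun k => S.tau^[k] (S.flip n l) ∈ A)).card := by
    refine Finset.card_le_card_of_injOn (fun k => n - k) ?_ ?_
    · intro k hk
      simp only [Finset.coe_filter, Finset.mem_range, Set.mem_ofPred_eq] at hk ⊢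
      refine ⟨by omega, ?_⟩
      rw [S.tau_iterate_flip hk.1.le]
      exact hk.2
    · intro k hk k' hk' h
      simp only [Finset.coe_filter, Finset.mem_range, Set.mem_ofPred_eq] at hk hk' h
      omega
  have h2 : ((Finset.range (n + 1)).filter (fun k => S.tau^[k] (S.flip n l) ∈ A)).card ≤
      ((Finset.range n).filter (fun k => S.tau^[k] (S.flip n l) ∈ A)).card + 1 := by
    rw [Finset.range_add_one, Finset.filter_insert]
    split_ifs
    · exact Finset.card_insert_le _ _
    · omega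
  exact_mod_cast h1.trans h2

open Classical in
/-- the reversed cylinder bound -/
theorem cylinder_bound_rev {h : ℝ} (hg : S.HasGrowth h) {δ K : ℝ} {R : ℕ}
    (hp : Par h δ K R (S.N R))
    (M : ℕ) (Dt : List H → Finset H) (hDt : ∀ l, ((Dt l).card : ℝ) ≤ K) (η : ℝ) (hη : 0 < η) :
    ∃ n₀ : ℕ, ∀ n ≥ n₀, ∀ ch : H → S.L0, (∀ w ∈ S.L n, (ch w).1 n = w) →
      (∑ w ∈ S.L n, (((Finset.range n).filter
        (fun k => Bad R M Dt (S.rev (S.tau^[k] (ch w))).1)).card : ℝ)) ≤ (δ + η) * n * S.N n := by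
  obtain ⟨n₀, hn₀⟩ := S.cylinder_bound hg hp M Dt hDt (η / 2) (by positivity)
  obtain ⟨n₁, hn₁⟩ := exists_nat_gt (2 / η)
  refine ⟨max n₀ n₁, fun n hn ch hch => ?_⟩
  have hn0 : n₀ ≤ n := (le_max_left _ _).trans hn
  have hn1 : (n₁ : ℝ) ≤ n := by exact_mod_cast (le_max_right _ _).trans hn
  set A : Set S.L0 := {l | Bad R M Dt l.1} with hA
  have h1 : ∀ w ∈ S.L n, (((Finset.range n).filter
        (fun k => Bad R M Dt (S.rev (S.tau^[k] (ch w))).1)).card : ℝ) ≤
      ((Finset.range n).filter (fun k => Bad R M Dt (S.tau^[k] (S.flip n (ch w))).1)).card + 1 := by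
    intro w _
    exact S.card_rev_le n (ch w) A
  have h2 := hn₀ n hn0 (fun w => S.flip n (ch w⁻¹)) (by
    intro w hw
    rw [S.flip_apply, sub_self, S.L0_zero, mul_one, hch _ (S.inv_mem_L hw), inv_inv])
  have h3 : (∑ w ∈ S.L n, (((Finset.range n).filter
        (fun k => Bad R M Dt (S.tau^[k] (S.flip n (ch w⁻¹))).1)).card : ℝ)) =
      (∑ w ∈ S.L n, (((Finset.range n).filter
        (fun k => Bad R M Dt (S.tau^[k] (S.flip n (ch w))).1)).card : ℝ)) := by
    refine Finset.sum_bij' (fun w _ => w⁻¹) (fun w _ => w⁻¹) ?_ ?_ ?_ ?_ ?_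
    · intro w hw
      exact S.inv_mem_L hw
    · intro w hw
      exact S.inv_mem_L hw
    · intro w _
      simp
    · intro w _
      simp
    · intro w _
      rfl
  have h4 := Finset.sum_le_sum h1
  rw [Finset.sum_add_distrib, ← h3] at h4
  have h5 : (∑ _w ∈ S.L n, (1 : ℝ)) = S.N n := by
    simp only [Finset.sum_const, nsmul_eq_mul, mul_one]
    rfl
  rw [h5] at h4
  have h6 : (1 : ℝ) ≤ η / 2 * n := by
    have h7 : 2 / η < n := lt_of_lt_of_le hn₁ hn1
    rw [div_lt_iff₀ hη] at h7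
    linarith
  have hN : (0 : ℝ) ≤ S.N n := by positivity
  have h8 : (S.N n : ℝ) ≤ η / 2 * n * S.N n := by
    calc (S.N n : ℝ) = 1 * S.N n := by ring
      _ ≤ η / 2 * n * S.N n := by gcongr
  calc _ ≤ _ := h4
    _ ≤ (δ + η / 2) * n * S.N n + η / 2 * n * S.N n := by
        exact add_le_add h2 h8
    _ = (δ + η) * n * S.N n := by ring

theorem exists_good [Countable H] {h : ℝ} (hg : S.HasGrowth h) :
    ∃ m : Measure S.L0, S.Good h m := by
  classical
  have hNpos : ∀ n : ℕ, 0 < S.N n := by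
    intro n
    have h1 := hg.2.1 n
    have h2 : (0 : ℝ) < S.N n := lt_of_lt_of_le (Real.exp_pos _) h1
    exact_mod_cast h2
  have hne : Nonempty S.L0 := by
    have h1 : (S.L ((0 : ℕ) : ℤ)).Nonempty := Finset.card_pos.1 (hNpos 0)
    obtain ⟨w, hw⟩ := h1
    obtain ⟨l, _⟩ := S.mem_L.1 hw
    exact ⟨l⟩
  choose ch hch using S.exists_choice
  set P : ℕ → ProbabilityMeasure S.L0 := fun n =>
    ⟨S.emp (n + 1) (ch (n + 1)), S.emp_prob (Nat.succ_pos n) (hNpos _) _⟩ with hP
  set U : Ultrafilter ℕ := hyperfilter ℕ with hU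
  have hUle : (U : Filter ℕ) ≤ atTop := by
    rw [← Nat.cofinite_eq_atTop]
    exact hyperfilter_le_cofinite
  obtain ⟨m, -, hm⟩ := isCompact_univ.ultrafilter_le_nhds (U.map P) (by simp)
  have hlim : Tendsto P (U : Filter ℕ) (𝓝 m) := by
    rw [Tendsto]
    exact_mod_cast hm
  -- clopen sets
  have hclopen : ∀ (A : Set S.L0), IsClopen A → ∀ c : ℝ,
      (∀ η > 0, ∀ᶠ n : ℕ in atTop, (∑ w ∈ S.L n, (((Finset.range n).filter
        (fun k => S.tau^[k] (ch n w) ∈ A)).card : ℝ)) ≤ (c + η) * n * S.N n) →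
      (m : Measure S.L0) A ≤ ENNReal.ofReal c := by
    intro A hA c hc
    have h1 : Tendsto (fun n => (P n : Measure S.L0) A) (U : Filter ℕ) (𝓝 ((m : Measure S.L0) A)) :=
      ProbabilityMeasure.tendsto_measure_of_null_frontier_of_tendsto' hlim (by simp [hA])
    have h2 : ∀ η > 0, (m : Measure S.L0) A ≤ ENNReal.ofReal (c + η) := by
      intro η hη
      refine le_of_tendsto h1 ?_
      have h3 := (tendsto_add_atTop_nat 1).eventually (hc η hη)
      filter_upwards [hUle h3] with n hn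
      change S.emp (n + 1) (ch (n + 1)) A ≤ _
      rw [S.emp_apply _ _ hA.2.measurableSet]
      refine ENNReal.ofReal_le_ofReal ?_
      have h4 : (0 : ℝ) < ((n + 1 : ℕ) : ℝ) * S.N (n + 1) := by
        have h5 : (0 : ℝ) < S.N (n + 1) := by exact_mod_cast hNpos (n + 1)
        positivity
      rw [div_le_iff₀ h4]
      linarith
    have h3 : Tendsto (fun η : ℝ => ENNReal.ofReal (c + η)) (𝓝[>] 0) (𝓝 (ENNReal.ofReal c)) := by
      have h4 : Tendsto (fun η : ℝ => c + η) (𝓝[>] 0) (𝓝 (c + 0)) :=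
        (tendsto_const_nhds.add tendsto_id).mono_left nhdsWithin_le_nhds
      rw [add_zero] at h4
      exact ENNReal.tendsto_ofReal h4
    refine ge_of_tendsto h3 ?_
    filter_upwards [self_mem_nhdsWithin] with η hη
    exact h2 η hη
  have hinv : Measure.map S.tau (m : Measure S.L0) = m := by
    have : IsFiniteMeasure (Measure.map S.tau (m : Measure S.L0)) :=
      Measure.isFiniteMeasure_map _ _
    refine ext_of_forall_integral_eq_of_IsFiniteMeasure fun f => ?_
    rw [integral_map S.continuous_tau.measurable.aemeasurable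
      f.continuous.aestronglyMeasurable]
    have h1 := (ProbabilityMeasure.tendsto_iff_forall_integral_tendsto.1 hlim) f
    have h2 := (ProbabilityMeasure.tendsto_iff_forall_integral_tendsto.1 hlim)
      (f.compContinuous ⟨S.tau, S.continuous_tau⟩)
    have h3 := h2.sub h1
    have h4 : Tendsto (fun n : ℕ => 2 * ‖f‖ / ((n + 1 : ℕ) : ℝ)) (U : Filter ℕ) (𝓝 0) := by
      have h5 : Tendsto (fun n : ℕ => 2 * ‖f‖ / (n : ℝ)) atTop (𝓝 0) :=
        tendsto_const_div_atTop_nhds_zero_nat _
      exact (h5.comp (tendsto_add_atTop_nat 1)).mono_left hUle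
    have h5 : Tendsto (fun n : ℕ => ∫ l, f (S.tau l) ∂(P n : Measure S.L0) -
        ∫ l, f l ∂(P n : Measure S.L0)) (U : Filter ℕ) (𝓝 0) := by
      refine squeeze_zero_norm (fun n => ?_) h4
      rw [Real.norm_eq_abs]
      exact S.emp_invariance (n + 1) (Nat.succ_pos n) (hNpos _) _ f f.continuous ‖f‖
        (fun l => by simpa [Real.norm_eq_abs] using f.norm_coe_le_norm l)
    have h6 := tendsto_nhds_unique h3 h5
    have h7 : ∫ l, f (S.tau l) ∂(m : Measure S.L0) - ∫ l, f l ∂(m : Measure S.L0) = 0 := h6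
    linarith
  refine ⟨m, inferInstance, ⟨S.continuous_tau.measurable, hinv⟩, ?_⟩
  intro δ K R hp M Dt hDt
  constructor
  · refine hclopen _ (S.isClopen_bad R M Dt) δ fun η hη => ?_
    obtain ⟨n₀, hn₀⟩ := S.cylinder_bound hg hp M Dt hDt η hη
    filter_upwards [eventually_ge_atTop n₀] with n hn
    exact hn₀ n hn (ch n) (hch n)
  · refine hclopen _ ((S.isClopen_bad R M Dt).preimage S.continuous_rev) δ fun η hη => ?_
    obtain ⟨n₀, hn₀⟩ := S.cylinder_bound_rev hg hp M Dt hDt η hη
    filter_upwards [eventually_ge_atTop n₀] with n hn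
    exact hn₀ n hn (ch n) (hch n)

end LineSys

end Pool.Agent.CTZ
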