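import Pool.Agent.CTZ.Sys

open Filter Topology Set MeasureTheory

namespace Pool.Agent.CTZ

namespace LineSys

variable {H Z : Type} [Group H] [TopologicalSpace Z] [MulAction H Z] (S : LineSys H Z)

/-- evaluation is continuous for the discrete topology -/
theorem continuous_eval (k : ℤ) : @Continuous S.L0 H _ ⊥ (fun l => l.1 k) := by
  let _ : TopologicalSpace H := ⊥
  have h1 : Continuous (fun f : ℤ → H => f k) := continuous_apply k
  exact h1.comp continuous_induced_dom

theorem isClopen_eval (k : ℤ) (A : Set H) : IsClopen {l : S.L0 | l.1 k ∈ A} := by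
  let _ : TopologicalSpace H := ⊥
  have _ : DiscreteTopology H := ⟨rfl⟩
  exact (isClopen_discrete A).preimage (S.continuous_eval k)

theorem isClopen_of_coords (F : Finset ℤ) (P : S.L0 → Prop)
    (hP : ∀ l l' : S.L0, (∀ k ∈ F, l.1 k = l'.1 k) → (P l ↔ P l')) : IsClopen {l : S.L0 | P l} := by
  have key : ∀ l₀ : S.L0, IsClopen {l : S.L0 | ∀ k ∈ F, l.1 k = l₀.1 k} := by
    intro l₀
    have : {l : S.L0 | ∀ k ∈ F, l.1 k = l₀.1 k} = ⋂ k ∈ F, {l : S.L0 | l.1 k ∈ ({l₀.1 k} : Set H)} := by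
      ext l; simp
    rw [this]
    exact isClopen_biInter_finset fun k _ => S.isClopen_eval k _
  constructor
  · rw [← isOpen_compl_iff, isOpen_iff_mem_nhds]
    intro l hl
    refine Filter.mem_of_superset ((key l).2.mem_nhds (by simp)) ?_
    intro l' hl' hP'
    exact hl ((hP l' l hl').1 hP')
  · rw [isOpen_iff_mem_nhds]
    intro l hl
    refine Filter.mem_of_superset ((key l).2.mem_nhds (by simp)) ?_
    intro l' hl'
    exact (hP l' l hl').2 hl

instance : T2Space S.L0 := by
  let _ : TopologicalSpace H := ⊥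
  have _ : DiscreteTopology H := ⟨rfl⟩
  exact T2Space.of_injective_continuous (f := (Subtype.val : S.L0 → (ℤ → H)))
    Subtype.val_injective continuous_induced_dom

/-- convergence of sequences is pointwise eventual equality -/
theorem tendsto_iff {ι : Type} (F : Filter ι) (s : ι → S.L0) (l : S.L0) :
    Tendsto s F (𝓝 l) ↔ ∀ k : ℤ, ∀ᶠ n in F, (s n).1 k = l.1 k := by
  let _ : TopologicalSpace H := ⊥
  have _ : DiscreteTopology H := ⟨rfl⟩
  have hind : Topology.IsInducing (Subtype.val : S.L0 → (ℤ → H)) := ⟨rfl⟩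
  rw [hind.tendsto_nhds_iff, tendsto_pi_nhds]
  refine forall_congr' fun k => ?_
  rw [nhds_discrete, tendsto_pure]
  rfl

/-- ultrafilter limits of lines -/
theorem exists_ulim {ι : Type} (U : Ultrafilter ι) (s : ι → S.L0) :
    ∃ l : ℤ → H, ∀ k : ℤ, ∀ᶠ n in (U : Filter ι), (s n).1 k = l k := by
  have h : ∀ k : ℤ, ∃ w : H, ∀ᶠ n in (U : Filter ι), (s n).1 k = w := by
    intro k
    have hfin : (S.L k : Set H).Finite := (S.L k).finite_toSet
    have hev : ∀ᶠ n in (U : Filter ι), (s n).1 k ∈ (S.L k : Set H) :=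
      Filter.Eventually.of_forall fun n => S.mem_L.2 ⟨s n, rfl⟩
    have := (Ultrafilter.eventually_exists_mem_iff (f := U) (is := (S.L k : Set H))
      (P := fun w n => (s n).1 k = w) hfin).1
      (hev.mono fun n hn => ⟨_, hn, rfl⟩)
    obtain ⟨w, -, hw⟩ := this
    exact ⟨w, hw⟩
  choose l hl using h
  exact ⟨l, hl⟩

/-- the limit along an ultrafilter is again a line -/
theorem exists_tendsto {ι : Type} (U : Ultrafilter ι) (s : ι → S.L0) :
    ∃ l : S.L0, ∀ k : ℤ, ∀ᶠ n in (U : Filter ι), (s n).1 k = l.1 k := by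
  obtain ⟨l, hl⟩ := S.exists_ulim U s
  have hall : ∀ N : ℕ, ∃ n, ∀ k ∈ Finset.Icc (-(N : ℤ)) N, (s n).1 k = l k := by
    intro N
    have : ∀ᶠ n in (U : Filter ι), ∀ k ∈ Finset.Icc (-(N : ℤ)) N, (s n).1 k = l k :=
      (Filter.eventually_all_finset _).2 fun k _ => hl k
    exact this.exists
  choose φ hφ using hall
  have hev : ∀ k : ℤ, ∀ᶠ N in atTop, (s (φ N)).1 k = l k := by
    intro k
    filter_upwards [eventually_ge_atTop k.natAbs] with N hN
    exact hφ N k (Finset.mem_Icc.2 (by omega))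
  have hmem : l ∈ S.lines := S.closed (fun N => (s (φ N)).1) l (fun N => (s (φ N)).2.1) hev
  have h0 : l 0 = 1 := by
    obtain ⟨N, hN⟩ := (hev 0).exists
    rw [← hN]; exact (s (φ N)).2.2
  exact ⟨⟨l, hmem, h0⟩, hl⟩

instance instCompact : CompactSpace S.L0 := by
  rw [← isCompact_univ_iff, isCompact_iff_ultrafilter_le_nhds]
  intro U _
  obtain ⟨l, hl⟩ := S.exists_tendsto U id
  exact ⟨l, mem_univ _, (S.tendsto_iff (U : Filter S.L0) id l).2 hl⟩

instance instSecondCountable [Countable H] : SecondCountableTopology S.L0 := by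
  let _ : TopologicalSpace H := ⊥
  have _ : DiscreteTopology H := ⟨rfl⟩
  have hind : Topology.IsInducing (Subtype.val : S.L0 → (ℤ → H)) := ⟨rfl⟩
  exact hind.secondCountableTopology

instance instMetrizable [Countable H] : TopologicalSpace.MetrizableSpace S.L0 :=
  TopologicalSpace.metrizableSpace_of_t3_secondCountable _

/-- a map is continuous when it respects pointwise limits of sequences -/
theorem continuous_of_seq [Countable H] {Y : Type} [TopologicalSpace Y] (f : S.L0 → Y)
    (h : ∀ (s : ℕ → S.L0) (l : S.L0), (∀ k : ℤ, ∀ᶠ n in atTop, (s n).1 k = l.1 k) →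
      Tendsto (fun n => f (s n)) atTop (𝓝 (f l))) : Continuous f := by
  refine continuous_iff_seqContinuous.2 fun s l hs => ?_
  exact h s l ((S.tendsto_iff _ _ _).1 hs)

theorem continuous_clsOf [Countable H] : Continuous S.clsOf :=
  S.continuous_of_seq _ fun s l hs => S.cont (fun n => (s n).1) l.1 (fun n => (s n).2.1) hs

theorem continuous_of_eval {Y : Type} [TopologicalSpace Y] (f : Y → S.L0)
    (h : ∀ k : ℤ, ∀ y, ∀ᶠ y' in 𝓝 y, (f y').1 k = (f y).1 k) : Continuous f := by
  refine continuous_iff_continuousAt.2 fun y => ?_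
  exact (S.tendsto_iff _ _ _).2 fun k => h k y

theorem eventually_eval (k : ℤ) (l : S.L0) : ∀ᶠ l' in 𝓝 l, l'.1 k = l.1 k :=
  (S.tendsto_iff (𝓝 l) id l).1 tendsto_id k

theorem continuous_tau : Continuous S.tau :=
  S.continuous_of_eval _ fun k l => by
    filter_upwards [S.eventually_eval 1 l, S.eventually_eval (k + 1) l] with l' h1 h2
    simp only [tau_apply, h1, h2]

theorem continuous_rev : Continuous S.rev :=
  S.continuous_of_eval _ fun k l => by
    filter_upwards [S.eventually_eval (-k) l] with l' h1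
    simp only [rev_apply, h1]

/-- coarse past determines the class, uniformly -/
theorem uniform_past [Countable H] {Z : Type} [MetricSpace Z] [MulAction H Z] (S : LineSys H Z)
    (R : ℕ) (hR : 0 < R) (η : ℝ) (hη : 0 < η) :
    ∃ M : ℕ, ∀ l l' : S.L0, (∀ i : ℕ, i ≤ M → l.1 (-((i * R : ℕ) : ℤ)) = l'.1 (-((i * R : ℕ) : ℤ))) →
      dist (S.clsOf l) (S.clsOf l') < η := by
  by_contra hcon
  push Not at hcon
  choose s s' hs hd using hcon
  let U : Ultrafilter ℕ := Filter.hyperfilter ℕ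
  obtain ⟨l, hl⟩ := S.exists_tendsto U s
  obtain ⟨l', hl'⟩ := S.exists_tendsto U s'
  have hU : (U : Filter ℕ) ≤ atTop := Nat.hyperfilter_le_atTop
  have hpast : ∀ i : ℕ, l.1 (-((i * R : ℕ) : ℤ)) = l'.1 (-((i * R : ℕ) : ℤ)) := by
    intro i
    have h1 : ∀ᶠ n in (U : Filter ℕ), i ≤ n := hU (eventually_ge_atTop i)
    obtain ⟨n, hn, hn1, hn2⟩ := (h1.and ((hl (-((i * R : ℕ) : ℤ))).and (hl' (-((i * R : ℕ) : ℤ))))).exists
    rw [← hn1, ← hn2]
    exact hs n i hn
  have heq : S.clsOf l = S.clsOf l' := S.past R hR _ l.2.1 _ l'.2.1 hpast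
  have h1 : Tendsto (fun n => S.clsOf (s n)) U (𝓝 (S.clsOf l)) :=
    (S.continuous_clsOf.tendsto l).comp ((S.tendsto_iff _ _ _).2 hl)
  have h2 : Tendsto (fun n => S.clsOf (s' n)) U (𝓝 (S.clsOf l')) :=
    (S.continuous_clsOf.tendsto l').comp ((S.tendsto_iff _ _ _).2 hl')
  have h3 := h1.dist h2
  rw [heq, dist_self] at h3
  obtain ⟨n, hn⟩ := (h3.eventually (gt_mem_nhds hη)).exists
  exact absurd (hd n) (not_le.2 hn)

end LineSys

end Pool.Agent.CTZ
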