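import Pool.Agent.CTZ.CDefs
import Pool.Agent.CTZ.Top
import Pool.Agent.CTZ.Growth
import Pool.Agent.CTZ.Meas
import Pool.Agent.CTZ.Dens
import Pool.Agent.CTZ.Main

/-!
# Atoms of the class measure: existence, growth of the stabiliser, recurrence
-/

open Filter Topology Set MeasureTheory

namespace Pool.Agent.CTZ

/-! ### numerics -/

namespace LineSys

section Num

variable {H Z : Type} [Group H] [TopologicalSpace Z] [MulAction H Z] (S : LineSys H Z)

theorem par_eventually {h : ℝ} (hg : S.HasGrowth h) {δ ε : ℝ} (hδ0 : 0 < δ) (hδ1 : δ ≤ 1)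
    (hε : 0 < ε) : ∀ᶠ R : ℕ in atTop, Par h δ (Real.exp ((h - ε) * R)) R (S.N R) := by
  obtain ⟨hh, hlow, hup⟩ := hg
  have hε' : 0 < δ * ε / 2 := by positivity
  have h2 : Tendsto (fun R : ℕ => δ * ε / 2 * (R : ℝ)) atTop atTop :=
    tendsto_natCast_atTop_atTop.const_mul_atTop hε'
  filter_upwards [hup _ hε', h2.eventually_gt_atTop (Real.log 2), eventually_gt_atTop 0]
    with R hR1 hR2 hR0
  have hR0' : (0 : ℝ) < R := by exact_mod_cast hR0
  refine ⟨hR0, Real.exp_pos _, ?_, hδ0, hδ1, ?_⟩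
  · refine le_trans (Real.exp_le_exp.2 ?_) (hlow R)
    nlinarith
  · have hN0 : (0 : ℝ) ≤ (S.N R : ℝ) := Nat.cast_nonneg _
    have h3 : (S.N R : ℝ) ^ (1 - δ) ≤ Real.exp ((h + δ * ε / 2) * R * (1 - δ)) := by
      rw [Real.exp_mul]
      exact Real.rpow_le_rpow hN0 hR1 (by linarith)
    have h4 : Real.exp ((h - ε) * R) ^ δ = Real.exp ((h - ε) * R * δ) := by
      rw [Real.exp_mul ((h - ε) * R) δ]
    have h5 : (2 : ℝ) = Real.exp (Real.log 2) := (Real.exp_log (by norm_num)).symm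
    calc 2 * Real.exp ((h - ε) * R) ^ δ * (S.N R : ℝ) ^ (1 - δ)
        ≤ 2 * Real.exp ((h - ε) * R) ^ δ * Real.exp ((h + δ * ε / 2) * R * (1 - δ)) := by
          refine mul_le_mul_of_nonneg_left h3 ?_
          positivity
      _ = Real.exp (Real.log 2 + (h - ε) * R * δ + (h + δ * ε / 2) * R * (1 - δ)) := by
          rw [Real.exp_add, Real.exp_add, ← h5, h4]
      _ < Real.exp (h * R) := by
          refine Real.exp_lt_exp.2 ?_
          have h6 : 0 ≤ δ * ε / 2 * R * δ := by positivity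
          nlinarith

end Num

end LineSys

section Borel

variable {H Z : Type} [Group H] [Countable H] [TopologicalSpace Z] [CompactSpace Z]
  [TopologicalSpace.MetrizableSpace Z] [MeasurableSpace Z] [BorelSpace Z] [MulAction H Z]
  (S : LineSys H Z)

theorem exists_atom [ContinuousConstSMul H Z] {h : ℝ} (hg : S.HasGrowth h) {m : Measure S.L0}
    (hm : S.Good h m) {half : H → H → Prop} {C : ℕ} (hh : Halving S half C) :
    ∃ z : Z, m {l | S.clsOf l = z} ≠ 0 := by
  by_contra hcon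
  push Not at hcon
  have h0 : 0 < h := hg.1
  have hup := hg.2.2
  have e1 := S.par_eventually hg (δ := 1 / 4) (ε := h / 8) (by norm_num) (by norm_num)
    (by positivity)
  have hε' : 0 < h / 48 := by positivity
  have e2 := hup _ hε'
  have hhalf : Tendsto (fun R : ℕ => R - R / 2) atTop atTop := by
    refine tendsto_atTop_mono (f := fun R : ℕ => R / 2) (fun R => by omega) ?_
    exact Nat.tendsto_div_const_atTop (by norm_num)
  have e3 := hhalf.eventually e2
  have e4 : Tendsto (fun R : ℕ => 7 / 32 * h * (R : ℝ)) atTop atTop :=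
    tendsto_natCast_atTop_atTop.const_mul_atTop (by positivity)
  obtain ⟨R, hR1, hR2, hR3, hR4⟩ := (e1.and (e2.and (e3.and
    (e4.eventually_gt_atTop (49 / 96 * h + 8 * C))))).exists
  have h1 := main_ineq S hm hh hR1 hcon
  have hC : (0 : ℝ) ≤ (C : ℝ) := Nat.cast_nonneg _
  have hhalfR : ((R - R / 2 : ℕ) : ℝ) ≤ ((R : ℝ) + 1) / 2 := by
    have h2 : 2 * (R - R / 2) ≤ R + 1 := by omega
    have h3 : (2 : ℝ) * ((R - R / 2 : ℕ) : ℝ) ≤ (R : ℝ) + 1 := by exact_mod_cast h2
    linarith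
  have h2 : (S.N (R - R / 2) : ℝ) ≤ Real.exp ((h + h / 48) * (((R : ℝ) + 1) / 2)) := by
    refine hR3.trans (Real.exp_le_exp.2 ?_)
    exact mul_le_mul_of_nonneg_left hhalfR (by positivity)
  have h3 : Real.exp ((h - h / 8) * R) ^ 2 = Real.exp (7 / 4 * h * R) := by
    rw [← Real.exp_nat_mul]
    congr 1
    push_cast
    ring
  have h4 : Real.exp (7 / 4 * h * R) ≤
      8 * C * Real.exp (49 / 32 * h * R + 49 / 96 * h) := by
    calc Real.exp (7 / 4 * h * R) ≤ 8 * S.N R * (C * S.N (R - R / 2)) := by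
          rw [← h3]
          exact h1
      _ ≤ 8 * Real.exp ((h + h / 48) * R) * (C * Real.exp ((h + h / 48) * (((R : ℝ) + 1) / 2))) := by
          gcongr
      _ = 8 * C * (Real.exp ((h + h / 48) * R) * Real.exp ((h + h / 48) * (((R : ℝ) + 1) / 2))) := by
          ring
      _ = 8 * C * Real.exp (49 / 32 * h * R + 49 / 96 * h) := by
          rw [← Real.exp_add]
          congr 2
          ring
  have h5 : Real.exp (7 / 4 * h * R) =
      Real.exp (7 / 32 * h * R - 49 / 96 * h) * Real.exp (49 / 32 * h * R + 49 / 96 * h) := by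
    rw [← Real.exp_add]
    congr 1
    ring
  rw [h5] at h4
  have h6 := le_of_mul_le_mul_right h4 (Real.exp_pos _)
  have h7 := Real.add_one_le_exp (7 / 32 * h * R - 49 / 96 * h)
  linarith

theorem measurable_clsOf' : Measurable S.clsOf := S.continuous_clsOf.measurable

theorem atom_growth [ContinuousConstSMul H Z] {h : ℝ} (hg : S.HasGrowth h) {m : Measure S.L0}
    (hm : S.Good h m) (z : Z) (hz : m {l | S.clsOf l = z} ≠ 0) :
    ∃ c > 0, ∀ᶠ R : ℕ in atTop, ∃ z' : Z,
      c * Real.exp (h / 2 * R) ≤ ({w : H | w ∈ S.L R ∧ w⁻¹ • z = z'}.ncard : ℝ) := by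
  classical
  have := hm.prob
  have h0 : 0 < h := hg.1
  set c0 : ℝ := m.real {l | S.clsOf l = z} with hc0
  have hc0pos : 0 < c0 := by
    rw [hc0, measureReal_def]
    exact ENNReal.toReal_pos hz (measure_ne_top _ _)
  have hc01 : c0 ≤ 1 := by
    rw [hc0]
    exact measureReal_le_one
  set δ : ℝ := c0 / 8 with hδ
  have hδ0 : 0 < δ := by positivity
  have hδ1 : δ ≤ 1 := by rw [hδ]; linarith
  refine ⟨c0 / 4, by positivity, ?_⟩
  filter_upwards [S.par_eventually hg (δ := δ) (ε := h / 2) hδ0 hδ1 (by positivity)] with R hp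
  have hK : (h - h / 2) * (R : ℝ) = h / 2 * R := by ring
  rw [hK] at hp
  set K : ℝ := Real.exp (h / 2 * R) with hKdef
  obtain ⟨G, hGm, hG1, hG2, hG3⟩ := exists_dens S hm hp
  have hzm : ∀ z' : Z, MeasurableSet {l : S.L0 | S.clsOf l = z'} := fun z' =>
    (measurable_clsOf' S) (measurableSet_singleton z')
  by_contra hcon
  push Not at hcon
  -- the mass of the atom is carried by the good set
  have h1 : c0 ≤ 2 * δ + ∑ w ∈ S.L R, m.real {l | l.1 R = w ∧ S.clsOf l ∈ G w ∩ {z}} := by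
    have h2 : m.real {l | S.clsOf l = z} ≤ m.real ({l | S.clsOf l ∉ G (l.1 R)} ∪
        ⋃ w ∈ S.L R, {l | l.1 R = w ∧ S.clsOf l ∈ G w ∩ {z}}) := by
      refine measureReal_mono ?_ (measure_ne_top _ _)
      intro l hl
      by_cases hlG : S.clsOf l ∈ G (l.1 R)
      · right
        simp only [mem_iUnion]
        exact ⟨l.1 R, S.mem_L.2 ⟨l, rfl⟩, rfl, hlG, hl⟩
      · left
        exact hlG
    have h3 : m.real {l | S.clsOf l ∉ G (l.1 R)} ≤ 2 * δ := by
      rw [measureReal_def]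
      exact ENNReal.toReal_le_of_le_ofReal (by positivity) hG3
    calc c0 ≤ _ := h2
      _ ≤ m.real {l | S.clsOf l ∉ G (l.1 R)} +
          m.real (⋃ w ∈ S.L R, {l | l.1 R = w ∧ S.clsOf l ∈ G w ∩ {z}}) :=
          measureReal_union_le _ _
      _ ≤ _ := by
          refine add_le_add h3 ?_
          exact measureReal_biUnion_finset_le _ _
  have h4 : ∀ w ∈ S.L R, K * m.real {l | l.1 R = w ∧ S.clsOf l ∈ G w ∩ {z}} ≤
      m.real {l | S.clsOf l = w⁻¹ • z} := by
    intro w hw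
    have h5 := hG2 w hw {z} (measurableSet_singleton z)
    have h6 : {l : S.L0 | w • S.clsOf l ∈ ({z} : Set Z)} = {l | S.clsOf l = w⁻¹ • z} := by
      ext l
      simp only [mem_ofPred_eq, mem_singleton_iff]
      rw [eq_inv_smul_iff]
    rw [h6] at h5
    have h7 := ENNReal.toReal_mono (measure_ne_top _ _) h5
    rwa [ENNReal.toReal_mul, ENNReal.toReal_ofReal (Real.exp_pos _).le] at h7
  have h5 : K * (c0 - 2 * δ) ≤ ∑ w ∈ S.L R, m.real {l | S.clsOf l = w⁻¹ • z} := by
    calc K * (c0 - 2 * δ) ≤ K * ∑ w ∈ S.L R, m.real {l | l.1 R = w ∧ S.clsOf l ∈ G w ∩ {z}} :=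
          mul_le_mul_of_nonneg_left (by linarith) (Real.exp_pos _).le
      _ = ∑ w ∈ S.L R, K * m.real {l | l.1 R = w ∧ S.clsOf l ∈ G w ∩ {z}} := Finset.mul_sum _ _ _
      _ ≤ _ := Finset.sum_le_sum h4
  have h6 : ∑ w ∈ S.L R, m.real {l | S.clsOf l = w⁻¹ • z} =
      ∑ z' ∈ (S.L R).image (fun w => w⁻¹ • z),
        (((S.L R).filter (fun w => w⁻¹ • z = z')).card : ℝ) * m.real {l | S.clsOf l = z'} := by
    rw [Finset.sum_comp (fun z' : Z => m.real {l | S.clsOf l = z'}) (fun w : H => w⁻¹ • z)]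
    refine Finset.sum_congr rfl fun z' _ => ?_
    rw [nsmul_eq_mul]
  have h7 : ∀ z' : Z, (((S.L R).filter (fun w => w⁻¹ • z = z')).card : ℝ) ≤ c0 / 4 * K := by
    intro z'
    have h8 : {w : H | w ∈ S.L R ∧ w⁻¹ • z = z'}.ncard =
        ((S.L R).filter (fun w => w⁻¹ • z = z')).card := by
      rw [← Set.ncard_coe_finset]
      congr 1
      ext w
      simp
    have h9 := hcon z'
    rw [h8] at h9
    exact h9.le
  have h8 : ∑ z' ∈ (S.L R).image (fun w => w⁻¹ • z), m.real {l | S.clsOf l = z'} ≤ 1 := by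
    have h9 : m.real (⋃ z' ∈ (S.L R).image (fun w => w⁻¹ • z), {l | S.clsOf l = z'}) =
        ∑ z' ∈ (S.L R).image (fun w => w⁻¹ • z), m.real {l | S.clsOf l = z'} := by
      refine measureReal_biUnion_finset ?_ (fun z' _ => hzm z')
      intro a _ b _ hab
      refine Set.disjoint_left.2 fun l hl hl' => hab ?_
      exact (hl : S.clsOf l = a).symm.trans hl'
    rw [← h9]
    exact measureReal_le_one
  have h10 : K * (c0 - 2 * δ) ≤ c0 / 4 * K := by
    rw [h6] at h5
    refine h5.trans ?_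
    calc _ ≤ ∑ z' ∈ (S.L R).image (fun w => w⁻¹ • z), c0 / 4 * K * m.real {l | S.clsOf l = z'} :=
          Finset.sum_le_sum fun z' _ => mul_le_mul_of_nonneg_right (h7 z') measureReal_nonneg
      _ = c0 / 4 * K * ∑ z' ∈ (S.L R).image (fun w => w⁻¹ • z), m.real {l | S.clsOf l = z'} := by
          rw [Finset.mul_sum]
      _ ≤ c0 / 4 * K * 1 := by
          refine mul_le_mul_of_nonneg_left h8 ?_
          have := Real.exp_pos (h / 2 * R)
          positivity
      _ = c0 / 4 * K := mul_one _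
  have hKpos : 0 < K := Real.exp_pos _
  have h11 : K * (c0 - 2 * δ) = 3 * (c0 / 4 * K) := by
    rw [hδ]
    ring
  rw [h11] at h10
  have h12 : 0 < c0 / 4 * K := by positivity
  linarith

theorem atom_recur {h : ℝ} {m : Measure S.L0}
    (hm : S.Good h m) (z : Z) (hz : m {l | S.clsOf l = z} ≠ 0) :
    ∃ l : S.L0, S.clsOf l = z ∧ ∃ᶠ k : ℕ in atTop, (l.1 k)⁻¹ • z = z := by
  have := hm.prob
  have hzm : MeasurableSet {l : S.L0 | S.clsOf l = z} :=
    (measurable_clsOf' S) (measurableSet_singleton z)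
  have h1 := hm.inv.conservative.ae_mem_imp_frequently_image_mem hzm.nullMeasurableSet
  have h2 : ∃ l, l ∈ {l : S.L0 | S.clsOf l = z} ∧
      ∃ᶠ n : ℕ in atTop, S.tau^[n] l ∈ {l : S.L0 | S.clsOf l = z} := by
    have h3 := (frequently_ae_mem_iff.2 hz).and_eventually h1
    obtain ⟨l, hl, hl'⟩ := h3.exists
    exact ⟨l, hl, hl' hl⟩
  obtain ⟨l, hl, hl'⟩ := h2
  refine ⟨l, hl, hl'.mono fun n hn => ?_⟩
  have h4 : S.clsOf (S.tau^[n] l) = z := hn
  rw [S.clsOf_tau_iterate] at h4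
  have h5 : S.clsOf l = z := hl
  rw [h5] at h4
  exact h4

theorem core [ContinuousConstSMul H Z] {h : ℝ} (hg : S.HasGrowth h)
    {half : H → H → Prop} {C : ℕ} (hh : Halving S half C) :
    ∃ z : Z, (∃ c > 0, ∀ᶠ R : ℕ in atTop, ∃ z' : Z,
      c * Real.exp (h / 2 * R) ≤ ({w : H | w ∈ S.L R ∧ w⁻¹ • z = z'}.ncard : ℝ)) ∧
      ∃ l : S.L0, S.clsOf l = z ∧ ∃ᶠ k : ℕ in atTop, (l.1 k)⁻¹ • z = z := by
  obtain ⟨m, hm⟩ := S.exists_good hg
  obtain ⟨z, hz⟩ := exists_atom S hg hm hh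
  exact ⟨z, atom_growth S hg hm z hz, atom_recur S hm z hz⟩

end Borel

end Pool.Agent.CTZ
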