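import Pool.Agent.CTZ.Top
import Pool.Agent.CTZ.CDefs

/-!
# From cylinders to Borel sets
-/

open Filter Topology Set MeasureTheory

namespace Pool.Agent.CTZ

/-- A finite family of disjointly approximated closed sets has uniformly small multiplicity. -/
theorem exists_eta {H Z : Type} [MetricSpace Z] [CompactSpace Z] (L : Finset H) (C : H → Set Z)
    (hC : ∀ w, IsClosed (C w)) :
    ∃ η : ℝ, 0 < η ∧ ∀ x : Z, ∃ z : Z, ∀ w ∈ L, ∀ y ∈ C w, dist y x < η → z ∈ C w := by
  have h1 : ∀ z : Z, ∃ r : ℝ, 0 < r ∧ ∀ w ∈ L, ∀ y ∈ C w, y ∈ Metric.ball z r → z ∈ C w := by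
    intro z
    have h2 : ∀ w ∈ L, ∀ᶠ y in 𝓝 z, y ∈ C w → z ∈ C w := by
      intro w _
      by_cases hz : z ∈ C w
      · exact Eventually.of_forall fun _ _ => hz
      · filter_upwards [(hC w).isOpen_compl.mem_nhds hz] with y hy hy'
        exact absurd hy' hy
    have h3 : ∀ᶠ y in 𝓝 z, ∀ w ∈ L, y ∈ C w → z ∈ C w := (Finset.eventually_all L).2 h2
    obtain ⟨r, hr, h4⟩ := Metric.eventually_nhds_iff_ball.1 h3
    exact ⟨r, hr, fun w hw y hy hyb => h4 y hyb w hw hy⟩
  choose r hr hr' using h1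
  obtain ⟨η, hη, h5⟩ := lebesgue_number_lemma_of_metric (s := (univ : Set Z)) (c := fun z => Metric.ball z (r z))
    isCompact_univ (fun z => Metric.isOpen_ball) (fun z _ => mem_iUnion.2 ⟨z, Metric.mem_ball_self (hr z)⟩)
  refine ⟨η, hη, fun x => ?_⟩
  obtain ⟨z, hz⟩ := h5 x (mem_univ x)
  exact ⟨z, fun w hw y hy hyx => hr' z w hw y hy (hz hyx)⟩

theorem incs_eq {H : Type} [Group H] {R M : ℕ} {l l' : ℤ → H} (h0 : l 0 = l' 0)
    (h : incs R M l = incs R M l') : ∀ i : ℕ, i ≤ M →
      l (-((i * R : ℕ) : ℤ)) = l' (-((i * R : ℕ) : ℤ)) := by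
  intro i
  induction i with
  | zero =>
    intro _
    simpa using h0
  | succ i ih =>
    intro hi
    have h1 := ih (by omega)
    have h2 := congrArg (fun L : List H => L[i]?) h
    simp only [incs, List.getElem?_map, List.getElem?_range (show i < M by omega),
      Option.map_some, Option.some.injEq] at h2
    rw [h1] at h2
    have h3 := mul_right_cancel h2
    exact inv_injective h3

namespace LineSys

variable {H Z : Type} [Group H] [TopologicalSpace Z] [MulAction H Z] (S : LineSys H Z)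

theorem isClopen_bad (R M : ℕ) (Dt : List H → Finset H) :
    IsClopen {l : S.L0 | Bad R M Dt l.1} := by
  refine S.isClopen_of_coords (insert (R : ℤ) ((Finset.range (M + 1)).image
    fun i => -((i * R : ℕ) : ℤ))) _ ?_
  intro l l' h
  have h1 : l.1 R = l'.1 R := h _ (Finset.mem_insert_self _ _)
  have h2 : incs R M l.1 = incs R M l'.1 := by
    unfold incs
    refine List.map_congr_left fun i hi => ?_
    have hi' := List.mem_range.1 hi
    rw [h _ (Finset.mem_insert_of_mem (Finset.mem_image.2 ⟨i + 1, Finset.mem_range.2 (by omega), rfl⟩)),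
      h _ (Finset.mem_insert_of_mem (Finset.mem_image.2 ⟨i, Finset.mem_range.2 (by omega), rfl⟩))]
  show l.1 R ∈ Dt (incs R M l.1) ↔ l'.1 R ∈ Dt (incs R M l'.1)
  rw [h1, h2]

end LineSys

section Borel

variable {H Z : Type} [Group H] [Countable H] [TopologicalSpace Z] [CompactSpace Z]
  [TopologicalSpace.MetrizableSpace Z] [MeasurableSpace Z] [BorelSpace Z] [MulAction H Z]
  (S : LineSys H Z)

omit [CompactSpace Z] [TopologicalSpace.MetrizableSpace Z] in
theorem measurable_clsOf : Measurable S.clsOf := S.continuous_clsOf.measurable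

omit [MeasurableSpace Z] [BorelSpace Z] in
open Classical in
/-- closed version -/
theorem closed_bound {δ K : ℝ} {R : ℕ} (hR : 0 < R) (hK : 0 < K) (m : Measure S.L0)
    (hcyl : ∀ (M : ℕ) (Dt : List H → Finset H), (∀ l, ((Dt l).card : ℝ) ≤ K) →
      m {l | Bad R M Dt l.1} ≤ ENNReal.ofReal δ)
    (Cs : H → Set Z) (hCs : ∀ w, IsClosed (Cs w))
    (hmult : ∀ z, (((S.L R).filter (fun w => z ∈ Cs w)).card : ℝ) ≤ K) :
    m {l | S.clsOf l ∈ Cs (l.1 R)} ≤ ENNReal.ofReal δ := by
  let _ : MetricSpace Z := TopologicalSpace.metrizableSpaceMetric Z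
  obtain ⟨η, hη, hη'⟩ := exists_eta (S.L R) Cs hCs
  obtain ⟨M, hM⟩ := S.uniform_past R hR η hη
  let Dt : List H → Finset H := fun p =>
    (S.L R).filter (fun w => ∃ l : S.L0, incs R M l.1 = p ∧ l.1 R = w ∧ S.clsOf l ∈ Cs w)
  have hDt : ∀ p, ((Dt p).card : ℝ) ≤ K := by
    intro p
    rcases (Dt p).eq_empty_or_nonempty with h0 | ⟨w0, hw0⟩
    · rw [h0]
      simpa using hK.le
    · obtain ⟨l0, hl0, -, -⟩ := (Finset.mem_filter.1 hw0).2
      obtain ⟨z, hz⟩ := hη' (S.clsOf l0)
      refine le_trans ?_ (hmult z)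
      have hsub : Dt p ⊆ (S.L R).filter (fun w => z ∈ Cs w) := by
        intro w hw
        obtain ⟨hwL, l, hl, -, hlc⟩ := Finset.mem_filter.1 hw
        refine Finset.mem_filter.2 ⟨hwL, hz w hwL _ hlc ?_⟩
        refine hM l l0 (incs_eq ?_ (hl.trans hl0.symm))
        rw [S.L0_zero, S.L0_zero]
      exact_mod_cast Finset.card_le_card hsub
  refine le_trans (measure_mono ?_) (hcyl M Dt hDt)
  intro l hl
  exact Finset.mem_filter.2 ⟨S.mem_L.2 ⟨l, rfl⟩, l, rfl, rfl, hl⟩

open Classical in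
/-- one-sided version for any measure with the cylinder bound -/
theorem borel_bound {δ K : ℝ} {R : ℕ} (hR : 0 < R) (hK : 0 < K) (m : Measure S.L0)
    [IsProbabilityMeasure m]
    (hcyl : ∀ (M : ℕ) (Dt : List H → Finset H), (∀ l, ((Dt l).card : ℝ) ≤ K) →
      m {l | Bad R M Dt l.1} ≤ ENNReal.ofReal δ)
    (Ds : H → Set Z) (hDs : ∀ w, MeasurableSet (Ds w))
    (hmult : ∀ z, (((S.L R).filter (fun w => z ∈ Ds w)).card : ℝ) ≤ K) :
    m {l | S.clsOf l ∈ Ds (l.1 R)} ≤ ENNReal.ofReal δ := by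
  refine ENNReal.le_of_forall_pos_le_add fun ε hε _ => ?_
  -- the class measures
  let lam : H → Measure Z := fun w => (m.restrict {l | l.1 R = w}).map S.clsOf
  have hlam : ∀ w (A : Set Z), MeasurableSet A → lam w A = m {l | l.1 R = w ∧ S.clsOf l ∈ A} := by
    intro w A hA
    show (m.restrict {l | l.1 R = w}).map S.clsOf A = _
    rw [Measure.map_apply (measurable_clsOf S) hA, Measure.restrict_apply (measurable_clsOf S hA)]
    congr 1
    ext l
    simp only [mem_inter_iff, mem_preimage, mem_ofPred_eq]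
    exact and_comm
  have hfin : ∀ w, IsFiniteMeasure (lam w) := fun w => by
    show IsFiniteMeasure ((m.restrict {l | l.1 R = w}).map S.clsOf)
    infer_instance
  let e : ENNReal := (ε : ENNReal) / ((S.L R).card + 1)
  have he : e ≠ 0 := by
    refine (ENNReal.div_pos (by exact_mod_cast hε.ne') ?_).ne'
    exact ENNReal.add_ne_top.2 ⟨ENNReal.natCast_ne_top _, ENNReal.one_ne_top⟩
  have hcl : ∀ w, ∃ Cw ⊆ Ds w, IsClosed Cw ∧ lam w (Ds w) < lam w Cw + e := fun w =>
    (hDs w).exists_isClosed_lt_add (measure_ne_top _ _) he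
  choose Cs hCD hCc hClt using hcl
  have hmC : ∀ z, (((S.L R).filter (fun w => z ∈ Cs w)).card : ℝ) ≤ K := by
    intro z
    refine le_trans ?_ (hmult z)
    exact_mod_cast Finset.card_le_card
      (Finset.monotone_filter_right _ fun w _ hw => hCD w hw)
  have h1 := closed_bound S hR hK m hcyl Cs hCc hmC
  have hdec : ∀ B : H → Set Z, (∀ w, MeasurableSet (B w)) →
      m {l | S.clsOf l ∈ B (l.1 R)} = ∑ w ∈ S.L R, lam w (B w) := by
    intro B hB
    have h2 : {l : S.L0 | S.clsOf l ∈ B (l.1 R)} =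
        ⋃ w ∈ S.L R, {l | l.1 R = w ∧ S.clsOf l ∈ B w} := by
      ext l
      simp only [mem_ofPred_eq, mem_iUnion, exists_prop]
      constructor
      · intro hl
        exact ⟨l.1 R, S.mem_L.2 ⟨l, rfl⟩, rfl, hl⟩
      · rintro ⟨w, -, hw, hl⟩
        rw [hw]
        exact hl
    rw [h2, measure_biUnion_finset]
    · exact Finset.sum_congr rfl fun w _ => (hlam w _ (hB w)).symm
    · intro w _ w' _ hne
      refine Set.disjoint_left.2 fun l hl hl' => hne ?_
      rw [← hl.1, ← hl'.1]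
    · intro w _
      have h3 : MeasurableSet {l : S.L0 | l.1 R ∈ ({w} : Set H)} :=
        (S.isClopen_eval R {w}).1.measurableSet
      have h4 : {l : S.L0 | l.1 R = w ∧ S.clsOf l ∈ B w} =
          {l : S.L0 | l.1 R ∈ ({w} : Set H)} ∩ S.clsOf ⁻¹' (B w) := by
        ext l
        simp
      rw [h4]
      exact h3.inter (measurable_clsOf S (hB w))
  rw [hdec Ds hDs]
  calc ∑ w ∈ S.L R, lam w (Ds w) ≤ ∑ w ∈ S.L R, (lam w (Cs w) + e) :=
        Finset.sum_le_sum fun w _ => (hClt w).le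
    _ = m {l | S.clsOf l ∈ Cs (l.1 R)} + (S.L R).card * e := by
        rw [hdec Cs fun w => (hCc w).measurableSet, Finset.sum_add_distrib, Finset.sum_const,
          nsmul_eq_mul]
    _ ≤ ENNReal.ofReal δ + ε := by
        gcongr
        show ((S.L R).card : ENNReal) * ((ε : ENNReal) / ((S.L R).card + 1)) ≤ ε
        rw [← mul_div_assoc, mul_comm, mul_div_assoc]
        refine mul_le_of_le_one_right' ?_
        exact ENNReal.div_le_of_le_mul (by rw [one_mul]; exact le_self_add)

open Classical in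
theorem good_borel {h : ℝ} {m : Measure S.L0} (hm : S.Good h m) {δ K : ℝ} {R : ℕ}
    (hp : Par h δ K R (S.N R)) (Ds : H → Set Z) (hDs : ∀ w, MeasurableSet (Ds w))
    (hmult : ∀ z, (((S.L R).filter (fun w => z ∈ Ds w)).card : ℝ) ≤ K) :
    m {l | S.clsOf l ∈ Ds (l.1 R)} ≤ ENNReal.ofReal δ ∧
      m {l | S.clsOf l ∈ Ds (l.1 (-(R : ℤ)))} ≤ ENNReal.ofReal δ := by
  have hprob := hm.prob
  refine ⟨borel_bound S hp.R0 hp.K0 m (fun M Dt hDt => (hm.cyl δ K R hp M Dt hDt).1) Ds hDs hmult,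
    ?_⟩
  have hrev : Measurable S.rev := S.continuous_rev.measurable
  have hprob' : IsProbabilityMeasure (m.map S.rev) := Measure.isProbabilityMeasure_map hrev.aemeasurable
  have h1 := borel_bound S (δ := δ) hp.R0 hp.K0 (m.map S.rev) (fun M Dt hDt => by
    rw [Measure.map_apply hrev (S.isClopen_bad R M Dt).1.measurableSet]
    exact (hm.cyl δ K R hp M Dt hDt).2) Ds hDs hmult
  refine le_trans ?_ ((Measure.le_map_apply hrev.aemeasurable _).trans h1)
  refine measure_mono ?_
  intro l hl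
  show S.clsOf (S.rev l) ∈ Ds ((S.rev l).1 R)
  rw [S.clsOf_rev, S.rev_apply]
  exact hl

end Borel

end Pool.Agent.CTZ
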