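import Pool.Agent.CTZ.GDefs

/-!
# Row GA: Gromov products along rays and lines, ends
-/

open Filter Topology Set MeasureTheory Pool.Agent.Helper68.CT

namespace Pool.Agent.CTZ

variable {H X Z : Type} [Group H] [MetricSpace X] [MulAction H X]

theorem gp_smul {o : X} {δ c : ℝ} (hg : Geo H X o δ c) (g : H) (b x y : X) :
    gromovProduct (g • b) (g • x) (g • y) = gromovProduct b x y := by
  unfold gromovProduct
  rw [hg.isom, hg.isom, hg.isom]

theorem gp_base (o o' x y : X) : |gromovProduct o x y - gromovProduct o' x y| ≤ dist o o' := by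
  unfold gromovProduct
  have h1 := dist_triangle o o' x
  have h2 := dist_triangle o' o x
  have h3 := dist_triangle o o' y
  have h4 := dist_triangle o' o y
  rw [dist_comm o' o] at h2 h4
  rw [abs_le]
  constructor <;> linarith

theorem gp_comm (o x y : X) : gromovProduct o x y = gromovProduct o y x := by
  unfold gromovProduct
  rw [dist_comm x y]
  ring

theorem ray_gp {o : X} {c : ℝ} {r : ℕ → H} (hr : IsRay o c r) (m n : ℕ) :
    min (m : ℝ) n - 3 * c / 2 ≤ gromovProduct o (r m • o) (r n • o) := by
  have h0 : r 0 • o = o := by rw [hr.1, one_smul]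
  have h1 := (abs_le.1 (hr.2 0 m)).1
  have h2 := (abs_le.1 (hr.2 0 n)).1
  have h3 := (abs_le.1 (hr.2 m n)).2
  rw [h0] at h1 h2
  have e1 : |((0 : ℕ) : ℝ) - m| = m := by
    rw [Nat.cast_zero, zero_sub, abs_neg]
    exact abs_of_nonneg (Nat.cast_nonneg m)
  have e2 : |((0 : ℕ) : ℝ) - n| = n := by
    rw [Nat.cast_zero, zero_sub, abs_neg]
    exact abs_of_nonneg (Nat.cast_nonneg n)
  rw [e1] at h1
  rw [e2] at h2
  unfold gromovProduct
  rcases le_total (m : ℝ) n with h | h
  · rw [min_eq_left h]
    have e3 : |(m : ℝ) - n| = n - m := by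
      rw [abs_sub_comm]
      exact abs_of_nonneg (by linarith)
    rw [e3] at h3
    linarith
  · rw [min_eq_right h]
    have e3 : |(m : ℝ) - n| = m - n := abs_of_nonneg (by linarith)
    rw [e3] at h3
    linarith

theorem line_gp {o : X} {c : ℝ} {l : ℤ → H} (hl : IsLine o c l) (k m n : ℤ) :
    (|(m : ℝ) - k| + |(n : ℝ) - k| - |(m : ℝ) - n|) / 2 - 3 * c / 2 ≤
      gromovProduct (l k • o) (l m • o) (l n • o) := by
  have h1 := (abs_le.1 (hl k m)).1
  have h2 := (abs_le.1 (hl k n)).1
  have h3 := (abs_le.1 (hl m n)).2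
  rw [abs_sub_comm] at h1 h2
  unfold gromovProduct
  linarith

theorem line_gp_le {o : X} {c : ℝ} {l : ℤ → H} (hl : IsLine o c l) (k m n : ℤ) :
    gromovProduct (l k • o) (l m • o) (l n • o) ≤
      (|(m : ℝ) - k| + |(n : ℝ) - k| - |(m : ℝ) - n|) / 2 + 3 * c / 2 := by
  have h1 := (abs_le.1 (hl k m)).2
  have h2 := (abs_le.1 (hl k n)).2
  have h3 := (abs_le.1 (hl m n)).1
  rw [abs_sub_comm] at h1 h2
  unfold gromovProduct
  linarith

/-- it is enough to bound products from below for one base point -/
theorem toInfinity_of (o : X) {x y : ℕ → X}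
    (h : ∀ s : ℝ, ∀ᶠ ij : ℕ × ℕ in atTop, s ≤ gromovProduct o (x ij.1) (y ij.2)) :
    ToInfinity x y := by
  intro o'
  rw [tendsto_atTop]
  intro s
  filter_upwards [h (s + dist o o')] with ij hij
  have h1 := (abs_le.1 (gp_base o o' (x ij.1) (y ij.2))).2
  linarith

/-- two sequences with products tending to infinity end at the same point -/
theorem EndsAt.congr {x y : ℕ → X} {p : Boundary X} (hx : EndsAt x p) (hy : ToInfinity y y)
    (h : ToInfinity x y) : EndsAt y p := by
  obtain ⟨hxx, rfl⟩ := hx
  refine ⟨hy, ?_⟩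
  symm
  exact Quot.sound (r := fun x y : GromovSeq X => ToInfinity x.1 y.1)
    (a := ⟨x, hxx⟩) (b := ⟨y, hy⟩) h

theorem EndsAt.unique {x : ℕ → X} {p q : Boundary X} (hp : EndsAt x p) (hq : EndsAt x q) :
    p = q := by
  obtain ⟨h1, rfl⟩ := hp
  obtain ⟨h2, rfl⟩ := hq
  rfl

theorem EndsAt.smul {o : X} {δ c : ℝ} (hg : Geo H X o δ c) {x : ℕ → X} {p : Boundary X}
    (h : EndsAt x p) (g : H) : ∃ q, EndsAt (fun n => g • x n) q := by
  obtain ⟨h1, _⟩ := h
  have h2 : ToInfinity (fun n => g • x n) (fun n => g • x n) := by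
    intro o'
    have h3 := h1 (g⁻¹ • o')
    refine h3.congr ?_
    intro ij
    rw [← gp_smul hg g, smul_inv_smul]
  exact ⟨Boundary.mk ⟨_, h2⟩, h2, rfl⟩

/-- products of a pair of sequences tend to infinity if they are at least a function of the
smaller index -/
theorem toInfinity_of_min (o : X) {x y : ℕ → X} (C : ℝ)
    (h : ∀ i j : ℕ, min (i : ℝ) j - C ≤ gromovProduct o (x i) (y j)) : ToInfinity x y := by
  apply toInfinity_of o
  intro s
  obtain ⟨N, hN⟩ := exists_nat_ge (s + C)
  filter_upwards [eventually_ge_atTop ((N, N) : ℕ × ℕ)] with ij hij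
  have h1 : (N : ℝ) ≤ ij.1 := by exact_mod_cast hij.1
  have h2 : (N : ℝ) ≤ ij.2 := by exact_mod_cast hij.2
  have h3 := h ij.1 ij.2
  have h4 : (N : ℝ) ≤ min (ij.1 : ℝ) ij.2 := le_min h1 h2
  linarith

theorem ray_ends {o : X} {δ c : ℝ} (hg : Geo H X o δ c) {r : ℕ → H} (hr : IsRay o c r) :
    ∃ p, EndsAt (fun n => r n • o) p := by
  have h := toInfinity_of_min o (x := fun n => r n • o) (y := fun n => r n • o) (3 * c / 2)
    (fun i j => ray_gp hr i j)
  exact ⟨Boundary.mk ⟨_, h⟩, h, rfl⟩

theorem line_ends_right {o : X} {c : ℝ} {l : ℤ → H} (hl : IsLine o c l) (j j' : ℤ) :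
    ToInfinity (fun n : ℕ => l (n + j) • o) (fun n : ℕ => l (n + j') • o) := by
  apply toInfinity_of_min (l 0 • o) (|(j : ℝ)| + |(j' : ℝ)| + 3 * c / 2)
  intro m n
  have h1 := line_gp hl 0 (m + j) (n + j')
  push_cast at h1
  rw [sub_zero, sub_zero] at h1
  have a1 := le_abs_self ((m : ℝ) + j)
  have a2 := le_abs_self ((n : ℝ) + j')
  have a3 := neg_abs_le (j : ℝ)
  have a4 := neg_abs_le (j' : ℝ)
  have a5 := le_abs_self (j : ℝ)
  have a6 := le_abs_self (j' : ℝ)
  have a7 : |(m : ℝ) + j - (n + j')| ≤ |(m : ℝ) - n| + |(j : ℝ)| + |(j' : ℝ)| := by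
    have e : (m : ℝ) + j - (n + j') = ((m : ℝ) - n) + j + (-j') := by ring
    rw [e]
    refine le_trans (abs_add_three _ _ _) ?_
    rw [abs_neg]
  have a8 : |(m : ℝ) - n| = m + n - 2 * min (m : ℝ) n := by
    rcases le_total (m : ℝ) n with h | h
    · rw [min_eq_left h, abs_sub_comm, abs_of_nonneg (by linarith)]
      ring
    · rw [min_eq_right h, abs_of_nonneg (by linarith)]
      ring
  linarith

theorem line_ends_left {o : X} {c : ℝ} {l : ℤ → H} (hl : IsLine o c l) (j j' : ℤ) :
    ToInfinity (fun n : ℕ => l (-(n : ℤ) + j) • o) (fun n : ℕ => l (-(n : ℤ) + j') • o) := by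
  have hl' : IsLine o c (fun k => l (-k)) := by
    intro m n
    have h := hl (-m) (-n)
    have e : |((-m : ℤ) : ℝ) - ((-n : ℤ) : ℝ)| = |(m : ℝ) - n| := by
      push_cast
      rw [abs_sub_comm]
      congr 1
      ring
    rw [e] at h
    exact h
  have h := line_ends_right hl' (-j) (-j')
  have e1 : ∀ n : ℕ, ∀ i : ℤ, -((n : ℤ) + -i) = -(n : ℤ) + i := by
    intro n i
    ring
  simp only [e1] at h
  exact h

theorem line_ends {o : X} {δ c : ℝ} (hg : Geo H X o δ c) {l : ℤ → H} (hl : IsLine o c l) (j : ℤ) :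
    (∃ p, EndsAt (fun n : ℕ => l (n + j) • o) p) ∧
      ∃ q, EndsAt (fun n : ℕ => l (-(n : ℤ) + j) • o) q := by
  have h1 := line_ends_right hl j j
  have h2 := line_ends_left hl j j
  exact ⟨⟨Boundary.mk ⟨_, h1⟩, h1, rfl⟩, ⟨Boundary.mk ⟨_, h2⟩, h2, rfl⟩⟩

/-! Extras -/

theorem EndsAt.toInf {x : ℕ → X} {p : Boundary X} (h : EndsAt x p) : ToInfinity x x := h.1

theorem gp_nonneg (o x y : X) : 0 ≤ gromovProduct o x y := by
  unfold gromovProduct
  have := dist_triangle x o y
  rw [dist_comm x o] at this
  linarith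

theorem gp_le_left (o x y : X) : gromovProduct o x y ≤ dist o x := by
  unfold gromovProduct
  have := dist_triangle o x y
  linarith

theorem gp_le_right (o x y : X) : gromovProduct o x y ≤ dist o y := by
  rw [gp_comm]
  exact gp_le_left o y x

theorem gp_self (o x : X) : gromovProduct o x x = dist o x := by
  unfold gromovProduct
  rw [dist_self]
  ring

/-- `(x|y)_o + (o|y)_x = d(o,x)` -/
theorem gp_add (o x y : X) : gromovProduct o x y + gromovProduct x o y = dist o x := by
  unfold gromovProduct
  rw [dist_comm x o]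
  ring

theorem gp_dist_right (o x y y' : X) :
    |gromovProduct o x y - gromovProduct o x y'| ≤ dist y y' := by
  unfold gromovProduct
  have h1 := dist_triangle o y y'
  have h2 := dist_triangle o y' y
  have h3 := dist_triangle x y y'
  have h4 := dist_triangle x y' y
  rw [dist_comm y' y] at h2 h4
  rw [abs_le]
  constructor <;> linarith

theorem gp_dist_left (o x x' y : X) :
    |gromovProduct o x y - gromovProduct o x' y| ≤ dist x x' := by
  rw [gp_comm o x, gp_comm o x']
  exact gp_dist_right o y x x'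

/-- products of sequences with ends: if `x` and `y` end at the same point, `(x_i|y_j) → ∞` -/
theorem EndsAt.toInfinity {o : X} {δ c : ℝ} (hg : Geo H X o δ c) {x y : ℕ → X} {p : Boundary X}
    (hx : EndsAt x p) (hy : EndsAt y p) : ToInfinity x y := by
  have key : ∀ u v : GromovSeq X, Boundary.mk u = Boundary.mk v → ToInfinity u.1 v.1 := by
    intro u v huv
    let r : Setoid (GromovSeq X) :=
      { r := fun x y => ToInfinity x.1 y.1
        iseqv :=
          { refl := fun x => x.2
            symm := by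
              intro x y h o'
              have h1 := h o'
              have h2 : Tendsto (fun p : ℕ × ℕ => (p.2, p.1)) atTop atTop := by
                rw [← prod_atTop_atTop_eq]
                exact tendsto_prod_swap
              have h3 := h1.comp h2
              refine h3.congr ?_
              intro p
              exact gp_comm _ _ _
            trans := by
              intro x y z h h'
              apply toInfinity_of o
              intro s
              have h1 := h o
              have h2 := h' o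
              rw [tendsto_atTop] at h1 h2
              have h3 := h1 (s + δ)
              have h4 := h2 (s + δ)
              rw [← prod_atTop_atTop_eq, eventually_prod_iff] at h3 h4 ⊢
              obtain ⟨pa, hpa, pb, hpb, h5⟩ := h3
              obtain ⟨pc, hpc, pd, hpd, h6⟩ := h4
              obtain ⟨k, hk⟩ := (hpb.and hpc).exists
              refine ⟨pa, hpa, pd, hpd, ?_⟩
              intro i hi j hj
              have h7 := h5 hi hk.1
              have h8 := h6 hk.2 hj
              have h9 := hg.hyp o (x.1 i) (y.1 k) (z.1 j)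
              have h10 : s + δ ≤ min (gromovProduct o (x.1 i) (y.1 k))
                  (gromovProduct o (y.1 k) (z.1 j)) := le_min h7 h8
              linarith } }
    have h1 : Quotient.mk r u = Quotient.mk r v := huv
    exact Quotient.exact h1
  obtain ⟨hxx, rfl⟩ := hx
  obtain ⟨hyy, h⟩ := hy
  exact key ⟨x, hxx⟩ ⟨y, hyy⟩ h.symm

end Pool.Agent.CTZ
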