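import Pool.Agent.CTZ.GDefs

/-!
# Row GB: the geometric data exist
-/

open Filter Topology Set Pool.Agent.Helper68.CT

namespace Pool.Agent.CTZ

variable {H X : Type} [Group H] [MetricSpace X] [MulAction H X]

theorem gb_base (o o' x y : X) :
    |gromovProduct o x y - gromovProduct o' x y| ≤ dist o o' := by
  unfold gromovProduct
  have h1 : dist o x ≤ dist o o' + dist o' x := dist_triangle _ _ _
  have h2 : dist o' x ≤ dist o o' + dist o x := by
    rw [dist_comm o o']; exact dist_triangle _ _ _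
  have h3 : dist o y ≤ dist o o' + dist o' y := dist_triangle _ _ _
  have h4 : dist o' y ≤ dist o o' + dist o y := by
    rw [dist_comm o o']; exact dist_triangle _ _ _
  rw [abs_le]
  constructor <;> linarith

theorem gb_left (o x x' y : X) :
    |gromovProduct o x y - gromovProduct o x' y| ≤ dist x x' := by
  unfold gromovProduct
  have h1 : dist o x ≤ dist o x' + dist x' x := dist_triangle _ _ _
  have h2 : dist o x' ≤ dist o x + dist x x' := dist_triangle _ _ _
  have h3 : dist x y ≤ dist x x' + dist x' y := dist_triangle _ _ _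
  have h4 : dist x' y ≤ dist x' x + dist x y := dist_triangle _ _ _
  rw [dist_comm x' x] at h1 h4
  rw [abs_le]
  constructor <;> linarith

theorem gb_toInfinity (o : X) {x y : ℕ → X}
    (h : ∀ s : ℝ, ∃ N : ℕ, ∀ i j : ℕ, N ≤ i → N ≤ j → s ≤ gromovProduct o (x i) (y j)) :
    ToInfinity x y := by
  intro o'
  rw [tendsto_atTop]
  intro s
  obtain ⟨N, hN⟩ := h (s + dist o o')
  filter_upwards [eventually_ge_atTop (N, N)] with p hp
  have h1 := hN p.1 p.2 hp.1 hp.2
  have hb := abs_le.1 (gb_base o o' (x p.1) (y p.2))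
  linarith

theorem gb_ofInfinity (o : X) {x y : ℕ → X} (h : ToInfinity x y) (s : ℝ) :
    ∃ N : ℕ, ∀ i j : ℕ, N ≤ i → N ≤ j → s ≤ gromovProduct o (x i) (y j) := by
  have h1 := (tendsto_atTop.1 (h o)) s
  rw [eventually_atTop] at h1
  obtain ⟨⟨a, b⟩, hab⟩ := h1
  exact ⟨max a b, fun i j hi hj => hab (i, j) ⟨(le_max_left a b).trans hi, (le_max_right a b).trans hj⟩⟩

theorem gb_fin [ProperSpace X] (h3 : GeometricAction H X) (o : X) (r : ℝ) :
    {h : H | dist o (h • o) ≤ r}.Finite := by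
  refine (h3.properlyDiscontinuous (Metric.closedBall o (max r 0))
    (isCompact_closedBall _ _)).subset ?_
  intro h hh
  refine ⟨h • o, ⟨o, ?_, rfl⟩, ?_⟩
  · exact Metric.mem_closedBall_self (le_max_right _ _)
  · rw [Metric.mem_closedBall, dist_comm]
    exact le_trans hh (le_max_left _ _)

theorem gb_near (h3 : GeometricAction H X) (o : X) :
    ∃ ρ : ℝ, 0 ≤ ρ ∧ ∀ x : X, ∃ h : H, dist x (h • o) ≤ ρ := by
  obtain ⟨K, hK, hc⟩ := h3.cocompact
  obtain ⟨ρ, hρ⟩ := hK.isBounded.subset_closedBall o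
  refine ⟨max ρ 0, le_max_right _ _, fun x => ?_⟩
  obtain ⟨h, k, hk, rfl⟩ := hc x
  refine ⟨h, ?_⟩
  rw [h3.isometric]
  exact (Metric.mem_closedBall.1 (hρ hk)).trans (le_max_left _ _)

theorem gb_rays [ProperSpace X] (h1 : GeodesicSpace X) {δ : ℝ} (hδ : 0 ≤ δ)
    (h2 : ∀ o x y z : X, min (gromovProduct o x y) (gromovProduct o y z) - δ ≤ gromovProduct o x z)
    (h3 : GeometricAction H X) (o : X) {ρ : ℝ} (hρ0 : 0 ≤ ρ)
    (hρ : ∀ x : X, ∃ h : H, dist x (h • o) ≤ ρ) (p : Boundary X) :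
    ∃ r : ℕ → H, IsRay o (2 * ρ) r ∧ EndsAt (fun n => r n • o) p := by
  classical
  obtain ⟨x, hx⟩ : ∃ x : GromovSeq X, Boundary.mk x = p := Quot.exists_rep p
  choose γ hγ0 hγ1 hγ using fun n => h1 o (x.1 n)
  choose nr hnr using hρ
  -- the approximating positions
  let hh : ℕ → ℕ → H := fun n m => if m = 0 then 1 else nr (γ n m)
  have hdist : ∀ n m : ℕ, dist (γ n m) (hh n m • o) ≤ ρ := by
    intro n m
    by_cases hm : m = 0
    · subst hm
      simp only [hh, if_true, one_smul, Nat.cast_zero, hγ0, dist_self]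
      exact hρ0
    · simp only [hh, if_neg hm]
      exact hnr _
  have hxs := gb_ofInfinity o x.2
  have hdn : ∀ s : ℝ, ∃ N : ℕ, ∀ n, N ≤ n → s ≤ dist o (x.1 n) := by
    intro s
    obtain ⟨N, hN⟩ := hxs s
    refine ⟨N, fun n hn => ?_⟩
    have := hN n n hn hn
    unfold gromovProduct at this
    rw [dist_self] at this
    linarith
  have hdnU : ∀ s : ℝ, ∀ᶠ n in (hyperfilter ℕ : Filter ℕ), s ≤ dist o (x.1 n) := by
    intro s
    obtain ⟨N, hN⟩ := hdn s
    exact Nat.hyperfilter_le_atTop (eventually_atTop.2 ⟨N, hN⟩)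
  have hmem : ∀ m n : ℕ, (m : ℝ) ≤ dist o (x.1 n) → dist o (γ n m) = m := by
    intro m n hmn
    have h4 := hγ n 0 ⟨le_rfl, dist_nonneg⟩ m ⟨Nat.cast_nonneg m, hmn⟩
    rw [hγ0, zero_sub, abs_neg, abs_of_nonneg (Nat.cast_nonneg m)] at h4
    exact h4
  have hstab : ∀ m : ℕ, ∃ r : H, ∀ᶠ n in (hyperfilter ℕ : Filter ℕ), hh n m = r := by
    intro m
    have hfin := gb_fin h3 o ((m : ℝ) + ρ)
    have hev : ∀ᶠ n in (hyperfilter ℕ : Filter ℕ), ∃ a ∈ {h : H | dist o (h • o) ≤ (m : ℝ) + ρ},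
        hh n m = a := by
      filter_upwards [hdnU m] with n hn
      refine ⟨hh n m, ?_, rfl⟩
      have h5 := hmem m n hn
      have h6 := hdist n m
      have h7 : dist o (hh n m • o) ≤ dist o (γ n m) + dist (γ n m) (hh n m • o) :=
        dist_triangle _ _ _
      change dist o (hh n m • o) ≤ (m : ℝ) + ρ
      linarith
    obtain ⟨a, -, ha⟩ := (Ultrafilter.eventually_exists_mem_iff hfin).1 hev
    exact ⟨a, ha⟩
  choose r hr using hstab
  have hr0 : r 0 = 1 := by
    obtain ⟨n, hn⟩ := (hr 0).exists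
    rw [← hn]
    simp [hh]
  have hray : ∀ m n : ℕ, abs (dist (r m • o) (r n • o) - |(m : ℝ) - n|) ≤ 2 * ρ := by
    intro m m'
    obtain ⟨n, ⟨⟨hn1, hn2⟩, hn3⟩, hn4⟩ :=
      ((((hr m).and (hr m')).and (hdnU m)).and (hdnU m')).exists
    have h4 := hγ n m ⟨Nat.cast_nonneg m, hn3⟩ m' ⟨Nat.cast_nonneg m', hn4⟩
    have h5 := hdist n m
    have h6 := hdist n m'
    rw [hn1] at h5
    rw [hn2] at h6
    have h7 : dist (r m • o) (r m' • o) ≤ dist (γ n m) (r m • o) + dist (γ n m) (γ n m') +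
        dist (γ n m') (r m' • o) := by
      have := dist_triangle4 (r m • o) (γ n m) (γ n m') (r m' • o)
      rw [dist_comm (r m • o) (γ n m)] at this
      exact this
    have h8 : dist (γ n m) (γ n m') ≤ dist (γ n m) (r m • o) + dist (r m • o) (r m' • o) +
        dist (γ n m') (r m' • o) := by
      have := dist_triangle4 (γ n m) (r m • o) (r m' • o) (γ n m')
      rw [dist_comm (r m' • o) (γ n m')] at this
      exact this
    rw [h4] at h7 h8
    rw [abs_le]
    constructor <;> linarith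
  have hro : ∀ m : ℕ, |dist o (r m • o) - m| ≤ 2 * ρ := by
    intro m
    have := hray 0 m
    rw [hr0, one_smul, Nat.cast_zero, zero_sub, abs_neg,
      abs_of_nonneg (Nat.cast_nonneg m : (0 : ℝ) ≤ (m : ℝ))] at this
    exact this
  have hself : ToInfinity (fun n => r n • o) (fun n => r n • o) := by
    apply gb_toInfinity o
    intro s
    obtain ⟨N, hN⟩ := exists_nat_ge (s + 3 * ρ)
    refine ⟨N, fun i j hi hj => ?_⟩
    have h4 := abs_le.1 (hro i)
    have h5 := abs_le.1 (hro j)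
    have h6 := abs_le.1 (hray i j)
    have h7 : (N : ℝ) ≤ i := Nat.cast_le.2 hi
    have h8 : (N : ℝ) ≤ j := Nat.cast_le.2 hj
    unfold gromovProduct
    rcases le_total (i : ℝ) j with hij | hij
    · rw [abs_of_nonpos (by linarith)] at h6
      linarith
    · rw [abs_of_nonneg (by linarith)] at h6
      linarith
  have hcross : ToInfinity (fun n => r n • o) x.1 := by
    apply gb_toInfinity o
    intro s
    obtain ⟨J, hJ⟩ := hxs (s + δ)
    obtain ⟨N, hN⟩ := exists_nat_ge (s + δ + ρ)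
    refine ⟨max J N, fun m j hm hj => ?_⟩
    have hJU : ∀ᶠ n in (hyperfilter ℕ : Filter ℕ), J ≤ n :=
      Nat.hyperfilter_le_atTop (eventually_ge_atTop J)
    obtain ⟨n, ⟨hn1, hn2⟩, hn3⟩ := (((hr m).and (hdnU m)).and hJU).exists
    have h4 := hJ n j hn3 ((le_max_left _ _).trans hj)
    have h5 : gromovProduct o (γ n m) (x.1 n) = m := by
      unfold gromovProduct
      have h6 := hγ n m ⟨Nat.cast_nonneg m, hn2⟩ (dist o (x.1 n)) ⟨dist_nonneg, le_rfl⟩
      rw [hγ1, abs_of_nonpos (by linarith)] at h6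
      rw [hmem m n hn2, h6]
      ring
    have h6 := abs_le.1 (gb_left o (γ n m) (r m • o) (x.1 n))
    have h7 := hdist n m
    rw [hn1] at h7
    have h8 : (N : ℝ) ≤ m := Nat.cast_le.2 ((le_max_right _ _).trans hm)
    have h9 := h2 o (r m • o) (x.1 n) (x.1 j)
    have h10 : s + δ ≤ gromovProduct o (r m • o) (x.1 n) := by linarith
    have h11 : s + δ ≤ min (gromovProduct o (r m • o) (x.1 n)) (gromovProduct o (x.1 n) (x.1 j)) :=
      le_min h10 h4
    linarith
  refine ⟨r, ⟨hr0, hray⟩, hself, ?_⟩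
  rw [← hx]
  exact Quot.sound hcross

theorem exists_geo [ProperSpace X] (h1 : GeodesicSpace X) (h2 : GromovHyperbolic X)
    (h3 : GeometricAction H X) (o : X) : ∃ δ c : ℝ, Geo H X o δ c := by
  obtain ⟨δ, hδ⟩ := h2
  obtain ⟨ρ, hρ0, hρ⟩ := gb_near h3 o
  have hδ' : ∀ o x y z : X, min (gromovProduct o x y) (gromovProduct o y z) - max δ 0 ≤
      gromovProduct o x z := by
    intro o x y z
    have := hδ o x y z
    have := le_max_left δ 0
    linarith
  refine ⟨max δ 0, 2 * ρ, ?_⟩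
  exact
    { isom := h3.isometric
      δ0 := le_max_right _ _
      c0 := by linarith
      hyp := hδ'
      fin := gb_fin h3 o
      rays := gb_rays h1 (le_max_right _ _) hδ' h3 o hρ0 hρ }

end Pool.Agent.CTZ
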