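import Pool.Agent.CTZ.KDefs
import Pool.Agent.CTZ.GA
import Pool.Agent.CTZ.GB

/-!
# Row K1: an infinite subgroup contains a loxodromic element
-/

open Filter Topology Set Pool.Agent.Helper68.CT

namespace Pool.Agent.CTZ

section K1

variable {H X : Type} [Group H] [MetricSpace X] [MulAction H X]

theorem exists_mid (h1 : GeodesicSpace X) (h3 : GeometricAction H X) (o : X) :
    ∃ c, Mid H o c := by
  obtain ⟨ρ, hρ0, hρ⟩ := gb_near h3 o
  refine ⟨ρ, ?_⟩
  intro t k hk0 hk1
  obtain ⟨γ, hγ0, hγ1, hγ⟩ := h1 o (t • o)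
  obtain ⟨v, hv⟩ := hρ (γ k)
  have e1 : dist o (γ k) = k := by
    have := hγ 0 ⟨le_rfl, dist_nonneg⟩ k ⟨hk0, hk1⟩
    rw [hγ0, zero_sub, abs_neg, abs_of_nonneg hk0] at this
    exact this
  have e2 : dist (γ k) (t • o) = dist o (t • o) - k := by
    have := hγ k ⟨hk0, hk1⟩ (dist o (t • o)) ⟨dist_nonneg, le_rfl⟩
    rw [hγ1, abs_of_nonpos (by linarith)] at this
    linarith
  refine ⟨v, ?_, ?_⟩
  · rw [abs_le]
    have a1 := dist_triangle o (γ k) (v • o)
    have a2 := dist_triangle o (v • o) (γ k)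
    rw [dist_comm (v • o) (γ k)] at a2
    constructor <;> linarith
  · rw [abs_le]
    have a1 := dist_triangle (γ k) (v • o) (t • o)
    have a2 := dist_triangle (v • o) (γ k) (t • o)
    rw [dist_comm (v • o) (γ k)] at a2
    constructor <;> linarith

theorem k1_dist {o : X} {δ c : ℝ} (hg : Geo H X o δ c) (g h : H) :
    dist (g • o) (h • o) = dist o ((g⁻¹ * h) • o) := by
  have := hg.isom g o ((g⁻¹ * h) • o)
  rw [← mul_smul, mul_inv_cancel_left] at this
  exact this

theorem k1_inv {o : X} {δ c : ℝ} (hg : Geo H X o δ c) (g : H) :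
    dist o (g⁻¹ • o) = dist o (g • o) := by
  have := k1_dist hg g 1
  rw [mul_one, one_smul] at this
  rw [← this, dist_comm]

theorem k1_left {o : X} {δ c : ℝ} (hg : Geo H X o δ c) (g h k : H) :
    dist ((g * h) • o) ((g * k) • o) = dist (h • o) (k • o) := by
  rw [mul_smul, mul_smul, hg.isom]

/-- in a subgroup without loxodromic elements all products are large -/
theorem k1_claim {o : X} {δ c : ℝ} (hg : Geo H X o δ c) (S : Subgroup H)
    (hno : ∀ s ∈ S, dist o (s • o) ≤ 2 * gromovProduct o (s • o) (s⁻¹ • o) + 10 * δ + 10)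
    (s t : H) (hs : s ∈ S) (ht : t ∈ S) :
    min (dist o (s • o)) (dist o (t • o)) / 2 - (6 * δ + 6) ≤
      gromovProduct o (s • o) (t • o) := by
  by_contra hlt
  push Not at hlt
  have hδ := hg.δ0
  have m1 := min_le_left (dist o (s • o)) (dist o (t • o))
  have m2 := min_le_right (dist o (s • o)) (dist o (t • o))
  have n1 := hno s hs
  have n2 := hno t ht
  have n3 := hno (s * t) (S.mul_mem hs ht)
  -- `(s⁻¹|t) ≤ p + δ`
  have q1 : gromovProduct o (s⁻¹ • o) (t • o) ≤ gromovProduct o (s • o) (t • o) + δ := by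
    by_contra hc
    push Not at hc
    have := hg.hyp o (s • o) (s⁻¹ • o) (t • o)
    have h2 : gromovProduct o (s • o) (t • o) + δ <
        min (gromovProduct o (s • o) (s⁻¹ • o)) (gromovProduct o (s⁻¹ • o) (t • o)) :=
      lt_min (by linarith) hc
    linarith
  -- `(s|t⁻¹) ≤ p + δ`
  have q2 : gromovProduct o (s • o) (t⁻¹ • o) ≤ gromovProduct o (s • o) (t • o) + δ := by
    by_contra hc
    push Not at hc
    have := hg.hyp o (s • o) (t⁻¹ • o) (t • o)
    have h2 : gromovProduct o (s • o) (t • o) + δ <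
        min (gromovProduct o (s • o) (t⁻¹ • o)) (gromovProduct o (t⁻¹ • o) (t • o)) := by
      refine lt_min hc ?_
      rw [gp_comm o (t⁻¹ • o) (t • o)]
      linarith
    linarith
  -- lengths
  have u1 : dist o ((s * t) • o) =
      dist o (s • o) + dist o (t • o) - 2 * gromovProduct o (s⁻¹ • o) (t • o) := by
    unfold gromovProduct
    rw [k1_dist hg s⁻¹ t, inv_inv, k1_inv hg s]
    ring
  have u2 : gromovProduct o (s • o) ((s * t) • o) =
      dist o (s • o) - gromovProduct o (s⁻¹ • o) (t • o) := by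
    have e : dist (s • o) ((s * t) • o) = dist o (t • o) := by
      rw [k1_dist hg, inv_mul_cancel_left]
    have e2 : gromovProduct o (s • o) ((s * t) • o) =
      (dist o (s • o) + dist o ((s * t) • o) - dist (s • o) ((s * t) • o)) / 2 := rfl
    rw [e2, e, u1]
    ring
  have u3 : gromovProduct o ((s * t)⁻¹ • o) (t⁻¹ • o) =
      dist o (t • o) - gromovProduct o (s⁻¹ • o) (t • o) := by
    have e : dist ((s * t)⁻¹ • o) (t⁻¹ • o) = dist o (s • o) := by
      rw [k1_dist hg, inv_inv, mul_inv_cancel_right]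
    have e2 : gromovProduct o ((s * t)⁻¹ • o) (t⁻¹ • o) =
      (dist o ((s * t)⁻¹ • o) + dist o (t⁻¹ • o) - dist ((s * t)⁻¹ • o) (t⁻¹ • o)) / 2 := rfl
    rw [e2, e, k1_inv hg (s * t), k1_inv hg t, u1]
    ring
  -- `(u|u⁻¹) ≤ p + 3 δ`
  have q3 : gromovProduct o ((s * t) • o) ((s * t)⁻¹ • o) ≤
      gromovProduct o (s • o) (t • o) + 3 * δ := by
    by_contra hc
    push Not at hc
    have h1 := hg.hyp o (s • o) ((s * t) • o) ((s * t)⁻¹ • o)
    have h2 := hg.hyp o (s • o) ((s * t)⁻¹ • o) (t⁻¹ • o)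
    have h3 : gromovProduct o (s • o) (t • o) + 3 * δ <
        min (gromovProduct o (s • o) ((s * t) • o))
          (gromovProduct o ((s * t) • o) ((s * t)⁻¹ • o)) := by
      refine lt_min ?_ hc
      rw [u2]
      linarith
    have h4 : gromovProduct o (s • o) (t • o) + 2 * δ <
        min (gromovProduct o (s • o) ((s * t)⁻¹ • o))
          (gromovProduct o ((s * t)⁻¹ • o) (t⁻¹ • o)) := by
      refine lt_min (by linarith) ?_
      rw [u3]
      linarith
    linarith
  linarith

theorem exists_loxo {o : X} {δ c c' : ℝ} (hg : Geo H X o δ c) (hm : Mid H o c') (S : Subgroup H)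
    (hS : (S : Set H).Infinite) : ∃ g ∈ S, Lox o δ g := by
  by_contra hcon
  push Not at hcon
  have hδ := hg.δ0
  have hno : ∀ s ∈ S, dist o (s • o) ≤
      2 * gromovProduct o (s • o) (s⁻¹ • o) + 10 * δ + 10 := by
    intro s hs
    have := hcon s hs
    unfold Lox at this
    linarith
  have claim := k1_claim hg S hno
  set C2 : ℝ := 6 * δ + 6 with hC2
  set C4 : ℝ := 6 * C2 + 4 * c' + 6 * δ with hC4
  have hfin := hg.fin C4
  -- a finite set with too many elements
  obtain ⟨F, hFS, hFc⟩ := hS.exists_subset_card_eq (hfin.toFinset.card + 1)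
  obtain ⟨M, hM⟩ : ∃ M : ℝ, ∀ s ∈ F, dist o (s • o) ≤ M := by
    obtain ⟨M, hM⟩ := (F.image fun s => dist o (s • o)).bddAbove
    exact ⟨M, fun s hs => hM (by simpa using ⟨s, hs, rfl⟩)⟩
  -- a long element
  obtain ⟨t, htS, ht⟩ : ∃ t ∈ S, 8 * |M| + 8 * C2 + 8 * |c'| + 8 < dist o (t • o) := by
    by_contra hc
    push Not at hc
    exact hS ((hg.fin (8 * |M| + 8 * C2 + 8 * |c'| + 8)).subset fun t ht => hc t ht)
  have hMa := le_abs_self M
  have hMn := abs_nonneg M
  have hca := le_abs_self c'
  have hcn := abs_nonneg c'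
  obtain ⟨v, hv1, hv2⟩ := hm t (dist o (t • o) / 4) (by positivity) (by linarith [dist_nonneg (x := o) (y := t • o)])
  rw [abs_le] at hv1 hv2
  have key : ∀ s ∈ F, v⁻¹ * s * v ∈ hfin.toFinset := by
    intro s hsF
    have hsS : s ∈ S := hFS hsF
    have hsM := hM s hsF
    have hs0 : 0 ≤ dist o (s • o) := dist_nonneg
    rw [Set.Finite.mem_toFinset]
    show dist o ((v⁻¹ * s * v) • o) ≤ C4
    have e0 : dist (v • o) ((s * v) • o) = dist o ((v⁻¹ * s * v) • o) := by
      rw [k1_dist hg, mul_assoc]
    rw [← e0]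
    -- the length of `s t`
    have len : ∀ a b : H, dist o ((a * b) • o) =
        dist o (a • o) + dist o (b • o) - 2 * gromovProduct o (a⁻¹ • o) (b • o) := by
      intro a b
      unfold gromovProduct
      rw [k1_dist hg a⁻¹ b, inv_inv, k1_inv hg a]
      ring
    have c1 := claim s⁻¹ t (S.inv_mem hsS) htS
    rw [k1_inv hg s, min_eq_left (by linarith)] at c1
    have l1 := len s t
    have l2 : dist o (t • o) - dist o (s • o) ≤ dist o ((s * t) • o) := by
      have h1 := len s t
      have h2 := gp_le_left o (s⁻¹ • o) (t • o)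
      rw [k1_inv hg s] at h2
      linarith
    have c2 := claim s (s * t) hsS (S.mul_mem hsS htS)
    rw [min_eq_left (by linarith)] at c2
    have l3 := len s⁻¹ (s * t)
    rw [inv_mul_cancel_left, k1_inv hg s, inv_inv] at l3
    -- `|st| ≥ |t| - 2 C2`
    have l4 : dist o (t • o) - 2 * C2 ≤ dist o ((s * t) • o) := by linarith
    have c3 := claim t (s * t) htS (S.mul_mem hsS htS)
    have l5 : dist o (t • o) / 2 - 2 * C2 ≤ gromovProduct o (t • o) ((s * t) • o) := by
      have : dist o (t • o) - 2 * C2 ≤ min (dist o (t • o)) (dist o ((s * t) • o)) :=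
        le_min (by linarith) l4
      linarith
    -- products with `v`
    have d1 : gromovProduct o (v • o) (t • o) =
      (dist o (v • o) + dist o (t • o) - dist (v • o) (t • o)) / 2 := rfl
    have d2 : dist o (t • o) / 4 - c' ≤ gromovProduct o (v • o) (t • o) := by
      rw [d1]
      linarith
    have l6 := len s v
    have d3 : dist o (s • o) / 2 - C2 - δ ≤ gromovProduct o (s⁻¹ • o) (v • o) := by
      have h1 := hg.hyp o (s⁻¹ • o) (t • o) (v • o)
      rw [gp_comm o (t • o) (v • o)] at h1
      have h2 : dist o (s • o) / 2 - C2 ≤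
          min (gromovProduct o (s⁻¹ • o) (t • o)) (gromovProduct o (v • o) (t • o)) :=
        le_min c1 (by linarith)
      linarith
    have l7 : dist o ((s * v) • o) ≤ dist o (v • o) + 2 * C2 + 2 * δ := by linarith
    have e1 : dist ((s * v) • o) ((s * t) • o) = dist (v • o) (t • o) := k1_left hg s v t
    have l8 : dist o ((s * t) • o) ≤ dist o ((s * v) • o) + dist (v • o) (t • o) := by
      rw [← e1]
      exact dist_triangle _ _ _
    have d4 : gromovProduct o ((s * t) • o) ((s * v) • o) =
      (dist o ((s * t) • o) + dist o ((s * v) • o) - dist (v • o) (t • o)) / 2 := by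
      unfold gromovProduct
      rw [dist_comm ((s * t) • o), e1]
    have d5 : dist o (t • o) / 4 - 2 * C2 - c' ≤
        gromovProduct o ((s * t) • o) ((s * v) • o) := by
      rw [d4]
      linarith
    have h1 := hg.hyp o (v • o) (t • o) ((s * t) • o)
    have h2 := hg.hyp o (v • o) ((s * t) • o) ((s * v) • o)
    have h3 : dist o (t • o) / 4 - 2 * C2 - c' ≤
        min (gromovProduct o (v • o) (t • o)) (gromovProduct o (t • o) ((s * t) • o)) :=
      le_min (by linarith) (by linarith)
    have h4 : dist o (t • o) / 4 - 2 * C2 - c' - δ ≤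
        min (gromovProduct o (v • o) ((s * t) • o))
          (gromovProduct o ((s * t) • o) ((s * v) • o)) :=
      le_min (by linarith) (by linarith)
    have d6 : gromovProduct o (v • o) ((s * v) • o) =
      (dist o (v • o) + dist o ((s * v) • o) - dist (v • o) ((s * v) • o)) / 2 := rfl
    linarith
  have hle : F.card ≤ hfin.toFinset.card := by
    refine Finset.card_le_card_of_injOn (fun s => v⁻¹ * s * v) (fun s hs => key s hs) ?_
    intro a _ b _ hab
    simpa using hab
  omega

end K1

end Pool.Agent.CTZ
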