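import Pool.Agent.CTZ.GA

/-!
# More on ends
-/

open Filter Topology Set Pool.Agent.Helper68.CT

namespace Pool.Agent.CTZ

section G

variable {H X : Type} [Group H] [MetricSpace X] [MulAction H X]

theorem ray_one {o : X} {c : ℝ} {r : ℕ → H} (hr : IsRay o c r) : r 0 • o = o := by
  rw [hr.1, one_smul]

theorem ray_dist {o : X} {c : ℝ} {r : ℕ → H} (hr : IsRay o c r) (m : ℕ) :
    |dist o (r m • o) - m| ≤ c := by
  have := hr.2 0 m
  rw [hr.1, one_smul] at this
  simpa using this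

theorem ToInfinity.ev {x y : ℕ → X} (h : ToInfinity x y) (o : X) (s : ℝ) :
    ∀ᶠ ij : ℕ × ℕ in atTop, s ≤ gromovProduct o (x ij.1) (y ij.2) :=
  (tendsto_atTop.1 (h o)) s

theorem EndsAt.eq_of {x y : ℕ → X} {p q : Boundary X} (hp : EndsAt x p) (hq : EndsAt y q)
    (h : ToInfinity x y) : p = q :=
  (hp.congr hq.1 h).unique hq

theorem ToInfinity.smul {o : X} {δ c : ℝ} (hg : Geo H X o δ c) {x y : ℕ → X}
    (h : ToInfinity x y) (g : H) : ToInfinity (fun n => g • x n) (fun n => g • y n) := by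
  refine toInfinity_of (g • o) fun s => ?_
  filter_upwards [ToInfinity.ev h o s] with ij hij
  rwa [gp_smul hg]

theorem ray_toInfinity {o : X} {c : ℝ} {r : ℕ → H} (hr : IsRay o c r) :
    ToInfinity (fun n => r n • o) (fun n => r n • o) := by
  refine toInfinity_of o fun s => ?_
  obtain ⟨N, hN⟩ := exists_nat_ge (s + 3 * c / 2)
  filter_upwards [eventually_ge_atTop ((N, N) : ℕ × ℕ)] with ij hij
  have h1 : (N : ℝ) ≤ ij.1 := by exact_mod_cast hij.1
  have h2 : (N : ℝ) ≤ ij.2 := by exact_mod_cast hij.2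
  have h3 := ray_gp hr ij.1 ij.2
  have h4 : (N : ℝ) ≤ min (ij.1 : ℝ) ij.2 := le_min h1 h2
  linarith

theorem line_toInfinity {o : X} {c : ℝ} {l : ℤ → H} (hl : IsLine o c l) (j j' : ℤ) :
    ToInfinity (fun n : ℕ => l (n + j) • o) (fun n : ℕ => l (n + j') • o) := by
  refine toInfinity_of (l 0 • o) fun s => ?_
  obtain ⟨N, hN⟩ := exists_nat_ge (s + 3 * c / 2 + |(j : ℝ)| + |(j' : ℝ)|)
  filter_upwards [eventually_ge_atTop ((N, N) : ℕ × ℕ)] with ij hij
  have h1 : (N : ℝ) ≤ ij.1 := by exact_mod_cast hij.1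
  have h2 : (N : ℝ) ≤ ij.2 := by exact_mod_cast hij.2
  have h3 := line_gp hl 0 (ij.1 + j) (ij.2 + j')
  push_cast at h3
  simp only [sub_zero] at h3
  have a1 := abs_le.1 (le_refl |(j : ℝ)|)
  have a2 := abs_le.1 (le_refl |(j' : ℝ)|)
  have b1 : (ij.1 : ℝ) + j ≤ |(ij.1 : ℝ) + j| := le_abs_self _
  have b2 : (ij.2 : ℝ) + j' ≤ |(ij.2 : ℝ) + j'| := le_abs_self _
  have b3 : |(ij.1 : ℝ) + j - (ij.2 + j')| ≤
      (ij.1 : ℝ) + j + (ij.2 + j') - 2 * (N - |(j : ℝ)| - |(j' : ℝ)|) := by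
    rw [abs_le]
    constructor <;> nlinarith [abs_nonneg (j : ℝ), abs_nonneg (j' : ℝ)]
  linarith

theorem line_toInfinity_neg {o : X} {c : ℝ} {l : ℤ → H} (hl : IsLine o c l) (j j' : ℤ) :
    ToInfinity (fun n : ℕ => l (-(n : ℤ) + j) • o) (fun n : ℕ => l (-(n : ℤ) + j') • o) := by
  have hl' : IsLine o c (fun k => l (-k)) := by
    intro m n
    have := hl (-m) (-n)
    push_cast at this
    rw [show -(m : ℝ) - -(n : ℝ) = -((m : ℝ) - n) by ring, abs_neg] at this
    exact this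
  have := line_toInfinity hl' (-j) (-j')
  refine (congrArg₂ ToInfinity (funext fun n => ?_) (funext fun n => ?_)).mp this
  · congr 2; ring
  · congr 2; ring

theorem line_ends_pos {o : X} {c : ℝ} {l : ℤ → H} (hl : IsLine o c l) :
    ∃ p, EndsAt (fun n : ℕ => l n • o) p := by
  have h := line_toInfinity hl 0 0
  simp only [add_zero] at h
  exact ⟨_, h, rfl⟩

theorem line_ends_neg {o : X} {c : ℝ} {l : ℤ → H} (hl : IsLine o c l) :
    ∃ p, EndsAt (fun n : ℕ => l (-(n : ℤ)) • o) p := by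
  have h := line_toInfinity_neg hl 0 0
  simp only [add_zero] at h
  exact ⟨_, h, rfl⟩

theorem EndsAt.subseq {x : ℕ → X} {p : Boundary X} (hx : EndsAt x p) {φ : ℕ → ℕ}
    (hφ : Tendsto φ atTop atTop) : EndsAt (fun n => x (φ n)) p := by
  obtain ⟨hT, hp⟩ := hx
  have h1 : ToInfinity x (fun n => x (φ n)) := by
    intro o
    rw [tendsto_atTop]
    intro s
    have h : Tendsto (fun ij : ℕ × ℕ => (ij.1, φ ij.2)) atTop atTop := by
      rw [← Filter.prod_atTop_atTop_eq]
      exact tendsto_fst.prodMk (hφ.comp tendsto_snd)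
    filter_upwards [h.eventually (ToInfinity.ev hT o s)] with ij hij
    exact hij
  have h2 : ToInfinity (fun n => x (φ n)) (fun n => x (φ n)) := by
    intro o
    rw [tendsto_atTop]
    intro s
    have h : Tendsto (fun ij : ℕ × ℕ => (φ ij.1, φ ij.2)) atTop atTop := by
      rw [← Filter.prod_atTop_atTop_eq]
      exact (hφ.comp tendsto_fst).prodMk (hφ.comp tendsto_snd)
    filter_upwards [h.eventually (ToInfinity.ev hT o s)] with ij hij
    exact hij
  exact EndsAt.congr ⟨hT, hp⟩ h2 h1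

end G

end Pool.Agent.CTZ
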