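import Pool.Agent.CTZ.GDefs

/-!
# The line system of a Cannon-Thurston map, the halving relation (definitions)
-/

open Filter Topology Set Pool.Agent.Helper68.CT

namespace Pool.Agent.CTZ

variable {H X Z : Type} [Group H] [MetricSpace X] [MulAction H X]

/-- `S` is the system of lines whose ends are identified by `i` -/
structure IsSys [TopologicalSpace Z] [MulAction H Z] (o : X) (c : ℝ) (i : Boundary X → Z)
    (S : LineSys H Z) : Prop where
  mem : ∀ l, l ∈ S.lines ↔ IsLine o c l ∧ ∃ p q, EndsAt (fun n : ℕ => l n • o) p ∧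
    EndsAt (fun n : ℕ => l (-(n : ℤ)) • o) q ∧ i p = i q
  cls : ∀ l ∈ S.lines, ∀ p, EndsAt (fun n : ℕ => l n • o) p → S.cls l = i p

/-- `g` is closer to `w` than to `1` -/
def Half (o : X) (g w : H) : Prop := dist o (w • o) / 2 ≤ gromovProduct o (g • o) (w • o)

end Pool.Agent.CTZ
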