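import Pool.Agent.CTZ.GA
import Pool.Agent.CTZ.GSys

/-!
# The loxodromic element of the stabiliser of a recurrent atom
-/

open Filter Topology Set MeasureTheory Pool.Agent.Helper68.CT

namespace Pool.Agent.CTZ

section G

variable {H X Z : Type} [Group H] [MetricSpace X] [MulAction H X]

/-- distance of powers -/
theorem GG.dist_pow {o : X} {δ c : ℝ} (hg : Geo H X o δ c) (g : H) (m n : ℕ) (h : m ≤ n) :
    dist (g ^ m • o) (g ^ n • o) = dist o (g ^ (n - m) • o) := by
  have h1 : g ^ n • o = g ^ m • (g ^ (n - m) • o) := by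
    rw [smul_smul, ← pow_add, Nat.add_sub_cancel' h]
  rw [h1, hg.isom]

theorem GG.dist_inv {o : X} {δ c : ℝ} (hg : Geo H X o δ c) (g : H) :
    dist o (g⁻¹ • o) = dist o (g • o) := by
  have h := hg.isom g o (g⁻¹ • o)
  rw [smul_inv_smul] at h
  rw [← h, dist_comm]

/-- the growth of powers -/
theorem GG.step {o : X} {δ c : ℝ} (hg : Geo H X o δ c) (g : H) (C₁ : ℝ)
    (h1 : gromovProduct o (g⁻¹ • o) (g • o) ≤ C₁) (h2 : 2 * C₁ + 2 * δ + 1 < dist o (g • o))
    (hC₁ : 0 ≤ C₁) (n : ℕ) : dist o (g ^ n • o) + 1 ≤ dist o (g ^ (n + 1) • o) := by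
  have hδ := hg.δ0
  induction n with
  | zero =>
    simp only [pow_zero, one_smul, dist_self, zero_add, pow_one]
    linarith
  | succ n ih =>
    -- p_n = (g⁻¹ | g^(n+1))
    have e1 : dist (g⁻¹ • o) (g ^ (n + 1) • o) = dist o (g ^ (n + 1 + 1) • o) := by
      have := hg.isom g (g⁻¹ • o) (g ^ (n + 1) • o)
      rw [← this, smul_inv_smul, smul_smul, ← pow_succ']
    have e2 : dist (g ^ (n + 1) • o) (g • o) = dist o (g ^ n • o) := by
      have := GG.dist_pow hg g 1 (n + 1) (by omega)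
      rw [pow_one] at this
      rw [dist_comm, this]
      simp
    have e3 := GG.dist_inv hg g
    have h3 := hg.hyp o (g⁻¹ • o) (g ^ (n + 1) • o) (g • o)
    have h4 : gromovProduct o (g ^ (n + 1) • o) (g • o) =
        (dist o (g ^ (n + 1) • o) + dist o (g • o) - dist o (g ^ n • o)) / 2 := by
      unfold gromovProduct
      rw [e2]
    have h5 : gromovProduct o (g⁻¹ • o) (g ^ (n + 1) • o) =
        (dist o (g • o) + dist o (g ^ (n + 1) • o) - dist o (g ^ (n + 1 + 1) • o)) / 2 := by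
      unfold gromovProduct
      rw [e1, e3]
    have h6 : gromovProduct o (g⁻¹ • o) (g ^ (n + 1) • o) ≤ C₁ + δ := by
      by_contra hcon
      push Not at hcon
      have h7 : C₁ + δ < gromovProduct o (g ^ (n + 1) • o) (g • o) := by
        rw [h4]; linarith
      have := lt_min hcon h7
      linarith
    rw [h5] at h6
    linarith

theorem GG.le_pow {o : X} (g : H)
    (hst : ∀ n : ℕ, dist o (g ^ n • o) + 1 ≤ dist o (g ^ (n + 1) • o)) (m n : ℕ) :
    dist o (g ^ n • o) + m ≤ dist o (g ^ (n + m) • o) := by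
  induction m with
  | zero => simp
  | succ m ih =>
    have := hst (n + m)
    have e : n + (m + 1) = n + m + 1 := by ring
    rw [e]
    push_cast
    linarith

/-- products of powers -/
theorem GG.pow_gp {o : X} {δ c : ℝ} (hg : Geo H X o δ c) (g : H)
    (hst : ∀ n : ℕ, dist o (g ^ n • o) + 1 ≤ dist o (g ^ (n + 1) • o)) (m n : ℕ) :
    min (m : ℝ) n ≤ gromovProduct o (g ^ m • o) (g ^ n • o) := by
  wlog h : m ≤ n with H
  · rw [gp_comm, min_comm]
    exact H hg g hst n m (by omega)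
  have h1 : min (m : ℝ) n ≤ m := min_le_left _ _
  have h2 := GG.le_pow g hst m 0
  have h3 := GG.le_pow g hst m (n - m)
  rw [Nat.sub_add_cancel h] at h3
  simp only [pow_zero, one_smul, dist_self, zero_add] at h2
  unfold gromovProduct
  rw [GG.dist_pow hg g m n h]
  linarith

theorem GG.toInf {o : X} {δ c : ℝ} (hg : Geo H X o δ c) (g : H)
    (hst : ∀ n : ℕ, dist o (g ^ n • o) + 1 ≤ dist o (g ^ (n + 1) • o)) :
    ToInfinity (fun n => g ^ n • o) (fun n => g ^ n • o) := by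
  apply toInfinity_of o
  intro s
  obtain ⟨N, hN⟩ := exists_nat_ge s
  filter_upwards [eventually_ge_atTop ((N, N) : ℕ × ℕ)] with ij hij
  have h1 : N ≤ ij.1 := hij.1
  have h2 : N ≤ ij.2 := hij.2
  have h3 := GG.pow_gp hg g hst ij.1 ij.2
  have h4 : (N : ℝ) ≤ min (ij.1 : ℝ) ij.2 := le_min (by exact_mod_cast h1) (by exact_mod_cast h2)
  linarith

/-- the limit of the powers is in the fibre -/
theorem GG.lim [TopologicalSpace Z] [T2Space Z] [MulAction H Z]
    {o : X} {δ c : ℝ} (hg : Geo H X o δ c) {C a : ℝ} {d : MetricSpace (Boundary X)}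
    (hv : Vis o C a d) {i : Boundary X → Z} (hi : CTMap (H := H) o i) (hc : ContinuousWith d i)
    (z : Z) (g : H) (hgz : g • z = z)
    (hst : ∀ n : ℕ, dist o (g ^ n • o) + 1 ≤ dist o (g ^ (n + 1) • o))
    (p e : Boundary X) (hp : EndsAt (fun n => g ^ n • o) p) (x : ℕ → X) (he : EndsAt x e)
    (hie : i e = z) (B : ℝ)
    (hB : ∀ k n : ℕ, gromovProduct o ((g⁻¹) ^ n • o) (x k) ≤ B) : i p = z := by
  have hq : ∀ n : ℕ, ∃ q, EndsAt (fun k => g ^ n • x k) q := fun n => he.smul hg (g ^ n)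
  choose q hq using hq
  have hiq : ∀ n, i (q n) = z := by
    intro n
    rw [hi.equiv (g ^ n) x e (q n) he (hq n), hie]
    induction n with
    | zero => simp
    | succ n ih => rw [pow_succ, mul_smul, hgz, ih]
  -- the distances
  have hd : ∀ n : ℕ, d.dist (q n) p ≤ C * a ^ (-((n : ℝ) - B - δ)) := by
    intro n
    refine hv.2.2 _ _ _ _ _ (hq n) hp ?_
    filter_upwards [eventually_ge_atTop ((n, n) : ℕ × ℕ)] with ij hij
    have h2 : n ≤ ij.2 := hij.2
    have h3 := GG.pow_gp hg g hst n ij.2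
    rw [min_eq_left (by exact_mod_cast h2)] at h3
    have h4 := hg.hyp o (g ^ n • x ij.1) (g ^ n • o) (g ^ ij.2 • o)
    have h5 : gromovProduct o (g ^ n • x ij.1) (g ^ n • o) =
        dist o (g ^ n • o) - gromovProduct o ((g⁻¹) ^ n • o) (x ij.1) := by
      have e1 : dist (g ^ n • x ij.1) (g ^ n • o) = dist o (x ij.1) := by
        rw [hg.isom, dist_comm]
      have e2 : dist o (g ^ n • x ij.1) = dist ((g⁻¹) ^ n • o) (x ij.1) := by
        have := hg.isom (g ^ n) ((g⁻¹) ^ n • o) (x ij.1)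
        rw [← this, smul_smul]
        simp
      have e3 : dist o ((g⁻¹) ^ n • o) = dist o (g ^ n • o) := by
        rw [inv_pow]; exact GG.dist_inv hg (g ^ n)
      unfold gromovProduct
      rw [e1, e2, e3]
      ring
    have h6 := hB ij.1 n
    have h7 := GG.le_pow g hst n 0
    simp only [pow_zero, one_smul, dist_self, zero_add] at h7
    have hδ := hg.δ0
    have h8 : (n : ℝ) - B ≤ gromovProduct o (g ^ n • x ij.1) (g ^ n • o) := by
      rw [h5]; linarith
    have hB0 : 0 ≤ B := by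
      have h9 := hB 0 0
      have h10 : gromovProduct o ((g⁻¹) ^ 0 • o) (x 0) = 0 := by
        unfold gromovProduct
        simp
      linarith
    have h9 : (n : ℝ) - B ≤ min (gromovProduct o (g ^ n • x ij.1) (g ^ n • o))
        (gromovProduct o (g ^ n • o) (g ^ ij.2 • o)) := le_min h8 (by linarith)
    linarith
  let _ := d
  have hlim : Tendsto q atTop (𝓝 p) := by
    rw [tendsto_iff_dist_tendsto_zero]
    have h0 : Tendsto (fun n : ℕ => C * a ^ (-((n : ℝ) - B - δ))) atTop (𝓝 0) := by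
      have h1 : (fun n : ℕ => C * a ^ (-((n : ℝ) - B - δ))) =
          fun n : ℕ => C * a ^ (B + δ) * (a⁻¹) ^ n := by
        funext n
        have ha : 0 < a := by linarith [hv.2.1]
        have : -((n : ℝ) - B - δ) = (B + δ) + -(n : ℝ) := by ring
        rw [this, Real.rpow_add ha, Real.rpow_neg ha.le, Real.rpow_natCast, inv_pow, mul_assoc]
      rw [h1]
      have ha1 : a⁻¹ < 1 := inv_lt_one_of_one_lt₀ hv.2.1
      have ha0 : 0 ≤ a⁻¹ := inv_nonneg.2 (by linarith [hv.2.1])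
      have := (tendsto_pow_atTop_nhds_zero_of_lt_one ha0 ha1).const_mul (C * a ^ (B + δ))
      simpa using this
    exact squeeze_zero (fun n => dist_nonneg) hd h0
  have hcont : Continuous i := hc
  have h1 : Tendsto (fun n => i (q n)) atTop (𝓝 (i p)) := (hcont.tendsto p).comp hlim
  have h2 : Tendsto (fun n => i (q n)) atTop (𝓝 z) := by
    simp only [hiq]
    exact tendsto_const_nhds
  exact tendsto_nhds_unique h1 h2

theorem exists_lox [TopologicalSpace Z] [T2Space Z] [MulAction H Z]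
    {o : X} {δ c : ℝ} (hg : Geo H X o δ c) {C a : ℝ} {d : MetricSpace (Boundary X)}
    (hv : Vis o C a d) {i : Boundary X → Z} (hi : CTMap (H := H) o i) (hc : ContinuousWith d i)
    {S : LineSys H Z} (hS : IsSys o c i S) (z : Z) (l : S.L0) (hl : S.clsOf l = z)
    (hr : ∃ᶠ k : ℕ in atTop, (l.1 k)⁻¹ • z = z) :
    ∃ g : H, g • z = z ∧ (∀ n : ℕ, (n : ℝ) ≤ dist o (g ^ n • o)) ∧
      ∃ p q, EndsAt (fun n => g ^ n • o) p ∧ EndsAt (fun n => (g⁻¹) ^ n • o) q ∧
        i p = z ∧ i q = z := by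
  have hδ := hg.δ0
  have hc0 := hg.c0
  obtain ⟨N, hN⟩ := exists_nat_gt (4 * c + 6 * δ + 1)
  -- pigeonhole
  have hline : IsLine o c l.1 := ((hS.mem l.1).1 l.2.1).1
  have hfin := hg.fin (N + c)
  have hmem : ∀ k : ℕ, (l.1 k)⁻¹ * l.1 ((k : ℤ) - N) ∈ {h : H | dist o (h • o) ≤ N + c} := by
    intro k
    have h1 := hline k ((k : ℤ) - N)
    have h2 : dist o (((l.1 k)⁻¹ * l.1 ((k : ℤ) - N)) • o) =
        dist (l.1 k • o) (l.1 ((k : ℤ) - N) • o) := by
      rw [← hg.isom (l.1 k)⁻¹ (l.1 k • o) (l.1 ((k : ℤ) - N) • o), inv_smul_smul, smul_smul]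
    show dist o (((l.1 k)⁻¹ * l.1 ((k : ℤ) - N)) • o) ≤ N + c
    rw [h2]
    have h3 := (abs_le.1 h1).2
    push_cast at h3
    have h4 : |(k : ℝ) - ((k : ℝ) - N)| = N := by
      rw [sub_sub_cancel, abs_of_nonneg (Nat.cast_nonneg _)]
    rw [h4] at h3
    linarith
  have hpig : ∃ v : H, ∃ᶠ k : ℕ in atTop,
      (l.1 k)⁻¹ • z = z ∧ (l.1 k)⁻¹ * l.1 ((k : ℤ) - N) = v := by
    by_contra hcon
    push Not at hcon
    have h1 : ∀ᶠ k : ℕ in atTop, ∀ v ∈ {h : H | dist o (h • o) ≤ N + c},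
        ¬ ((l.1 k)⁻¹ • z = z ∧ (l.1 k)⁻¹ * l.1 ((k : ℤ) - N) = v) := by
      rw [Filter.eventually_all_finite hfin]
      intro v _
      exact (hcon v).mono fun k hk hh => hk hh.1 hh.2
    apply hr
    filter_upwards [h1] with k hk hkz
    exact hk _ (hmem k) ⟨hkz, rfl⟩
  obtain ⟨v, hpig⟩ := hpig
  obtain ⟨k1, hk1, hk1z, hk1v⟩ := (frequently_atTop.1 hpig) 0
  obtain ⟨k2, hk2, hk2z, hk2v⟩ := (frequently_atTop.1 hpig) (k1 + N)
  obtain ⟨n, rfl⟩ : ∃ n, k2 = k1 + n := ⟨k2 - k1, by omega⟩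
  have hn : N ≤ n := by omega
  -- the new line
  set l1 : S.L0 := S.tau^[k1] l with hl1
  have hl1k : ∀ k : ℤ, l1.1 k = (l.1 k1)⁻¹ * l.1 (k + k1) := fun k => S.tau_iterate k1 l k
  have hcls1 : S.cls l1.1 = z := by
    have := S.clsOf_tau_iterate k1 l
    rw [hl, hk1z] at this
    exact this
  obtain ⟨hline1, e₁, e₂, he₁, he₂, he⟩ := (hS.mem l1.1).1 l1.2.1
  have hz1 : i e₁ = z := by rw [← hS.cls l1.1 l1.2.1 e₁ he₁, hcls1]
  have hz2 : i e₂ = z := by rw [← he, hz1]
  have h0 : l1.1 0 = 1 := l1.2.2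
  set g : H := l1.1 n with hgdef
  have hgl : g = (l.1 k1)⁻¹ * l.1 ((k1 + n : ℕ) : ℤ) := by
    rw [hgdef, hl1k]
    congr 2
    push_cast
    ring_nf
  have hgz : g • z = z := by
    have h2 : l.1 ((k1 + n : ℕ) : ℤ) • z = z := by
      conv_lhs => rw [← hk2z]
      rw [smul_inv_smul]
    rw [hgl, mul_smul, h2, hk1z]
  have hgw : g * l1.1 (-(N : ℤ)) = l1.1 ((n : ℤ) - N) := by
    have e1 : l1.1 (-(N : ℤ)) = v := by
      rw [hl1k, ← hk1v]
      congr 2
      ring_nf
    have e2 : l1.1 ((n : ℤ) - N) = (l.1 k1)⁻¹ * l.1 (((k1 + n : ℕ) : ℤ) - N) := by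
      rw [hl1k]
      congr 2
      push_cast
      ring_nf
    rw [e1, e2, ← hk2v, hgl]
    group
  -- products
  have hnR : (N : ℝ) ≤ n := by exact_mod_cast hn
  have hN0 : (0 : ℝ) ≤ N := Nat.cast_nonneg _
  have P1 : (N : ℝ) - 3 * c / 2 ≤ gromovProduct o (g • o) (l1.1 N • o) := by
    have := line_gp hline1 0 n N
    rw [h0, one_smul] at this
    push_cast at this
    rw [sub_zero, sub_zero, abs_of_nonneg (by linarith : (0 : ℝ) ≤ n), abs_of_nonneg hN0,
      abs_of_nonneg (by linarith : (0 : ℝ) ≤ n - N)] at this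
    linarith
  have P2 : (N : ℝ) - 3 * c / 2 ≤ gromovProduct o (g⁻¹ • o) (l1.1 (-(N : ℤ)) • o) := by
    have h1 := gp_smul hg g o (g⁻¹ • o) (l1.1 (-(N : ℤ)) • o)
    rw [smul_inv_smul, smul_smul, hgw] at h1
    rw [← h1]
    have := line_gp hline1 n 0 ((n : ℤ) - N)
    rw [h0, one_smul] at this
    push_cast at this
    rw [zero_sub, abs_neg, abs_of_nonneg (by linarith : (0 : ℝ) ≤ n), zero_sub, abs_neg,
      abs_of_nonneg (by linarith : (0 : ℝ) ≤ n - N)] at this
    have h4 : |(n : ℝ) - N - n| = N := by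
      rw [show (n : ℝ) - N - n = -N by ring, abs_neg, abs_of_nonneg hN0]
    rw [h4] at this
    linarith
  have P3 : ∀ k m : ℕ, gromovProduct o (l1.1 k • o) (l1.1 (-(m : ℤ)) • o) ≤ 3 * c / 2 := by
    intro k m
    have := line_gp_le hline1 0 k (-(m : ℤ))
    rw [h0, one_smul] at this
    push_cast at this
    have hk : (0 : ℝ) ≤ k := Nat.cast_nonneg _
    have hm : (0 : ℝ) ≤ m := Nat.cast_nonneg _
    rw [sub_zero, sub_zero, abs_of_nonneg hk, abs_neg, abs_of_nonneg hm, sub_neg_eq_add,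
      abs_of_nonneg (by linarith : (0 : ℝ) ≤ k + m)] at this
    linarith
  set C₁ : ℝ := 3 * c / 2 + 2 * δ with hC₁
  have hC₁0 : 0 ≤ C₁ := by rw [hC₁]; linarith
  have Q1 : gromovProduct o (g⁻¹ • o) (g • o) ≤ C₁ := by
    by_contra hcon
    push Not at hcon
    have h1 := hg.hyp o (l1.1 (-(N : ℤ)) • o) (g⁻¹ • o) (g • o)
    have h2 := hg.hyp o (l1.1 (-(N : ℤ)) • o) (g • o) (l1.1 N • o)
    rw [gp_comm o (l1.1 (-(N : ℤ)) • o) (g⁻¹ • o)] at h1
    rw [gp_comm o (l1.1 (-(N : ℤ)) • o) (l1.1 N • o)] at h2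
    have h3 := P3 N N
    have h4 : C₁ < gromovProduct o (g⁻¹ • o) (l1.1 (-(N : ℤ)) • o) := by linarith
    have h5 := lt_min h4 hcon
    have h6 : C₁ - δ < gromovProduct o (l1.1 (-(N : ℤ)) • o) (g • o) := by linarith
    have h7 : C₁ - δ < gromovProduct o (g • o) (l1.1 N • o) := by linarith
    have h8 := lt_min h6 h7
    linarith
  have Q2 : 2 * C₁ + 2 * δ + 1 < dist o (g • o) := by
    have := hline1 0 n
    rw [h0, one_smul] at this
    have h1 := (abs_le.1 this).1
    push_cast at h1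
    rw [zero_sub, abs_neg, abs_of_nonneg (by linarith : (0 : ℝ) ≤ n)] at h1
    linarith
  have Q1' : gromovProduct o ((g⁻¹)⁻¹ • o) (g⁻¹ • o) ≤ C₁ := by rw [inv_inv, gp_comm]; exact Q1
  have Q2' : 2 * C₁ + 2 * δ + 1 < dist o (g⁻¹ • o) := by rw [GG.dist_inv hg]; exact Q2
  have hst := GG.step hg g C₁ Q1 Q2 hC₁0
  have hst' := GG.step hg g⁻¹ C₁ Q1' Q2' hC₁0
  -- bound for the powers against a far away point
  have hfar : ∀ (u : H) (w : X) (y : X), (∀ n : ℕ, dist o (u ^ n • o) + 1 ≤ dist o (u ^ (n + 1) • o)) →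
      2 * C₁ + 2 * δ + 1 < dist o (u • o) → C₁ < gromovProduct o (u • o) w →
      gromovProduct o w y ≤ 3 * c / 2 → ∀ n : ℕ, gromovProduct o (u ^ n • o) y ≤ C₁ := by
    intro u w y hu hu2 hw hy n
    rcases Nat.eq_zero_or_pos n with rfl | hn
    · have : gromovProduct o (u ^ 0 • o) y = 0 := by
        unfold gromovProduct
        simp
      rw [this]; exact hC₁0
    · by_contra hcon
      push Not at hcon
      have e2 : dist (u ^ n • o) (u • o) = dist o (u ^ (n - 1) • o) := by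
        have := GG.dist_pow hg u 1 n hn
        rw [pow_one] at this
        rw [dist_comm, this]
      have h4 : C₁ < gromovProduct o (u ^ n • o) (u • o) := by
        unfold gromovProduct
        rw [e2]
        have := hu (n - 1)
        rw [Nat.sub_add_cancel hn] at this
        linarith
      have h1 := hg.hyp o y (u ^ n • o) (u • o)
      have h2 := hg.hyp o y (u • o) w
      rw [gp_comm o y (u ^ n • o)] at h1
      rw [gp_comm o y w] at h2
      have h5 := lt_min hcon h4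
      have h6 : C₁ - δ < gromovProduct o y (u • o) := by linarith
      have h7 : C₁ - δ < gromovProduct o (u • o) w := by linarith
      have h8 := lt_min h6 h7
      linarith
  have hge : ∀ n : ℕ, (n : ℝ) ≤ dist o (g ^ n • o) := by
    intro n
    have h7 := GG.le_pow g hst n 0
    simp only [pow_zero, one_smul, dist_self, zero_add] at h7
    exact h7
  have T1 := GG.toInf hg g hst
  have T2 := GG.toInf hg g⁻¹ hst'
  refine ⟨g, hgz, hge, Boundary.mk ⟨_, T1⟩, Boundary.mk ⟨_, T2⟩, ⟨T1, rfl⟩, ⟨T2, rfl⟩, ?_, ?_⟩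
  · refine GG.lim hg hv hi hc z g hgz hst _ e₁ ⟨T1, rfl⟩ _ he₁ hz1 C₁ ?_
    intro k n
    refine hfar g⁻¹ (l1.1 (-(N : ℤ)) • o) _ hst' Q2' (by linarith) ?_ n
    rw [gp_comm]
    exact P3 k N
  · have hgz' : g⁻¹ • z = z := by
      conv_lhs => rw [← hgz]
      rw [inv_smul_smul]
    refine GG.lim hg hv hi hc z g⁻¹ hgz' hst' _ e₂ ⟨T2, rfl⟩ _ he₂ hz2 C₁ ?_
    intro k n
    rw [inv_inv]
    refine hfar g (l1.1 N • o) _ hst Q2 (by linarith) ?_ n
    exact P3 N k

end G

end Pool.Agent.CTZ
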