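import Pool.Agent.CTZ.KDefs
import Pool.Agent.CTZ.GG

/-!
# Row K2: the quasi-axis of a loxodromic element
-/

open Filter Topology Set Pool.Agent.Helper68.CT

namespace Pool.Agent.CTZ

section K

variable {H X : Type} [Group H] [MetricSpace X] [MulAction H X]

theorem Lox.inv {o : X} {δ c : ℝ} (hg : Geo H X o δ c) {g : H} (h : Lox o δ g) :
    Lox o δ g⁻¹ := by
  unfold Lox at h ⊢
  rw [inv_inv, gp_comm, GG.dist_inv hg]
  exact h

/-- the powers move away with speed at least `1` -/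
theorem Lox.step {o : X} {δ c : ℝ} (hg : Geo H X o δ c) {g : H} (h : Lox o δ g) (n : ℕ) :
    dist o (g ^ n • o) + 1 ≤ dist o (g ^ (n + 1) • o) := by
  have hδ := hg.δ0
  have h0 := gp_nonneg o (g • o) (g⁻¹ • o)
  unfold Lox at h
  refine GG.step hg g (gromovProduct o (g • o) (g⁻¹ • o)) ?_ (by linarith) h0 n
  rw [gp_comm]

/-- the product of `g⁻ᵃ` and `gᵇ` -/
theorem Lox.gp_pow_le {o : X} {δ c : ℝ} (hg : Geo H X o δ c) {g : H} (h : Lox o δ g) (a b : ℕ) :
    gromovProduct o ((g⁻¹) ^ a • o) (g ^ b • o) ≤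
      gromovProduct o (g • o) (g⁻¹ • o) + 2 * δ := by
  have hδ := hg.δ0
  set C₁ := gromovProduct o (g • o) (g⁻¹ • o) with hC₁
  have h0 : 0 ≤ C₁ := gp_nonneg o (g • o) (g⁻¹ • o)
  have hl : 2 * C₁ + 10 * δ + 10 < dist o (g • o) := h
  have hst : ∀ (u : H), Lox o δ u → ∀ n : ℕ,
      (dist o (u • o) + 1) / 2 ≤ gromovProduct o (u ^ (n + 1) • o) (u • o) := by
    intro u hu n
    have h1 := hu.step hg n
    have e2 : dist (u ^ (n + 1) • o) (u • o) = dist o (u ^ n • o) := by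
      have := GG.dist_pow hg u 1 (n + 1) (by omega)
      rw [pow_one] at this
      rw [dist_comm, this]
      simp
    unfold gromovProduct
    rw [e2]
    linarith
  rcases Nat.eq_zero_or_pos a with rfl | ha
  · have : gromovProduct o ((g⁻¹) ^ 0 • o) (g ^ b • o) = 0 := by
      unfold gromovProduct
      simp
    rw [this]; linarith
  rcases Nat.eq_zero_or_pos b with rfl | hb
  · have : gromovProduct o ((g⁻¹) ^ a • o) (g ^ 0 • o) = 0 := by
      unfold gromovProduct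
      rw [pow_zero, one_smul, dist_self, dist_comm]
      ring
    rw [this]; linarith
  obtain ⟨a, rfl⟩ : ∃ a', a = a' + 1 := ⟨a - 1, by omega⟩
  obtain ⟨b, rfl⟩ : ∃ b', b = b' + 1 := ⟨b - 1, by omega⟩
  have h1 := hst g h b
  have h2 := hst g⁻¹ (h.inv hg) a
  rw [GG.dist_inv hg] at h2
  -- first: `(g⁻¹ | g^(b+1)) ≤ C₁ + δ`
  have h3 : gromovProduct o (g⁻¹ • o) (g ^ (b + 1) • o) ≤ C₁ + δ := by
    by_contra hcon
    push Not at hcon
    have h4 := hg.hyp o (g⁻¹ • o) (g ^ (b + 1) • o) (g • o)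
    rw [gp_comm o (g⁻¹ • o) (g • o), ← hC₁] at h4
    have h5 : C₁ + δ < gromovProduct o (g ^ (b + 1) • o) (g • o) := by linarith
    have := lt_min hcon h5
    linarith
  by_contra hcon
  push Not at hcon
  have h4 := hg.hyp o (g⁻¹ • o) ((g⁻¹) ^ (a + 1) • o) (g ^ (b + 1) • o)
  rw [gp_comm o (g⁻¹ • o) ((g⁻¹) ^ (a + 1) • o)] at h4
  have h5 : C₁ + 2 * δ < gromovProduct o ((g⁻¹) ^ (a + 1) • o) (g⁻¹ • o) := by linarith
  have := lt_min h5 hcon
  linarith

/-- positive and negative powers are separated; `x ≤ y ≤ z` are aligned on the axis -/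
theorem Lox.gp_le {o : X} {δ c : ℝ} (hg : Geo H X o δ c) {g : H} (h : Lox o δ g) :
    ∃ T : ℝ, ∀ x y z : ℤ, x ≤ y → y ≤ z →
      gromovProduct (g ^ y • o) (g ^ x • o) (g ^ z • o) ≤ T := by
  refine ⟨gromovProduct o (g • o) (g⁻¹ • o) + 2 * δ, ?_⟩
  intro x y z hxy hyz
  obtain ⟨a, rfl⟩ : ∃ a : ℕ, x = y - a := ⟨(y - x).toNat, by omega⟩
  obtain ⟨b, rfl⟩ : ∃ b : ℕ, z = y + b := ⟨(z - y).toNat, by omega⟩
  have e1 : g ^ (y - a) • o = g ^ y • ((g⁻¹) ^ a • o) := by
    rw [smul_smul, zpow_sub, zpow_natCast, inv_pow]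
  have e2 : g ^ (y + b) • o = g ^ y • (g ^ b • o) := by
    rw [smul_smul, zpow_add, zpow_natCast]
  rw [e1, e2, gp_smul hg]
  exact h.gp_pow_le hg a b

/-- a point with small product to two points of the axis is near the axis -/
theorem Lox.near_axis {o : X} {δ c : ℝ} (hg : Geo H X o δ c) {g : H} (h : Lox o δ g) :
    ∃ C₀ : ℝ, ∀ (T : ℝ) (v : H) (x y : ℤ), x ≤ y →
      gromovProduct (v • o) (g ^ x • o) (g ^ y • o) ≤ T →
        ∃ m : ℤ, x ≤ m ∧ m ≤ y ∧ dist (v • o) (g ^ m • o) ≤ 2 * T + C₀ := by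
  have hδ := hg.δ0
  obtain ⟨T₀, hT₀⟩ := h.gp_le hg
  have hT₀0 : 0 ≤ T₀ := (gp_nonneg _ _ _).trans (hT₀ 0 0 0 le_rfl le_rfl)
  have hgd : 0 ≤ dist o (g • o) := dist_nonneg
  refine ⟨T₀ + 2 * δ + dist o (g • o), ?_⟩
  intro T v x y hxy hT
  have hT0 : 0 ≤ T := (gp_nonneg _ _ _).trans hT
  -- the last `m` with `(g^m | g^y)_v ≤ T + δ`
  have hlast : ∃ m : ℤ, x ≤ m ∧ m ≤ y ∧ gromovProduct (v • o) (g ^ m • o) (g ^ y • o) ≤ T + δ ∧
      (m = y ∨ T + δ < gromovProduct (v • o) (g ^ (m + 1) • o) (g ^ y • o)) := by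
    by_contra hcon
    push Not at hcon
    have hall : ∀ n : ℕ, x + n ≤ y →
        gromovProduct (v • o) (g ^ (x + n) • o) (g ^ y • o) ≤ T + δ := by
      intro n
      induction n with
      | zero =>
        intro _
        rw [Nat.cast_zero, add_zero]
        linarith
      | succ n ih =>
        intro hn
        push_cast at hn ⊢
        have h1 := ih (by omega)
        have h2 := (hcon (x + n) (by omega) (by omega) h1).2
        rw [← add_assoc]
        exact h2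
    have h1 := hall (y - x).toNat (by omega)
    have e : x + ((y - x).toNat : ℤ) = y := by omega
    rw [e] at h1
    exact (hcon y hxy le_rfl h1).1 rfl
  obtain ⟨m, hxm, hmy, hm1, hm2⟩ := hlast
  refine ⟨m, hxm, hmy, ?_⟩
  rcases hm2 with rfl | hm2
  · rw [gp_self] at hm1
    linarith
  · have h1 := hg.hyp (v • o) (g ^ x • o) (g ^ (m + 1) • o) (g ^ y • o)
    have h2 : gromovProduct (v • o) (g ^ x • o) (g ^ (m + 1) • o) ≤ T + δ := by
      by_contra hcon
      push Not at hcon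
      have := lt_min hcon hm2
      linarith
    have h3 : dist (g ^ (m + 1) • o) (g ^ m • o) = dist o (g • o) := by
      have e : g ^ (m + 1) • o = g ^ m • (g • o) := by
        rw [smul_smul, zpow_add_one]
      rw [e, hg.isom, dist_comm]
    have h4 := (abs_le.1 (gp_dist_right (v • o) (g ^ x • o) (g ^ (m + 1) • o) (g ^ m • o))).1
    rw [h3] at h4
    have h5 : gromovProduct (v • o) (g ^ m • o) (g ^ x • o) ≤ T + δ + dist o (g • o) := by
      rw [gp_comm]; linarith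
    have h6 := hg.hyp (g ^ m • o) (g ^ x • o) (v • o) (g ^ y • o)
    have h7 := hT₀ x m y hxm hmy
    have h8 := gp_add (v • o) (g ^ m • o) (g ^ x • o)
    have h9 := gp_add (v • o) (g ^ m • o) (g ^ y • o)
    rw [gp_comm (g ^ m • o) (v • o)] at h8
    by_contra hcon
    push Not at hcon
    have h10 : T₀ + δ < gromovProduct (g ^ m • o) (g ^ x • o) (v • o) := by linarith
    have h11 : T₀ + δ < gromovProduct (g ^ m • o) (v • o) (g ^ y • o) := by linarith
    have := lt_min h10 h11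
    linarith

end K

end Pool.Agent.CTZ
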