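import Pool.Agent.CTZ.KDefs
import Pool.Agent.CTZ.GA2
import Pool.Agent.CTZ.GG
import Pool.Agent.CTZ.K2

/-!
# Row K3: an independent conjugate
-/

open Filter Topology Set Pool.Agent.Helper68.CT

namespace Pool.Agent.CTZ

section K

variable {H X : Type} [Group H] [MetricSpace X] [MulAction H X]

namespace RowK3

/-- the facts on the quasi-axis of `g` -/
structure Ax (o : X) (T C : ℝ) (g : H) : Prop where
  gp : ∀ x y z : ℤ, x ≤ y → y ≤ z → gromovProduct (g ^ y • o) (g ^ x • o) (g ^ z • o) ≤ T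
  near : ∀ (T' : ℝ) (v : H) (x y : ℤ), x ≤ y →
      gromovProduct (v • o) (g ^ x • o) (g ^ y • o) ≤ T' →
        ∃ m : ℤ, x ≤ m ∧ m ≤ y ∧ dist (v • o) (g ^ m • o) ≤ 2 * T' + C
  grow : ∀ n : ℕ, (n : ℝ) ≤ dist o (g ^ n • o)

theorem Ax.mono {o : X} {T C T₁ C₁ : ℝ} {g : H} (h : Ax o T C g) (hT : T ≤ T₁) (hC : C ≤ C₁) :
    Ax o T₁ C₁ g := by
  refine ⟨fun x y z hxy hyz => (h.gp x y z hxy hyz).trans hT, ?_, h.grow⟩
  intro T' v x y hxy hle
  obtain ⟨m, h1, h2, h3⟩ := h.near T' v x y hxy hle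
  exact ⟨m, h1, h2, by linarith⟩

theorem exists_ax {o : X} {δ c : ℝ} (hg : Geo H X o δ c) {g : H} (h : Lox o δ g) :
    ∃ T C, Ax o T C g := by
  obtain ⟨T, hT⟩ := Lox.gp_le hg h
  obtain ⟨C, hC⟩ := Lox.near_axis hg h
  refine ⟨T, C, hT, hC, fun n => ?_⟩
  have := GG.le_pow g (Lox.step hg h) n 0
  simpa using this

/-- if the products of `b ^ m` and `s a ^ n` are unbounded then `s` is near the axis of `b` -/
theorem near {o : X} {δ c T C : ℝ} (hg : Geo H X o δ c) {a b s : H} (ha : Ax o T C a)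
    (hb : Ax o T C b)
    (hunb : ∀ B : ℝ, ∃ m n : ℕ, B < gromovProduct o (b ^ m • o) ((s * a ^ n) • o)) :
    ∃ m : ℤ, dist (s • o) (b ^ m • o) ≤ 2 * (T + 2 * δ) + C := by
  have hδ := hg.δ0
  have hhyp2 : ∀ o' x y z w : X, min (min (gromovProduct o' x y) (gromovProduct o' y z))
      (gromovProduct o' z w) - 2 * δ ≤ gromovProduct o' x w := by
    intro o' x y z w
    have h1 := hg.hyp o' x y z
    have h2 := hg.hyp o' x z w
    have h3 : min (min (gromovProduct o' x y) (gromovProduct o' y z))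
      (gromovProduct o' z w) - δ ≤ min (gromovProduct o' x z) (gromovProduct o' z w) := by
      apply le_min
      · have := min_le_left (min (gromovProduct o' x y) (gromovProduct o' y z))
          (gromovProduct o' z w)
        linarith
      · have := min_le_right (min (gromovProduct o' x y) (gromovProduct o' y z))
          (gromovProduct o' z w)
        linarith
    linarith
  have hT0 : 0 ≤ T := by
    have h1 := ha.gp 0 0 0 le_rfl le_rfl
    have h2 := gp_nonneg (a ^ (0 : ℤ) • o) (a ^ (0 : ℤ) • o) (a ^ (0 : ℤ) • o)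
    linarith
  -- prefix products
  have hpre : ∀ {f : H}, Ax o T C f → ∀ m m' : ℕ, m ≤ m' →
      dist o (f ^ m • o) - T ≤ gromovProduct o (f ^ m • o) (f ^ m' • o) := by
    intro f hf m m' hmm
    have h1 := gp_add o (f ^ m • o) (f ^ m' • o)
    have h2 := hf.gp 0 m m' (by omega) (by omega)
    rw [zpow_zero, one_smul, zpow_natCast, zpow_natCast] at h2
    linarith
  -- step 1
  have htoInf : ∀ R : ℝ, ∃ m₀ n₀ : ℕ, ∀ m n : ℕ, m₀ ≤ m → n₀ ≤ n →
      R ≤ gromovProduct o (b ^ m • o) ((s * a ^ n) • o) := by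
    intro R
    obtain ⟨m₀, n₀, h0⟩ := hunb (R + T + 2 * dist o (s • o) + 2 * δ)
    refine ⟨m₀, n₀, fun m n hm hn => ?_⟩
    have hs0 : 0 ≤ dist o (s • o) := dist_nonneg
    have h1 := hpre hb m₀ m hm
    have h2 := gp_le_left o (b ^ m₀ • o) ((s * a ^ n₀) • o)
    have h3 := gp_le_right o (b ^ m₀ • o) ((s * a ^ n₀) • o)
    have h4 : gromovProduct (s • o) ((s * a ^ n₀) • o) ((s * a ^ n) • o) =
        gromovProduct o (a ^ n₀ • o) (a ^ n • o) := by
      rw [mul_smul, mul_smul, gp_smul hg]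
    have h5 := hpre ha n₀ n hn
    have h6 := (abs_le.1 (gp_base o (s • o) ((s * a ^ n₀) • o) ((s * a ^ n) • o))).1
    have h7 : dist o ((s * a ^ n₀) • o) ≤ dist o (s • o) + dist o (a ^ n₀ • o) := by
      refine (dist_triangle o (s • o) ((s * a ^ n₀) • o)).trans ?_
      rw [mul_smul, hg.isom]
    have h8 := hhyp2 o (b ^ m • o) (b ^ m₀ • o) ((s * a ^ n₀) • o) ((s * a ^ n) • o)
    rw [gp_comm o (b ^ m • o) (b ^ m₀ • o)] at h8
    have h9 : R + 2 * δ ≤ min (min (gromovProduct o (b ^ m₀ • o) (b ^ m • o))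
        (gromovProduct o (b ^ m₀ • o) ((s * a ^ n₀) • o)))
        (gromovProduct o ((s * a ^ n₀) • o) ((s * a ^ n) • o)) := by
      refine le_min (le_min ?_ ?_) ?_
      · linarith
      · linarith
      · linarith
    linarith
  -- step 2
  obtain ⟨n₁, hn₁⟩ := exists_nat_gt (T + 2 * δ + dist o (s • o))
  have hclose : ∀ n : ℕ, n₁ ≤ n → ∃ m : ℤ,
      dist ((s * a ^ n) • o) (b ^ m • o) ≤ 2 * (T + 2 * δ) + C := by
    intro n hn
    obtain ⟨m₀, n₀, h0⟩ := htoInf (T + 2 * δ + 1 + dist o ((s * a ^ n) • o))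
    have h1 := h0 m₀ (max n₀ n) le_rfl (le_max_left _ _)
    set v : X := (s * a ^ n) • o with hv
    set w : X := (s * a ^ (max n₀ n)) • o with hw
    -- (s | w)_v ≤ T
    have h2 : gromovProduct v (s • o) w ≤ T := by
      have h3 := ha.gp 0 n (max n₀ n : ℕ) (by omega) (by omega)
      rw [zpow_zero, one_smul, zpow_natCast, zpow_natCast, ← gp_smul hg s, smul_smul,
        smul_smul] at h3
      exact h3
    have h3 := hhyp2 v (s • o) o (b ^ m₀ • o) w
    -- (s | o)_v is large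
    have h4 : T + 2 * δ < gromovProduct v (s • o) o := by
      have h5 := ha.grow n
      have h6 : dist v (s • o) = dist o (a ^ n • o) := by
        rw [hv, mul_smul, hg.isom, dist_comm]
      have h7 := dist_triangle v o (s • o)
      have h8 : (n₁ : ℝ) ≤ n := by exact_mod_cast hn
      have h9 : gromovProduct v (s • o) o = (dist v (s • o) + dist v o - dist (s • o) o) / 2 := rfl
      have h10 := dist_triangle v (s • o) o
      have h11 : dist v (s • o) - dist o (s • o) ≤ dist v o := by linarith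
      rw [h9, dist_comm (s • o) o]
      linarith
    have h5 : T + 2 * δ < gromovProduct v (b ^ m₀ • o) w := by
      have h6 := (abs_le.1 (gp_base o v (b ^ m₀ • o) w)).2
      linarith
    have h6 : gromovProduct v o (b ^ m₀ • o) ≤ T + 2 * δ := by
      by_contra hcon
      rw [not_le] at hcon
      have h7 := lt_min (lt_min h4 hcon) h5
      linarith
    obtain ⟨m, -, -, hm⟩ := hb.near (T + 2 * δ) (s * a ^ n) 0 m₀ (by omega) (by
      rw [zpow_zero, one_smul, zpow_natCast]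
      exact h6)
    exact ⟨m, hm⟩
  -- step 3
  choose! M hM using hclose
  have hpig := Set.Infinite.exists_ne_map_eq_of_mapsTo (s := Set.Ici n₁)
    (t := {h : H | dist o (h • o) ≤ 2 * (T + 2 * δ) + C})
    (f := fun n => (b ^ M n)⁻¹ * (s * a ^ n)) (Set.Ici_infinite n₁) (by
      intro n hn
      have h1 := hM n hn
      show dist o (((b ^ M n)⁻¹ * (s * a ^ n)) • o) ≤ _
      have h2 := hg.isom (b ^ M n) o (((b ^ M n)⁻¹ * (s * a ^ n)) • o)
      rw [smul_smul, mul_inv_cancel_left] at h2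
      rw [← h2, dist_comm]
      exact h1) (hg.fin _)
  have hij : ∃ (i : ℕ) (j : ℤ), 1 ≤ i ∧ s * a ^ i = b ^ j * s := by
    have key : ∀ n n' : ℕ, n < n' → (b ^ M n)⁻¹ * (s * a ^ n) = (b ^ M n')⁻¹ * (s * a ^ n') →
        ∃ (i : ℕ) (j : ℤ), 1 ≤ i ∧ s * a ^ i = b ^ j * s := by
      intro n n' hlt heq
      refine ⟨n' - n, M n' - M n, by omega, ?_⟩
      have h1 : b ^ (M n' - M n) = b ^ M n' * (b ^ M n)⁻¹ := zpow_sub b _ _
      have h2 : s * a ^ n' = b ^ M n' * ((b ^ M n)⁻¹ * (s * a ^ n)) := by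
        rw [heq, mul_inv_cancel_left]
      have h3 : a ^ n' = a ^ (n' - n) * a ^ n := by
        rw [← pow_add, Nat.sub_add_cancel hlt.le]
      rw [h3] at h2
      have h4 : s * a ^ (n' - n) * a ^ n = b ^ (M n' - M n) * s * a ^ n := by
        rw [h1, mul_assoc s, h2]
        simp only [mul_assoc]
      exact mul_right_cancel h4
    obtain ⟨x, -, y, -, hxy, heq⟩ := hpig
    rcases lt_or_gt_of_ne hxy with h | h
    · exact key x y h heq
    · exact key y x h heq.symm
  obtain ⟨i, j, hi, hij⟩ := hij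
  have hj : j ≠ 0 := by
    rintro rfl
    rw [zpow_zero, one_mul] at hij
    have h1 : a ^ i = 1 := mul_left_cancel (hij.trans (mul_one s).symm)
    have h2 := ha.grow i
    rw [h1, one_smul, dist_self] at h2
    have h3 : (1 : ℝ) ≤ i := by exact_mod_cast hi
    linarith
  have hijk : ∀ k : ℕ, s * a ^ (i * k) = b ^ (j * k) * s := by
    intro k
    induction k with
    | zero => simp
    | succ k ih =>
      have e1 : a ^ (i * (k + 1)) = a ^ (i * k) * a ^ i := by rw [mul_add, mul_one, pow_add]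
      have e2 : b ^ (j * ((k + 1 : ℕ) : ℤ)) = b ^ (j * k) * b ^ j := by
        push_cast
        rw [mul_add, mul_one, zpow_add]
      rw [e1, e2, ← mul_assoc, ih, mul_assoc, hij, mul_assoc]
  have hijk' : ∀ k : ℕ, s * (a ^ (i * k))⁻¹ = (b ^ (j * k))⁻¹ * s := by
    intro k
    have h1 := hijk k
    have h2 : (b ^ (j * (k : ℤ)))⁻¹ * (s * a ^ (i * k)) * (a ^ (i * k))⁻¹ =
        (b ^ (j * (k : ℤ)))⁻¹ * (b ^ (j * k) * s) * (a ^ (i * k))⁻¹ := by rw [h1]
    rw [inv_mul_cancel_left] at h2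
    rw [← h2]
    group
  -- step 4
  have hgrowb : ∀ k : ℤ, (|k| : ℝ) ≤ dist o (b ^ k • o) := by
    intro k
    rcases le_total 0 k with h | h
    · obtain ⟨n, rfl⟩ := Int.eq_ofNat_of_zero_le h
      rw [zpow_natCast]
      have := hb.grow n
      simpa using this
    · obtain ⟨n, hn⟩ := Int.eq_ofNat_of_zero_le (neg_nonneg.2 h)
      have hk : k = -(n : ℤ) := by omega
      rw [hk, zpow_neg, zpow_natCast, GG.dist_inv hg]
      have := hb.grow n
      simpa using this
  obtain ⟨k, hk⟩ := exists_nat_gt (T + 2 * δ + 3 * dist o (s • o))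
  have hlarge : ∀ x : ℤ, (k : ℝ) ≤ |(x : ℝ)| → T + 2 * δ <
      gromovProduct (s • o) ((b ^ x * s) • o) (b ^ x • o) := by
    intro x hx
    have h1 := hgrowb x
    have h2 : dist ((b ^ x * s) • o) (b ^ x • o) = dist o (s • o) := by
      rw [mul_smul, hg.isom, dist_comm]
    have h3 := dist_triangle o (s • o) (b ^ x • o)
    have h4 := dist_triangle (b ^ x • o) ((b ^ x * s) • o) (s • o)
    rw [dist_comm (b ^ x • o) ((b ^ x * s) • o), h2, dist_comm (b ^ x • o) (s • o),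
      dist_comm ((b ^ x * s) • o) (s • o)] at h4
    have hs0 : 0 ≤ dist o (s • o) := dist_nonneg
    unfold gromovProduct
    rw [h2]
    linarith
  have hjk : (k : ℝ) ≤ |((j * k : ℤ) : ℝ)| := by
    have h1 : (1 : ℤ) ≤ |j| := Int.one_le_abs hj
    have h2 : (k : ℤ) ≤ |j * k| := by
      rw [abs_mul]
      have : |(k : ℤ)| = k := abs_of_nonneg (by omega)
      rw [this]
      nlinarith
    exact_mod_cast h2
  have h1 := hlarge (j * k) hjk
  have h2 := hlarge (-(j * k)) (by push_cast; rw [abs_neg]; exact_mod_cast hjk)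
  have h3 : gromovProduct (s • o) ((b ^ (j * (k : ℤ)) * s) • o) ((b ^ (-(j * (k : ℤ))) * s) • o) ≤ T := by
    rw [zpow_neg, ← hijk k, ← hijk' k, mul_smul, mul_smul, gp_smul hg]
    have h4 := ha.gp (-((i * k : ℕ) : ℤ)) 0 ((i * k : ℕ) : ℤ) (by omega) (by omega)
    rw [zpow_zero, one_smul, zpow_neg, zpow_natCast, gp_comm] at h4
    exact h4
  have h4 := hhyp2 (s • o) ((b ^ (j * (k : ℤ)) * s) • o) (b ^ (j * (k : ℤ)) • o)
    (b ^ (-(j * (k : ℤ))) • o) ((b ^ (-(j * (k : ℤ))) * s) • o)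
  rw [gp_comm (s • o) (b ^ (-(j * (k : ℤ))) • o)] at h4
  have h5 : gromovProduct (s • o) (b ^ (j * (k : ℤ)) • o) (b ^ (-(j * (k : ℤ))) • o) ≤
      T + 2 * δ := by
    by_contra hcon
    rw [not_le] at hcon
    have h7 := lt_min (lt_min h1 hcon) h2
    linarith
  rcases le_total (j * (k : ℤ)) (-(j * (k : ℤ))) with h6 | h6
  · obtain ⟨m, -, -, hm⟩ := hb.near _ s _ _ h6 h5
    exact ⟨m, hm⟩
  · rw [gp_comm] at h5
    obtain ⟨m, -, -, hm⟩ := hb.near _ s _ _ h6 h5
    exact ⟨m, hm⟩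

end RowK3

open RowK3

theorem exists_indep {o : X} {δ c : ℝ} (hg : Geo H X o δ c) (S : Subgroup H)
    (hS : NotVirtuallyCyclic S) (g : H) (hgS : g ∈ S) (hl : Lox o δ g) :
    ∃ s ∈ S, ∃ T : ℝ, ∀ m n : ℤ,
      gromovProduct o (g ^ m • o) ((s * g * s⁻¹) ^ n • o) ≤ T := by
  by_contra hcon
  obtain ⟨T₁, C₁, h₁⟩ := exists_ax hg hl
  obtain ⟨T₂, C₂, h₂⟩ := exists_ax hg (Lox.inv hg hl)
  set T := max T₁ T₂
  set C := max C₁ C₂
  have hA : Ax o T C g := h₁.mono (le_max_left _ _) (le_max_left _ _)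
  have hA' : Ax o T C g⁻¹ := h₂.mono (le_max_right _ _) (le_max_right _ _)
  -- every element of S is near the axis of g
  have hnear : ∀ s ∈ S, ∃ m : ℤ, dist (s • o) (g ^ m • o) ≤ 2 * (T + 2 * δ) + C := by
    intro s hs
    have hunb : ∀ B : ℝ, ∃ m n : ℤ, B < gromovProduct o (g ^ m • o) ((s * g ^ n) • o) := by
      intro B
      by_contra hno
      apply hcon
      refine ⟨s, hs, B + dist o (s • o), fun m n => ?_⟩
      have h1 : gromovProduct o (g ^ m • o) ((s * g ^ n) • o) ≤ B := by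
        by_contra h2
        exact hno ⟨m, n, not_le.1 h2⟩
      have h2 : (s * g * s⁻¹) ^ n = s * g ^ n * s⁻¹ := conj_zpow
      have h3 := (abs_le.1 (gp_dist_right o (g ^ m • o) ((s * g ^ n * s⁻¹) • o)
        ((s * g ^ n) • o))).2
      have h4 : dist ((s * g ^ n * s⁻¹) • o) ((s * g ^ n) • o) = dist o (s • o) := by
        rw [mul_smul, hg.isom, dist_comm, GG.dist_inv hg]
      rw [h2]
      linarith
    -- signs
    have hsign : (∀ B : ℝ, ∃ m n : ℕ, B < gromovProduct o (g ^ m • o) ((s * g ^ n) • o)) ∨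
        (∀ B : ℝ, ∃ m n : ℕ, B < gromovProduct o (g ^ m • o) ((s * g⁻¹ ^ n) • o)) ∨
        (∀ B : ℝ, ∃ m n : ℕ, B < gromovProduct o (g⁻¹ ^ m • o) ((s * g ^ n) • o)) ∨
        (∀ B : ℝ, ∃ m n : ℕ, B < gromovProduct o (g⁻¹ ^ m • o) ((s * g⁻¹ ^ n) • o)) := by
      by_contra hno
      simp only [not_or, not_forall, not_exists, not_lt] at hno
      obtain ⟨⟨B1, hB1⟩, ⟨B2, hB2⟩, ⟨B3, hB3⟩, ⟨B4, hB4⟩⟩ := hno
      obtain ⟨m, n, hmn⟩ := hunb (max (max B1 B2) (max B3 B4))
      have hz : ∀ k : ℤ, (∃ n : ℕ, g ^ k = g ^ n) ∨ ∃ n : ℕ, g ^ k = g⁻¹ ^ n := by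
        intro k
        rcases le_total 0 k with h | h
        · obtain ⟨n, rfl⟩ := Int.eq_ofNat_of_zero_le h
          exact Or.inl ⟨n, zpow_natCast g n⟩
        · obtain ⟨n, hn⟩ := Int.eq_ofNat_of_zero_le (neg_nonneg.2 h)
          have hk : k = -(n : ℤ) := by omega
          exact Or.inr ⟨n, by rw [hk, zpow_neg, zpow_natCast, inv_pow]⟩
      have l1 := le_max_left B1 B2
      have l2 := le_max_right B1 B2
      have l3 := le_max_left B3 B4
      have l4 := le_max_right B3 B4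
      have l5 := le_max_left (max B1 B2) (max B3 B4)
      have l6 := le_max_right (max B1 B2) (max B3 B4)
      rcases hz m with ⟨m', hm⟩ | ⟨m', hm⟩ <;> rcases hz n with ⟨n', hn⟩ | ⟨n', hn⟩ <;>
        rw [hm, hn] at hmn
      · have := hB1 m' n'; linarith
      · have := hB2 m' n'; linarith
      · have := hB3 m' n'; linarith
      · have := hB4 m' n'; linarith
    have hinv : (∃ m : ℤ, dist (s • o) (g⁻¹ ^ m • o) ≤ 2 * (T + 2 * δ) + C) →
        ∃ m : ℤ, dist (s • o) (g ^ m • o) ≤ 2 * (T + 2 * δ) + C := by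
      rintro ⟨m, hm⟩
      refine ⟨-m, ?_⟩
      rwa [inv_zpow'] at hm
    rcases hsign with h | h | h | h
    · exact near hg hA hA h
    · exact near hg hA' hA h
    · exact hinv (near hg hA hA' h)
    · exact hinv (near hg hA' hA' h)
  -- finite index
  let K : Subgroup S := Subgroup.zpowers ⟨g, hgS⟩
  refine hS K ?_ (inferInstance)
  have hF := hg.fin (2 * (T + 2 * δ) + C)
  have : Finite (S ⧸ K) := by
    have : Finite {x : S // ((x : H)⁻¹) ∈ {h : H | dist o (h • o) ≤ 2 * (T + 2 * δ) + C}} := by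
      have hfin : Finite {h : H | dist o (h • o) ≤ 2 * (T + 2 * δ) + C} := hF
      refine Finite.of_injective (fun x => (⟨((x.1 : S) : H)⁻¹, x.2⟩ :
        {h : H | dist o (h • o) ≤ 2 * (T + 2 * δ) + C})) ?_
      intro x y hxy
      have h1 := congrArg Subtype.val hxy
      exact Subtype.ext (Subtype.ext (inv_injective h1))
    refine Finite.of_surjective (fun x : {x : S // ((x : H)⁻¹) ∈
      {h : H | dist o (h • o) ≤ 2 * (T + 2 * δ) + C}} => (QuotientGroup.mk x.1 : S ⧸ K)) ?_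
    intro q
    obtain ⟨s, rfl⟩ := QuotientGroup.mk_surjective q
    obtain ⟨m, hm⟩ := hnear (s : H)⁻¹ (S.inv_mem s.2)
    -- s g^m has inverse g^-m s⁻¹ in the ball
    refine ⟨⟨s * (⟨g, hgS⟩ : S) ^ m, ?_⟩, ?_⟩
    · show dist o ((((s * (⟨g, hgS⟩ : S) ^ m : S) : H)⁻¹) • o) ≤ _
      have e1 : ((s * (⟨g, hgS⟩ : S) ^ m : S) : H) = s * g ^ m := by
        push_cast
        rfl
      rw [e1, mul_inv_rev]
      have e2 := hg.isom (g ^ m) o (((g ^ m)⁻¹ * (s : H)⁻¹) • o)
      rw [smul_smul, mul_inv_cancel_left, dist_comm] at e2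
      rw [← e2]
      exact hm
    · show (QuotientGroup.mk (s * (⟨g, hgS⟩ : S) ^ m) : S ⧸ K) = QuotientGroup.mk s
      rw [QuotientGroup.eq]
      have : (s * (⟨g, hgS⟩ : S) ^ m)⁻¹ * s = ((⟨g, hgS⟩ : S) ^ m)⁻¹ := by group
      rw [this]
      exact K.inv_mem (Subgroup.zpow_mem_zpowers _ m)
  exact Subgroup.index_ne_zero_of_finite

end K

end Pool.Agent.CTZ
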