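import Pool.Agent.CTZ.KDefs
import Pool.Agent.CTZ.GA2
import Pool.Agent.CTZ.GG

/-!
# Row K4: ping-pong rays
-/

open Filter Topology Set MeasureTheory Pool.Agent.Helper68.CT

namespace Pool.Agent.CTZ

section K

variable {H X Z : Type} [Group H] [MetricSpace X] [MulAction H X]

theorem K4.gp_nonneg (o x y : X) : 0 ≤ gromovProduct o x y := by
  unfold gromovProduct
  have := dist_triangle x o y
  rw [dist_comm x o] at this
  linarith

theorem K4.gp_le_left (o x y : X) : gromovProduct o x y ≤ dist o x := by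
  unfold gromovProduct
  have := dist_triangle o x y
  linarith

theorem K4.gp_le_right (o x y : X) : gromovProduct o x y ≤ dist o y := by
  rw [gp_comm]
  exact K4.gp_le_left o y x

/-- changing the two points changes the product by at most the distances -/
theorem K4.gp_move (o x y x' y' : X) :
    gromovProduct o x y ≤ gromovProduct o x' y' + dist x x' + dist y y' := by
  unfold gromovProduct
  have h1 := dist_triangle o x' x
  have h2 := dist_triangle o y' y
  have h3 := dist_triangle x' x y'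
  have h4 := dist_triangle x y y'
  rw [dist_comm x' x] at h1 h3
  rw [dist_comm y' y] at h2
  linarith

theorem K4.dist_mul {o : X} {δ c : ℝ} (hg : Geo H X o δ c) (x y : H) :
    dist (x⁻¹ • o) (y • o) = dist o ((x * y) • o) := by
  have := hg.isom x (x⁻¹ • o) (y • o)
  rw [← this, smul_inv_smul, smul_smul]

theorem K4.dist_mul' {o : X} {δ c : ℝ} (hg : Geo H X o δ c) (x y : H) :
    dist (x • o) ((x * y) • o) = dist o (y • o) := by
  rw [mul_smul, hg.isom]

theorem K4.len_mul {o : X} {δ c : ℝ} (hg : Geo H X o δ c) (x y : H) :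
    dist o ((x * y) • o) = dist o (x • o) + dist o (y • o) -
      2 * gromovProduct o (x⁻¹ • o) (y • o) := by
  unfold gromovProduct
  rw [K4.dist_mul hg, GG.dist_inv hg]
  ring

theorem K4.gp_split {o : X} {δ c : ℝ} (hg : Geo H X o δ c) (x y : H) :
    gromovProduct o (x • o) ((x * y) • o) =
      dist o (x • o) - gromovProduct o (x⁻¹ • o) (y • o) := by
  unfold gromovProduct
  rw [K4.dist_mul' hg, K4.dist_mul hg, GG.dist_inv hg]
  ring

theorem K4.len_mul_le {o : X} {δ c : ℝ} (hg : Geo H X o δ c) (x y : H) :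
    dist o ((x * y) • o) ≤ dist o (x • o) + dist o (y • o) := by
  rw [K4.len_mul hg]
  have := K4.gp_nonneg o (x⁻¹ • o) (y • o)
  linarith

theorem PP.T0 {o : X} {δ T : ℝ} {u : Bool → H} (h : PP o δ T u) : 0 ≤ T :=
  le_trans (K4.gp_nonneg _ _ _) h.sep

/-- first letter -/
theorem wprod_succ' (u : Bool → H) (ω : ℕ → Bool) (n : ℕ) :
    wprod u ω (n + 1) = u (ω 0) * wprod u (fun k => ω (k + 1)) n := by
  induction n with
  | zero => simp [wprod]
  | succ n ih =>
    rw [wprod, ih, mul_assoc]
    rfl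

theorem wprod_add (u : Bool → H) (ω : ℕ → Bool) (m n : ℕ) :
    wprod u ω (m + n) = wprod u ω m * wprod u (fun k => ω (m + k)) n := by
  induction n with
  | zero => simp [wprod]
  | succ n ih =>
    rw [← add_assoc, wprod, ih, mul_assoc]
    rfl

theorem wprod_congr (u : Bool → H) (ω ω' : ℕ → Bool) (n : ℕ) (h : ∀ k < n, ω k = ω' k) :
    wprod u ω n = wprod u ω' n := by
  induction n with
  | zero => rfl
  | succ n ih =>
    rw [wprod, wprod, ih (fun k hk => h k (by omega)), h n (by omega)]

/-- a word and the next letter -/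
theorem PP.letter {o : X} {δ c T : ℝ} (hg : Geo H X o δ c) {u : Bool → H} (h : PP o δ T u)
    (n : ℕ) (ω : ℕ → Bool) (b : Bool) :
    gromovProduct o ((wprod u ω n)⁻¹ • o) (u b • o) ≤ T + δ := by
  have hδ := hg.δ0
  have hT := h.T0
  induction n generalizing b with
  | zero =>
    have : gromovProduct o ((wprod u ω 0)⁻¹ • o) (u b • o) = 0 := by
      simp [wprod, gromovProduct]
    rw [this]
    linarith
  | succ n ih =>
    have h1 : gromovProduct o ((u (ω n))⁻¹ • o) ((wprod u ω (n + 1))⁻¹ • o) =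
        dist o (u (ω n) • o) - gromovProduct o ((wprod u ω n)⁻¹ • o) (u (ω n) • o) := by
      have := K4.gp_split hg (u (ω n))⁻¹ (wprod u ω n)⁻¹
      rw [wprod, mul_inv_rev, this, GG.dist_inv hg, inv_inv, gp_comm o (u (ω n) • o)]
    have h2 := ih (ω n)
    have h3 := h.big (ω n)
    have h4 := hg.hyp o ((u (ω n))⁻¹ • o) ((wprod u ω (n + 1))⁻¹ • o) (u b • o)
    have h5 := h.gp (ω n) b
    by_contra hcon
    push Not at hcon
    have h6 : T + δ < gromovProduct o ((u (ω n))⁻¹ • o) ((wprod u ω (n + 1))⁻¹ • o) := by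
      rw [h1]; linarith
    have := lt_min h6 hcon
    linarith

/-- a letter and a word -/
theorem PP.word {o : X} {δ c T : ℝ} (hg : Geo H X o δ c) {u : Bool → H} (h : PP o δ T u)
    (n : ℕ) (ω : ℕ → Bool) (a : Bool) :
    gromovProduct o ((u a)⁻¹ • o) (wprod u ω n • o) ≤ T + δ := by
  have hδ := hg.δ0
  have hT := h.T0
  induction n generalizing ω a with
  | zero =>
    have : gromovProduct o ((u a)⁻¹ • o) (wprod u ω 0 • o) = 0 := by
      simp [wprod, gromovProduct, dist_comm]
    rw [this]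
    linarith
  | succ n ih =>
    have h1 : gromovProduct o (u (ω 0) • o) (wprod u ω (n + 1) • o) =
        dist o (u (ω 0) • o) -
          gromovProduct o ((u (ω 0))⁻¹ • o) (wprod u (fun k => ω (k + 1)) n • o) := by
      rw [wprod_succ', K4.gp_split hg]
    have h2 := ih (fun k => ω (k + 1)) (ω 0)
    have h3 := h.big (ω 0)
    have h4 := hg.hyp o ((u a)⁻¹ • o) (wprod u ω (n + 1) • o) (u (ω 0) • o)
    rw [gp_comm o (wprod u ω (n + 1) • o) (u (ω 0) • o)] at h4
    have h5 := h.gp a (ω 0)
    by_contra hcon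
    push Not at hcon
    have h6 : T + δ < gromovProduct o (u (ω 0) • o) (wprod u ω (n + 1) • o) := by
      rw [h1]; linarith
    have := lt_min hcon h6
    linarith

/-- the first letter of a word -/
theorem PP.first {o : X} {δ c T : ℝ} (hg : Geo H X o δ c) {u : Bool → H} (h : PP o δ T u)
    (n : ℕ) (ω : ℕ → Bool) :
    dist o (u (ω 0) • o) - T - δ ≤
      gromovProduct o (u (ω 0) • o) (wprod u ω (n + 1) • o) := by
  rw [wprod_succ', K4.gp_split hg]
  have := h.word hg n (fun k => ω (k + 1)) (ω 0)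
  linarith

/-- an inverse word and a word -/
theorem PP.words {o : X} {δ c T : ℝ} (hg : Geo H X o δ c) {u : Bool → H} (h : PP o δ T u)
    (m n : ℕ) (ω ω' : ℕ → Bool) :
    gromovProduct o ((wprod u ω m)⁻¹ • o) (wprod u ω' n • o) ≤ T + 2 * δ := by
  have hδ := hg.δ0
  have hT := h.T0
  rcases n with _ | n
  · have : gromovProduct o ((wprod u ω m)⁻¹ • o) (wprod u ω' 0 • o) = 0 := by
      simp [wprod, gromovProduct, dist_comm]
    rw [this]
    linarith
  · have h1 := h.first hg n ω'
    have h2 := h.big (ω' 0)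
    have h3 := h.letter hg m ω (ω' 0)
    have h4 := hg.hyp o ((wprod u ω m)⁻¹ • o) (wprod u ω' (n + 1) • o) (u (ω' 0) • o)
    rw [gp_comm o (wprod u ω' (n + 1) • o) (u (ω' 0) • o)] at h4
    by_contra hcon
    push Not at hcon
    have h6 : T + 2 * δ < gromovProduct o (u (ω' 0) • o) (wprod u ω' (n + 1) • o) := by
      linarith
    have := lt_min hcon h6
    linarith

/-- different first letters -/
theorem PP.diff {o : X} {δ c T : ℝ} (hg : Geo H X o δ c) {u : Bool → H} (h : PP o δ T u)
    (m n : ℕ) (ω ω' : ℕ → Bool) (hne : ω 0 ≠ ω' 0) :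
    gromovProduct o (wprod u ω m • o) (wprod u ω' n • o) ≤ T + 2 * δ := by
  have hδ := hg.δ0
  have hT := h.T0
  have hsep : ∀ a b : Bool, a ≠ b → gromovProduct o (u a • o) (u b • o) ≤ T := by
    intro a b hab
    rcases a with _ | _ <;> rcases b with _ | _
    · exact absurd rfl hab
    · rw [gp_comm]; exact h.sep
    · exact h.sep
    · exact absurd rfl hab
  rcases m with _ | m
  · have : gromovProduct o (wprod u ω 0 • o) (wprod u ω' n • o) = 0 := by
      simp [wprod, gromovProduct]
    rw [this]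
    linarith
  rcases n with _ | n
  · have : gromovProduct o (wprod u ω (m + 1) • o) (wprod u ω' 0 • o) = 0 := by
      have e : wprod u ω' 0 = 1 := rfl
      rw [e, one_smul]
      unfold gromovProduct
      rw [dist_self, dist_comm o]
      ring
    rw [this]
    linarith
  have f1 := h.first hg m ω
  have f2 := h.first hg n ω'
  have b1 := h.big (ω 0)
  have b2 := h.big (ω' 0)
  have s1 := hsep _ _ hne
  -- the first letter of `ω` and the word of `ω'`
  have k1 : gromovProduct o (u (ω 0) • o) (wprod u ω' (n + 1) • o) ≤ T + δ := by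
    have h4 := hg.hyp o (u (ω 0) • o) (wprod u ω' (n + 1) • o) (u (ω' 0) • o)
    rw [gp_comm o (wprod u ω' (n + 1) • o) (u (ω' 0) • o)] at h4
    by_contra hcon
    push Not at hcon
    have h6 : T + δ < gromovProduct o (u (ω' 0) • o) (wprod u ω' (n + 1) • o) := by linarith
    have := lt_min hcon h6
    linarith
  have h4 := hg.hyp o (u (ω 0) • o) (wprod u ω (m + 1) • o) (wprod u ω' (n + 1) • o)
  by_contra hcon
  push Not at hcon
  have h6 : T + 2 * δ < gromovProduct o (u (ω 0) • o) (wprod u ω (m + 1) • o) := by linarith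
  have := lt_min h6 hcon
  linarith

theorem PP.step {o : X} {δ c T : ℝ} (hg : Geo H X o δ c) {u : Bool → H} (h : PP o δ T u)
    (ω : ℕ → Bool) (n : ℕ) :
    dist o (wprod u ω n • o) + 1 ≤ dist o (wprod u ω (n + 1) • o) := by
  have hδ := hg.δ0
  have hT := h.T0
  have h1 := K4.len_mul hg (wprod u ω n) (u (ω n))
  have h2 := h.letter hg n ω (ω n)
  have h3 := h.big (ω n)
  rw [wprod, h1]
  linarith

theorem PP.le_len {o : X} {δ c T : ℝ} (hg : Geo H X o δ c) {u : Bool → H} (h : PP o δ T u)
    (ω : ℕ → Bool) (n : ℕ) : (n : ℝ) ≤ dist o (wprod u ω n • o) := by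
  induction n with
  | zero => simp [wprod]
  | succ n ih =>
    have := h.step hg ω n
    push_cast
    linarith

/-- the products of the prefixes with the whole word are large -/
theorem PP.gp_prefix {o : X} {δ c T : ℝ} (hg : Geo H X o δ c) {u : Bool → H} (h : PP o δ T u)
    (ω : ℕ → Bool) (m n : ℕ) (hmn : m ≤ n) :
    dist o (wprod u ω m • o) - T - 2 * δ ≤
      gromovProduct o (wprod u ω m • o) (wprod u ω n • o) := by
  obtain ⟨k, rfl⟩ := Nat.exists_eq_add_of_le hmn
  rw [wprod_add, K4.gp_split hg]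
  have := h.words hg m k ω (fun j => ω (m + j))
  linarith

theorem PP.toInf {o : X} {δ c T : ℝ} (hg : Geo H X o δ c) {u : Bool → H} (h : PP o δ T u)
    (ω : ℕ → Bool) : ToInfinity (fun n => wprod u ω n • o) (fun n => wprod u ω n • o) := by
  refine toInfinity_of o fun s => ?_
  obtain ⟨N, hN⟩ := exists_nat_ge (s + T + 2 * δ)
  filter_upwards [eventually_ge_atTop ((N, N) : ℕ × ℕ)] with ij hij
  have h1 : N ≤ ij.1 := hij.1
  have h2 : N ≤ ij.2 := hij.2
  have h1' : (N : ℝ) ≤ ij.1 := by exact_mod_cast h1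
  have h2' : (N : ℝ) ≤ ij.2 := by exact_mod_cast h2
  rcases le_total ij.1 ij.2 with h3 | h3
  · have h4 := h.gp_prefix hg ω _ _ h3
    have h5 := h.le_len hg ω ij.1
    linarith
  · have h4 := h.gp_prefix hg ω _ _ h3
    have h5 := h.le_len hg ω ij.2
    rw [gp_comm]
    linarith

theorem PP.ends {o : X} {δ c T : ℝ} (hg : Geo H X o δ c) {u : Bool → H} (h : PP o δ T u)
    (ω : ℕ → Bool) : ∃ p, EndsAt (fun n => wprod u ω n • o) p :=
  ⟨_, h.toInf hg ω, rfl⟩

/-- the length of a word is at most linear -/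
theorem wprod_len_le {o : X} {δ c : ℝ} (hg : Geo H X o δ c) (u : Bool → H) (M : ℝ)
    (hM : ∀ b, dist o (u b • o) ≤ M) (ω : ℕ → Bool) (n : ℕ) :
    dist o (wprod u ω n • o) ≤ M * n := by
  induction n with
  | zero => simp [wprod]
  | succ n ih =>
    have h1 := K4.len_mul_le hg (wprod u ω n) (u (ω n))
    have h2 := hM (ω n)
    rw [wprod]
    push_cast
    linarith

/-- words that differ at the letter `n` have products at most linear in `n` -/
theorem PP.gp_sep {o : X} {δ c T : ℝ} (hg : Geo H X o δ c) {u : Bool → H} (h : PP o δ T u) :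
    ∃ L C' : ℝ, 0 < L ∧ ∀ (ω ω' : ℕ → Bool) (n : ℕ), (∀ k < n, ω k = ω' k) → ω n ≠ ω' n →
      ∀ m m' : ℕ, gromovProduct o (wprod u ω m • o) (wprod u ω' m' • o) ≤ L * n + C' := by
  have hδ := hg.δ0
  have hT := h.T0
  set M : ℝ := dist o (u true • o) + dist o (u false • o) with hM
  have hMb : ∀ b, dist o (u b • o) ≤ M := by
    intro b
    have h1 : 0 ≤ dist o (u true • o) := dist_nonneg
    have h2 : 0 ≤ dist o (u false • o) := dist_nonneg
    rcases b with _ | _ <;> linarith
  have hM0 : 0 ≤ M := le_trans dist_nonneg (hMb true)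
  refine ⟨M + 1, T + 2 * δ, by linarith, ?_⟩
  intro ω ω' n hlt hne m m'
  have hn0 : (0 : ℝ) ≤ n := Nat.cast_nonneg n
  rcases Nat.le_total m n with hm | hm
  · have h1 := wprod_len_le hg u M hMb ω m
    have h2 := K4.gp_le_left o (wprod u ω m • o) (wprod u ω' m' • o)
    have h3 : (m : ℝ) ≤ n := by exact_mod_cast hm
    nlinarith [mul_le_mul_of_nonneg_left h3 hM0]
  rcases Nat.le_total m' n with hm' | hm'
  · have h1 := wprod_len_le hg u M hMb ω' m'
    have h2 := K4.gp_le_right o (wprod u ω m • o) (wprod u ω' m' • o)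
    have h3 : (m' : ℝ) ≤ n := by exact_mod_cast hm'
    nlinarith [mul_le_mul_of_nonneg_left h3 hM0]
  obtain ⟨k, rfl⟩ := Nat.exists_eq_add_of_le hm
  obtain ⟨k', rfl⟩ := Nat.exists_eq_add_of_le hm'
  have e : wprod u ω' n = wprod u ω n := (wprod_congr u ω ω' n hlt).symm
  have h1 := (abs_le.1 (gp_base o (wprod u ω n • o) (wprod u ω (n + k) • o)
    (wprod u ω' (n + k') • o))).2
  rw [wprod_add u ω n k, wprod_add u ω' n k', e, mul_smul, mul_smul,
    gp_smul hg (wprod u ω n)] at h1
  have h2 := h.diff hg k k' (fun j => ω (n + j)) (fun j => ω' (n + j)) (by simpa using hne)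
  have h3 := wprod_len_le hg u M hMb ω n
  rw [wprod_add u ω n k, wprod_add u ω' n k', e, mul_smul, mul_smul]
  nlinarith

/-- powers of a loxodromic element -/
theorem K4.lox_bounds {o : X} {δ c : ℝ} (hg : Geo H X o δ c) (g : H) (hl : Lox o δ g) :
    (∀ n : ℕ, dist o (g ^ n • o) + 1 ≤ dist o (g ^ (n + 1) • o)) ∧
    ∃ T₁ : ℝ, ∀ m n : ℕ, gromovProduct o ((g⁻¹) ^ m • o) (g ^ n • o) ≤ T₁ := by
  have hδ := hg.δ0
  unfold Lox at hl
  set C₁ : ℝ := gromovProduct o (g • o) (g⁻¹ • o) with hC₁
  have hC0 : 0 ≤ C₁ := K4.gp_nonneg _ _ _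
  have hC' : gromovProduct o (g⁻¹ • o) (g • o) = C₁ := gp_comm _ _ _
  have hinv := GG.dist_inv hg g
  -- first power and all powers
  have one : ∀ (x : H), gromovProduct o (x⁻¹ • o) (x • o) = C₁ → dist o (x • o) = dist o (g • o) →
      ∀ n : ℕ, gromovProduct o (x⁻¹ • o) (x ^ n • o) ≤ C₁ + δ := by
    intro x hx hd n
    induction n with
    | zero =>
      have : gromovProduct o (x⁻¹ • o) (x ^ 0 • o) = 0 := by
        rw [pow_zero, one_smul]
        unfold gromovProduct
        rw [dist_self, dist_comm o]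
        ring
      rw [this]
      linarith
    | succ n ih =>
      have h1 := K4.gp_split hg x (x ^ n)
      rw [← pow_succ'] at h1
      have h2 := hg.hyp o (x⁻¹ • o) (x ^ (n + 1) • o) (x • o)
      rw [gp_comm o (x ^ (n + 1) • o) (x • o), hx] at h2
      by_contra hcon
      push Not at hcon
      have h3 : C₁ + δ < gromovProduct o (x • o) (x ^ (n + 1) • o) := by
        rw [h1, hd]; linarith
      have := lt_min hcon h3
      linarith
  have one1 := one g hC' rfl
  have one2 := one g⁻¹ (by rw [inv_inv]) hinv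
  constructor
  · intro n
    have h1 := K4.len_mul hg g (g ^ n)
    rw [← pow_succ'] at h1
    have h2 := one1 n
    rw [h1]
    linarith
  · refine ⟨C₁ + 2 * δ, fun m n => ?_⟩
    rcases m with _ | m
    · have : gromovProduct o ((g⁻¹) ^ 0 • o) (g ^ n • o) = 0 := by
        simp [gromovProduct]
      rw [this]
      linarith
    · have h1 := K4.gp_split hg g⁻¹ ((g⁻¹) ^ m)
      rw [← pow_succ', inv_inv, hinv] at h1
      have h2 := one2 m
      rw [inv_inv] at h2
      have h3 := hg.hyp o (g⁻¹ • o) ((g⁻¹) ^ (m + 1) • o) (g ^ n • o)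
      have h4 := one1 n
      by_contra hcon
      push Not at hcon
      have h5 : C₁ + 2 * δ < gromovProduct o (g⁻¹ • o) ((g⁻¹) ^ (m + 1) • o) := by
        rw [h1]; linarith
      have := lt_min h5 hcon
      linarith

theorem exists_pp {o : X} {δ c : ℝ} (hg : Geo H X o δ c) (g s : H) (hl : Lox o δ g) (T : ℝ)
    (hT : ∀ m n : ℤ, gromovProduct o (g ^ m • o) ((s * g * s⁻¹) ^ n • o) ≤ T) (D : ℝ) :
    ∃ (N : ℕ) (T' : ℝ), PP o δ T' (fun b : Bool => if b then g ^ N else (s * g * s⁻¹) ^ N) ∧
      D < dist o (g ^ N • o) ∧ D < dist o ((s * g * s⁻¹) ^ N • o) := by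
  have hδ := hg.δ0
  obtain ⟨hst, T₁, hT₁⟩ := K4.lox_bounds hg g hl
  set S : ℝ := dist o (s • o) with hS
  have hS0 : 0 ≤ S := dist_nonneg
  have hconj : ∀ n : ℕ, (s * g * s⁻¹) ^ n = s * g ^ n * s⁻¹ := fun n => conj_pow
  have hconj' : ∀ n : ℕ, ((s * g * s⁻¹) ^ n)⁻¹ = s * (g⁻¹) ^ n * s⁻¹ := fun n => by
    rw [hconj, mul_inv_rev, mul_inv_rev, inv_inv, inv_pow, mul_assoc]
  -- the end point of a conjugate
  have hnear : ∀ x : H, dist ((s * x * s⁻¹) • o) (s • x • o) = S := by
    intro x
    rw [mul_smul, mul_smul, hg.isom, hg.isom, dist_comm, GG.dist_inv hg]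
  have hconjgp : ∀ x y : H, gromovProduct o ((s * x * s⁻¹) • o) ((s * y * s⁻¹) • o) ≤
      gromovProduct o (x • o) (y • o) + 3 * S := by
    intro x y
    have h1 := K4.gp_move o ((s * x * s⁻¹) • o) ((s * y * s⁻¹) • o) (s • x • o) (s • y • o)
    rw [hnear, hnear] at h1
    have h2 := (abs_le.1 (gp_base o (s • o) (s • x • o) (s • y • o))).2
    rw [gp_smul hg s] at h2
    linarith
  have hconjlen : ∀ x : H, dist o (x • o) - 2 * S ≤ dist o ((s * x * s⁻¹) • o) := by
    intro x
    have h1 := dist_triangle (s • o) o ((s * x * s⁻¹) • o)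
    have h2 := dist_triangle (s • o) ((s * x * s⁻¹) • o) (s • x • o)
    rw [hnear, hg.isom] at h2
    rw [dist_comm (s • o) o] at h1
    linarith
  set T' : ℝ := max T (T₁ + 3 * S) with hT'
  have hTT' : T ≤ T' := le_max_left _ _
  have hT1' : T₁ + 3 * S ≤ T' := le_max_right _ _
  obtain ⟨N, hN⟩ := exists_nat_gt (|4 * T' + 20 * δ + 20| + |D| + 2 * S)
  have hlen : (N : ℝ) ≤ dist o (g ^ N • o) := by
    have h7 := GG.le_pow g hst N 0
    simp only [pow_zero, one_smul, dist_self, zero_add] at h7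
    exact h7
  have a1 := le_abs_self (4 * T' + 20 * δ + 20)
  have a2 := le_abs_self D
  have a3 := abs_nonneg D
  have a4 := abs_nonneg (4 * T' + 20 * δ + 20)
  have hlen2 : (N : ℝ) - 2 * S ≤ dist o ((s * g * s⁻¹) ^ N • o) := by
    have := hconjlen (g ^ N)
    rw [hconj]
    linarith
  refine ⟨N, T', ⟨?_, ?_, ?_⟩, by linarith, by linarith⟩
  · intro a b
    rcases a with _ | _ <;> rcases b with _ | _
    · simp only [Bool.false_eq_true, if_false]
      rw [hconj', hconj]
      have h1 := hconjgp ((g⁻¹) ^ N) (g ^ N)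
      have h2 := hT₁ N N
      linarith
    · simp only [Bool.false_eq_true, if_false, if_true]
      have h1 := hT N (-(N : ℤ))
      rw [zpow_natCast, zpow_neg, zpow_natCast] at h1
      rw [gp_comm]
      linarith
    · simp only [Bool.false_eq_true, if_false, if_true]
      have h1 := hT (-(N : ℤ)) N
      rw [zpow_neg, zpow_natCast, zpow_natCast] at h1
      linarith
    · simp only [if_true]
      have h2 := hT₁ N N
      rw [inv_pow] at h2
      linarith
  · simp only [Bool.false_eq_true, if_false, if_true]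
    have h1 := hT N N
    rw [zpow_natCast, zpow_natCast] at h1
    linarith
  · intro a
    rcases a with _ | _
    · simp only [Bool.false_eq_true, if_false]
      linarith
    · simp only [if_true]
      linarith

end K

end Pool.Agent.CTZ
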