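import Pool.Agent.CTZ.GDefs

/-!
# The converse: definitions
-/

open Filter Topology Set Pool.Agent.Helper68.CT

namespace Pool.Agent.CTZ

variable {H X : Type} [Group H] [MetricSpace X] [MulAction H X]

/-- rough points of the orbit on the geodesic from `o` to `t • o` -/
def Mid (H : Type) {X : Type} [Group H] [MetricSpace X] [MulAction H X] (o : X) (c : ℝ) : Prop :=
  ∀ (t : H) (k : ℝ), 0 ≤ k → k ≤ dist o (t • o) →
    ∃ v : H, |dist o (v • o) - k| ≤ c ∧ |dist (v • o) (t • o) - (dist o (t • o) - k)| ≤ c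

/-- loxodromic, seen at the base point -/
def Lox (o : X) (δ : ℝ) (g : H) : Prop :=
  2 * gromovProduct o (g • o) (g⁻¹ • o) + 10 * δ + 10 < dist o (g • o)

/-- product of the first `n` letters -/
def wprod (u : Bool → H) (ω : ℕ → Bool) : ℕ → H
  | 0 => 1
  | n + 1 => wprod u ω n * u (ω n)

/-- ping-pong data -/
structure PP (o : X) (δ T : ℝ) (u : Bool → H) : Prop where
  gp : ∀ a b, gromovProduct o ((u a)⁻¹ • o) (u b • o) ≤ T
  sep : gromovProduct o (u true • o) (u false • o) ≤ T
  big : ∀ a, 4 * T + 20 * δ + 20 ≤ dist o (u a • o)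

end Pool.Agent.CTZ
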