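import Pool.Agent.CTZ.GC
import Pool.Agent.CTZ.KDefs
import Pool.Agent.CTZ.KDim

/-!
# Row K5: lower bound of the dimension of the set of the ends of ping-pong words
-/

open Filter Topology Set MeasureTheory Pool.Agent.Helper68.CT

namespace Pool.Agent.CTZ

section K5

variable {H X Z : Type} [Group H] [MetricSpace X] [MulAction H X]

theorem boundaryProduct_le {o : X} {δ c : ℝ} (hg : Geo H X o δ c) {x y : ℕ → X}
    {p q : Boundary X} (hx : EndsAt x p) (hy : EndsAt y q) (B : ℝ)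
    (h : ∀ m n : ℕ, gromovProduct o (x m) (y n) ≤ B) :
    boundaryProduct o p q ≤ ((B + 2 * δ : ℝ) : EReal) := by
  unfold boundaryProduct
  refine iSup_le fun x' => iSup_le fun y' => iSup_le fun hx' => iSup_le fun hy' => ?_
  have h1 : ToInfinity x x'.1 := EndsAt.toInfinity hg hx ⟨x'.2, hx'⟩
  have h2 : ToInfinity y y'.1 := EndsAt.toInfinity hg hy ⟨y'.2, hy'⟩
  have h3 := (tendsto_atTop.1 (h1 o)) (B + 2 * δ + 1)
  have h4 := (tendsto_atTop.1 (h2 o)) (B + 2 * δ + 1)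
  rw [eventually_atTop] at h3 h4
  obtain ⟨⟨M, I⟩, h3⟩ := h3
  obtain ⟨⟨N, J⟩, h4⟩ := h4
  have h5 : ∀ᶠ ij : ℕ × ℕ in atTop,
      ((gromovProduct o (x'.1 ij.1) (y'.1 ij.2) : ℝ) : EReal) ≤ ((B + 2 * δ : ℝ) : EReal) := by
    refine eventually_atTop.2 ⟨(I, J), ?_⟩
    rintro ⟨i, j⟩ ⟨hi, hj⟩
    have e1 : B + 2 * δ + 1 ≤ gromovProduct o (x M) (x'.1 i) := h3 (M, i) ⟨le_rfl, hi⟩
    have e2 : B + 2 * δ + 1 ≤ gromovProduct o (y N) (y'.1 j) := h4 (N, j) ⟨le_rfl, hj⟩
    have e3 := hg.hyp o (x M) (x'.1 i) (y N)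
    have e4 := hg.hyp o (x'.1 i) (y'.1 j) (y N)
    rw [gp_comm o (y'.1 j) (y N)] at e4
    have e5 := h M N
    have e6 := hg.δ0
    rw [EReal.coe_le_coe_iff]
    show gromovProduct o (x'.1 i) (y'.1 j) ≤ B + 2 * δ
    by_contra hcon
    push Not at hcon
    have e7 : B + 2 * δ < min (gromovProduct o (x'.1 i) (y'.1 j)) (gromovProduct o (y N) (y'.1 j)) :=
      lt_min hcon (by linarith)
    have e8 : B + δ < min (gromovProduct o (x M) (x'.1 i)) (gromovProduct o (x'.1 i) (y N)) :=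
      lt_min (by linarith) (by linarith)
    linarith
  calc liminf (fun ij : ℕ × ℕ => ((gromovProduct o (x'.1 ij.1) (y'.1 ij.2) : ℝ) : EReal)) atTop
      ≤ liminf (fun _ : ℕ × ℕ => ((B + 2 * δ : ℝ) : EReal)) atTop := liminf_le_liminf h5
    _ = _ := liminf_const _

theorem le_expNeg {a : ℝ} (ha : 1 < a) {t : EReal} {s : ℝ} (h0 : 0 ≤ t) (h : t ≤ (s : EReal)) :
    a ^ (-s) ≤ expNeg a t := by
  unfold expNeg
  have ht : t ≠ ⊤ := by
    rintro rfl
    exact absurd h (by simp)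
  have hb : t ≠ ⊥ := by
    rintro rfl
    exact absurd h0 (by simp)
  rw [if_neg ht]
  apply Real.rpow_le_rpow_of_exponent_le ha.le
  lift t to ℝ using ⟨ht, hb⟩
  rw [EReal.toReal_coe]
  have := EReal.coe_le_coe_iff.1 h
  linarith

/-- lower bound of the visual metric -/
theorem visual_lower {o : X} {δ c : ℝ} (hg : Geo H X o δ c) {a : ℝ} (ha : 1 < a)
    {d : MetricSpace (Boundary X)} (hd : IsVisual a o d) :
    ∃ C : ℝ, 0 < C ∧ ∀ (x y : ℕ → X) (p q : Boundary X) (B : ℝ), EndsAt x p → EndsAt y q →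
      (∀ m n : ℕ, gromovProduct o (x m) (y n) ≤ B) → C * a ^ (-B) ≤ d.dist p q := by
  obtain ⟨C, hC, h⟩ := hd
  refine ⟨C⁻¹ * a ^ (-(2 * δ)), by positivity, ?_⟩
  intro x y p q B hx hy hB
  refine le_trans ?_ (h p q).1
  have h1 := boundaryProduct_le hg hx hy B hB
  have h2 : ((0 : ℝ) : EReal) ≤ boundaryProduct o p q :=
    le_boundaryProduct o hx hy (Eventually.of_forall fun ij => gp_nonneg _ _ _)
  have h3 := le_expNeg ha h2 h1
  rw [mul_assoc, ← Real.rpow_add (by linarith)]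
  refine mul_le_mul_of_nonneg_left ?_ (by positivity)
  refine le_trans (le_of_eq ?_) h3
  congr 1
  ring

/-- the dimension is positive, from the statements of row K4 -/
theorem pp_dim_pos_of {o : X} {δ c : ℝ} (hg : Geo H X o δ c) {u : Bool → H}
    (hends : ∀ ω : ℕ → Bool, ∃ p, EndsAt (fun n => wprod u ω n • o) p)
    (hsep : ∃ L C' : ℝ, 0 < L ∧ ∀ (ω ω' : ℕ → Bool) (n : ℕ), (∀ k < n, ω k = ω' k) → ω n ≠ ω' n →
      ∀ m m' : ℕ, gromovProduct o (wprod u ω m • o) (wprod u ω' m' • o) ≤ L * n + C')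
    {a : ℝ} (ha : 1 < a) {d : MetricSpace (Boundary X)} (hd : IsVisual a o d)
    (E : Set (Boundary X))
    (hE : ∀ (ω : ℕ → Bool) (p : Boundary X), EndsAt (fun n => wprod u ω n • o) p → p ∈ E) :
    0 < dimWith d E := by
  obtain ⟨C, hC, hlow⟩ := visual_lower hg ha hd
  obtain ⟨L, C', hL, hsep⟩ := hsep
  choose e he using hends
  have ha0 : 0 < a := by linarith
  unfold dimWith
  let _ := d
  let f : (ℕ → Fin 2) → ℕ → Bool := fun x n => decide (x n = 1)
  have hf : ∀ (x y : ℕ → Fin 2) (n : ℕ), f x n = f y n ↔ x n = y n := by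
    intro x y n
    show (decide (x n = 1) = decide (y n = 1)) ↔ x n = y n
    rw [decide_eq_decide]
    generalize x n = s
    generalize y n = t
    revert s t
    decide
  refine dimH_pos_of_digits E (fun x => e (f x)) (fun x => hE _ _ (he _)) (C * a ^ (-C'))
    (a ^ (-L)) (by positivity) (by positivity) (Real.rpow_lt_one_of_one_lt_of_neg ha (by linarith)) ?_
  intro x y n hxy hn
  have h1 := hsep (f x) (f y) n (fun k hk => (hf x y k).2 (hxy k hk)) (fun h => hn ((hf x y n).1 h))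
  have h2 := hlow _ _ _ _ (L * n + C') (he (f x)) (he (f y)) h1
  refine le_trans (le_of_eq ?_) h2
  rw [← Real.rpow_natCast, ← Real.rpow_mul ha0.le, mul_assoc, ← Real.rpow_add ha0]
  congr 2
  ring

end K5

end Pool.Agent.CTZ
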