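import Pool.Agent.CTZ.GA

/-!
# Visual metrics: upper bounds, continuity and compactness of the boundary
-/

open Filter Topology Set MeasureTheory Pool.Agent.Helper68.CT

namespace Pool.Agent.CTZ

section GC

variable {H X Z : Type} [Group H] [MetricSpace X] [MulAction H X]

theorem expNeg_le {a : ℝ} (ha : 1 < a) {t : EReal} {s : ℝ} (h : (s : EReal) ≤ t) :
    expNeg a t ≤ a ^ (-s) := by
  unfold expNeg
  split_ifs with ht
  · exact (Real.rpow_pos_of_pos (by linarith) _).le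
  · apply Real.rpow_le_rpow_of_exponent_le ha.le
    have hb : t ≠ ⊥ := by
      rintro rfl
      exact absurd h (by simp)
    lift t to ℝ using ⟨ht, hb⟩
    rw [EReal.toReal_coe]
    have := EReal.coe_le_coe_iff.1 h
    linarith

theorem le_boundaryProduct (o : X) {x y : ℕ → X} {p q : Boundary X} {s : ℝ}
    (hx : EndsAt x p) (hy : EndsAt y q)
    (h : ∀ᶠ ij : ℕ × ℕ in atTop, s ≤ gromovProduct o (x ij.1) (y ij.2)) :
    (s : EReal) ≤ boundaryProduct o p q := by
  obtain ⟨hx1, rfl⟩ := hx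
  obtain ⟨hy1, rfl⟩ := hy
  unfold boundaryProduct
  refine le_trans ?_ (le_iSup_of_le (⟨x, hx1⟩ : GromovSeq X)
    (le_iSup_of_le (⟨y, hy1⟩ : GromovSeq X) (le_iSup_of_le rfl (le_iSup_of_le rfl le_rfl))))
  apply le_liminf_of_le
  · isBoundedDefault
  · filter_upwards [h] with ij hij
    exact EReal.coe_le_coe_iff.2 hij

theorem exists_vis {a : ℝ} (ha : 1 < a) (o : X) {d : MetricSpace (Boundary X)}
    (hd : IsVisual a o d) : ∃ C, Vis o C a d := by
  obtain ⟨C, hC, h⟩ := hd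
  refine ⟨C, by linarith, ha, ?_⟩
  intro x y p q s hx hy hs
  refine (h p q).2.trans ?_
  exact mul_le_mul_of_nonneg_left (expNeg_le ha (le_boundaryProduct o hx hy hs)) (by linarith)

theorem CTMap.of_equivariant (o : X) {i : Boundary X → Z} [TopologicalSpace Z] [MulAction H Z]
    (h : Equivariant H i) : CTMap (H := H) o i := by
  refine ⟨?_⟩
  intro g x p q hx hy
  obtain ⟨hx1, rfl⟩ := hx
  obtain ⟨hy1, rfl⟩ := hy
  exact h g ⟨x, hx1⟩ ⟨fun n => g • x n, hy1⟩ fun n => rfl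

theorem tendsto_i [TopologicalSpace Z] {d : MetricSpace (Boundary X)} {i : Boundary X → Z}
    (hc : ContinuousWith d i) {ι : Type} (F : Filter ι) (ξ : ι → Boundary X) (ζ : Boundary X)
    (h : ∀ ε > 0, ∀ᶠ n in F, d.dist (ξ n) ζ < ε) : Tendsto (fun n => i (ξ n)) F (𝓝 (i ζ)) := by
  let _ := d
  have hc' : Continuous i := hc
  refine (hc'.tendsto ζ).comp ?_
  rw [Metric.tendsto_nhds]
  exact h

theorem compact_boundary {o : X} {δ c : ℝ} (hg : Geo H X o δ c) {C a : ℝ}
    {d : MetricSpace (Boundary X)} (hv : Vis o C a d) (U : Ultrafilter ℕ) (ξ : ℕ → Boundary X) :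
    ∃ ζ, ∀ ε > 0, ∀ᶠ n in (U : Filter ℕ), d.dist (ξ n) ζ < ε := by
  obtain ⟨hC, ha, hv⟩ := hv
  choose r hr hrξ using fun n => hg.rays (ξ n)
  have hfin : ∀ k : ℕ, {h : H | dist o (h • o) ≤ k + c}.Finite := fun k => hg.fin _
  have hmem : ∀ n k : ℕ, r n k ∈ {h : H | dist o (h • o) ≤ k + c} := by
    intro n k
    have h1 := (hr n).2 0 k
    rw [(hr n).1, one_smul] at h1
    have h2 := (abs_le.1 h1).2
    have h3 : |((0 : ℕ) : ℝ) - k| = k := by simp
    rw [h3] at h2
    show dist o (r n k • o) ≤ k + c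
    linarith
  have hval : ∀ k : ℕ, ∃ v : H, ∀ᶠ n in (U : Filter ℕ), r n k = v := by
    intro k
    have h1 : ∀ᶠ n in (U : Filter ℕ), ∃ v ∈ {h : H | dist o (h • o) ≤ k + c}, r n k = v :=
      Eventually.of_forall fun n => ⟨r n k, hmem n k, rfl⟩
    obtain ⟨v, -, hv⟩ := (Ultrafilter.eventually_exists_mem_iff (hfin k)).1 h1
    exact ⟨v, hv⟩
  choose ρ hρ using hval
  have hray : IsRay o c ρ := by
    constructor
    · obtain ⟨n, hn⟩ := (hρ 0).exists
      rw [← hn]
      exact (hr n).1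
    · intro m k
      obtain ⟨n, hn, hn'⟩ := ((hρ m).and (hρ k)).exists
      rw [← hn, ← hn']
      exact (hr n).2 m k
  obtain ⟨ζ, hζ⟩ := ray_ends hg hray
  refine ⟨ζ, ?_⟩
  intro ε hε
  -- choose M large
  have hlim : Tendsto (fun M : ℕ => C * a ^ (-((M : ℝ) - 3 * c / 2 - δ))) atTop (𝓝 0) := by
    have h1 : Tendsto (fun M : ℕ => -((M : ℝ) - 3 * c / 2 - δ)) atTop atBot := by
      rw [tendsto_neg_atBot_iff]
      have := tendsto_atTop_add_const_right atTop (-(3 * c / 2) - δ)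
        (tendsto_natCast_atTop_atTop (R := ℝ))
      refine this.congr fun M => ?_
      ring
    have h2 := (tendsto_rpow_atBot_of_base_gt_one a ha).comp h1
    simpa using h2.const_mul C
  obtain ⟨M, hM⟩ := (hlim.eventually (gt_mem_nhds hε)).exists
  filter_upwards [hρ M] with n hn
  refine lt_of_le_of_lt (hv _ _ _ _ _ (hrξ n) hζ ?_) hM
  filter_upwards [eventually_ge_atTop ((M, M) : ℕ × ℕ)] with ij hij
  have h1 := hg.hyp o (r n ij.1 • o) (r n M • o) (ρ ij.2 • o)
  have h2 := ray_gp (hr n) ij.1 M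
  have h3 := ray_gp hray M ij.2
  have hi : (M : ℝ) ≤ ij.1 := by exact_mod_cast hij.1
  have hj : (M : ℝ) ≤ ij.2 := by exact_mod_cast hij.2
  rw [min_eq_right hi] at h2
  rw [min_eq_left hj] at h3
  rw [hn] at h1 h2
  have h4 : (M : ℝ) - 3 * c / 2 ≤ min (gromovProduct o (r n ij.1 • o) (ρ M • o))
      (gromovProduct o (ρ M • o) (ρ ij.2 • o)) := le_min h2 h3
  linarith

end GC

end Pool.Agent.CTZ
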