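import Pool.Agent.CTZ.GSys
import Pool.Agent.CTZ.GC

/-!
# CTZ row GI: rays to preimages of non-conical points follow the language
-/

open Filter Topology Set Pool.Agent.Helper68.CT

namespace Pool.Agent.CTZ

namespace GI

variable {H X Z : Type} [Group H] [MetricSpace X] [MulAction H X]

theorem gp_smul' {o : X} {δ c : ℝ} (hg : Geo H X o δ c) (g : H) (b x y : X) :
    gromovProduct (g • b) (g • x) (g • y) = gromovProduct b x y := by
  unfold gromovProduct
  rw [hg.isom, hg.isom, hg.isom]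

/-- Windows of a ray converge along a subsequence to a line. -/
theorem exists_window {o : X} {δ c : ℝ} (hg : Geo H X o δ c) {r : ℕ → H} (hr : IsRay o c r)
    (P : ℕ → Prop) (hP : ∃ᶠ n in atTop, P n) :
    ∃ l : ℤ → H, IsLine o c l ∧ l 0 = 1 ∧
      ∀ N : ℕ, ∃ᶠ n : ℕ in atTop, P n ∧ ∀ k : ℤ, |k| ≤ N →
        0 ≤ (n : ℤ) + k ∧ (r n)⁻¹ * r ((n : ℤ) + k).toNat = l k := by
  have hne : (atTop ⊓ 𝓟 {n | P n} : Filter ℕ).NeBot := by
    rw [← frequently_mem_iff_neBot]
    exact hP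
  let U : Ultrafilter ℕ := Ultrafilter.of (atTop ⊓ 𝓟 {n | P n})
  have hU : (U : Filter ℕ) ≤ atTop ⊓ 𝓟 {n | P n} := Ultrafilter.of_le _
  have hU1 : (U : Filter ℕ) ≤ atTop := hU.trans inf_le_left
  have hU2 : ∀ᶠ n in (U : Filter ℕ), P n := hU (mem_inf_of_right (mem_principal_self _))
  have hval : ∀ k : ℤ, ∃ v : H, ∀ᶠ n : ℕ in (U : Filter ℕ),
      (r n)⁻¹ * r ((n : ℤ) + k).toNat = v := by
    intro k
    have hfin := hg.fin (|(k : ℝ)| + c)
    have hmem : (⋃ v ∈ {h : H | dist o (h • o) ≤ |(k : ℝ)| + c},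
        {n : ℕ | (r n)⁻¹ * r ((n : ℤ) + k).toNat = v}) ∈ U := by
      have hlarge : ∀ᶠ n : ℕ in (U : Filter ℕ), k.natAbs ≤ n := hU1 (eventually_ge_atTop _)
      filter_upwards [hlarge] with n hn
      simp only [mem_iUnion, mem_ofPred_eq, exists_prop, exists_eq_right']
      have h1 : dist o (((r n)⁻¹ * r ((n : ℤ) + k).toNat) • o)
          = dist (r n • o) (r ((n : ℤ) + k).toNat • o) := by
        rw [← hg.isom (r n), smul_smul, mul_inv_cancel_left]
      rw [h1]
      have h2 := hr.2 n ((n : ℤ) + k).toNat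
      have h3 : (((((n : ℤ) + k).toNat : ℕ) : ℤ)) = (n : ℤ) + k := Int.toNat_of_nonneg (by omega)
      have h4 : ((((n : ℤ) + k).toNat : ℕ) : ℝ) = (n : ℝ) + k := by exact_mod_cast h3
      rw [h4] at h2
      have h5 : |(n : ℝ) - (n + k)| = |(k : ℝ)| := by
        rw [show (n : ℝ) - (n + k) = -(k : ℝ) by ring, abs_neg]
      rw [h5] at h2
      have := (abs_le.mp h2).2
      linarith
    rw [Ultrafilter.finite_biUnion_mem_iff hfin] at hmem
    obtain ⟨v, -, hv⟩ := hmem
    exact ⟨v, hv⟩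
  choose l hl using hval
  have hwin : ∀ N : ℕ, ∀ᶠ n : ℕ in (U : Filter ℕ), P n ∧ ∀ k : ℤ, |k| ≤ N →
        0 ≤ (n : ℤ) + k ∧ (r n)⁻¹ * r ((n : ℤ) + k).toNat = l k := by
    intro N
    have h1 : ∀ᶠ n : ℕ in (U : Filter ℕ), N ≤ n := hU1 (eventually_ge_atTop _)
    have h2 : ∀ᶠ n : ℕ in (U : Filter ℕ), ∀ k ∈ Finset.Icc (-(N : ℤ)) N,
        (r n)⁻¹ * r ((n : ℤ) + k).toNat = l k := by
      rw [Filter.eventually_all_finset]
      exact fun k _ => hl k
    filter_upwards [h1, h2, hU2] with n hn1 hn2 hn3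
    refine ⟨hn3, fun k hk => ⟨?_, hn2 k ?_⟩⟩
    · have := (abs_le.mp hk).1
      omega
    · rw [Finset.mem_Icc]
      exact abs_le.mp hk
  refine ⟨l, ?_, ?_, fun N => ?_⟩
  · intro m n
    obtain ⟨j, -, hj⟩ := (hwin (m.natAbs ⊔ n.natAbs)).exists
    have hm := hj m (by
      rw [Int.abs_eq_natAbs]
      exact_mod_cast le_sup_left)
    have hn := hj n (by
      rw [Int.abs_eq_natAbs]
      exact_mod_cast le_sup_right)
    rw [← hm.2, ← hn.2, ← smul_smul, ← smul_smul, hg.isom]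
    have h2 := hr.2 ((j : ℤ) + m).toNat ((j : ℤ) + n).toNat
    have h3 : (((((j : ℤ) + m).toNat : ℕ) : ℤ)) = (j : ℤ) + m := Int.toNat_of_nonneg hm.1
    have h4 : ((((j : ℤ) + m).toNat : ℕ) : ℝ) = (j : ℝ) + m := by exact_mod_cast h3
    have h5 : (((((j : ℤ) + n).toNat : ℕ) : ℤ)) = (j : ℤ) + n := Int.toNat_of_nonneg hn.1
    have h6 : ((((j : ℤ) + n).toNat : ℕ) : ℝ) = (j : ℝ) + n := by exact_mod_cast h5
    rw [h4, h6, show (j : ℝ) + m - (j + n) = (m : ℝ) - n by ring] at h2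
    exact h2
  · obtain ⟨j, -, hj⟩ := (hwin 0).exists
    have h0 := (hj 0 (by simp)).2
    rw [← h0]
    simp
  · exact ((hwin N).frequently).filter_mono hU1

/-- `C a ^ (-(N - K)) → 0`. -/
theorem tendsto_bound {C a K : ℝ} (ha : 1 < a) :
    Tendsto (fun N : ℕ => C * a ^ (-((N : ℝ) - K))) atTop (𝓝 0) := by
  have h1 : Tendsto (fun N : ℕ => (N : ℝ) - K) atTop atTop :=
    tendsto_atTop_add_const_right _ _ tendsto_natCast_atTop_atTop
  have h2 : Tendsto (fun N : ℕ => a ^ (-((N : ℝ) - K))) atTop (𝓝 0) := by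
    have h3 : ∀ N : ℕ, a ^ (-((N : ℝ) - K)) = Real.exp (-(Real.log a * ((N : ℝ) - K))) := by
      intro N
      rw [Real.rpow_def_of_pos (by linarith)]
      congr 1
      ring
    simp only [h3]
    exact Real.tendsto_exp_neg_atTop_nhds_zero.comp (h1.const_mul_atTop (Real.log_pos ha))
  simpa using h2.const_mul C

/-- Two sequences with products at least `N - K`. -/
theorem dist_small {o : X} {C a K : ℝ} {d : MetricSpace (Boundary X)} (hv : Vis o C a d)
    (ξ : ℕ → Boundary X) (p : Boundary X) (x : ℕ → ℕ → X) (y : ℕ → X)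
    (hx : ∀ N, EndsAt (x N) (ξ N)) (hy : EndsAt y p)
    (h : ∀ N : ℕ, ∀ᶠ ij : ℕ × ℕ in atTop, (N : ℝ) - K ≤ gromovProduct o (x N ij.1) (y ij.2)) :
    ∀ ε > 0, ∀ᶠ N in atTop, d.dist (ξ N) p < ε := by
  intro ε hε
  filter_upwards [(tendsto_bound (C := C) (a := a) (K := K) hv.2.1).eventually_lt_const hε]
    with N hN
  exact lt_of_le_of_lt (hv.2.2 (x N) y (ξ N) p _ (hx N) hy (h N)) hN

/-- Products of rays to different points are bounded. -/
theorem bounded_products {o : X} {δ c : ℝ} (hg : Geo H X o δ c) {r r' : ℕ → H}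
    (hr : IsRay o c r) (hr' : IsRay o c r') {ξ ζ : Boundary X}
    (hξ : EndsAt (fun n => r n • o) ξ) (hζ : EndsAt (fun n => r' n • o) ζ) (hne : ζ ≠ ξ) :
    ∃ T : ℝ, 0 ≤ T ∧ ∀ m n : ℕ, gromovProduct o (r' m • o) (r n • o) ≤ T := by
  by_contra hcon
  push Not at hcon
  have hdist : ∀ {r : ℕ → H}, IsRay o c r → ∀ n : ℕ, dist o (r n • o) ≤ n + c := by
    intro r hr n
    have h1 := hr.2 0 n
    rw [hr.1, one_smul] at h1
    have h2 : |((0 : ℕ) : ℝ) - n| = n := by
      rw [Nat.cast_zero, zero_sub, abs_neg, abs_of_nonneg (Nat.cast_nonneg n)]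
    rw [h2] at h1
    have := (abs_le.mp h1).2
    linarith
  have hgp : ∀ {r : ℕ → H}, IsRay o c r → ∀ m n : ℕ, m ≤ n →
      (m : ℝ) - 3 * c / 2 ≤ gromovProduct o (r m • o) (r n • o) := by
    intro r hr m n hmn
    have h1 := ray_gp hr m n
    rwa [min_eq_left (by exact_mod_cast hmn)] at h1
  have hgp' : ∀ {r : ℕ → H}, IsRay o c r → ∀ m n : ℕ, m ≤ n →
      (m : ℝ) - 3 * c / 2 ≤ gromovProduct o (r n • o) (r m • o) := by
    intro r hr m n hmn
    rw [gp_comm]
    exact hgp hr m n hmn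
  have hinf : ToInfinity (fun n => r' n • o) (fun n => r n • o) := by
    refine toInfinity_of o fun s => ?_
    obtain ⟨m, n, hmn⟩ := hcon (max 0 (s + 5 * c / 2 + 2 * δ)) (le_max_left _ _)
    have hs : s + 5 * c / 2 + 2 * δ < gromovProduct o (r' m • o) (r n • o) :=
      lt_of_le_of_lt (le_max_right _ _) hmn
    have h1 : gromovProduct o (r' m • o) (r n • o) ≤ m + c := by
      refine le_trans ?_ (hdist hr' m)
      unfold gromovProduct
      have := dist_triangle o (r' m • o) (r n • o)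
      linarith
    have h2 : gromovProduct o (r' m • o) (r n • o) ≤ n + c := by
      refine le_trans ?_ (hdist hr n)
      unfold gromovProduct
      have := dist_triangle o (r n • o) (r' m • o)
      rw [dist_comm (r n • o) (r' m • o)] at this
      linarith
    filter_upwards [eventually_ge_atTop (m, n)] with ij hij
    have h3 := hgp' hr' m ij.1 hij.1
    have h4 := hgp hr n ij.2 hij.2
    have h5 := hg.hyp o (r' ij.1 • o) (r' m • o) (r ij.2 • o)
    have h6 := hg.hyp o (r' m • o) (r n • o) (r ij.2 • o)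
    have h7 : s + δ ≤ gromovProduct o (r' m • o) (r ij.2 • o) := by
      refine le_trans ?_ h6
      rw [le_sub_iff_add_le, le_min_iff]
      have := hg.c0
      constructor <;> linarith
    refine le_trans ?_ h5
    rw [le_sub_iff_add_le, le_min_iff]
    have := hg.c0
    have := hg.δ0
    constructor <;> linarith
  obtain ⟨hrr, hrr2⟩ := hξ
  exact hne ((hζ.congr hrr hinf).unique ⟨hrr, hrr2⟩)

end GI

open GI

variable {H X Z : Type} [Group H] [MetricSpace X] [MulAction H X]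

theorem eventually_lang [TopologicalSpace Z] [CompactSpace Z] [T2Space Z] [MulAction H Z]
    {o : X} {δ c : ℝ} (hg : Geo H X o δ c) {C a : ℝ} {d : MetricSpace (Boundary X)}
    (hv : Vis o C a d) {i : Boundary X → Z} (hi : CTMap (H := H) o i) (hc : ContinuousWith d i)
    (hconv : ConvergenceAction H Z) {S : LineSys H Z} (hS : IsSys o c i S)
    {ξ : Boundary X} (hξ : i ξ ∈ nonConical H Z)
    (hns : (∃ ζ₁ ζ₂, ζ₁ ≠ ξ ∧ ζ₂ ≠ ξ ∧ i ζ₁ ≠ i ζ₂) ∨ ∀ p q, i p = i q)
    {r : ℕ → H} (hr : IsRay o c r) (hrξ : EndsAt (fun n => r n • o) ξ) (R : ℕ) :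
    ∀ᶠ n : ℕ in atTop, (r n)⁻¹ * r (n + R) ∈ S.L R := by
  by_contra hcon
  have hP : ∃ᶠ n in atTop, (r n)⁻¹ * r (n + R) ∉ S.L R := by
    rw [Filter.not_eventually] at hcon
    exact hcon
  obtain ⟨l, hl, hl0, hwin⟩ := exists_window hg hr _ hP
  -- `l` is not in the system
  have hlS : l ∉ S.lines := by
    intro hlS
    obtain ⟨n, hn, hn2⟩ := (hwin R).exists
    apply hn
    rw [S.mem_L]
    refine ⟨⟨l, hlS, hl0⟩, ?_⟩
    have h1 := (hn2 R (by simp)).2
    change l R = _
    rw [← h1]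
    congr 2
  obtain ⟨⟨p, hp⟩, ⟨q, hq⟩⟩ := line_ends hg hl 0
  simp only [add_zero] at hp hq
  have hpq : i p ≠ i q := by
    intro h
    exact hlS ((hS.mem l).mpr ⟨hl, p, q, hp, hq, h⟩)
  rcases hns with ⟨ζ₁, ζ₂, hζ₁, hζ₂, hζ⟩ | hall
  swap
  · exact hpq (hall p q)
  -- the subsequence
  obtain ⟨ψ, hψ, hψw⟩ := extraction_forall_of_frequently hwin
  let j0 : ℕ := ⌈c⌉₊ + 1
  have hj0 : c < j0 := by
    have h1 := Nat.le_ceil c
    push_cast [j0]
    linarith
  let t : ℕ → ℕ := fun N => ψ (j0 * N)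
  have htw : ∀ N : ℕ, ∀ k : ℤ, |k| ≤ N → 0 ≤ (t N : ℤ) + k ∧
      (r (t N))⁻¹ * r ((t N : ℤ) + k).toNat = l k := by
    intro N k hk
    refine (hψw (j0 * N)).2 k (hk.trans ?_)
    have h1 : 1 * N ≤ j0 * N := Nat.mul_le_mul_right _ (by omega)
    rw [one_mul] at h1
    exact_mod_cast h1
  let h : ℕ → H := fun N => (r (t N))⁻¹
  have hlt : ∀ N M : ℕ, N < M → h N ≠ h M := by
    intro N M hNM heq
    have h1 : r (t N) = r (t M) := inv_injective heq
    have h2 := hr.2 (t N) (t M)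
    rw [h1, dist_self, zero_sub, abs_neg, abs_abs] at h2
    have h3 : j0 * M - j0 * N + ψ (j0 * N) ≤ ψ (j0 * M - j0 * N + j0 * N) := hψ.add_le_nat _ _
    have h4 : j0 * N + j0 ≤ j0 * M := by
      have : j0 * (N + 1) ≤ j0 * M := Nat.mul_le_mul_left _ hNM
      rwa [mul_add, mul_one] at this
    rw [Nat.sub_add_cancel (by omega)] at h3
    have h5 : t N + j0 ≤ t M := by
      change ψ (j0 * N) + j0 ≤ ψ (j0 * M)
      omega
    have h6 : (t N : ℝ) + j0 ≤ t M := by exact_mod_cast h5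
    have h7 := (abs_le.mp h2).1
    linarith
  have hinj : Function.Injective h := by
    intro N M heq
    rcases lt_trichotomy N M with h1 | h1 | h1
    · exact absurd heq (hlt N M h1)
    · exact h1
    · exact absurd heq.symm (hlt M N h1)
  have hbase : ∀ N, h N • r (t N) • o = o := by
    intro N
    rw [smul_smul, inv_mul_cancel, one_smul]
  have hc0 := hg.c0
  have hδ0 := hg.δ0
  have hline0 : ∀ m n : ℤ, gromovProduct o (l m • o) (l n • o)
      = gromovProduct (l 0 • o) (l m • o) (l n • o) := by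
    intro m n
    rw [hl0, one_smul]
  -- convergence at `ξ`
  have hplus : Tendsto (fun N => h N • i ξ) atTop (𝓝 (i p)) := by
    choose ξN hξN using fun N => hrξ.smul hg (h N)
    have heq : ∀ N, i (ξN N) = h N • i ξ := fun N => hi.equiv (h N) _ ξ (ξN N) hrξ (hξN N)
    simp only [← heq]
    refine tendsto_i hc atTop ξN p
      (dist_small (K := 3 * c / 2 + δ) hv ξN p (fun N n => h N • (r n • o)) (fun n => l n • o)
        hξN hp fun N => ?_)
    filter_upwards [eventually_ge_atTop (t N + N, N)] with ij hij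
    obtain ⟨hi1, hi2⟩ := hij
    have hi1' : (t N : ℝ) + N ≤ ij.1 := by exact_mod_cast hi1
    have hi2' : (N : ℝ) ≤ ij.2 := by exact_mod_cast hi2
    have hv1 : l N • o = h N • (r (t N + N) • o) := by
      rw [← (htw N N (by simp)).2, smul_smul]
      congr 3
    have h5 := hg.hyp o (h N • (r ij.1 • o)) (l N • o) (l ij.2 • o)
    have h6 : (N : ℝ) - 3 * c / 2 ≤ gromovProduct o (h N • (r ij.1 • o)) (l N • o) := by
      rw [hv1]
      have h7 : gromovProduct o (h N • r ij.1 • o) (h N • r (t N + N) • o)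
          = gromovProduct (r (t N) • o) (r ij.1 • o) (r (t N + N) • o) := by
        have h8 := gp_smul' hg (h N) (r (t N) • o) (r ij.1 • o) (r (t N + N) • o)
        rwa [hbase N] at h8
      rw [h7]
      unfold gromovProduct
      have e1 := (abs_le.mp (hr.2 (t N) ij.1)).1
      have e2 := (abs_le.mp (hr.2 (t N) (t N + N))).1
      have e3 := (abs_le.mp (hr.2 ij.1 (t N + N))).2
      push_cast at e1 e2 e3
      rw [abs_of_nonpos (by linarith [Nat.cast_nonneg (α := ℝ) N])] at e1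
      rw [abs_of_nonpos (by linarith [Nat.cast_nonneg (α := ℝ) N])] at e2
      rw [abs_of_nonneg (by linarith)] at e3
      linarith
    have h8 : (N : ℝ) - 3 * c / 2 ≤ gromovProduct o (l N • o) (l ij.2 • o) := by
      have h9 := line_gp hl 0 N ij.2
      rw [hline0]
      refine le_trans (le_of_eq ?_) h9
      push_cast
      rw [sub_zero, sub_zero, abs_of_nonneg (Nat.cast_nonneg N),
        abs_of_nonneg (Nat.cast_nonneg ij.2), abs_of_nonpos (by linarith)]
      ring
    refine le_trans ?_ h5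
    rw [le_sub_iff_add_le, le_min_iff]
    constructor <;> linarith
  -- convergence elsewhere
  have hminus : ∀ ζ, ζ ≠ ξ → Tendsto (fun N => h N • i ζ) atTop (𝓝 (i q)) := by
    intro ζ hζ
    obtain ⟨r', hr', hr'ζ⟩ := hg.rays ζ
    obtain ⟨T, hT0, hT⟩ := bounded_products hg hr hr' hrξ hr'ζ hζ
    choose ζN hζN using fun N => hr'ζ.smul hg (h N)
    have heq : ∀ N, i (ζN N) = h N • i ζ := fun N => hi.equiv (h N) _ ζ (ζN N) hr'ζ (hζN N)
    simp only [← heq]
    refine tendsto_i hc atTop ζN q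
      (dist_small (K := T + 3 * c / 2 + δ) hv ζN q (fun N n => h N • (r' n • o))
        (fun n => l (-(n : ℤ)) • o) hζN hq fun N => ?_)
    filter_upwards [eventually_ge_atTop (0, N)] with ij hij
    obtain ⟨-, hi2⟩ := hij
    have hi2' : (N : ℝ) ≤ ij.2 := by exact_mod_cast hi2
    have hN1 := htw N (-(N : ℤ)) (by simp)
    have hNt : N ≤ t N := by
      have := hN1.1
      omega
    have hNt' : (N : ℝ) ≤ t N := by exact_mod_cast hNt
    have hv1 : l (-(N : ℤ)) • o = h N • (r (t N - N) • o) := by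
      rw [← hN1.2, smul_smul]
      congr 3
      omega
    have h5 := hg.hyp o (h N • (r' ij.1 • o)) (l (-(N : ℤ)) • o) (l (-(ij.2 : ℤ)) • o)
    have h6 : (N : ℝ) - T - 3 * c / 2
        ≤ gromovProduct o (h N • (r' ij.1 • o)) (l (-(N : ℤ)) • o) := by
      rw [hv1]
      have h7 : gromovProduct o (h N • r' ij.1 • o) (h N • r (t N - N) • o)
          = gromovProduct (r (t N) • o) (r' ij.1 • o) (r (t N - N) • o) := by
        have h8 := gp_smul' hg (h N) (r (t N) • o) (r' ij.1 • o) (r (t N - N) • o)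
        rwa [hbase N] at h8
      rw [h7]
      have hTm := hT ij.1 (t N)
      unfold gromovProduct at hTm ⊢
      have e1 := (abs_le.mp (hr.2 0 (t N))).1
      have e2 := (abs_le.mp (hr.2 (t N) (t N - N))).1
      have e3 := (abs_le.mp (hr.2 0 (t N - N))).2
      rw [hr.1, one_smul] at e1 e3
      rw [Nat.cast_sub hNt] at e2 e3
      rw [Nat.cast_zero, zero_sub, abs_neg, abs_of_nonneg (Nat.cast_nonneg _)] at e1
      rw [Nat.cast_zero, zero_sub, abs_neg, abs_of_nonneg (by linarith)] at e3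
      rw [abs_of_nonneg (by linarith)] at e2
      have e4 := dist_triangle (r' ij.1 • o) o (r (t N - N) • o)
      rw [dist_comm (r' ij.1 • o) o] at e4
      rw [dist_comm (r (t N) • o) (r' ij.1 • o)]
      linarith
    have h8 : (N : ℝ) - 3 * c / 2
        ≤ gromovProduct o (l (-(N : ℤ)) • o) (l (-(ij.2 : ℤ)) • o) := by
      have h9 := line_gp hl 0 (-(N : ℤ)) (-(ij.2 : ℤ))
      rw [hline0]
      refine le_trans (le_of_eq ?_) h9
      push_cast
      rw [sub_zero, sub_zero, abs_neg, abs_neg, abs_of_nonneg (Nat.cast_nonneg N),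
        abs_of_nonneg (Nat.cast_nonneg ij.2), abs_of_nonneg (by linarith)]
      ring
    refine le_trans ?_ h5
    rw [le_sub_iff_add_le, le_min_iff]
    constructor <;> linarith
  -- the convergence property
  obtain ⟨φ, hφ, b, cc, hcc⟩ := hconv.convergence h hinj
  have hoff : ∀ y : Z, y ≠ b → Tendsto (fun N => h (φ N) • y) atTop (𝓝 cc) := by
    intro y hy
    rw [tendsto_def]
    intro W hW
    filter_upwards [hcc {y} isCompact_singleton (by simpa using hy.symm) W hW] with N hN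
    exact hN y rfl
  have hccq : cc = i q := by
    have key : ∀ ζ, ζ ≠ ξ → i ζ ≠ b → cc = i q := fun ζ hζ hb =>
      tendsto_nhds_unique (hoff _ hb) ((hminus ζ hζ).comp hφ.tendsto_atTop)
    by_cases hb : i ζ₁ = b
    · exact key ζ₂ hζ₂ (fun h2 => hζ (hb.trans h2.symm))
    · exact key ζ₁ hζ₁ hb
  have hbξ : b = i ξ := by
    by_contra hb
    have h1 := tendsto_nhds_unique (hoff (i ξ) (fun h2 => hb h2.symm))
      (hplus.comp hφ.tendsto_atTop)
    exact hpq (h1.symm.trans hccq)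
  refine hξ.2 ⟨h ∘ φ, i p, i q, hpq, hplus.comp hφ.tendsto_atTop, fun y hy => ?_⟩
  rw [← hccq]
  exact hoff y (by rwa [hbξ])

theorem special_finite (i : Boundary X → Z) (hi : ¬ ∀ p q, i p = i q) :
    {ξ : Boundary X | ¬ ∃ ζ₁ ζ₂, ζ₁ ≠ ξ ∧ ζ₂ ≠ ξ ∧ i ζ₁ ≠ i ζ₂}.Finite := by
  push Not at hi
  obtain ⟨p, q, hpq⟩ := hi
  refine (Set.toFinite {p, q}).subset ?_
  intro ξ hξ
  by_contra hcon
  simp only [mem_insert_iff, mem_singleton_iff, not_or] at hcon
  exact hξ ⟨p, q, fun h => hcon.1 h.symm, fun h => hcon.2 h.symm, hpq⟩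

end Pool.Agent.CTZ
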