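import Pool.Agent.CTZ.GA2
import Pool.Agent.CTZ.GC
import Pool.Agent.CTZ.GI

/-!
# Row K6: no special points, four points, the limit set is in the image
-/

open Filter Topology Set MeasureTheory Pool.Agent.Helper68.CT

namespace Pool.Agent.CTZ

section K6

variable {H X Z : Type} [Group H] [MetricSpace X] [MulAction H X]

/-- the action on the boundary is injective -/
theorem ends_inj {o : X} {δ c : ℝ} (hg : Geo H X o δ c) (h : H) {x y : ℕ → X}
    {p q r : Boundary X} (hx : EndsAt x p) (hy : EndsAt y q) (hx' : EndsAt (fun n => h • x n) r)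
    (hy' : EndsAt (fun n => h • y n) r) : p = q := by
  have h1 := EndsAt.toInfinity hg hx' hy'
  have h2 := ToInfinity.smul hg h1 h⁻¹
  simp only [inv_smul_smul] at h2
  exact hx.eq_of hy h2

theorem not_special [TopologicalSpace Z] [MulAction H Z] {o : X} {δ c : ℝ}
    (hg : Geo H X o δ c) {i : Boundary X → Z} (hi : CTMap (H := H) o i)
    (hnf : ∀ b : Z, ∃ h : H, h • b ≠ b)
    (h3 : ∃ p q r : Boundary X, p ≠ q ∧ p ≠ r ∧ q ≠ r) (ξ : Boundary X) :
    ∃ ζ₁ ζ₂, ζ₁ ≠ ξ ∧ ζ₂ ≠ ξ ∧ i ζ₁ ≠ i ζ₂ := by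
  by_contra hcon
  push Not at hcon
  -- two different points other than `ξ`
  obtain ⟨ζ₁, ζ₂, h1, h2, h12⟩ : ∃ ζ₁ ζ₂ : Boundary X, ζ₁ ≠ ξ ∧ ζ₂ ≠ ξ ∧ ζ₁ ≠ ζ₂ := by
    obtain ⟨p, q, r, hpq, hpr, hqr⟩ := h3
    by_cases hp : p = ξ
    · exact ⟨q, r, fun h => hpq (hp.trans h.symm), fun h => hpr (hp.trans h.symm), hqr⟩
    by_cases hq : q = ξ
    · exact ⟨p, r, hp, fun h => hqr (hq.trans h.symm), hpr⟩
    exact ⟨p, q, hp, hq, hpq⟩
  have hex : ∀ p : Boundary X, ∃ x : ℕ → X, EndsAt x p := by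
    intro p
    obtain ⟨r, -, hr⟩ := hg.rays p
    exact ⟨_, hr⟩
  obtain ⟨x, hx⟩ := hex ξ
  obtain ⟨x₁, hx₁⟩ := hex ζ₁
  obtain ⟨x₂, hx₂⟩ := hex ζ₂
  have hb : ∀ ζ, ζ ≠ ξ → i ζ = i ζ₁ := fun ζ hζ => hcon ζ ζ₁ hζ h1
  -- the image of one of the two points is not `ξ`
  have hone : ∀ h : H, h • i ζ₁ = i ζ₁ ∨ ∃ q, EndsAt (fun n => h • x₁ n) q ∧ q = ξ ∧
      h • i ζ₂ = i ζ₁ := by
    intro h
    obtain ⟨q₁, hq₁⟩ := hx₁.smul hg h
    obtain ⟨q₂, hq₂⟩ := hx₂.smul hg h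
    have e1 := hi.equiv h x₁ ζ₁ q₁ hx₁ hq₁
    have e2 := hi.equiv h x₂ ζ₂ q₂ hx₂ hq₂
    by_cases hq : q₁ = ξ
    · right
      refine ⟨q₁, hq₁, hq, ?_⟩
      have : q₂ ≠ ξ := by
        intro hq'
        rw [hq] at hq₁
        rw [hq'] at hq₂
        exact h12 (ends_inj hg h hx₁ hx₂ hq₁ hq₂)
      rw [← e2]
      exact hb _ this
    · left
      rw [← e1]
      exact hb _ hq
  have hfix : ∀ h : H, h • i ζ₁ = i ζ₁ := by
    intro h
    rcases hone h with h4 | ⟨q, -, -, h4⟩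
    · exact h4
    · rwa [hb ζ₂ h2] at h4
  by_cases hξ : i ξ = i ζ₁
  · obtain ⟨h, hh⟩ := hnf (i ζ₁)
    exact hh (hfix h)
  · obtain ⟨h, hh⟩ := hnf (i ξ)
    obtain ⟨q, hq⟩ := hx.smul hg h
    have e := hi.equiv h x ξ q hx hq
    by_cases hqξ : q = ξ
    · rw [hqξ] at e
      exact hh e.symm
    · rw [hb q hqξ] at e
      have e2 : h • i ζ₁ = h • i ξ := by rw [hfix h, e]
      exact hξ (smul_left_cancel h e2).symm

/-- products of sequences to different points are eventually bounded -/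
theorem ev_bounded {o : X} {δ c : ℝ} (hg : Geo H X o δ c) {x y : ℕ → X} {p q : Boundary X}
    (hx : EndsAt x p) (hy : EndsAt y q) (hne : p ≠ q) :
    ∃ T : ℝ, ∀ᶠ mn : ℕ × ℕ in atTop, gromovProduct o (x mn.1) (y mn.2) ≤ T := by
  have h1 : ¬ ToInfinity x y := fun h => hne (hx.eq_of hy h)
  have h2 : ∃ s : ℝ, ∃ᶠ mn : ℕ × ℕ in atTop, gromovProduct o (x mn.1) (y mn.2) < s := by
    by_contra hcon
    push Not at hcon
    exact h1 (toInfinity_of o fun s => hcon s)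
  obtain ⟨s, hs⟩ := h2
  have h3 := ToInfinity.ev hx.1 o (s + 2 * δ + 1)
  have h4 := ToInfinity.ev hy.1 o (s + 2 * δ + 1)
  rw [eventually_atTop] at h3 h4
  obtain ⟨⟨a, a'⟩, h3⟩ := h3
  obtain ⟨⟨b, b'⟩, h4⟩ := h4
  obtain ⟨⟨m, n⟩, hs', hmn⟩ := (hs.and_eventually
    (eventually_ge_atTop ((max a a', max b b') : ℕ × ℕ))).exists
  refine ⟨s + 2 * δ, ?_⟩
  filter_upwards [eventually_ge_atTop ((max a a', max b b') : ℕ × ℕ)] with mn' hmn'
  have d1 : max a a' ≤ m := hmn.1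
  have d2 : max b b' ≤ n := hmn.2
  have d3 : max a a' ≤ mn'.1 := hmn'.1
  have d4 : max b b' ≤ mn'.2 := hmn'.2
  have e1 : s + 2 * δ + 1 ≤ gromovProduct o (x m) (x mn'.1) :=
    h3 (m, mn'.1) ⟨le_trans (le_max_left _ _) d1, le_trans (le_max_right _ _) d3⟩
  have e2 : s + 2 * δ + 1 ≤ gromovProduct o (y mn'.2) (y n) :=
    h4 (mn'.2, n) ⟨le_trans (le_max_left _ _) d4, le_trans (le_max_right _ _) d2⟩
  have e3 := hg.hyp o (x m) (x mn'.1) (y n)
  have e4 := hg.hyp o (x mn'.1) (y mn'.2) (y n)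
  have e5 : gromovProduct o (x m) (y n) < s := hs'
  have e6 := hg.δ0
  by_contra hcon
  push Not at hcon
  have e7 : s + 2 * δ < min (gromovProduct o (x mn'.1) (y mn'.2))
      (gromovProduct o (y mn'.2) (y n)) := lt_min hcon (by linarith)
  have e8 : s + δ < min (gromovProduct o (x m) (x mn'.1)) (gromovProduct o (x mn'.1) (y n)) :=
    lt_min (by linarith) (by linarith)
  linarith

/-- change of the base point -/
theorem gp_change (o v x y : X) :
    gromovProduct v x y = dist o v + gromovProduct o x y - gromovProduct o x v -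
      gromovProduct o y v := by
  unfold gromovProduct
  rw [dist_comm x v, dist_comm y v]
  ring

/-- the norms of different elements tend to infinity -/
theorem norm_tendsto {o : X} {δ c : ℝ} (hg : Geo H X o δ c) (h : ℕ → H)
    (hh : Function.Injective h) (s : ℝ) : ∀ᶠ n in atTop, s < dist o (h n • o) := by
  have h1 : {n : ℕ | dist o (h n • o) ≤ s}.Finite :=
    (hg.fin s).preimage (hh.injOn)
  have h2 := h1.eventually_cofinite_notMem
  rw [Nat.cofinite_eq_atTop] at h2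
  filter_upwards [h2] with n hn
  exact not_le.1 hn

/-- elements going to infinity, seen on four boundary points: at most one is exceptional -/
theorem four_points {o : X} {δ c : ℝ} (hg : Geo H X o δ c) {C a : ℝ}
    {d : MetricSpace (Boundary X)} (hv : Vis o C a d) (ζ : Fin 4 → Boundary X)
    (hζ : Function.Injective ζ) (h : ℕ → H) (hh : Function.Injective h) (q : ℕ → Fin 4 → Boundary X)
    (x : Fin 4 → ℕ → X) (hx : ∀ j, EndsAt (x j) (ζ j))
    (hq : ∀ n j, EndsAt (fun k => h n • x j k) (q n j)) :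
    ∃ j₀ : Fin 4, ∃ φ : ℕ → ℕ, StrictMono φ ∧ ∀ j k, j ≠ j₀ → k ≠ j₀ → ∀ ε > 0,
      ∀ᶠ n in atTop, d.dist (q (φ n) j) (q (φ n) k) < ε := by
  classical
  -- a common bound of the products
  have hT : ∃ T : ℝ, ∀ j k, j ≠ k → ∀ᶠ mn : ℕ × ℕ in atTop,
      gromovProduct o (x j mn.1) (x k mn.2) ≤ T := by
    have h1 : ∀ jk : Fin 4 × Fin 4, ∃ T : ℝ, jk.1 ≠ jk.2 → ∀ᶠ mn : ℕ × ℕ in atTop,
        gromovProduct o (x jk.1 mn.1) (x jk.2 mn.2) ≤ T := by
      intro jk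
      by_cases hjk : jk.1 = jk.2
      · exact ⟨0, fun h => absurd hjk h⟩
      · obtain ⟨T, hT⟩ := ev_bounded hg (hx jk.1) (hx jk.2) (fun h => hjk (hζ h))
        exact ⟨T, fun _ => hT⟩
    choose T hT using h1
    obtain ⟨M, hM⟩ := (Set.finite_range T).bddAbove
    refine ⟨M, fun j k hjk => ?_⟩
    filter_upwards [hT (j, k) hjk] with mn hmn
    exact hmn.trans (hM ⟨(j, k), rfl⟩)
  obtain ⟨T, hT⟩ := hT
  -- the exceptional index
  set v : ℕ → X := fun n => (h n)⁻¹ • o with hv'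
  set bad : ℕ → Fin 4 → Prop := fun n j => ∃ᶠ m in atTop, T + δ < gromovProduct o (x j m) (v n)
    with hbad
  have huniq : ∀ n j k, bad n j → bad n k → j = k := by
    intro n j k hj hk
    by_contra hjk
    have h1 := hT j k hjk
    rw [eventually_atTop] at h1
    obtain ⟨⟨a, b⟩, h1⟩ := h1
    obtain ⟨m, hm1, hm2⟩ := (hj.and_eventually (eventually_ge_atTop a)).exists
    obtain ⟨m', hm1', hm2'⟩ := (hk.and_eventually (eventually_ge_atTop b)).exists
    have h2 := h1 (m, m') ⟨hm2, hm2'⟩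
    have h3 := hg.hyp o (x j m) (v n) (x k m')
    rw [gp_comm o (v n) (x k m')] at h3
    have h4 : T + δ < min (gromovProduct o (x j m) (v n)) (gromovProduct o (x k m') (v n)) :=
      lt_min hm1 hm1'
    linarith
  have hJ : ∀ n, ∃ j₀, ∀ j, j ≠ j₀ → ¬ bad n j := by
    intro n
    by_cases hb : ∃ j, bad n j
    · obtain ⟨j₀, hj₀⟩ := hb
      exact ⟨j₀, fun j hj hj' => hj (huniq n j j₀ hj' hj₀)⟩
    · exact ⟨0, fun j _ hj' => hb ⟨j, hj'⟩⟩
  choose J hJ using hJ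
  obtain ⟨j₀, hj₀⟩ : ∃ j₀, ∃ᶠ n in atTop, J n = j₀ := by
    by_contra hcon
    push Not at hcon
    have h1 : ∀ᶠ n in atTop, ∀ j, J n ≠ j := eventually_all.2 hcon
    obtain ⟨n, hn⟩ := h1.exists
    exact hn (J n) rfl
  obtain ⟨φ, hφ, hφ'⟩ := extraction_of_frequently_atTop hj₀
  refine ⟨j₀, φ, hφ, fun j k hj hk ε hε => ?_⟩
  obtain ⟨hC, ha, hvis⟩ := hv
  -- the distance is small if the norm is large
  obtain ⟨N, hN⟩ := ((GI.tendsto_bound (C := C) (a := a) (K := 2 * T + 2 * δ) ha).eventually_lt_const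
    hε).exists
  have h5 : ∀ᶠ n in atTop, (N : ℝ) < dist o ((h (φ n))⁻¹ • o) :=
    norm_tendsto hg (fun n => (h (φ n))⁻¹) (fun m n hmn => by
      have : h (φ m) = h (φ n) := inv_injective hmn
      exact hφ.injective (hh this)) N
  filter_upwards [h5] with n hn
  refine lt_of_le_of_lt (hvis _ _ _ _ _ (hq (φ n) j) (hq (φ n) k) ?_) hN
  have g1 : ∀ j, j ≠ j₀ → ∀ᶠ m in atTop, gromovProduct o (x j m) (v (φ n)) ≤ T + δ := by
    intro j hj
    have := hJ (φ n) j (by rw [hφ']; exact hj)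
    rw [hbad, not_frequently] at this
    filter_upwards [this] with m hm
    exact not_lt.1 hm
  have g2 : ∀ᶠ mn : ℕ × ℕ in atTop, gromovProduct o (x j mn.1) (v (φ n)) ≤ T + δ ∧
      gromovProduct o (x k mn.2) (v (φ n)) ≤ T + δ := by
    rw [← prod_atTop_atTop_eq]
    exact (g1 j hj).prod_mk (g1 k hk)
  filter_upwards [g2] with mn hmn
  have g3 : gromovProduct o (h (φ n) • x j mn.1) (h (φ n) • x k mn.2) =
      gromovProduct (v (φ n)) (x j mn.1) (x k mn.2) := by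
    have := gp_smul hg (h (φ n)) (v (φ n)) (x j mn.1) (x k mn.2)
    rw [hv'] at this ⊢
    simp only [smul_inv_smul] at this
    exact this
  rw [g3, gp_change o]
  have g4 := gp_nonneg o (x j mn.1) (x k mn.2)
  linarith [hmn.1, hmn.2]

theorem limitSet_sub [TopologicalSpace Z] [CompactSpace Z] [T2Space Z] [MulAction H Z]
    {o : X} {δ c : ℝ} (hg : Geo H X o δ c) {C a : ℝ} {d : MetricSpace (Boundary X)}
    (hv : Vis o C a d) {i : Boundary X → Z} (hi : CTMap (H := H) o i) (hc : ContinuousWith d i)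
    (hn : ∃ p q, i p ≠ i q) : limitSet H Z ⊆ range i := by
  rintro z ⟨g, -, b, hgb⟩
  obtain ⟨ζ, hζ⟩ : ∃ ζ, i ζ ≠ b := by
    obtain ⟨p, q, hpq⟩ := hn
    by_cases hp : i p = b
    · exact ⟨q, fun h => hpq (hp.trans h.symm)⟩
    · exact ⟨p, hp⟩
  obtain ⟨r, -, hr⟩ := hg.rays ζ
  have h1 : Tendsto (fun n => g n • i ζ) atTop (𝓝 z) := by
    rw [tendsto_nhds]
    intro U hU hz
    have := hgb {i ζ} isCompact_singleton (fun h => hζ h.symm) U (hU.mem_nhds hz)
    filter_upwards [this] with n hn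
    exact hn (i ζ) rfl
  choose q hq using fun n => hr.smul hg (g n)
  have h2 : ∀ n, i (q n) = g n • i ζ := fun n => hi.equiv (g n) _ ζ (q n) hr (hq n)
  let U : Ultrafilter ℕ := Ultrafilter.of atTop
  have hU : (U : Filter ℕ) ≤ atTop := Ultrafilter.of_le atTop
  obtain ⟨α, hα⟩ := compact_boundary hg hv U q
  have h3 := tendsto_i hc (U : Filter ℕ) q α hα
  have h4 : Tendsto (fun n => i (q n)) (U : Filter ℕ) (𝓝 z) := by
    simp only [h2]
    exact h1.mono_left hU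
  exact ⟨α, tendsto_nhds_unique h3 h4⟩

end K6

end Pool.Agent.CTZ
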