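import Pool.Agent.CTZ.KDefs
import Pool.Agent.CTZ.GA2
import Pool.Agent.CTZ.GC

/-!
# Row K7: fixed points of a loxodromic element
-/

open Filter Topology Set MeasureTheory Pool.Agent.Helper68.CT

namespace Pool.Agent.CTZ

section K7

variable {H X Z : Type} [Group H] [MetricSpace X] [MulAction H X]

/-- sequences with different ends have eventually bounded products -/
theorem k7_bdd {o : X} {δ c : ℝ} (hg : Geo H X o δ c) {x y : ℕ → X} {p q : Boundary X}
    (hx : EndsAt x p) (hy : EndsAt y q) (hne : p ≠ q) :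
    ∃ (T : ℝ) (N : ℕ), ∀ i j, N ≤ i → N ≤ j → gromovProduct o (x i) (y j) ≤ T := by
  by_contra hcon
  push Not at hcon
  apply hne
  refine hx.eq_of hy (toInfinity_of o fun s => ?_)
  have h1 := ToInfinity.ev hx.1 o (s + 2 * δ)
  have h2 := ToInfinity.ev hy.1 o (s + 2 * δ)
  rw [eventually_atTop] at h1 h2
  obtain ⟨⟨a1, b1⟩, h1⟩ := h1
  obtain ⟨⟨a2, b2⟩, h2⟩ := h2
  have hδ := hg.δ0
  set N := max (max a1 b1) (max a2 b2) with hN
  obtain ⟨i, j, hi, hj, hij⟩ := hcon (s + 2 * δ) N
  rw [eventually_atTop]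
  refine ⟨(N, N), ?_⟩
  rintro ⟨i', j'⟩ hle
  have hi' : N ≤ i' := hle.1
  have hj' : N ≤ j' := hle.2
  have e1 := h1 (i', i) ⟨by simp only [hN] at hi'; omega, by simp only [hN] at hi; omega⟩
  have e2 := h2 (j, j') ⟨by simp only [hN] at hj; omega, by simp only [hN] at hj'; omega⟩
  simp only at e1 e2
  have e3 := hg.hyp o (x i') (x i) (y j)
  have e4 := hg.hyp o (x i') (y j) (y j')
  simp only
  rw [← min_sub_sub_right] at e3 e4
  rcases min_choice (gromovProduct o (x i') (x i) - δ) (gromovProduct o (x i) (y j) - δ) with h | h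
  · rw [h] at e3
    rcases min_choice (gromovProduct o (x i') (y j) - δ) (gromovProduct o (y j) (y j') - δ)
      with h' | h' <;> rw [h'] at e4 <;> linarith
  · rw [h] at e3
    rcases min_choice (gromovProduct o (x i') (y j) - δ) (gromovProduct o (y j) (y j') - δ)
      with h' | h' <;> rw [h'] at e4 <;> linarith

/-- the powers move the points of the boundary to the end -/
theorem k7_tendsto [TopologicalSpace Z] [MulAction H Z]
    {o : X} {δ c : ℝ} (hg : Geo H X o δ c) {C a : ℝ} {d : MetricSpace (Boundary X)}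
    (hv : Vis o C a d) {i : Boundary X → Z} (hi : CTMap (H := H) o i) (hc : ContinuousWith d i)
    {g : H} {p q : Boundary X} (hp : EndsAt (fun n => g ^ n • o) p)
    (hq : EndsAt (fun n => (g⁻¹) ^ n • o) q) (ζ : Boundary X) (hζ : ζ ≠ q) :
    Tendsto (fun n : ℕ => g ^ n • i ζ) atTop (𝓝 (i p)) := by
  obtain ⟨r, -, hr⟩ := hg.rays ζ
  obtain ⟨T, N, hT⟩ := k7_bdd (o := o) hg hr hq hζ
  choose ζn hζn using fun n : ℕ => hr.smul hg (g ^ n)
  have h1 : (fun n : ℕ => g ^ n • i ζ) = fun n => i (ζn n) := by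
    funext n
    exact (hi.equiv (g ^ n) _ ζ (ζn n) hr (hζn n)).symm
  rw [h1]
  apply tendsto_i hc
  intro ε hε
  have hC := hv.1
  have ha := hv.2.1
  -- choose s
  obtain ⟨s, hs⟩ : ∃ s : ℕ, C * a ^ (-(s : ℝ)) < ε := by
    have h2 : Tendsto (fun s : ℕ => C * (a⁻¹) ^ s) atTop (𝓝 (C * 0)) := by
      apply Tendsto.const_mul
      apply tendsto_pow_atTop_nhds_zero_of_lt_one
      · positivity
      · exact inv_lt_one_of_one_lt₀ ha
    rw [mul_zero] at h2
    obtain ⟨s, hs⟩ := (h2.eventually_lt_const hε).exists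
    refine ⟨s, ?_⟩
    rwa [Real.rpow_neg (by linarith), Real.rpow_natCast, ← inv_pow]
  have h3 := ToInfinity.ev hp.1 o (s + δ)
  rw [eventually_atTop] at h3
  obtain ⟨⟨a1, b1⟩, h3⟩ := h3
  have h4 := ToInfinity.ev hp.1 o (s + T + δ)
  rw [eventually_atTop] at h4
  obtain ⟨⟨a2, b2⟩, h4⟩ := h4
  rw [eventually_atTop]
  refine ⟨max N (max (max a1 b1) (max a2 b2)), fun n hn => ?_⟩
  refine lt_of_le_of_lt (hv.2.2 (fun k => g ^ n • (r k • o)) (fun m => g ^ m • o) (ζn n) p s
    (hζn n) hp ?_) hs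
  rw [eventually_atTop]
  refine ⟨(N, b1), ?_⟩
  rintro ⟨k, m⟩ hkm
  have hk : N ≤ k := hkm.1
  have hm : b1 ≤ m := hkm.2
  have e1 := h3 (n, m) ⟨by simp only; omega, hm⟩
  have e2 := h4 (n, n) ⟨by simp only; omega, by simp only; omega⟩
  simp only at e1 e2 ⊢
  rw [gp_self] at e2
  have e3 := hT k n hk (by omega)
  -- gp o (g^n x_k) (g^n o)
  have e4 : gromovProduct o (g ^ n • (r k • o)) (g ^ n • o) =
      gromovProduct ((g⁻¹) ^ n • o) (r k • o) o := by
    have h := gp_smul hg (g ^ n) ((g⁻¹) ^ n • o) (r k • o) o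
    rw [← h, smul_smul (g ^ n) ((g⁻¹) ^ n) o]
    simp
  have e5 := gp_add o ((g⁻¹) ^ n • o) (r k • o)
  have e6 : dist o ((g⁻¹) ^ n • o) = dist o (g ^ n • o) := by
    rw [dist_comm o (g ^ n • o)]
    have h := hg.isom (g ^ n) o ((g⁻¹) ^ n • o)
    rw [← h, smul_smul]
    simp
  have e7 : gromovProduct ((g⁻¹) ^ n • o) (r k • o) o =
      gromovProduct ((g⁻¹) ^ n • o) o (r k • o) := gp_comm _ _ _
  rw [gp_comm o ((g⁻¹) ^ n • o) (r k • o)] at e5
  have e8 := hg.hyp o (g ^ n • (r k • o)) (g ^ n • o) (g ^ m • o)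
  rw [← min_sub_sub_right] at e8
  rcases min_choice (gromovProduct o (g ^ n • (r k • o)) (g ^ n • o) - δ)
    (gromovProduct o (g ^ n • o) (g ^ m • o) - δ) with h | h <;> rw [h] at e8 <;> linarith

theorem k7_fix [TopologicalSpace Z] [MulAction H Z] {o : X}
    {i : Boundary X → Z} (hi : CTMap (H := H) o i) {g : H} {p : Boundary X}
    (hp : EndsAt (fun n => g ^ n • o) p) : g • i p = i p := by
  have h1 : EndsAt (fun n => g • (g ^ n • o)) p := by
    have h2 := hp.subseq (φ := fun n => n + 1) (tendsto_add_atTop_nat 1)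
    refine Eq.mp ?_ h2
    congr 1
    funext n
    rw [smul_smul, ← pow_succ']
  exact (hi.equiv g _ p p hp h1).symm

theorem k7_inj {o : X} {g : H} {p : Boundary X} (hp : EndsAt (fun n => g ^ n • o) p) :
    Function.Injective fun n : ℕ => g ^ n := by
  have key : ∀ m n : ℕ, m < n → g ^ m ≠ g ^ n := by
    intro m n hmn h
    have h1 : g ^ (n - m) = 1 := by
      have : g ^ m * g ^ (n - m) = g ^ m := by
        rw [← pow_add, Nat.add_sub_cancel' hmn.le, h]
      exact mul_eq_left.1 this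
    have h2 := ToInfinity.ev hp.1 o 1
    rw [eventually_atTop] at h2
    obtain ⟨⟨a, b⟩, h2⟩ := h2
    have h3 := h2 ((n - m) * (a + b), (n - m) * (a + b)) ⟨by
      simp only
      nlinarith [Nat.sub_pos_of_lt hmn], by
      simp only
      nlinarith [Nat.sub_pos_of_lt hmn]⟩
    simp only [gp_self] at h3
    rw [pow_mul, h1, one_pow, one_smul, dist_self] at h3
    linarith
  intro m n h
  rcases lt_trichotomy m n with h' | h' | h'
  · exact absurd h (key m n h')
  · exact h'
  · exact absurd h.symm (key n m h')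

/-- two fixed points are the images of the ends -/
theorem two_fixed [TopologicalSpace Z] [CompactSpace Z] [T2Space Z] [MulAction H Z]
    {o : X} {δ c : ℝ} (hg : Geo H X o δ c) {C a : ℝ} {d : MetricSpace (Boundary X)}
    (hv : Vis o C a d) {i : Boundary X → Z} (hi : CTMap (H := H) o i) (hc : ContinuousWith d i)
    (hconv : ConvergenceAction H Z) (h3 : 3 ≤ (range i).encard) {g : H} {y z : Z} (hyz : y ≠ z)
    (hy : g • y = y) (hz : g • z = z) {p q : Boundary X} (hp : EndsAt (fun n => g ^ n • o) p)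
    (hq : EndsAt (fun n => (g⁻¹) ^ n • o) q) : (i p = y ∧ i q = z) ∨ (i p = z ∧ i q = y) := by
  have hfp : g • i p = i p := k7_fix hi hp
  have hfq' : g⁻¹ • i q = i q := k7_fix hi hq
  have hfq : g • i q = i q := by
    conv_lhs => rw [← hfq', smul_inv_smul]
  have hpow : ∀ {k : H} {w : Z}, k • w = w → ∀ n : ℕ, k ^ n • w = w := by
    intro k w hw n
    induction n with
    | zero => simp
    | succ n ih => rw [pow_succ, mul_smul, hw, ih]
  -- a convergence statement for powers
  have hcv : ∀ (k : H) (φ : ℕ → ℕ), (∀ w : Z, g • w = w → k • w = w) →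
      Function.Injective (fun n : ℕ => k ^ (φ n)) →
      ∃ ψ : ℕ → ℕ, StrictMono ψ ∧ ∃ b c' : Z, ConvergesOff (fun n => k ^ (φ (ψ n))) b c' ∧
        ∀ w : Z, g • w = w → w = b ∨ w = c' := by
    intro k φ hk hinj
    obtain ⟨ψ, hψ, b, c', hb⟩ := hconv.convergence _ hinj
    refine ⟨ψ, hψ, b, c', hb, fun w hw => ?_⟩
    by_cases h : w = b
    · exact Or.inl h
    · refine Or.inr ?_
      have h1 : Tendsto (fun n => k ^ (φ (ψ n)) • w) atTop (𝓝 c') := by
        intro U hU
        rw [mem_map]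
        filter_upwards [hb {w} isCompact_singleton (by simpa using fun h' : b = w => h h'.symm) U hU]
          with n hn
        exact hn w rfl
      have h2 : (fun n => k ^ (φ (ψ n)) • w) = fun _ => w := by
        funext n
        exact hpow (hk w hw) _
      rw [h2] at h1
      exact tendsto_nhds_unique tendsto_const_nhds h1
  obtain ⟨φ, hφ, b, c', hbc, hfix⟩ := hcv g id (fun w hw => hw) (k7_inj hp)
  simp only [id] at hbc
  have hk' : ∀ w : Z, g • w = w → g⁻¹ • w = w := by
    intro w hw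
    conv_lhs => rw [← hw, inv_smul_smul]
  obtain ⟨ψ, hψ, b', c'', hbc', hfix'⟩ := hcv g⁻¹ φ hk' ((k7_inj hq).comp hφ.injective)
  -- all fixed points are y or z
  have hyz2 : ∀ w : Z, g • w = w → w = y ∨ w = z := by
    intro w hw
    have h1 := hfix y hy
    have h2 := hfix z hz
    have h3 := hfix w hw
    rcases h1 with h1 | h1 <;> rcases h2 with h2 | h2
    · exact absurd (h1.trans h2.symm) hyz
    · rw [h1, h2]; exact h3
    · rw [h1, h2]; exact h3.symm
    · exact absurd (h1.trans h2.symm) hyz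
  -- suppose that the images agree
  have hpq : i p ≠ i q := by
    intro hpq
    -- a third point
    obtain ⟨y0, hy0, hy0y, hy0z⟩ : ∃ y0 ∈ range i, y0 ≠ y ∧ y0 ≠ z := by
      by_contra hcon
      push Not at hcon
      have hsub : range i ⊆ {y, z} := by
        intro w hw
        by_cases h : w = y
        · exact Or.inl h
        · exact Or.inr (hcon w hw h)
      have h4 := encard_le_encard hsub
      rw [encard_pair hyz] at h4
      have h5 := h3.trans h4
      exact absurd h5 (by decide)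
    obtain ⟨ζ, rfl⟩ := hy0
    have hζp : ζ ≠ p := by
      rintro rfl
      rcases hyz2 _ hfp with h | h
      · exact hy0y h
      · exact hy0z h
    have hζq : ζ ≠ q := by
      rintro rfl
      rcases hyz2 _ hfq with h | h
      · exact hy0y h
      · exact hy0z h
    have t1 : Tendsto (fun n : ℕ => g ^ n • i ζ) atTop (𝓝 (i p)) :=
      k7_tendsto hg hv hi hc hp hq ζ hζq
    have t2 : Tendsto (fun n : ℕ => (g⁻¹) ^ n • i ζ) atTop (𝓝 (i q)) := by
      apply k7_tendsto hg hv hi hc hq (q := p) _ ζ hζp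
      simpa using hp
    -- the fixed points b, c'
    have hb2 : ∀ {β γ : Z}, (∀ w : Z, g • w = w → w = β ∨ w = γ) →
        (β = y ∧ γ = z) ∨ (β = z ∧ γ = y) := by
      intro β γ h
      rcases h y hy with h1 | h1 <;> rcases h z hz with h2 | h2
      · exact absurd (h1.trans h2.symm) hyz
      · exact Or.inl ⟨h1.symm, h2.symm⟩
      · exact Or.inr ⟨h2.symm, h1.symm⟩
      · exact absurd (h1.trans h2.symm) hyz
    have hbne : b ≠ i ζ := by
      rcases hb2 hfix with h | h
      · rw [h.1]; exact hy0y.symm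
      · rw [h.1]; exact hy0z.symm
    have hbne' : b' ≠ i ζ := by
      rcases hb2 hfix' with h | h
      · rw [h.1]; exact hy0y.symm
      · rw [h.1]; exact hy0z.symm
    have hcp : c' = i p := by
      refine tendsto_nhds_unique (f := fun n => g ^ (φ n) • i ζ) (l := atTop) ?_
        (t1.comp hφ.tendsto_atTop)
      intro U hU
      rw [mem_map]
      filter_upwards [hbc {i ζ} isCompact_singleton (by simpa using hbne) U hU] with n hn
      exact hn _ rfl
    have hcq : c'' = i p := by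
      rw [hpq]
      refine tendsto_nhds_unique (f := fun n => (g⁻¹) ^ (φ (ψ n)) • i ζ) (l := atTop) ?_
        (t2.comp (hφ.tendsto_atTop.comp hψ.tendsto_atTop))
      intro U hU
      rw [mem_map]
      filter_upwards [hbc' {i ζ} isCompact_singleton (by simpa using hbne') U hU] with n hn
      exact hn _ rfl
    have hbb : b = b' := by
      rcases hb2 hfix with h | h <;> rcases hb2 hfix' with h' | h'
      · rw [h.1, h'.1]
      · exact absurd (h.2.symm.trans (hcp.trans (hcq.symm.trans h'.2))) hyz.symm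
      · exact absurd (h.2.symm.trans (hcp.trans (hcq.symm.trans h'.2))) hyz
      · rw [h.1, h'.1]
    have hbc2 : b ≠ c' := by
      rcases hb2 hfix with h | h
      · rw [h.1, h.2]; exact hyz
      · rw [h.1, h.2]; exact hyz.symm
    have hcζ : c' ≠ i ζ := by
      rcases hb2 hfix with h | h
      · rw [h.2]; exact hy0z.symm
      · rw [h.2]; exact hy0y.symm
    -- neighbourhoods
    obtain ⟨U1, V1, hU1, hV1, hcU1, hbV1, hd1⟩ := t2_separation hbc2.symm
    obtain ⟨U2, V2, hU2, hV2, hcU2, hζV2, hd2⟩ := t2_separation hcζ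
    obtain ⟨U3, V3, hU3, hV3, hbU3, hζV3, hd3⟩ := t2_separation hbne
    have hVo : IsOpen (V1 ∩ U3) := hV1.inter hU3
    have hK : IsCompact (V1 ∩ U3)ᶜ := hVo.isClosed_compl.isCompact
    have hbK : b ∉ (V1 ∩ U3)ᶜ := by
      simp only [mem_compl_iff, not_not]
      exact ⟨hbV1, hbU3⟩
    have hζK : i ζ ∈ (V1 ∩ U3)ᶜ := by
      intro h
      exact (disjoint_left.1 hd3) h.2 hζV3
    have hUn : U1 ∩ U2 ∈ 𝓝 c' := (hU1.inter hU2).mem_nhds ⟨hcU1, hcU2⟩
    have hUn' : U1 ∩ U2 ∈ 𝓝 c'' := by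
      rw [hcq, ← hcp]; exact hUn
    have s1 := (hψ.tendsto_atTop).eventually (hbc _ hK hbK _ hUn)
    have s2 := hbc' _ hK (by rw [← hbb]; exact hbK) _ hUn'
    obtain ⟨n, hn1, hn2⟩ := (s1.and s2).exists
    have f1 := hn2 _ hζK
    have f2 : (g⁻¹) ^ (φ (ψ n)) • i ζ ∈ (V1 ∩ U3)ᶜ := by
      intro h
      exact (disjoint_left.1 hd1) f1.1 h.1
    have f3 := hn1 _ f2
    rw [smul_smul] at f3
    have f4 : g ^ (φ (ψ n)) * (g⁻¹) ^ (φ (ψ n)) = 1 := by simp
    rw [f4, one_smul] at f3
    exact (disjoint_left.1 hd2) f3.2 hζV2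
  rcases hyz2 _ hfp with h1 | h1 <;> rcases hyz2 _ hfq with h2 | h2
  · exact absurd (h1.trans h2.symm) hpq
  · exact Or.inl ⟨h1, h2⟩
  · exact Or.inr ⟨h1, h2⟩
  · exact absurd (h1.trans h2.symm) hpq

/-- if `g` fixes `z` then `z` is the image of an end of `g` -/
theorem fixed_end [TopologicalSpace Z] [CompactSpace Z] [T2Space Z] [MulAction H Z]
    {o : X} {δ c : ℝ} (hg : Geo H X o δ c) {C a : ℝ} {d : MetricSpace (Boundary X)}
    (hv : Vis o C a d) {i : Boundary X → Z} (hi : CTMap (H := H) o i) (hc : ContinuousWith d i)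
    (hconv : ConvergenceAction H Z) (h3 : 3 ≤ (range i).encard) {g : H} {z : Z}
    (hz : g • z = z) {p q : Boundary X} (hp : EndsAt (fun n => g ^ n • o) p)
    (hq : EndsAt (fun n => (g⁻¹) ^ n • o) q) : i p = z ∨ i q = z := by
  by_cases h : i p = z
  · exact Or.inl h
  · rcases two_fixed hg hv hi hc hconv h3 h (k7_fix hi hp) hz hp hq with h1 | h1
    · exact Or.inr h1.2
    · exact Or.inl h1.1

/-- if `i p = i q = z` then `z` is the only fixed point of `g` -/
theorem fixed_unique [TopologicalSpace Z] [CompactSpace Z] [T2Space Z] [MulAction H Z]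
    {o : X} {δ c : ℝ} (hg : Geo H X o δ c) {C a : ℝ} {d : MetricSpace (Boundary X)}
    (hv : Vis o C a d) {i : Boundary X → Z} (hi : CTMap (H := H) o i) (hc : ContinuousWith d i)
    (hconv : ConvergenceAction H Z) (h3 : 3 ≤ (range i).encard) {g : H} {z y : Z}
    {p q : Boundary X} (hp : EndsAt (fun n => g ^ n • o) p)
    (hq : EndsAt (fun n => (g⁻¹) ^ n • o) q) (hz : g • z = z) (hip : i p = z) (hiq : i q = z)
    (hy : g • y = y) : y = z := by
  by_contra h
  rcases two_fixed hg hv hi hc hconv h3 h hy hz hp hq with h1 | h1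
  · exact h (h1.1.symm.trans hip)
  · exact h (h1.2.symm.trans hiq)

end K7

end Pool.Agent.CTZ
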