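import Pool.Agent.CTZ.K6
import Pool.Agent.CTZ.GC

/-!
# Row K8: images of ends of powers are in the limit set; a double point is not conical
-/

open Filter Topology Set MeasureTheory Pool.Agent.Helper68.CT

namespace Pool.Agent.CTZ

namespace K8

variable {H X Z : Type} [Group H] [MetricSpace X] [MulAction H X]

/-- products of sequences with different ends are bounded -/
theorem bdd_of_ne {o : X} {δ c : ℝ} (hg : Geo H X o δ c) {x y : ℕ → X} {p q : Boundary X}
    (hx : EndsAt x p) (hy : EndsAt y q) (hpq : p ≠ q) :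
    ∃ (B : ℝ) (N : ℕ), ∀ m n : ℕ, N ≤ m → N ≤ n → gromovProduct o (x m) (y n) ≤ B := by
  have h1 : ¬ ∀ s : ℝ, ∀ᶠ ij : ℕ × ℕ in atTop, s ≤ gromovProduct o (x ij.1) (y ij.2) := by
    intro h
    exact hpq (hx.eq_of hy (toInfinity_of o h))
  push Not at h1
  obtain ⟨s, hs⟩ := h1
  have h2 := ToInfinity.ev hx.1 o (s + 2 * δ)
  have h3 := ToInfinity.ev hy.1 o (s + 2 * δ)
  rw [eventually_atTop] at h2 h3
  obtain ⟨⟨a, b⟩, h2⟩ := h2
  obtain ⟨⟨a', b'⟩, h3⟩ := h3
  set N := max (max a b) (max a' b') with hN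
  have ha : a ≤ N := by omega
  have hb : b ≤ N := by omega
  have ha' : a' ≤ N := by omega
  have hb' : b' ≤ N := by omega
  rw [frequently_atTop] at hs
  obtain ⟨⟨m0, n0⟩, hmn, hlt⟩ := hs (N, N)
  have hm0 : N ≤ m0 := hmn.1
  have hn0 : N ≤ n0 := hmn.2
  refine ⟨s + 2 * δ, N, fun m n hm hn => ?_⟩
  by_contra hcon
  push Not at hcon
  have e1 : s + 2 * δ ≤ gromovProduct o (x m0) (x m) := h2 (m0, m) ⟨by omega, by omega⟩
  have e2 : s + 2 * δ ≤ gromovProduct o (y n) (y n0) := h3 (n, n0) ⟨by omega, by omega⟩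
  have f1 := hg.hyp o (x m0) (x m) (y n)
  have f2 := hg.hyp o (x m0) (y n) (y n0)
  have hδ := hg.δ0
  have g1 : s + 2 * δ - δ ≤ gromovProduct o (x m0) (y n) := by
    have : s + 2 * δ ≤ min (gromovProduct o (x m0) (x m)) (gromovProduct o (x m) (y n)) :=
      le_min e1 hcon.le
    linarith
  have g2 : s + δ ≤ min (gromovProduct o (x m0) (y n)) (gromovProduct o (y n) (y n0)) :=
    le_min (by linarith) (by linarith)
  have : gromovProduct o (x m0) (y n0) < s := hlt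
  linarith

/-- if the images `g_n x` have products with `y` at least `s` eventually, for every `s`, the
distances of the ends tend to `0` -/
theorem dist_small {o : X} {C a : ℝ} {d : MetricSpace (Boundary X)} (hv : Vis o C a d)
    {x : ℕ → ℕ → X} {y : ℕ → X} {ξ : ℕ → Boundary X} {p : Boundary X}
    (hx : ∀ n, EndsAt (x n) (ξ n)) (hy : EndsAt y p)
    (h : ∀ s : ℝ, ∀ᶠ n in atTop, ∀ᶠ ij : ℕ × ℕ in atTop, s ≤ gromovProduct o (x n ij.1) (y ij.2)) :
    ∀ ε > 0, ∀ᶠ n in atTop, d.dist (ξ n) p < ε := by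
  intro ε hε
  obtain ⟨hC, ha, hv⟩ := hv
  have hlim : Tendsto (fun s : ℝ => C * a ^ (-s)) atTop (𝓝 0) := by
    have := (tendsto_rpow_atBot_of_base_gt_one a ha).comp tendsto_neg_atTop_atBot
    simpa using this.const_mul C
  obtain ⟨s, hs⟩ := (hlim.eventually (gt_mem_nhds hε)).exists
  filter_upwards [h s] with n hn
  exact lt_of_le_of_lt (hv _ _ _ _ s (hx n) hy hn) hs

/-- the powers of `g` attract every boundary point but `q` to `p` -/
theorem attract [TopologicalSpace Z] [MulAction H Z]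
    {o : X} {δ c : ℝ} (hg : Geo H X o δ c) {C a : ℝ} {d : MetricSpace (Boundary X)}
    (hv : Vis o C a d) {i : Boundary X → Z} (hi : CTMap (H := H) o i) (hc : ContinuousWith d i)
    {g : H} {p q : Boundary X} (hp : EndsAt (fun n => g ^ n • o) p)
    (hq : EndsAt (fun n => (g⁻¹) ^ n • o) q) {ζ : Boundary X} (hζ : ζ ≠ q) :
    Tendsto (fun n => g ^ n • i ζ) atTop (𝓝 (i p)) := by
  obtain ⟨x, -, hx⟩ := hg.rays ζ
  obtain ⟨B, N, hB⟩ := bdd_of_ne (o := o) hg hq hx (Ne.symm hζ)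
  have hsm := fun n : ℕ => hx.smul hg (g ^ n)
  choose ξ hξ using hsm
  have heq : ∀ n, i (ξ n) = g ^ n • i ζ := fun n => hi.equiv _ _ _ _ hx (hξ n)
  simp only [← heq]
  refine tendsto_i hc atTop ξ p (dist_small hv hξ hp fun s => ?_)
  have h1 := ToInfinity.ev hp.1 o (max (s + δ) (s + δ + B))
  rw [eventually_atTop] at h1
  obtain ⟨⟨a1, b1⟩, h1⟩ := h1
  filter_upwards [eventually_ge_atTop (max (max a1 b1) N)] with n hn
  have hn1 : a1 ≤ n := by omega
  have hn2 : b1 ≤ n := by omega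
  have hn3 : N ≤ n := by omega
  filter_upwards [eventually_ge_atTop ((N, n) : ℕ × ℕ)] with ij hij
  have hi1 : N ≤ ij.1 := hij.1
  have hi2 : n ≤ ij.2 := hij.2
  have f1 := hg.hyp o (g ^ n • x ij.1 • o) (g ^ n • o) (g ^ ij.2 • o)
  have f2 : max (s + δ) (s + δ + B) ≤ gromovProduct o (g ^ n • o) (g ^ ij.2 • o) :=
    h1 (n, ij.2) ⟨hn1, by show b1 ≤ ij.2; omega⟩
  have f3 : max (s + δ) (s + δ + B) ≤ gromovProduct o (g ^ n • o) (g ^ n • o) :=
    h1 (n, n) ⟨hn1, hn2⟩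
  rw [gp_self] at f3
  have f4 : gromovProduct o (g ^ n • x ij.1 • o) (g ^ n • o) =
      dist o (g ^ n • o) - gromovProduct o ((g⁻¹) ^ n • o) (x ij.1 • o) := by
    have e1 : dist (g ^ n • x ij.1 • o) (g ^ n • o) = dist o (x ij.1 • o) := by
      rw [hg.isom, dist_comm]
    have e2 : dist o (g ^ n • x ij.1 • o) = dist ((g⁻¹) ^ n • o) (x ij.1 • o) := by
      have := hg.isom (g ^ n) ((g⁻¹) ^ n • o) (x ij.1 • o)
      rw [inv_pow, smul_inv_smul] at this
      rw [this, inv_pow]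
    have e3 : dist o ((g⁻¹) ^ n • o) = dist o (g ^ n • o) := by
      have := hg.isom (g ^ n) ((g⁻¹) ^ n • o) o
      rw [inv_pow, smul_inv_smul] at this
      rw [inv_pow, dist_comm o ((g ^ n)⁻¹ • o), ← this]
    unfold gromovProduct
    rw [e1, e2, e3]
    ring
  have f5 := hB n ij.1 hn3 hi1
  have f6 : s + δ + B ≤ dist o (g ^ n • o) := (le_max_right _ _).trans f3
  have f7 : s + δ ≤ gromovProduct o (g ^ n • o) (g ^ ij.2 • o) := (le_max_left _ _).trans f2
  have f8 : s + δ ≤ min (gromovProduct o (g ^ n • x ij.1 • o) (g ^ n • o))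
      (gromovProduct o (g ^ n • o) (g ^ ij.2 • o)) := le_min (by rw [f4]; linarith) f7
  linarith

theorem pow_injective {o : X} {g : H} {p : Boundary X} (hp : EndsAt (fun n => g ^ n • o) p) :
    Function.Injective (fun n : ℕ => g ^ n) := by
  rw [injective_pow_iff_not_isOfFinOrder]
  intro hfin
  obtain ⟨k, hk, hk1⟩ := (isOfFinOrder_iff_pow_eq_one).1 hfin
  have h1 := ToInfinity.ev hp.1 o 1
  rw [eventually_atTop] at h1
  obtain ⟨⟨a, b⟩, h1⟩ := h1
  have h2 := h1 (k * (max a b), k * (max a b)) ⟨by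
    show a ≤ k * max a b
    calc a ≤ max a b := le_max_left _ _
      _ ≤ k * max a b := Nat.le_mul_of_pos_left _ hk, by
    show b ≤ k * max a b
    calc b ≤ max a b := le_max_right _ _
      _ ≤ k * max a b := Nat.le_mul_of_pos_left _ hk⟩
  simp only [pow_mul, hk1, one_pow, one_smul] at h2
  rw [gp_self, dist_self] at h2
  linarith

/-- a sequence without a value taken infinitely often has an injective subsequence -/
theorem exists_inj {α : Type} (h : ℕ → α) (hh : ∀ a, ¬ ∃ᶠ n in atTop, h n = a) :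
    ∃ φ : ℕ → ℕ, StrictMono φ ∧ Function.Injective (h ∘ φ) := by
  obtain ⟨φ, -, hφ⟩ := exists_seq_of_forall_finset_exists (fun _ : ℕ => True)
    (fun m n : ℕ => m < n ∧ h m ≠ h n) (by
      intro s _
      have h1 : ∀ m ∈ s, ∀ᶠ n in atTop, m < n ∧ h m ≠ h n := by
        intro m _
        have h2 := hh (h m)
        rw [not_frequently] at h2
        filter_upwards [h2, eventually_gt_atTop m] with n h3 h4
        exact ⟨h4, fun h5 => h3 h5.symm⟩
      have h2 : ∀ᶠ n in atTop, ∀ m ∈ s, m < n ∧ h m ≠ h n :=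
        (Filter.eventually_all_finset s).2 h1
      obtain ⟨n, hn⟩ := h2.exists
      exact ⟨n, trivial, hn⟩)
  refine ⟨φ, strictMono_nat_of_lt_succ fun n => (hφ n (n + 1) (Nat.lt_succ_self n)).1, ?_⟩
  intro m n hmn
  by_contra hne
  rcases lt_or_gt_of_ne hne with h1 | h1
  · exact (hφ m n h1).2 hmn
  · exact (hφ n m h1).2 hmn.symm

end K8

section K

variable {H X Z : Type} [Group H] [MetricSpace X] [MulAction H X]

theorem mem_limitSet [TopologicalSpace Z] [CompactSpace Z] [T2Space Z] [MulAction H Z]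
    {o : X} {δ c : ℝ} (hg : Geo H X o δ c) {C a : ℝ} {d : MetricSpace (Boundary X)}
    (hv : Vis o C a d) {i : Boundary X → Z} (hi : CTMap (H := H) o i) (hc : ContinuousWith d i)
    (hconv : ConvergenceAction H Z)
    (hns : ∀ ξ : Boundary X, ∃ ζ₁ ζ₂, ζ₁ ≠ ξ ∧ ζ₂ ≠ ξ ∧ i ζ₁ ≠ i ζ₂) {g : H}
    {p q : Boundary X} (hp : EndsAt (fun n => g ^ n • o) p)
    (hq : EndsAt (fun n => (g⁻¹) ^ n • o) q) : i p ∈ limitSet H Z := by
  have hinj := K8.pow_injective hp
  obtain ⟨φ, hφ, b, c', hbc⟩ := hconv.convergence _ hinj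
  obtain ⟨ζ₁, ζ₂, h1, h2, h3⟩ := hns q
  have key : ∃ ζ, ζ ≠ q ∧ i ζ ≠ b := by
    by_cases hb : i ζ₁ = b
    · exact ⟨ζ₂, h2, fun h => h3 (hb.trans h.symm)⟩
    · exact ⟨ζ₁, h1, hb⟩
  obtain ⟨ζ, hζq, hζb⟩ := key
  have t1 : Tendsto (fun n => g ^ (φ n) • i ζ) atTop (𝓝 (i p)) :=
    (K8.attract hg hv hi hc hp hq hζq).comp hφ.tendsto_atTop
  have t2 : Tendsto (fun n => g ^ (φ n) • i ζ) atTop (𝓝 c') := by
    rw [tendsto_def]
    intro U hU
    have := hbc {i ζ} isCompact_singleton (fun h => hζb (mem_singleton_iff.1 h).symm) U hU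
    filter_upwards [this] with n hn
    exact hn _ rfl
  have heq : i p = c' := tendsto_nhds_unique t1 t2
  rw [heq]
  exact ⟨_, hinj.comp hφ.injective, b, hbc⟩

theorem not_conical [TopologicalSpace Z] [CompactSpace Z] [T2Space Z] [MulAction H Z]
    {o : X} {δ c : ℝ} (hg : Geo H X o δ c) {C a : ℝ} {d : MetricSpace (Boundary X)}
    (hv : Vis o C a d) {i : Boundary X → Z} (hi : CTMap (H := H) o i) (hc : ContinuousWith d i)
    (h3 : 3 ≤ (range i).encard) {p q : Boundary X} (hpq : p ≠ q) {z : Z} (hp : i p = z)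
    (hq : i q = z) : ¬ IsConical H z := by
  rintro ⟨h, b, c', hbc, hb, hc'⟩
  -- two more points
  obtain ⟨y₃, y₄, hy₃, hy₄, hy₃z, hy₄z, hy⟩ : ∃ y₃ y₄, y₃ ∈ range i ∧ y₄ ∈ range i ∧ y₃ ≠ z ∧
      y₄ ≠ z ∧ y₃ ≠ y₄ := by
    have h4 : 2 ≤ (range i \ {z}).encard := by
      by_contra hcon
      push Not at hcon
      have h5 : (range i).encard ≤ (range i \ {z}).encard + ({z} : Set Z).encard := by
        refine (encard_le_encard ?_).trans (encard_union_le _ _)
        intro w hw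
        by_cases hwz : w = z
        · exact Or.inr hwz
        · exact Or.inl ⟨hw, hwz⟩
      rw [encard_singleton] at h5
      have h6 : (range i \ {z}).encard + 1 < 3 := by
        have h7 : (range i \ {z}).encard ≤ 1 := by
          rwa [← ENat.lt_add_one_iff (by simp), one_add_one_eq_two]
        calc (range i \ {z}).encard + 1 ≤ 1 + 1 := by gcongr
          _ < 3 := by norm_num
      exact absurd (h3.trans h5) (not_le.2 h6)
    obtain ⟨y₃, y₄, h5, h6, h7⟩ := one_lt_encard_iff.1 (lt_of_lt_of_le (by norm_num) h4)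
    exact ⟨y₃, y₄, h5.1, h6.1, h5.2, h6.2, h7⟩
  obtain ⟨ζ₃, rfl⟩ := hy₃
  obtain ⟨ζ₄, rfl⟩ := hy₄
  -- injective subsequence
  have hfin : ∀ g : H, ¬ ∃ᶠ n in atTop, h n = g := by
    intro g hfr
    obtain ⟨ψ, hψ, hψg⟩ := extraction_of_frequently_atTop hfr
    have e1 : Tendsto (fun n => h (ψ n) • i ζ₃) atTop (𝓝 c') :=
      (hc' _ hy₃z).comp hψ.tendsto_atTop
    have e2 : Tendsto (fun n => h (ψ n) • i ζ₄) atTop (𝓝 c') :=
      (hc' _ hy₄z).comp hψ.tendsto_atTop
    simp only [hψg] at e1 e2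
    have e3 : g • i ζ₃ = g • i ζ₄ := by
      rw [tendsto_nhds_unique e1 tendsto_const_nhds |>.symm,
        tendsto_nhds_unique e2 tendsto_const_nhds |>.symm]
    exact hy (smul_left_cancel g e3)
  obtain ⟨φ, hφ, hφi⟩ := K8.exists_inj h hfin
  -- the four points
  set ζ : Fin 4 → Boundary X := ![p, q, ζ₃, ζ₄] with hζdef
  have hiζ0 : i (ζ 0) = z := hp
  have hiζ1 : i (ζ 1) = z := hq
  have hiζ2 : i (ζ 2) = i ζ₃ := rfl
  have hiζ3 : i (ζ 3) = i ζ₄ := rfl
  have hinj : Function.Injective ζ := by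
    intro j k hjk
    have hijk := congrArg i hjk
    fin_cases j <;> fin_cases k <;> first
      | rfl
      | exact absurd hjk hpq
      | exact absurd hjk.symm hpq
      | exact absurd (hijk.symm.trans hp) hy₃z
      | exact absurd (hijk.symm.trans hp) hy₄z
      | exact absurd (hijk.symm.trans hq) hy₃z
      | exact absurd (hijk.symm.trans hq) hy₄z
      | exact absurd (hijk.trans hp) hy₃z
      | exact absurd (hijk.trans hp) hy₄z
      | exact absurd (hijk.trans hq) hy₃z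
      | exact absurd (hijk.trans hq) hy₄z
      | exact absurd hijk hy
      | exact absurd hijk.symm hy
  choose x hxr hx using fun j => hg.rays (ζ j)
  choose ξ hξ using fun (n : ℕ) (j : Fin 4) => (hx j).smul hg (h (φ n))
  obtain ⟨j₀, ψ, hψ, hfour⟩ := four_points hg hv ζ hinj (fun n => h (φ n)) hφi ξ
    (fun j n => x j n • o) hx hξ
  have heq : ∀ n j, i (ξ n j) = h (φ n) • i (ζ j) := fun n j =>
    hi.equiv _ _ _ _ (hx j) (hξ n j)
  obtain ⟨j, hj, hjz⟩ : ∃ j, j ≠ j₀ ∧ i (ζ j) = z := by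
    by_cases h0 : j₀ = 0
    · exact ⟨1, by rw [h0]; decide, hq⟩
    · exact ⟨0, Ne.symm h0, hp⟩
  obtain ⟨k, hk, hkz⟩ : ∃ k, k ≠ j₀ ∧ i (ζ k) ≠ z := by
    by_cases h0 : j₀ = 2
    · exact ⟨3, by rw [h0]; decide, hy₄z⟩
    · exact ⟨2, Ne.symm h0, hy₃z⟩
  have hd := hfour j k hj hk
  -- an ultrafilter limit
  let U : Ultrafilter ℕ := Ultrafilter.of atTop
  have hU : (U : Filter ℕ) ≤ atTop := Ultrafilter.of_le atTop
  obtain ⟨η, hη⟩ := compact_boundary hg hv U (fun n => ξ (ψ n) j)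
  have hη' : ∀ ε > 0, ∀ᶠ n in (U : Filter ℕ), d.dist (ξ (ψ n) k) η < ε := by
    intro ε hε
    filter_upwards [hη (ε / 2) (by linarith), hU (hd (ε / 2) (by linarith))] with n h5 h6
    have h7 := d.dist_triangle (ξ (ψ n) k) (ξ (ψ n) j) η
    have h8 : d.dist (ξ (ψ n) k) (ξ (ψ n) j) = d.dist (ξ (ψ n) j) (ξ (ψ n) k) := d.dist_comm _ _
    have h6' : d.dist (ξ (ψ n) j) (ξ (ψ n) k) < ε / 2 := h6
    linarith
  have t1 := tendsto_i hc (U : Filter ℕ) _ η hη
  have t2 := tendsto_i hc (U : Filter ℕ) _ η hη'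
  simp only [heq, hjz] at t1 t2
  have s1 : Tendsto (fun n => h (φ (ψ n)) • z) (U : Filter ℕ) (𝓝 b) :=
    ((hb.comp hφ.tendsto_atTop).comp hψ.tendsto_atTop).mono_left hU
  have s2 : Tendsto (fun n => h (φ (ψ n)) • i (ζ k)) (U : Filter ℕ) (𝓝 c') :=
    (((hc' _ hkz).comp hφ.tendsto_atTop).comp hψ.tendsto_atTop).mono_left hU
  exact hbc ((tendsto_nhds_unique s1 t1).trans (tendsto_nhds_unique s2 t2).symm)

end K

end Pool.Agent.CTZ
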