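import Pool.Agent.CTZ.K0
import Pool.Agent.CTZ.K1
import Pool.Agent.CTZ.K3
import Pool.Agent.CTZ.K4
import Pool.Agent.CTZ.K5
import Pool.Agent.CTZ.K6
import Pool.Agent.CTZ.K7
import Pool.Agent.CTZ.K7b
import Pool.Agent.CTZ.K8

/-!
# The converse: a point stabiliser that is not virtually cyclic gives positive dimension
-/

open Filter Topology Set MeasureTheory Pool.Agent.Helper68.CT

namespace Pool.Agent.CTZ

variable {H X Z : Type} [Group H] [MetricSpace X] [MulAction H X]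

theorem infinite_of_notVC (S : Subgroup H) (hS : NotVirtuallyCyclic S) : (S : Set H).Infinite := by
  intro hfin
  have : Finite S := hfin
  refine hS ⊥ ?_ ?_
  · exact Subgroup.index_ne_zero_of_finite
  · infer_instance

/-- distinct ends from bounded products -/
theorem ends_ne {o : X} {δ c : ℝ} (hg : Geo H X o δ c) {x y : ℕ → X} {p q : Boundary X}
    (hp : EndsAt x p) (hq : EndsAt y q) (T : ℝ) (h : ∀ m n, gromovProduct o (x m) (y n) ≤ T) :
    p ≠ q := by
  rintro rfl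
  have h1 := EndsAt.toInfinity hg hp hq
  obtain ⟨ij, hij⟩ := ((tendsto_atTop.1 (h1 o)) (T + 1)).exists
  linarith [h ij.1 ij.2]

theorem notVC_top (hH : NotVirtuallyCyclic H) : NotVirtuallyCyclic (⊤ : Subgroup H) := by
  intro K hK hc
  have e : K ≃* K.map (Subgroup.topEquiv (G := H)).toMonoidHom :=
    K.equivMapOfInjective _ (Subgroup.topEquiv (G := H)).injective
  refine hH (K.map (Subgroup.topEquiv (G := H)).toMonoidHom) ?_ ?_
  · have : (K.map (Subgroup.topEquiv (G := H)).toMonoidHom).index = K.index :=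
      Subgroup.index_map_of_bijective (f := (Subgroup.topEquiv (G := H)).toMonoidHom)
        (Subgroup.topEquiv (G := H)).bijective K
    rwa [this]
  · exact isCyclic_of_surjective e.toMonoidHom e.surjective

theorem conj_dist {o : X} {δ c : ℝ} (hg : Geo H X o δ c) (s g : H) (n : ℤ) :
    dist ((s * g * s⁻¹) ^ n • o) (s • g ^ n • o) = dist o (s • o) := by
  rw [conj_zpow, mul_smul, mul_smul, hg.isom, hg.isom, dist_comm, GG.dist_inv hg]

theorem conj_gp {o : X} {δ c : ℝ} (hg : Geo H X o δ c) {s g : H} {T : ℝ}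
    (hT : ∀ m n : ℤ, gromovProduct o (g ^ m • o) ((s * g * s⁻¹) ^ n • o) ≤ T) (m n : ℤ) :
    gromovProduct o (g ^ m • o) (s • g ^ n • o) ≤ T + dist o (s • o) := by
  have h1 := hT m n
  have h2 := conj_dist hg s g n
  have h4 := gp_dist_right o (g ^ m • o) ((s * g * s⁻¹) ^ n • o) (s • g ^ n • o)
  rw [h2] at h4
  have := abs_le.1 h4
  linarith [this.1, this.2]

theorem Lox.exists_ends {o : X} {δ c : ℝ} (hg : Geo H X o δ c) {g : H} (hl : Lox o δ g) :
    ∃ p q, EndsAt (fun n => g ^ n • o) p ∧ EndsAt (fun n => (g⁻¹) ^ n • o) q ∧ p ≠ q := by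
  have h1 := GG.toInf hg g (hl.step hg)
  have h2 := GG.toInf hg g⁻¹ ((hl.inv hg).step hg)
  obtain ⟨T₁, hT₁⟩ := hl.gp_le hg
  refine ⟨_, _, ⟨h1, rfl⟩, ⟨h2, rfl⟩, ?_⟩
  refine ends_ne hg ⟨h1, rfl⟩ ⟨h2, rfl⟩ T₁ fun m n => ?_
  have := hT₁ (-(n : ℤ)) 0 m (by omega) (by omega)
  rw [zpow_zero, one_smul, zpow_neg, zpow_natCast, zpow_natCast] at this
  rw [inv_pow, gp_comm]
  exact this

/-- consequences of the non-elementarity of `H` and of the action on `Z` -/
theorem basics [TopologicalSpace Z] [CompactSpace Z] [TopologicalSpace.MetrizableSpace Z]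
    [MulAction H Z] {o : X} {δ c c' : ℝ} (hg : Geo H X o δ c) (hm : Mid H o c') {C a : ℝ}
    {d : MetricSpace (Boundary X)} (hv : Vis o C a d)
    {i : Boundary X → Z} (hi : CTMap (H := H) o i) (hc : ContinuousWith d i)
    (hconv : ConvergenceAction H Z) (h3 : 3 ≤ (limitSet H Z).encard)
    (hH : NotVirtuallyCyclic H) :
    (∀ ξ : Boundary X, ∃ ζ₁ ζ₂, ζ₁ ≠ ξ ∧ ζ₂ ≠ ξ ∧ i ζ₁ ≠ i ζ₂) ∧ 3 ≤ (range i).encard := by
  have hT := notVC_top hH
  obtain ⟨g₀, -, hl₀⟩ := exists_loxo hg hm ⊤ (infinite_of_notVC _ hT)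
  obtain ⟨s₀, -, T₀, hT₀⟩ := exists_indep hg ⊤ hT g₀ (Subgroup.mem_top _) hl₀
  obtain ⟨p₀, q₀, hp₀, hq₀, hpq₀⟩ := hl₀.exists_ends hg
  have hnf := no_global_fixed hconv h3
  obtain ⟨r₀, hr₀⟩ := hp₀.smul hg s₀
  have hthird := conj_gp hg hT₀
  have hpr₀ : p₀ ≠ r₀ := by
    refine ends_ne hg hp₀ hr₀ (T₀ + dist o (s₀ • o)) fun m n => ?_
    have := hthird m n
    rwa [zpow_natCast, zpow_natCast] at this
  have hqr₀ : q₀ ≠ r₀ := by
    refine ends_ne hg hq₀ hr₀ (T₀ + dist o (s₀ • o)) fun m n => ?_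
    have := hthird (-(m : ℤ)) n
    rw [zpow_neg, zpow_natCast, zpow_natCast, ← inv_pow] at this
    exact this
  have hns := not_special hg hi hnf ⟨p₀, q₀, r₀, hpq₀, hpr₀, hqr₀⟩
  have hnc : ∃ p q, i p ≠ i q := by
    obtain ⟨ζ₁, ζ₂, -, -, h⟩ := hns p₀
    exact ⟨ζ₁, ζ₂, h⟩
  exact ⟨hns, h3.trans (Set.encard_le_encard (limitSet_sub hg hv hi hc hnc))⟩

theorem converse [TopologicalSpace Z] [CompactSpace Z] [TopologicalSpace.MetrizableSpace Z]
    [MulAction H Z] {o : X} {δ c c' : ℝ} (hg : Geo H X o δ c) (hm : Mid H o c')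
    {a : ℝ} (ha : 1 < a) {d : MetricSpace (Boundary X)} (hd : IsVisual a o d)
    {i : Boundary X → Z} (hi : CTMap (H := H) o i) (hc : ContinuousWith d i)
    (hconv : ConvergenceAction H Z) (h3 : 3 ≤ (limitSet H Z).encard)
    (hH : NotVirtuallyCyclic H) (z : Z)
    (hz : NotVirtuallyCyclic (MulAction.stabilizer H z)) :
    0 < dimWith d (i ⁻¹' nonConical H Z) := by
  classical
  obtain ⟨C, hv⟩ := exists_vis ha o hd
  obtain ⟨hns, hrange⟩ := basics hg hm hv hi hc hconv h3 hH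
  set S := MulAction.stabilizer H z with hSdef
  obtain ⟨g₀, hg₀S, hl₀⟩ := exists_loxo hg hm S (infinite_of_notVC S hz)
  obtain ⟨p₀, q₀, hp₀, hq₀, -⟩ := hl₀.exists_ends hg
  -- orientation
  obtain ⟨g, hgS, hl, hgi⟩ : ∃ g ∈ S, Lox o δ g ∧ ∀ p, EndsAt (fun n => g ^ n • o) p → i p = z := by
    rcases fixed_end hg hv hi hc hconv hrange (show g₀ • z = z from hg₀S) hp₀ hq₀ with h | h
    · exact ⟨g₀, hg₀S, hl₀, fun p hp => by rw [hp.unique hp₀, h]⟩
    · exact ⟨g₀⁻¹, S.inv_mem hg₀S, hl₀.inv hg, fun p hp => by rw [hp.unique hq₀, h]⟩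
  obtain ⟨s, hsS, T, hT⟩ := exists_indep hg S hz g hgS hl
  obtain ⟨p, q, hp, hq, -⟩ := hl.exists_ends hg
  have hip : i p = z := hgi p hp
  obtain ⟨r, hr⟩ := hp.smul hg s
  have hsz : s • z = z := hsS
  have hgz : g • z = z := hgS
  have hir : i r = z := by rw [hi.equiv s _ p r hp hr, hip, hsz]
  have hthird' := conj_gp hg hT
  have hpr : p ≠ r := by
    refine ends_ne hg hp hr (T + dist o (s • o)) fun m n => ?_
    have := hthird' m n
    rwa [zpow_natCast, zpow_natCast] at this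
  have hznc : z ∈ nonConical H Z := by
    refine ⟨?_, not_conical hg hv hi hc hrange hpr hip hir⟩
    rw [← hip]
    exact mem_limitSet hg hv hi hc hconv hns hp hq
  -- ping-pong
  obtain ⟨T₂, hT₂⟩ := hl.gp_le hg
  obtain ⟨B, hTB, hT₂B⟩ : ∃ B : ℝ, T ≤ B ∧ T₂ ≤ B := ⟨max T T₂, le_max_left _ _, le_max_right _ _⟩
  obtain ⟨N, T', hpp, hD1, hD2⟩ := exists_pp hg g s hl T hT (2 * B + 4 * δ)
  have hfix : ∀ n : ℕ, g ^ n • z = z := by
    intro n
    induction n with
    | zero => simp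
    | succ n ih => rw [pow_succ, mul_smul, hgz, ih]
  have hfix' : ∀ n : ℕ, (s * g * s⁻¹) ^ n • z = z := by
    intro n
    have h1 : s⁻¹ • z = z := by rw [inv_smul_eq_iff, hsz]
    rw [conj_pow, mul_smul, mul_smul, h1, hfix, hsz]
  refine pp_dim_pos_of hg (fun ω => hpp.ends hg ω) (hpp.gp_sep hg) ha hd _ fun ω e he => ?_
  show i e ∈ nonConical H Z
  have : i e = z := by
    refine pp_mem_of (T := T') hg hv hi hc z ?_ (fun k => g ^ k • o) p hp hip B ?_ ?_ ω
      (hpp.step hg ω) (hpp.gp_prefix hg ω) e he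
    · intro b
      cases b
      · simpa using hfix' N
      · simpa using hfix N
    · intro b k
      cases b
      · have := hT k (-(N : ℤ))
        rw [zpow_natCast, zpow_neg, zpow_natCast] at this
        rw [gp_comm]
        simpa using this.trans hTB
      · have := hT₂ (-(N : ℤ)) 0 k (by omega) (by omega)
        rw [zpow_zero, one_smul, zpow_neg, zpow_natCast, zpow_natCast] at this
        simpa using this.trans hT₂B
    · intro b
      cases b
      · simpa using hD2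
      · simpa using hD1
  rw [this]
  exact hznc

end Pool.Agent.CTZ
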