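import Pool.Agent.CTZ.Final
import Pool.Agent.CTZ.K9

open Filter Topology Set MeasureTheory Pool.Agent.Helper68.CT

namespace Pool.Agent.CTZ

/-- The criterion: for a hyperbolic group `H` acting geometrically on `X`, with a Cannon-Thurston
map `i` to a compactum `Z` with a non-elementary convergence action, the set of preimages of the
non-conical limit points has positive Hausdorff dimension if and only if some point of `Z` has a
stabiliser that is not virtually cyclic; in particular the dimension is zero if there are no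
accidental parabolics (elements of infinite order with less than two fixed points in `Z`). -/
theorem criterion {H X Z : Type} [Group H] [MetricSpace X] [MulAction H X] [TopologicalSpace Z]
    [MulAction H Z] [ProperSpace X] [CompactSpace Z] [TopologicalSpace.MetrizableSpace Z]
    (i : Boundary X → Z) (hH : NotVirtuallyCyclic H) (hX : GeodesicSpace X)
    (hhyp : GromovHyperbolic X) (hgeo : GeometricAction H X) (hconv : ConvergenceAction H Z)
    (h3 : 3 ≤ (limitSet H Z).encard) (hi : Equivariant H i) (o : X) (a : ℝ) (ha : 1 < a)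
    (d : MetricSpace (Boundary X)) (hd : IsVisual a o d) (hc : ContinuousWith d i) :
    (0 < dimWith d (i ⁻¹' nonConical H Z) ↔
      ∃ z : Z, NotVirtuallyCyclic (MulAction.stabilizer H z)) ∧
    ((∀ g : H, ¬ IsOfFinOrder g → ∃ y z : Z, y ≠ z ∧ g • y = y ∧ g • z = z) →
      dimWith d (i ⁻¹' nonConical H Z) = 0) := by
  obtain ⟨δ, c, hg⟩ := exists_geo hX hhyp hgeo o
  obtain ⟨c', hm⟩ := exists_mid (H := H) hX hgeo o
  obtain ⟨C, hv⟩ := exists_vis ha o hd
  have hi' := CTMap.of_equivariant (H := H) o hi
  refine ⟨⟨fun h => ?_, fun ⟨z, hz⟩ => converse hg hm ha hd hi' hc hconv h3 hH z hz⟩, fun hall => ?_⟩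
  · obtain ⟨z, hz, -⟩ := main hg hv hi' hc hconv h
    exact ⟨z, hz⟩
  · by_contra hne
    obtain ⟨z, -, g, hgz, hgn, p, q, hp, hq, hip, hiq⟩ :=
      main hg hv hi' hc hconv (pos_iff_ne_zero.2 hne)
    obtain ⟨hns, hrange⟩ := basics hg hm hv hi' hc hconv h3 hH
    have hinf : ¬ IsOfFinOrder g := by
      rw [isOfFinOrder_iff_pow_eq_one]
      rintro ⟨n, hn, h1⟩
      have := hgn n
      rw [h1, one_smul, dist_self] at this
      have h2 : (0 : ℝ) < n := by exact_mod_cast hn
      linarith
    obtain ⟨y, y', hyy, hy, hy'⟩ := hall g hinf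
    have e1 := fixed_unique hg hv hi' hc hconv hrange hp hq hgz hip hiq hy
    have e2 := fixed_unique hg hv hi' hc hconv hrange hp hq hgz hip hiq hy'
    exact hyy (e1.trans e2.symm)

end Pool.Agent.CTZ
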