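import Pool.Agent.CTZ.GSys
import Pool.Agent.CTZ.GA
import Pool.Agent.CTZ.GC

/-!
# Row GE: the line system
-/

open Filter Topology Set Pool.Agent.Helper68.CT

namespace Pool.Agent.CTZ

section G

variable {H X Z : Type} [Group H] [MetricSpace X] [MulAction H X]

namespace RowGE

theorem line_rev {o : X} {c : ℝ} {l : ℤ → H} (hl : IsLine o c l) : IsLine o c (lrev l) := by
  intro m n
  have h := hl (-m) (-n)
  have e : |((-m : ℤ) : ℝ) - ((-n : ℤ) : ℝ)| = |(m : ℝ) - n| := by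
    push_cast
    rw [abs_sub_comm]
    congr 1
    ring
  rw [e] at h
  exact h

theorem line_shift {o : X} {c : ℝ} {l : ℤ → H} (hl : IsLine o c l) (j : ℤ) :
    IsLine o c (lshift j l) := by
  intro m n
  have h := hl (m + j) (n + j)
  have e : |((m + j : ℤ) : ℝ) - ((n + j : ℤ) : ℝ)| = |(m : ℝ) - n| := by
    push_cast
    congr 1
    ring
  rw [e] at h
  exact h

theorem line_smul {o : X} {δ c : ℝ} (hg : Geo H X o δ c) {l : ℤ → H} (hl : IsLine o c l) (g : H) :
    IsLine o c (lsmul g l) := by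
  intro m n
  have h := hl m n
  unfold lsmul
  rw [mul_smul, mul_smul, hg.isom]
  exact h

theorem pos_ends {o : X} {δ c : ℝ} (hg : Geo H X o δ c) {l : ℤ → H} (hl : IsLine o c l) :
    ∃ p, EndsAt (fun n : ℕ => l n • o) p := by
  obtain ⟨p, hp⟩ := (line_ends hg hl 0).1
  refine ⟨p, ?_⟩
  simpa using hp

theorem neg_ends {o : X} {δ c : ℝ} (hg : Geo H X o δ c) {l : ℤ → H} (hl : IsLine o c l) :
    ∃ p, EndsAt (fun n : ℕ => l (-(n : ℤ)) • o) p := by
  obtain ⟨p, hp⟩ := (line_ends hg hl 0).2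
  refine ⟨p, ?_⟩
  simpa using hp

theorem shift_pos {o : X} {c : ℝ} {l : ℤ → H} (hl : IsLine o c l) {p : Boundary X}
    (hp : EndsAt (fun n : ℕ => l n • o) p) (j : ℤ) : EndsAt (fun n : ℕ => lshift j l n • o) p := by
  refine hp.congr (line_ends_right hl j j) ?_
  have h := line_ends_right hl 0 j
  show ToInfinity (fun n : ℕ => l n • o) (fun n : ℕ => l (n + j) • o)
  simpa using h

theorem shift_neg {o : X} {c : ℝ} {l : ℤ → H} (hl : IsLine o c l) {p : Boundary X}
    (hp : EndsAt (fun n : ℕ => l (-(n : ℤ)) • o) p) (j : ℤ) :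
    EndsAt (fun n : ℕ => lshift j l (-(n : ℤ)) • o) p := by
  refine hp.congr (line_ends_left hl j j) ?_
  have h := line_ends_left hl 0 j
  show ToInfinity (fun n : ℕ => l (-(n : ℤ)) • o) (fun n : ℕ => l (-(n : ℤ) + j) • o)
  simpa using h

theorem toInf_comp {x y : ℕ → X} (h : ToInfinity x y) {φ ψ : ℕ → ℕ} (hφ : Tendsto φ atTop atTop)
    (hψ : Tendsto ψ atTop atTop) : ToInfinity (fun n => x (φ n)) (fun n => y (ψ n)) := by
  intro o
  have h1 := h o
  have h2 : Tendsto (fun p : ℕ × ℕ => (φ p.1, ψ p.2)) atTop atTop := by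
    rw [← prod_atTop_atTop_eq]
    exact hφ.prodMap hψ
  exact h1.comp h2

open Classical in
/-- the class of a line -/
noncomputable def clsFun [Nonempty Z] (o : X) (i : Boundary X → Z) (l : ℤ → H) : Z :=
  if h : ∃ p, EndsAt (fun n : ℕ => l n • o) p then i h.choose else Classical.arbitrary Z

theorem clsFun_eq [Nonempty Z] {o : X} (i : Boundary X → Z) {l : ℤ → H} {p : Boundary X}
    (hp : EndsAt (fun n : ℕ => l n • o) p) : clsFun o i l = i p := by
  unfold clsFun
  rw [dif_pos ⟨p, hp⟩]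
  congr 1
  exact EndsAt.unique (Exists.choose_spec (⟨p, hp⟩ : ∃ p, EndsAt (fun n : ℕ => l n • o) p)) hp

theorem vis_small {o : X} {C a : ℝ} {d : MetricSpace (Boundary X)} (hv : Vis o C a d) {ε : ℝ}
    (hε : 0 < ε) : ∃ T : ℝ, ∀ s, T ≤ s → C * a ^ (-s) < ε := by
  have h1 : Tendsto (fun s : ℝ => C * a ^ (-s)) atTop (𝓝 (C * 0)) := by
    refine Tendsto.const_mul C ?_
    exact (tendsto_rpow_atBot_of_base_gt_one a hv.2.1).comp tendsto_neg_atTop_atBot
  rw [mul_zero] at h1
  have h2 := h1.eventually (gt_mem_nhds hε)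
  rw [eventually_atTop] at h2
  exact h2

/-- ends of lines which agree at `0` and at `N` -/
theorem ends_close {o : X} {δ c C a : ℝ} {d : MetricSpace (Boundary X)} (hg : Geo H X o δ c)
    (hv : Vis o C a d) {l l' : ℤ → H} (hl : IsLine o c l) (hl' : IsLine o c l')
    {p p' : Boundary X} (hp : EndsAt (fun n : ℕ => l n • o) p)
    (hp' : EndsAt (fun n : ℕ => l' n • o) p') (N : ℕ) (h0 : l 0 = l' 0) (hN : l N = l' N) :
    d.dist p p' ≤ C * a ^ (-((N : ℝ) - 3 * c / 2 - δ - dist o (l' 0 • o))) := by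
  refine hv.2.2 _ _ p p' _ hp hp' ?_
  filter_upwards [eventually_ge_atTop ((N, N) : ℕ × ℕ)] with ij hij
  have h1 : (N : ℝ) ≤ ij.1 := by exact_mod_cast hij.1
  have h2 : (N : ℝ) ≤ ij.2 := by exact_mod_cast hij.2
  have hN0 : (0 : ℝ) ≤ N := Nat.cast_nonneg N
  have h3 := line_gp hl 0 ij.1 N
  have h4 := line_gp hl' 0 N ij.2
  have h5 := hg.hyp (l' 0 • o) (l ij.1 • o) (l' N • o) (l' ij.2 • o)
  rw [h0, hN] at h3
  push_cast at h3 h4
  rw [sub_zero, sub_zero, abs_of_nonneg hN0, abs_of_nonneg (hN0.trans h1),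
    abs_of_nonneg (by linarith)] at h3
  rw [sub_zero, sub_zero, abs_of_nonneg hN0, abs_of_nonneg (hN0.trans h2), abs_sub_comm,
    abs_of_nonneg (by linarith)] at h4
  have h6 : (N : ℝ) - 3 * c / 2 ≤ min (gromovProduct (l' 0 • o) (l ij.1 • o) (l' N • o))
      (gromovProduct (l' 0 • o) (l' N • o) (l' ij.2 • o)) := le_min (by linarith) (by linarith)
  have h7 := (abs_le.1 (gp_base o (l' 0 • o) (l ij.1 • o) (l' ij.2 • o))).1
  linarith

/-- if lines converge pointwise then their positive ends converge -/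
theorem ends_tendsto {o : X} {δ c C a : ℝ} {d : MetricSpace (Boundary X)} (hg : Geo H X o δ c)
    (hv : Vis o C a d) {s : ℕ → ℤ → H} {l : ℤ → H} (hs : ∀ n, IsLine o c (s n))
    (hl : IsLine o c l) (h : ∀ k, ∀ᶠ n in atTop, s n k = l k) {P : ℕ → Boundary X}
    {p : Boundary X} (hP : ∀ n, EndsAt (fun k : ℕ => s n k • o) (P n))
    (hp : EndsAt (fun k : ℕ => l k • o) p) : ∀ ε > 0, ∀ᶠ n in atTop, d.dist (P n) p < ε := by
  intro ε hε
  obtain ⟨T, hT⟩ := vis_small hv hε
  obtain ⟨N, hN⟩ := exists_nat_ge (T + 3 * c / 2 + δ + dist o (l 0 • o))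
  filter_upwards [h 0, h N] with n h0 h1
  refine (ends_close hg hv (hs n) hl (hP n) hp N h0 h1).trans_lt (hT _ ?_)
  linarith

theorem line_limit {o : X} {c : ℝ} {s : ℕ → ℤ → H} {l : ℤ → H} (hs : ∀ n, IsLine o c (s n))
    (h : ∀ k, ∀ᶠ n in atTop, s n k = l k) : IsLine o c l := by
  intro m n
  obtain ⟨N, h1, h2⟩ := ((h m).and (h n)).exists
  rw [← h1, ← h2]
  exact hs N m n

/-- one of the ends of a line through `v` is seen from `o` behind `v` -/
theorem one_end {o : X} {δ c : ℝ} (hg : Geo H X o δ c) {l : ℤ → H} (hl : IsLine o c l)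
    {p q : Boundary X} (hp : EndsAt (fun n : ℕ => l n • o) p)
    (hq : EndsAt (fun n : ℕ => l (-(n : ℤ)) • o) q) :
    (∀ᶠ k : ℕ in atTop, dist o (l 0 • o) - (3 * c / 2 + 2 * δ) ≤
      gromovProduct o (l k • o) (l 0 • o)) ∨
    (∀ᶠ k : ℕ in atTop, dist o (l 0 • o) - (3 * c / 2 + 2 * δ) ≤
      gromovProduct o (l (-(k : ℤ)) • o) (l 0 • o)) := by
  have key : ∀ x : ℕ → X, ToInfinity x x →
      (∃ᶠ k in atTop, gromovProduct (l 0 • o) (x k) o ≤ 3 * c / 2 + δ) →
      ∀ᶠ k in atTop, dist o (l 0 • o) - (3 * c / 2 + 2 * δ) ≤ gromovProduct o (x k) (l 0 • o) := by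
    intro x hx hfr
    have h1 := hx o
    rw [tendsto_atTop] at h1
    have h2 := h1 (dist o (l 0 • o))
    rw [← prod_atTop_atTop_eq, eventually_prod_iff] at h2
    obtain ⟨pa, hpa, pb, hpb, h3⟩ := h2
    obtain ⟨k', hk', hk''⟩ := (hfr.and_eventually hpb).exists
    filter_upwards [hpa] with k hk
    have h4 := h3 hk hk''
    have h5 := hg.hyp o (x k) (x k') (l 0 • o)
    have h6 := gp_add o (l 0 • o) (x k')
    have h7 : dist o (l 0 • o) - (3 * c / 2 + δ) ≤ gromovProduct o (x k') (l 0 • o) := by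
      rw [gp_comm o (x k') (l 0 • o)]
      rw [gp_comm (l 0 • o) (x k') o] at hk'
      linarith
    have hc0 := hg.c0
    have hδ0 := hg.δ0
    have h8 : dist o (l 0 • o) - (3 * c / 2 + δ) ≤ min (gromovProduct o (x k) (x k'))
        (gromovProduct o (x k') (l 0 • o)) := le_min (by
      show dist o (l 0 • o) - (3 * c / 2 + δ) ≤ gromovProduct o (x k) (x k')
      have h9 : dist o (l 0 • o) ≤ gromovProduct o (x k) (x k') := h4
      linarith) h7
    linarith
  by_cases hfr : ∃ᶠ k : ℕ in atTop, gromovProduct (l 0 • o) (l k • o) o ≤ 3 * c / 2 + δ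
  · exact Or.inl (key _ hp.toInf hfr)
  · right
    apply key _ hq.toInf
    rw [not_frequently] at hfr
    apply Eventually.frequently
    filter_upwards [hfr] with k hk
    have h1 := line_gp_le hl 0 k (-(k : ℤ))
    have h2 := hg.hyp (l 0 • o) (l k • o) o (l (-(k : ℤ)) • o)
    have hk0 : (0 : ℝ) ≤ k := Nat.cast_nonneg k
    push_cast at h1
    rw [sub_zero, sub_zero, abs_neg, abs_of_nonneg hk0, sub_neg_eq_add,
      abs_of_nonneg (by linarith)] at h1
    rw [gp_comm]
    by_contra hcon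
    rw [not_le] at hk hcon
    have h3 : 3 * c / 2 + δ < min (gromovProduct (l 0 • o) (l k • o) o)
        (gromovProduct (l 0 • o) o (l (-(k : ℤ)) • o)) := lt_min hk hcon
    linarith

end RowGE

open RowGE

theorem exists_sys [TopologicalSpace Z] [T2Space Z] [Nonempty Z] [MulAction H Z] {o : X} {δ c : ℝ}
    (hg : Geo H X o δ c) {C a : ℝ} {d : MetricSpace (Boundary X)} (hv : Vis o C a d)
    {i : Boundary X → Z} (hi : CTMap (H := H) o i) (hc : ContinuousWith d i) :
    ∃ S : LineSys H Z, IsSys o c i S := by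
  let Λ : Set (ℤ → H) := {l | IsLine o c l ∧ ∃ p q, EndsAt (fun n : ℕ => l n • o) p ∧
    EndsAt (fun n : ℕ => l (-(n : ℤ)) • o) q ∧ i p = i q}
  have hsmul : ∀ (g : H), ∀ l ∈ Λ, lsmul g l ∈ Λ ∧ clsFun o i (lsmul g l) = g • clsFun o i l := by
    rintro g l ⟨hl, p, q, hp, hq, hpq⟩
    obtain ⟨p', hp'⟩ := hp.smul hg g
    obtain ⟨q', hq'⟩ := hq.smul hg g
    have h1 := hi.equiv g _ p p' hp hp'
    have h2 := hi.equiv g _ q q' hq hq'
    have hp'' : EndsAt (fun n : ℕ => lsmul g l n • o) p' := by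
      unfold lsmul
      simpa only [mul_smul] using hp'
    have hq'' : EndsAt (fun n : ℕ => lsmul g l (-(n : ℤ)) • o) q' := by
      unfold lsmul
      simpa only [mul_smul] using hq'
    refine ⟨⟨line_smul hg hl g, p', q', hp'', hq'', ?_⟩, ?_⟩
    · rw [h1, h2, hpq]
    · rw [clsFun_eq i hp'', clsFun_eq i hp, h1]
  have hclosed : ∀ (s : ℕ → ℤ → H) (l : ℤ → H), (∀ n, s n ∈ Λ) →
      (∀ k, ∀ᶠ n in atTop, s n k = l k) → l ∈ Λ ∧
      Tendsto (fun n => clsFun o i (s n)) atTop (𝓝 (clsFun o i l)) := by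
    intro s l hs hsl
    have hl : IsLine o c l := line_limit (fun n => (hs n).1) hsl
    obtain ⟨p, hp⟩ := pos_ends hg hl
    obtain ⟨q, hq⟩ := neg_ends hg hl
    choose hs1 P Q hP hQ hPQ using hs
    have h1 := ends_tendsto hg hv hs1 hl hsl hP hp
    have h2 := ends_tendsto hg hv (fun n => line_rev (hs1 n)) (line_rev hl)
      (fun k => hsl (-k)) (P := Q) (p := q) hQ hq
    have h3 := tendsto_i hc atTop P p h1
    have h4 := tendsto_i hc atTop Q q h2
    have h5 : i p = i q := by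
      refine tendsto_nhds_unique h3 ?_
      have : (fun n => i (P n)) = fun n => i (Q n) := funext hPQ
      rw [this]
      exact h4
    refine ⟨⟨hl, p, q, hp, hq, h5⟩, ?_⟩
    rw [clsFun_eq i hp]
    have : (fun n => clsFun o i (s n)) = fun n => i (P n) := funext fun n => clsFun_eq i (hP n)
    rw [this]
    exact h3
  refine ⟨{ lines := Λ
            cls := clsFun o i
            smul_mem := fun g l hl => (hsmul g l hl).1
            cls_smul := fun g l hl => (hsmul g l hl).2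
            shift_mem := ?_
            cls_shift := ?_
            rev_mem := ?_
            cls_rev := ?_
            fin := ?_
            closed := fun s l hs hsl => (hclosed s l hs hsl).1
            cont := fun s l hs hsl => (hclosed s l hs hsl).2
            past := ?_
            finF := ?_ }, ⟨fun l => Iff.rfl, fun l hl p hp => clsFun_eq i hp⟩⟩
  · rintro j l ⟨hl, p, q, hp, hq, hpq⟩
    exact ⟨line_shift hl j, p, q, shift_pos hl hp j, shift_neg hl hq j, hpq⟩
  · rintro j l ⟨hl, p, q, hp, hq, hpq⟩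
    rw [clsFun_eq i (shift_pos hl hp j), clsFun_eq i hp]
  · rintro l ⟨hl, p, q, hp, hq, hpq⟩
    refine ⟨line_rev hl, q, p, hq, ?_, hpq.symm⟩
    unfold lrev
    simpa using hp
  · rintro l ⟨hl, p, q, hp, hq, hpq⟩
    have h1 : EndsAt (fun n : ℕ => lrev l n • o) q := hq
    rw [clsFun_eq i h1, clsFun_eq i hp, hpq]
  · intro k
    refine (hg.fin (|(k : ℝ)| + c)).subset ?_
    rintro w ⟨l, ⟨hl, -⟩, h0, rfl⟩
    have h1 := (abs_le.1 (hl 0 k)).2
    rw [h0, one_smul] at h1
    push_cast at h1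
    rw [zero_sub, abs_neg] at h1
    show dist o (l k • o) ≤ |(k : ℝ)| + c
    linarith
  · rintro R hR l ⟨hl, p, q, hp, hq, hpq⟩ l' ⟨hl', p', q', hp', hq', hpq'⟩ heq
    have hφ : Tendsto (fun n : ℕ => n * R) atTop atTop := tendsto_id.atTop_mul_const' hR
    have h1 : EndsAt (fun n : ℕ => l (-((n * R : ℕ) : ℤ)) • o) q :=
      hq.congr (toInf_comp hq.toInf hφ hφ) (toInf_comp hq.toInf tendsto_id hφ)
    have h2 : EndsAt (fun n : ℕ => l' (-((n * R : ℕ) : ℤ)) • o) q' :=
      hq'.congr (toInf_comp hq'.toInf hφ hφ) (toInf_comp hq'.toInf tendsto_id hφ)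
    have h3 : (fun n : ℕ => l (-((n * R : ℕ) : ℤ)) • o) =
        fun n : ℕ => l' (-((n * R : ℕ) : ℤ)) • o := funext fun n => by rw [heq n]
    rw [h3] at h1
    rw [clsFun_eq i hp, clsFun_eq i hp', hpq, hpq', h1.unique h2]
  · intro z₁ z₂ hz
    by_contra hinf
    have hinf' : {v : H | (∃ l ∈ Λ, l 0 = v ∧ clsFun o i l = z₁) ∧
        (∃ l ∈ Λ, l 0 = v ∧ clsFun o i l = z₂)}.Infinite := hinf
    let v := hinf'.natEmbedding
    have hone : ∀ (z : Z) (w : H), (∃ l ∈ Λ, l 0 = w ∧ clsFun o i l = z) →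
        ∃ (ξ : Boundary X) (x : ℕ → X), EndsAt x ξ ∧ i ξ = z ∧ ∀ᶠ k in atTop,
          dist o (w • o) - (3 * c / 2 + 2 * δ) ≤ gromovProduct o (x k) (w • o) := by
      rintro z w ⟨l, ⟨hl, p, q, hp, hq, hpq⟩, rfl, rfl⟩
      rcases one_end hg hl hp hq with h1 | h1
      · exact ⟨p, _, hp, (clsFun_eq i hp).symm, h1⟩
      · exact ⟨q, _, hq, by rw [clsFun_eq i hp, hpq], h1⟩
    choose ξ x hx hξ hxv using fun n : ℕ => hone z₁ (v n) (v n).2.1
    choose ξ' x' hx' hξ' hxv' using fun n : ℕ => hone z₂ (v n) (v n).2.2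
    have hdist : ∀ n, d.dist (ξ' n) (ξ n) ≤
        C * a ^ (-(dist o ((v n : H) • o) - (3 * c / 2 + 2 * δ) - δ)) := by
      intro n
      refine hv.2.2 _ _ _ _ _ (hx' n) (hx n) ?_
      rw [← prod_atTop_atTop_eq, eventually_prod_iff]
      refine ⟨_, hxv' n, _, hxv n, ?_⟩
      intro k hk k' hk'
      have h1 := hg.hyp o (x' n k) ((v n : H) • o) (x n k')
      rw [gp_comm o ((v n : H) • o) (x n k')] at h1
      have h2 := le_min hk hk'
      linarith
    have hvinj : Function.Injective (fun n : ℕ => (v n : H)) := fun m n h =>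
      v.injective (Subtype.ext h)
    have hbig : ∀ T : ℝ, ∀ᶠ n in atTop, T < dist o ((v n : H) • o) := by
      intro T
      have h1 := hvinj.tendsto_cofinite
      rw [Nat.cofinite_eq_atTop] at h1
      have h2 := h1.eventually (hg.fin T).eventually_cofinite_notMem
      filter_upwards [h2] with n hn
      exact not_le.1 hn
    let U : Ultrafilter ℕ := Filter.hyperfilter ℕ
    have hU : (U : Filter ℕ) ≤ atTop := Nat.hyperfilter_le_atTop
    obtain ⟨ζ, hζ⟩ := compact_boundary hg hv U ξ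
    have hζ' : ∀ ε > 0, ∀ᶠ n in (U : Filter ℕ), d.dist (ξ' n) ζ < ε := by
      intro ε hε
      obtain ⟨T, hT⟩ := vis_small hv (half_pos hε)
      filter_upwards [hζ (ε / 2) (half_pos hε),
        hU (hbig (T + (3 * c / 2 + 2 * δ) + δ))] with n h1 h2
      have h3 := d.dist_triangle (ξ' n) (ξ n) ζ
      have h4 := hdist n
      have h5 := hT (dist o ((v n : H) • o) - (3 * c / 2 + 2 * δ) - δ) (by linarith)
      linarith
    have h1 := tendsto_i hc (U : Filter ℕ) ξ ζ hζ
    have h2 := tendsto_i hc (U : Filter ℕ) ξ' ζ hζ'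
    have e1 : (fun n => i (ξ n)) = fun _ => z₁ := funext hξ
    have e2 : (fun n => i (ξ' n)) = fun _ => z₂ := funext hξ'
    rw [e1] at h1
    rw [e2] at h2
    exact hz ((tendsto_nhds_unique tendsto_const_nhds h1).trans
      (tendsto_nhds_unique h2 tendsto_const_nhds))

end G

end Pool.Agent.CTZ
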