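import Pool.Agent.CTZ.GSys

/-!
# Halving (row GF)
-/

open Filter Topology Set MeasureTheory Pool.Agent.Helper68.CT

namespace Pool.Agent.CTZ

section G

variable {H X Z : Type} [Group H] [MetricSpace X] [MulAction H X]

theorem gf_dist_inv {o : X} {δ c : ℝ} (hg : Geo H X o δ c) (w : H) :
    dist o (w⁻¹ • o) = dist o (w • o) := by
  have h := hg.isom w o (w⁻¹ • o)
  rw [smul_inv_smul] at h
  rw [← h, dist_comm]

theorem half_or {o : X} {δ c : ℝ} (hg : Geo H X o δ c) (w g : H) :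
    Half o g w ∨ Half o (w⁻¹ * g) w⁻¹ := by
  have h1 : dist o ((w⁻¹ * g) • o) = dist (w • o) (g • o) := by
    have h := hg.isom w o ((w⁻¹ * g) • o)
    rw [mul_smul, smul_inv_smul] at h
    rw [mul_smul, ← h]
  have h2 : dist ((w⁻¹ * g) • o) (w⁻¹ • o) = dist o (g • o) := by
    have h := hg.isom w ((w⁻¹ * g) • o) (w⁻¹ • o)
    rw [mul_smul, smul_inv_smul, smul_inv_smul] at h
    rw [mul_smul, ← h, dist_comm]
  by_contra hcon
  rw [not_or] at hcon
  obtain ⟨ha, hb⟩ := hcon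
  unfold Half gromovProduct at ha hb
  rw [gf_dist_inv hg, h1, h2] at hb
  rw [dist_comm (g • o) (w • o)] at ha
  linarith [not_le.1 ha, not_le.1 hb]

theorem half_count [TopologicalSpace Z] [MulAction H Z] {o : X} {δ c : ℝ} (hg : Geo H X o δ c)
    {i : Boundary X → Z} {S : LineSys H Z} (hS : IsSys o c i S) :
    ∃ C : ℕ, ∀ (R : ℕ) (g : H), {w : H | w ∈ S.L R ∧ Half o g w}.ncard ≤ C * S.N (R - R / 2) := by
  classical
  set B : Finset H := (hg.fin (5 * c + 4 * δ)).toFinset with hB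
  refine ⟨B.card, fun R g => ?_⟩
  -- data of an element
  have key : ∀ w ∈ S.L R, Half o g w → ∃ u : H, u⁻¹ * w ∈ S.L ((R - R / 2 : ℕ) : ℤ) ∧
      dist o (u • o) ≤ ((R / 2 : ℕ) : ℝ) + c ∧
      ((R / 2 : ℕ) : ℝ) - 3 * c / 2 - δ ≤ gromovProduct o (u • o) (g • o) := by
    intro w hw hh
    obtain ⟨l, rfl⟩ := S.mem_L.1 hw
    have hl : IsLine o c l.1 := ((hS.mem l.1).1 l.2.1).1
    have hle : R / 2 ≤ R := Nat.div_le_self R 2
    have e0 : l.1 0 = 1 := l.2.2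
    have h1 := abs_le.1 (hl 0 ((R / 2 : ℕ) : ℤ))
    have h2 := abs_le.1 (hl 0 (R : ℤ))
    have h3 := abs_le.1 (hl ((R / 2 : ℕ) : ℤ) (R : ℤ))
    rw [e0, one_smul] at h1 h2
    have a1 : |((0 : ℤ) : ℝ) - (((R / 2 : ℕ) : ℤ) : ℝ)| = ((R / 2 : ℕ) : ℝ) := by
      rw [Int.cast_zero, zero_sub, abs_neg, Int.cast_natCast, abs_of_nonneg (Nat.cast_nonneg _)]
    have a2 : |((0 : ℤ) : ℝ) - ((R : ℤ) : ℝ)| = (R : ℝ) := by
      simp
    have a3 : |((((R / 2 : ℕ) : ℤ) : ℝ)) - ((R : ℤ) : ℝ)| = (R : ℝ) - ((R / 2 : ℕ) : ℝ) := by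
      rw [abs_sub_comm, Int.cast_natCast, Int.cast_natCast, abs_of_nonneg]
      have : ((R / 2 : ℕ) : ℝ) ≤ R := by exact_mod_cast hle
      linarith
    rw [a1] at h1
    rw [a2] at h2
    rw [a3] at h3
    have hhalf : 2 * ((R / 2 : ℕ) : ℝ) ≤ R := by
      have : 2 * (R / 2) ≤ R := Nat.mul_div_le R 2
      exact_mod_cast this
    refine ⟨l.1 ((R / 2 : ℕ) : ℤ), ?_, by linarith [h1.1, h1.2], ?_⟩
    · refine S.mem_L.2 ⟨S.tau^[R / 2] l, ?_⟩
      have e : ((R - R / 2 : ℕ) : ℤ) + ((R / 2 : ℕ) : ℤ) = (R : ℤ) := by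
        rw [← Nat.cast_add, Nat.sub_add_cancel hle]
      rw [S.tau_iterate, e]
    · have hg1 : ((R / 2 : ℕ) : ℝ) - 3 * c / 2 ≤
          gromovProduct o (l.1 ((R / 2 : ℕ) : ℤ) • o) (l.1 (R : ℤ) • o) := by
        unfold gromovProduct
        linarith [h1.1, h2.1, h3.2]
      have hg2 : ((R / 2 : ℕ) : ℝ) - 3 * c / 2 ≤
          gromovProduct o (l.1 (R : ℤ) • o) (g • o) := by
        have hh' := hh
        unfold Half gromovProduct at hh'
        unfold gromovProduct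
        rw [dist_comm (l.1 (R : ℤ) • o) (g • o)]
        linarith [h2.1, hg.c0]
      have h4 := hg.hyp o (l.1 ((R / 2 : ℕ) : ℤ) • o) (l.1 (R : ℤ) • o) (g • o)
      have h5 := le_min hg1 hg2
      linarith
  -- the set
  by_cases hne : ∃ w₀ ∈ S.L R, Half o g w₀
  · obtain ⟨w₀, hw₀, hh₀⟩ := hne
    obtain ⟨u₀, -, hu₀, hu₀'⟩ := key w₀ hw₀ hh₀
    have hsub : {w : H | w ∈ S.L R ∧ Half o g w} ⊆
        (((B ×ˢ S.L ((R - R / 2 : ℕ) : ℤ)).image fun q => u₀ * q.1 * q.2 : Finset H) : Set H) := by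
      rintro w ⟨hw, hh⟩
      obtain ⟨u, hu, hu1, hu2⟩ := key w hw hh
      rw [Finset.mem_coe, Finset.mem_image]
      refine ⟨(u₀⁻¹ * u, u⁻¹ * w), Finset.mem_product.2 ⟨?_, hu⟩, by group⟩
      rw [hB, Set.Finite.mem_toFinset]
      show dist o ((u₀⁻¹ * u) • o) ≤ 5 * c + 4 * δ
      have e1 : dist o ((u₀⁻¹ * u) • o) = dist (u₀ • o) (u • o) := by
        have h := hg.isom u₀ o ((u₀⁻¹ * u) • o)
        rw [mul_smul, smul_inv_smul] at h
        rw [mul_smul, ← h]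
      rw [e1]
      have h4 := hg.hyp o (u₀ • o) (g • o) (u • o)
      have h5 : ((R / 2 : ℕ) : ℝ) - 3 * c / 2 - δ ≤ gromovProduct o (g • o) (u • o) := by
        unfold gromovProduct at hu2 ⊢
        rw [dist_comm (g • o) (u • o)]
        linarith
      have h6 := le_min hu₀' h5
      have h7 : ((R / 2 : ℕ) : ℝ) - 3 * c / 2 - 2 * δ ≤ gromovProduct o (u₀ • o) (u • o) := by
        linarith
      unfold gromovProduct at h7
      linarith
    calc {w : H | w ∈ S.L R ∧ Half o g w}.ncard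
        ≤ (((B ×ˢ S.L ((R - R / 2 : ℕ) : ℤ)).image fun q => u₀ * q.1 * q.2 : Finset H) :
            Set H).ncard := Set.ncard_le_ncard hsub (Finset.finite_toSet _)
      _ ≤ B.card * S.N (R - R / 2) := by
          rw [Set.ncard_coe_finset]
          refine Finset.card_image_le.trans ?_
          rw [Finset.card_product]
          rfl
  · have : {w : H | w ∈ S.L R ∧ Half o g w} = ∅ := by
      ext w
      rw [Set.mem_empty_iff_false, iff_false]
      intro h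
      exact hne ⟨w, h.1, h.2⟩
    rw [this, Set.ncard_empty]
    exact Nat.zero_le _

end G

end Pool.Agent.CTZ
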