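import Pool.Agent.CTZ.GSys

/-!
# Exponential growth excludes virtually cyclic stabilisers
-/

open Filter Topology Set MeasureTheory Pool.Agent.Helper68.CT

namespace Pool.Agent.CTZ

section GH

variable {H X Z : Type} [Group H] [MetricSpace X] [MulAction H X]

theorem gh_inv {o : X} (hi : ∀ (h : H) (x y : X), dist (h • x) (h • y) = dist x y) (g : H) :
    dist o (g⁻¹ • o) = dist o (g • o) := by
  rw [← hi g o (g⁻¹ • o), smul_inv_smul, dist_comm]

theorem gh_mul {o : X} (hi : ∀ (h : H) (x y : X), dist (h • x) (h • y) = dist x y) (g h : H) :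
    dist o ((g * h) • o) ≤ dist o (g • o) + dist o (h • o) := by
  rw [mul_smul]
  calc dist o (g • h • o) ≤ dist o (g • o) + dist (g • o) (g • h • o) := dist_triangle _ _ _
    _ = dist o (g • o) + dist o (h • o) := by rw [hi]

/-- integer powers -/
theorem gh_zpow {o : X} (hi : ∀ (h : H) (x y : X), dist (h • x) (h • y) = dist x y) {g : H}
    (hgn : ∀ n : ℕ, (n : ℝ) ≤ dist o (g ^ n • o)) (m : ℤ) :
    |(m : ℝ)| ≤ dist o (g ^ m • o) := by
  obtain ⟨n, rfl | rfl⟩ := m.eq_nat_or_neg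
  · rw [zpow_natCast, Int.cast_natCast, abs_of_nonneg (Nat.cast_nonneg n)]
    exact hgn n
  · rw [zpow_neg, zpow_natCast, gh_inv hi, Int.cast_neg, Int.cast_natCast, abs_neg,
      abs_of_nonneg (Nat.cast_nonneg n)]
    exact hgn n

/-- a virtually cyclic group that contains an element of linear growth grows linearly -/
theorem gh_linear {o : X} (hi : ∀ (h : H) (x y : X), dist (h • x) (h • y) = dist x y)
    (G : Subgroup H) (g : H) (hgG : g ∈ G) (hgn : ∀ n : ℕ, (n : ℝ) ≤ dist o (g ^ n • o))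
    (K : Subgroup G) (hK : K.index ≠ 0) (hcyc : IsCyclic K) :
    ∃ A : ℕ, ∀ (ρ : ℕ) (T : Finset H), (∀ s ∈ T, s ∈ G ∧ dist o (s • o) ≤ ρ) →
      T.card ≤ A * (ρ + 1) := by
  classical
  obtain ⟨q, hq0, -, hq⟩ := Subgroup.exists_pow_mem_of_index_ne_zero hK (⟨g, hgG⟩ : G)
  obtain ⟨t, ht⟩ := IsCyclic.exists_generator (α := K)
  obtain ⟨p, hp⟩ := Subgroup.mem_zpowers_iff.1 (ht ⟨_, hq⟩)
  let τ : H := ((t : G) : H)
  have hpow : ∀ j : ℤ, (((t ^ j : K) : G) : H) = τ ^ j := fun j => by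
    simp [τ]
  have hτp : τ ^ p = g ^ q := by
    rw [← hpow, hp]
    simp
  have hp0 : p ≠ 0 := by
    rintro rfl
    have h1 := hgn q
    rw [← hτp, zpow_zero, one_smul, dist_self] at h1
    have h2 : (0 : ℝ) < q := by exact_mod_cast hq0
    linarith
  have hfi : K.FiniteIndex := ⟨hK⟩
  have hfin : Finite (G ⧸ K) := inferInstance
  let _ : Fintype (G ⧸ K) := Fintype.ofFinite _
  let out : G ⧸ K → H := fun x => ((Quotient.out x : G) : H)
  let D : ℝ := ∑ r ∈ Finset.range p.natAbs, dist o (τ ^ r • o)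
  let E : ℝ := ∑ x : G ⧸ K, dist o (out x • o)
  let D' : ℕ := ⌈D + E⌉₊
  have hD : ∀ r : ℕ, r < p.natAbs → dist o (τ ^ r • o) ≤ D := fun r hr =>
    Finset.single_le_sum (f := fun r : ℕ => dist o (τ ^ r • o)) (fun _ _ => dist_nonneg)
      (Finset.mem_range.2 hr)
  have hE : ∀ x : G ⧸ K, dist o (out x • o) ≤ E := fun x =>
    Finset.single_le_sum (f := fun x : G ⧸ K => dist o (out x • o)) (fun _ _ => dist_nonneg)
      (Finset.mem_univ x)
  refine ⟨Fintype.card (G ⧸ K) * (p.natAbs * (2 * D' + 2)), fun ρ T hT => ?_⟩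
  let M : ℤ := ((ρ + D' : ℕ) : ℤ)
  let F : (G ⧸ K) × ℕ × ℤ → H := fun x => out x.1 * τ ^ (p * x.2.2 + x.2.1)
  have hsub : T ⊆ (Finset.univ ×ˢ Finset.range p.natAbs ×ˢ Finset.Icc (-M) M).image F := by
    intro s hs
    obtain ⟨hsG, hsρ⟩ := hT s hs
    let x : G ⧸ K := QuotientGroup.mk (⟨s, hsG⟩ : G)
    have hx : (Quotient.out x)⁻¹ * (⟨s, hsG⟩ : G) ∈ K := by
      rw [← QuotientGroup.eq]
      exact Quotient.out_eq x
    obtain ⟨j, hj⟩ := Subgroup.mem_zpowers_iff.1 (ht ⟨_, hx⟩)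
    have hsj : s = out x * τ ^ j := by
      rw [← hpow, hj]
      simp [out]
    have hmod0 := Int.emod_nonneg j hp0
    have hmod1 := Int.emod_lt_abs j hp0
    rw [Int.abs_eq_natAbs] at hmod1
    have hdiv := Int.mul_ediv_add_emod j p
    have hr : (j % p).toNat < p.natAbs := by omega
    have hrc : (((j % p).toNat : ℕ) : ℤ) = j % p := Int.toNat_of_nonneg hmod0
    have hjm : j = p * (j / p) + (((j % p).toNat : ℕ) : ℤ) := by rw [hrc]; exact hdiv.symm
    have hτj : τ ^ j = g ^ ((q : ℤ) * (j / p)) * τ ^ ((j % p).toNat) := by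
      conv_lhs => rw [hjm]
      rw [zpow_add, zpow_natCast, zpow_mul, hτp, zpow_mul, zpow_natCast]
    have hn1 : dist o (τ ^ j • o) ≤ ρ + E := by
      have : τ ^ j = (out x)⁻¹ * s := by rw [hsj, inv_mul_cancel_left]
      rw [this]
      have h1 := gh_mul hi (o := o) (out x)⁻¹ s
      rw [gh_inv hi] at h1
      have h2 := hE x
      linarith
    have hn2 : dist o (g ^ ((q : ℤ) * (j / p)) • o) ≤ ρ + E + D := by
      have : g ^ ((q : ℤ) * (j / p)) = τ ^ j * (τ ^ ((j % p).toNat))⁻¹ := by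
        rw [hτj, mul_inv_cancel_right]
      rw [this]
      have h1 := gh_mul hi (o := o) (τ ^ j) (τ ^ ((j % p).toNat))⁻¹
      rw [gh_inv hi] at h1
      have h2 := hD _ hr
      linarith
    have hn3 := gh_zpow hi hgn ((q : ℤ) * (j / p))
    have hn4 : |((j / p : ℤ) : ℝ)| ≤ |(((q : ℤ) * (j / p) : ℤ) : ℝ)| := by
      rw [Int.cast_mul, abs_mul, Int.cast_natCast, Nat.abs_cast]
      have : (1 : ℝ) ≤ q := by exact_mod_cast hq0
      nlinarith [abs_nonneg ((j / p : ℤ) : ℝ)]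
    have hn5 : |((j / p : ℤ) : ℝ)| ≤ ρ + D' := by
      have := Nat.le_ceil (D + E)
      linarith
    have hn6 : |j / p| ≤ M := by
      have : ((|j / p| : ℤ) : ℝ) ≤ ((M : ℤ) : ℝ) := by
        simp only [M]
        push_cast
        exact hn5
      exact_mod_cast this
    refine Finset.mem_image.2 ⟨(x, (j % p).toNat, j / p), ?_, ?_⟩
    · simp only [Finset.mem_product, Finset.mem_univ, Finset.mem_range, Finset.mem_Icc, true_and]
      exact ⟨hr, (abs_le.1 hn6).1, (abs_le.1 hn6).2⟩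
    · show out x * τ ^ (p * (j / p) + (((j % p).toNat : ℕ) : ℤ)) = s
      rw [← hjm, ← hsj]
  have hcard := (Finset.card_le_card hsub).trans Finset.card_image_le
  rw [Finset.card_product, Finset.card_product, Finset.card_range, Int.card_Icc,
    Finset.card_univ] at hcard
  have hM : (M + 1 - -M).toNat = 2 * (ρ + D') + 1 := by
    simp only [M]
    omega
  rw [hM] at hcard
  calc T.card ≤ Fintype.card (G ⧸ K) * (p.natAbs * (2 * (ρ + D') + 1)) := hcard
    _ ≤ Fintype.card (G ⧸ K) * (p.natAbs * ((2 * D' + 2) * (ρ + 1))) := by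
        refine Nat.mul_le_mul_left _ (Nat.mul_le_mul_left _ ?_)
        nlinarith [Nat.zero_le (D' * ρ)]
    _ = Fintype.card (G ⧸ K) * (p.natAbs * (2 * D' + 2)) * (ρ + 1) := by ring

/-- an exponential beats a linear function -/
theorem gh_exp {b κ : ℝ} (hb : 0 < b) (hκ : 0 < κ) (A C : ℝ) (hA : 0 ≤ A) (hC : 0 ≤ C) (N₀ : ℕ) :
    ∃ R : ℕ, N₀ ≤ R ∧ A * (2 * R + C) < b * Real.exp (κ * R) := by
  obtain ⟨n, hn⟩ := exists_nat_gt (2 * (A * (2 + C)) / (b * κ ^ 2))
  refine ⟨max N₀ (n + 1), le_max_left _ _, ?_⟩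
  set R := max N₀ (n + 1) with hR
  have hR1 : (1 : ℝ) ≤ R := by
    have : 1 ≤ R := le_trans (Nat.le_add_left 1 n) (le_max_right _ _)
    exact_mod_cast this
  have hRn : (n : ℝ) ≤ R := by
    have : n ≤ R := le_trans (Nat.le_succ n) (le_max_right _ _)
    exact_mod_cast this
  have hpos : 0 < b * κ ^ 2 := by positivity
  have h1 : 2 * (A * (2 + C)) < b * κ ^ 2 * R := by
    have := (div_lt_iff₀ hpos).1 hn
    nlinarith
  have h2 := Real.quadratic_le_exp_of_nonneg (x := κ * R) (by positivity)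
  have h3 : A * (2 * R + C) ≤ A * (2 + C) * R := by
    have : A * C ≤ A * C * R := by
      have := mul_le_mul_of_nonneg_left hR1 (mul_nonneg hA hC)
      linarith
    nlinarith
  have h4 : A * (2 + C) * R < b * ((κ * R) ^ 2 / 2) := by
    have : A * (2 + C) < b * κ ^ 2 * R / 2 := by linarith
    have hRp : (0 : ℝ) < R := by linarith
    calc A * (2 + C) * R < b * κ ^ 2 * R / 2 * R := by exact mul_lt_mul_of_pos_right this hRp
      _ = b * ((κ * R) ^ 2 / 2) := by ring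
  have h5 : b * ((κ * R) ^ 2 / 2) ≤ b * Real.exp (κ * R) := by
    refine mul_le_mul_of_nonneg_left ?_ hb.le
    have : 0 ≤ κ * R := by positivity
    linarith
  linarith

/-- exponential growth of the fibres excludes a virtually cyclic stabiliser -/
theorem not_vc' [MulAction H Z] {o : X} {c : ℝ}
    (hi : ∀ (h : H) (x y : X), dist (h • x) (h • y) = dist x y)
    (L : ℕ → Finset H) (hL : ∀ R, ∀ w ∈ L R, dist o (w • o) ≤ R + c) (z : Z) (g : H)
    (hgz : g • z = z) (hgn : ∀ n : ℕ, (n : ℝ) ≤ dist o (g ^ n • o)) (b κ : ℝ) (hb : 0 < b)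
    (hκ : 0 < κ) (hgr : ∀ᶠ R : ℕ in atTop, ∃ z' : Z,
      b * Real.exp (κ * R) ≤ ({w : H | w ∈ L R ∧ w⁻¹ • z = z'}.ncard : ℝ)) :
    NotVirtuallyCyclic (MulAction.stabilizer H z) := by
  classical
  intro K hK hcyc
  obtain ⟨A, hA⟩ := gh_linear (o := o) hi (MulAction.stabilizer H z) g
    (MulAction.mem_stabilizer_iff.2 hgz) hgn K hK hcyc
  obtain ⟨N₀, hN⟩ := eventually_atTop.1 hgr
  obtain ⟨R, hR, hlt⟩ := gh_exp hb hκ (A : ℝ) ((⌈2 * c⌉₊ : ℝ) + 1) (Nat.cast_nonneg _)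
    (by positivity) N₀
  obtain ⟨z', hz'⟩ := hN R hR
  have hfin : {w : H | w ∈ L R ∧ w⁻¹ • z = z'}.Finite :=
    (L R).finite_toSet.subset fun w hw => hw.1
  have hne : {w : H | w ∈ L R ∧ w⁻¹ • z = z'}.Nonempty := by
    by_contra h
    rw [Set.not_nonempty_iff_eq_empty] at h
    rw [h, Set.ncard_empty, Nat.cast_zero] at hz'
    have := mul_pos hb (Real.exp_pos (κ * R))
    linarith
  obtain ⟨w₀, hw₀L, hw₀⟩ := hne
  have hcard := hA (2 * R + ⌈2 * c⌉₊) (hfin.toFinset.image fun w => w * w₀⁻¹) (by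
    intro s hs
    obtain ⟨w, hw, rfl⟩ := Finset.mem_image.1 hs
    rw [Set.Finite.mem_toFinset] at hw
    obtain ⟨hwL, hwz⟩ := hw
    constructor
    · rw [MulAction.mem_stabilizer_iff, mul_smul, hw₀, ← hwz, smul_inv_smul]
    · have h1 := gh_mul hi (o := o) w w₀⁻¹
      rw [gh_inv hi] at h1
      have h2 := hL R w hwL
      have h3 := hL R w₀ hw₀L
      have h4 := Nat.le_ceil (2 * c)
      push_cast
      linarith)
  rw [Finset.card_image_of_injective _ (mul_left_injective w₀⁻¹),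
    ← Set.ncard_eq_toFinset_card _ hfin] at hcard
  have hcast : (({w : H | w ∈ L R ∧ w⁻¹ • z = z'}.ncard : ℕ) : ℝ) ≤
      A * (2 * R + ((⌈2 * c⌉₊ : ℝ) + 1)) := by
    have : (({w : H | w ∈ L R ∧ w⁻¹ • z = z'}.ncard : ℕ) : ℝ) ≤
        ((A * (2 * R + ⌈2 * c⌉₊ + 1) : ℕ) : ℝ) := by exact_mod_cast hcard
    refine this.trans (le_of_eq ?_)
    push_cast
    ring
  linarith

theorem not_vc [TopologicalSpace Z] [MulAction H Z] {o : X} {δ c : ℝ} (hg : Geo H X o δ c)
    {i : Boundary X → Z} {S : LineSys H Z} (hS : IsSys o c i S) (z : Z) (g : H)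
    (hgz : g • z = z) (hgn : ∀ n : ℕ, (n : ℝ) ≤ dist o (g ^ n • o)) (b κ : ℝ) (hb : 0 < b)
    (hκ : 0 < κ) (hgr : ∀ᶠ R : ℕ in atTop, ∃ z' : Z,
      b * Real.exp (κ * R) ≤ ({w : H | w ∈ S.L R ∧ w⁻¹ • z = z'}.ncard : ℝ)) :
    NotVirtuallyCyclic (MulAction.stabilizer H z) := by
  refine not_vc' (o := o) (c := c) hg.isom (fun R => S.L R) ?_ z g hgz hgn b κ hb hκ hgr
  intro R w hw
  obtain ⟨l, rfl⟩ := S.mem_L.1 hw
  have h := ((hS.mem l.1).1 l.2.1).1 0 R
  rw [l.2.2, one_smul, Int.cast_zero, Int.cast_natCast, zero_sub, abs_neg, Nat.abs_cast] at h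
  have := (abs_le.1 h).2
  linarith

end GH

end Pool.Agent.CTZ
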