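import Pool.Agent.CTZ.GDefs

/-!
# The dimension bound

A set of boundary points whose rays follow a finite language of small growth has small
Hausdorff dimension.
-/

open Filter Topology Set MeasureTheory Pool.Agent.Helper68.CT
open scoped NNReal ENNReal

namespace Pool.Agent.CTZ

namespace GJaux

/-- products along a ray -/
theorem ray_gp_aux {H X : Type} [Group H] [MetricSpace X] [MulAction H X] {o : X} {c : ℝ}
    {r : ℕ → H} (hr : IsRay o c r) (m n : ℕ) :
    min (m : ℝ) n - 3 * c / 2 ≤ gromovProduct o (r m • o) (r n • o) := by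
  have h0 : r 0 • o = o := by rw [hr.1, one_smul]
  have h1 := abs_le.1 (hr.2 0 m)
  have h2 := abs_le.1 (hr.2 0 n)
  have h3 := abs_le.1 (hr.2 m n)
  rw [h0] at h1 h2
  simp only [Nat.cast_zero, zero_sub, abs_neg, Nat.abs_cast] at h1 h2
  unfold gromovProduct
  rcases le_total (m : ℝ) n with h | h
  · rw [min_eq_left h]
    rw [abs_of_nonpos (sub_nonpos.2 h)] at h3
    linarith [h1.1, h2.1, h3.2]
  · rw [min_eq_right h]
    rw [abs_of_nonneg (sub_nonneg.2 h)] at h3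
    linarith [h1.1, h2.1, h3.2]

/-- the general covering bound -/
theorem dimH_le_of_covers {Y : Type} [MetricSpace Y] (E : Set Y) (s : ℝ≥0) (b q D ρ : ℝ)
    (hb : 0 ≤ b) (hq : 0 ≤ q) (hD : 0 ≤ D) (hρ0 : 0 < ρ) (hρ1 : ρ < 1) (hqρ : q * ρ ^ (s : ℝ) < 1)
    (ι : Type) (W : ℕ → Finset ι) (hW : ∀ k, ((W k).card : ℝ) ≤ b * q ^ k) (U : ℕ → ι → Set Y)
    (hU : ∀ k, ∀ v ∈ W k, ∀ x ∈ U k v, ∀ y ∈ U k v, dist x y ≤ D * ρ ^ k)
    (hE : ∀ k, E ⊆ ⋃ v ∈ W k, U k v) : dimH E ≤ s := by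
  borelize Y
  apply dimH_le_of_hausdorffMeasure_ne_top
  have hlim : Tendsto (fun k : ℕ => D * ρ ^ k) atTop (𝓝 0) := by
    simpa using (tendsto_pow_atTop_nhds_zero_of_lt_one hρ0.le hρ1).const_mul D
  have hlim' : Tendsto (fun k : ℕ => ENNReal.ofReal (D * ρ ^ k)) atTop (𝓝 0) := by
    have h := (ENNReal.continuous_ofReal.tendsto 0).comp hlim
    rw [ENNReal.ofReal_zero] at h
    exact h
  have hdiam : ∀ k, ∀ v : W k, Metric.ediam (U k v.1) ≤ ENNReal.ofReal (D * ρ ^ k) := by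
    intro k v
    apply Metric.ediam_le
    intro x hx y hy
    rw [edist_dist]
    exact ENNReal.ofReal_le_ofReal (hU k v.1 v.2 x hx y hy)
  have hmain := Measure.hausdorffMeasure_le_liminf_sum (β := ℕ) (ι := fun k => W k) (s : ℝ) E
    (l := atTop) (fun k => ENNReal.ofReal (D * ρ ^ k)) hlim' (fun k v => U k v.1)
    (Eventually.of_forall fun k v => hdiam k v)
    (Eventually.of_forall fun k => by
      refine (hE k).trans ?_
      intro x hx
      rw [mem_iUnion₂] at hx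
      obtain ⟨v, hv, hx⟩ := hx
      exact mem_iUnion.2 ⟨⟨v, hv⟩, hx⟩)
  refine ne_top_of_le_ne_top ?_ hmain
  have hbound : ∀ k : ℕ, ∑ v : W k, Metric.ediam (U k v.1) ^ (s : ℝ) ≤
      ENNReal.ofReal (b * D ^ (s : ℝ)) := by
    intro k
    calc ∑ v : W k, Metric.ediam (U k v.1) ^ (s : ℝ)
        ≤ ∑ _v : W k, (ENNReal.ofReal (D * ρ ^ k)) ^ (s : ℝ) :=
          Finset.sum_le_sum fun v _ => ENNReal.rpow_le_rpow (hdiam k v) s.coe_nonneg
      _ = ((W k).card : ℝ≥0∞) * (ENNReal.ofReal (D * ρ ^ k)) ^ (s : ℝ) := by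
          rw [Finset.sum_const, nsmul_eq_mul]
          simp
      _ = ENNReal.ofReal (((W k).card : ℝ) * (D * ρ ^ k) ^ (s : ℝ)) := by
          rw [ENNReal.ofReal_mul (Nat.cast_nonneg _), ENNReal.ofReal_natCast,
            ENNReal.ofReal_rpow_of_nonneg (by positivity) s.coe_nonneg]
      _ ≤ ENNReal.ofReal (b * D ^ (s : ℝ)) := by
          apply ENNReal.ofReal_le_ofReal
          rw [Real.mul_rpow hD (by positivity)]
          have e1 : (ρ ^ k) ^ (s : ℝ) = (ρ ^ (s : ℝ)) ^ k := by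
            rw [← Real.rpow_natCast, ← Real.rpow_natCast, ← Real.rpow_mul hρ0.le,
              ← Real.rpow_mul hρ0.le, mul_comm]
          rw [e1]
          have hDs : 0 ≤ D ^ (s : ℝ) := Real.rpow_nonneg hD _
          have hρs : 0 ≤ ρ ^ (s : ℝ) := Real.rpow_nonneg hρ0.le _
          calc ((W k).card : ℝ) * (D ^ (s : ℝ) * (ρ ^ (s : ℝ)) ^ k)
              ≤ (b * q ^ k) * (D ^ (s : ℝ) * (ρ ^ (s : ℝ)) ^ k) :=
                mul_le_mul_of_nonneg_right (hW k) (by positivity)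
            _ = b * D ^ (s : ℝ) * (q * ρ ^ (s : ℝ)) ^ k := by rw [mul_pow]; ring
            _ ≤ b * D ^ (s : ℝ) * 1 := by
                apply mul_le_mul_of_nonneg_left _ (by positivity)
                exact pow_le_one₀ (by positivity) hqρ.le
            _ = b * D ^ (s : ℝ) := mul_one _
  refine ne_top_of_le_ne_top ENNReal.ofReal_ne_top
    (liminf_le_of_frequently_le' (Frequently.of_forall hbound))

end GJaux

open GJaux

theorem dim_le {H X : Type} [Group H] [MetricSpace X] [MulAction H X] {o : X} {δ c : ℝ}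
    (hg : Geo H X o δ c) {C a : ℝ}
    {d : MetricSpace (Boundary X)} (hv : Vis o C a d) (E : Set (Boundary X)) (A : Finset H) (R : ℕ)
    (hR : 0 < R) (s : NNReal)
    (hA : (A.card : ℝ) < a ^ ((s : ℝ) * R))
    (hE : ∀ ξ ∈ E, ∃ r : ℕ → H, IsRay o c r ∧ EndsAt (fun n => r n • o) ξ ∧
      ∀ᶠ n : ℕ in atTop, (r n)⁻¹ * r (n + R) ∈ A) : dimWith d E ≤ s := by
  classical
  obtain ⟨hC, ha, hvis⟩ := hv
  have ha0 : 0 < a := by linarith
  unfold dimWith
  let _ := d
  -- the pieces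
  let P : ℕ → Set (Boundary X) := fun n0 => {ξ | ∃ r : ℕ → H, IsRay o c r ∧
    EndsAt (fun n => r n • o) ξ ∧ ∀ n, n0 ≤ n → (r n)⁻¹ * r (n + R) ∈ A}
  have hEP : E ⊆ ⋃ n0, P n0 := by
    intro ξ hξ
    obtain ⟨r, h1, h2, h3⟩ := hE ξ hξ
    obtain ⟨n0, hn0⟩ := eventually_atTop.1 h3
    exact mem_iUnion.2 ⟨n0, r, h1, h2, fun n hn => hn0 n hn⟩
  refine (dimH_mono hEP).trans ?_
  rw [dimH_iUnion]
  refine iSup_le fun n0 => ?_
  -- the ball
  let B : Finset H := (hg.fin ((n0 : ℝ) + c)).toFinset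
  let W : ℕ → Finset H := fun k => Nat.rec B (fun _ S => (S ×ˢ A).image (fun p => p.1 * p.2)) k
  have hWs : ∀ k, W (k + 1) = (W k ×ˢ A).image (fun p => p.1 * p.2) := fun k => rfl
  have hWcard : ∀ k, ((W k).card : ℝ) ≤ B.card * (A.card : ℝ) ^ k := by
    intro k
    induction k with
    | zero => simp [W]
    | succ k ih =>
      rw [hWs]
      have h1 : (((W k ×ˢ A).image (fun p => p.1 * p.2)).card : ℝ) ≤ (W k).card * A.card := by
        have := Finset.card_image_le (s := W k ×ˢ A) (f := fun p => p.1 * p.2)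
        rw [Finset.card_product] at this
        exact_mod_cast this
      calc _ ≤ ((W k).card : ℝ) * A.card := h1
        _ ≤ (B.card * (A.card : ℝ) ^ k) * A.card :=
            mul_le_mul_of_nonneg_right ih (Nat.cast_nonneg _)
        _ = B.card * (A.card : ℝ) ^ (k + 1) := by rw [pow_succ]; ring
  have hmem : ∀ r : ℕ → H, IsRay o c r → (∀ n, n0 ≤ n → (r n)⁻¹ * r (n + R) ∈ A) →
      ∀ k, r (n0 + k * R) ∈ W k := by
    intro r hr hrA k
    induction k with
    | zero =>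
      simp only [zero_mul, add_zero]
      change r n0 ∈ B
      simp only [B, Set.Finite.mem_toFinset, Set.mem_ofPred_eq]
      have h0 : r 0 • o = o := by rw [hr.1, one_smul]
      have h1 := abs_le.1 (hr.2 0 n0)
      rw [h0] at h1
      simp only [Nat.cast_zero, zero_sub, abs_neg, Nat.abs_cast] at h1
      linarith [h1.2]
    | succ k ih =>
      rw [hWs, Finset.mem_image]
      refine ⟨(r (n0 + k * R), (r (n0 + k * R))⁻¹ * r (n0 + k * R + R)), ?_, ?_⟩
      · rw [Finset.mem_product]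
        exact ⟨ih, hrA _ (Nat.le_add_right _ _)⟩
      · simp only [mul_inv_cancel_left]
        congr 1
        ring
  have hρ0 : 0 < a ^ (-(R : ℝ)) := Real.rpow_pos_of_pos ha0 _
  have hρ1 : a ^ (-(R : ℝ)) < 1 := by
    apply Real.rpow_lt_one_of_one_lt_of_neg ha
    have : (0 : ℝ) < R := by exact_mod_cast hR
    linarith
  refine dimH_le_of_covers (P n0) s B.card A.card (C * a ^ (3 * c / 2 + δ)) (a ^ (-(R : ℝ)))
    (Nat.cast_nonneg _) (Nat.cast_nonneg _) (by positivity) hρ0 hρ1 ?_ H W hWcard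
    (fun k v => {ξ | ∃ r : ℕ → H, IsRay o c r ∧ EndsAt (fun n => r n • o) ξ ∧
      r (n0 + k * R) = v}) ?_ ?_
  · rw [← Real.rpow_mul ha0.le]
    have e : -(R : ℝ) * s = -((s : ℝ) * R) := by ring
    rw [e, Real.rpow_neg ha0.le]
    have hp : 0 < a ^ ((s : ℝ) * R) := Real.rpow_pos_of_pos ha0 _
    rw [← div_eq_mul_inv, div_lt_one hp]
    exact hA
  · rintro k v - ξ ⟨r, hr, hrξ, hrv⟩ ζ ⟨r', hr', hrζ, hrv'⟩
    have key : ∀ᶠ ij : ℕ × ℕ in atTop, ((k : ℝ) * R - (3 * c / 2 + δ)) ≤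
        gromovProduct o (r ij.1 • o) (r' ij.2 • o) := by
      rw [eventually_atTop]
      refine ⟨(n0 + k * R, n0 + k * R), fun ij hij => ?_⟩
      have h1 : n0 + k * R ≤ ij.1 := hij.1
      have h2 : n0 + k * R ≤ ij.2 := hij.2
      have g1 := ray_gp_aux hr ij.1 (n0 + k * R)
      have g2 := ray_gp_aux hr' (n0 + k * R) ij.2
      rw [hrv] at g1
      rw [hrv'] at g2
      have h1' : ((n0 + k * R : ℕ) : ℝ) ≤ ij.1 := by exact_mod_cast h1
      have h2' : ((n0 + k * R : ℕ) : ℝ) ≤ ij.2 := by exact_mod_cast h2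
      rw [min_eq_right h1'] at g1
      rw [min_eq_left h2'] at g2
      have g3 := hg.hyp o (r ij.1 • o) (v • o) (r' ij.2 • o)
      have g4 : ((n0 + k * R : ℕ) : ℝ) - 3 * c / 2 ≤ min (gromovProduct o (r ij.1 • o) (v • o))
          (gromovProduct o (v • o) (r' ij.2 • o)) := le_min g1 g2
      have g5 : ((n0 + k * R : ℕ) : ℝ) = n0 + k * R := by push_cast; ring
      have g6 : (0 : ℝ) ≤ n0 := Nat.cast_nonneg _
      rw [g5] at g4
      linarith
    have h := hvis _ _ ξ ζ _ hrξ hrζ key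
    refine h.trans (le_of_eq ?_)
    rw [neg_sub, sub_eq_add_neg, Real.rpow_add ha0, ← Real.rpow_natCast, ← Real.rpow_mul ha0.le]
    have e : -(R : ℝ) * k = -((k : ℝ) * R) := by ring
    rw [e]
    ring
  · intro k ξ hξ
    obtain ⟨r, h1, h2, h3⟩ := hξ
    exact mem_iUnion₂.2 ⟨r (n0 + k * R), hmem r h1 h3 k, r, h1, h2, rfl⟩

end Pool.Agent.CTZ
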