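import Pool.Agent.CTZ.Atoms
import Pool.Agent.CTZ.GB
import Pool.Agent.CTZ.GC
import Pool.Agent.CTZ.GE
import Pool.Agent.CTZ.GF
import Pool.Agent.CTZ.GG
import Pool.Agent.CTZ.GH
import Pool.Agent.CTZ.GI
import Pool.Agent.CTZ.GJ

open Filter Topology Set MeasureTheory Pool.Agent.Helper68.CT

namespace Pool.Agent.CTZ

variable {H X Z : Type} [Group H] [MetricSpace X] [MulAction H X]

theorem countable_of_geo {o : X} {δ c : ℝ} (hg : Geo H X o δ c) : Countable H := by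
  have h : (univ : Set H) = ⋃ n : ℕ, {h : H | dist o (h • o) ≤ n} := by
    ext h
    simp only [mem_univ, mem_iUnion, mem_ofPred_eq, true_iff]
    exact exists_nat_ge _
  have h2 : (univ : Set H).Countable := by
    rw [h]
    exact countable_iUnion fun n => (hg.fin n).countable
  exact countable_univ_iff.1 h2

/-- The main theorem in terms of `Geo`, `Vis`, `CTMap`. -/
theorem main [TopologicalSpace Z] [CompactSpace Z] [TopologicalSpace.MetrizableSpace Z]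
    [MulAction H Z] {o : X} {δ c : ℝ} (hg : Geo H X o δ c) {C a : ℝ}
    {d : MetricSpace (Boundary X)} (hv : Vis o C a d) {i : Boundary X → Z}
    (hi : CTMap (H := H) o i) (hc : ContinuousWith d i) (hconv : ConvergenceAction H Z)
    (hdim : 0 < dimWith d (i ⁻¹' nonConical H Z)) :
    ∃ z : Z, NotVirtuallyCyclic (MulAction.stabilizer H z) ∧
      ∃ g : H, g • z = z ∧ (∀ n : ℕ, (n : ℝ) ≤ dist o (g ^ n • o)) ∧
        ∃ p q, EndsAt (fun n => g ^ n • o) p ∧ EndsAt (fun n => (g⁻¹) ^ n • o) q ∧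
          i p = z ∧ i q = z := by
  classical
  have : Countable H := countable_of_geo hg
  let _ : MeasurableSpace Z := borel Z
  have : BorelSpace Z := ⟨rfl⟩
  have : ContinuousConstSMul H Z := ⟨hconv.continuous_smul⟩
  have : Nonempty (Boundary X) := by
    by_contra hne
    rw [not_nonempty_iff] at hne
    have : (i ⁻¹' nonConical H Z) = ∅ := Set.eq_empty_of_isEmpty _
    rw [this] at hdim
    unfold dimWith at hdim
    simp at hdim
  have : Nonempty Z := ⟨i (Classical.arbitrary _)⟩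
  obtain ⟨S, hS⟩ := exists_sys hg hv hi hc
  -- the growth
  rcases S.growth_dichotomy with hsmall | ⟨h, hgr⟩
  · exfalso
    have ha : 1 < a := hv.2.1
    have hle : ∀ s : NNReal, 0 < s → dimWith d (i ⁻¹' nonConical H Z) ≤ s := by
      intro s hs
      obtain ⟨R, hR, hN⟩ := hsmall ((s : ℝ) * Real.log a)
        (mul_pos (by exact_mod_cast hs) (Real.log_pos ha))
      have hN' : ((S.L (R : ℤ)).card : ℝ) < a ^ ((s : ℝ) * R) := by
        have : a ^ ((s : ℝ) * R) = Real.exp ((s : ℝ) * Real.log a * R) := by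
          rw [Real.rpow_def_of_pos (by linarith)]
          ring_nf
        rw [this]; exact hN
      by_cases hconst : ∀ p q, i p = i q
      · refine dim_le hg hv _ (S.L R) R hR s hN' fun ξ hξ => ?_
        obtain ⟨r, hr, hrξ⟩ := hg.rays ξ
        exact ⟨r, hr, hrξ, eventually_lang hg hv hi hc hconv hS hξ (Or.inr hconst) hr hrξ R⟩
      · have hsub : i ⁻¹' nonConical H Z ⊆
            {ξ : Boundary X | ¬ ∃ ζ₁ ζ₂, ζ₁ ≠ ξ ∧ ζ₂ ≠ ξ ∧ i ζ₁ ≠ i ζ₂} ∪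
              {ξ | i ξ ∈ nonConical H Z ∧ ∃ ζ₁ ζ₂, ζ₁ ≠ ξ ∧ ζ₂ ≠ ξ ∧ i ζ₁ ≠ i ζ₂} := by
          intro ξ hξ
          by_cases h : ∃ ζ₁ ζ₂, ζ₁ ≠ ξ ∧ ζ₂ ≠ ξ ∧ i ζ₁ ≠ i ζ₂
          · exact Or.inr ⟨hξ, h⟩
          · exact Or.inl h
        have h1 : dimWith d {ξ : Boundary X | ¬ ∃ ζ₁ ζ₂, ζ₁ ≠ ξ ∧ ζ₂ ≠ ξ ∧ i ζ₁ ≠ i ζ₂} = 0 := by
          unfold dimWith
          exact dimH_finite (special_finite i hconst)
        have h2 : dimWith d {ξ | i ξ ∈ nonConical H Z ∧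
            ∃ ζ₁ ζ₂, ζ₁ ≠ ξ ∧ ζ₂ ≠ ξ ∧ i ζ₁ ≠ i ζ₂} ≤ s := by
          refine dim_le hg hv _ (S.L R) R hR s hN' fun ξ hξ => ?_
          obtain ⟨r, hr, hrξ⟩ := hg.rays ξ
          exact ⟨r, hr, hrξ, eventually_lang hg hv hi hc hconv hS hξ.1 (Or.inl hξ.2) hr hrξ R⟩
        have h3 : dimWith d (i ⁻¹' nonConical H Z) ≤
            dimWith d ({ξ : Boundary X | ¬ ∃ ζ₁ ζ₂, ζ₁ ≠ ξ ∧ ζ₂ ≠ ξ ∧ i ζ₁ ≠ i ζ₂} ∪
              {ξ | i ξ ∈ nonConical H Z ∧ ∃ ζ₁ ζ₂, ζ₁ ≠ ξ ∧ ζ₂ ≠ ξ ∧ i ζ₁ ≠ i ζ₂}) := by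
          unfold dimWith
          exact dimH_mono hsub
        refine h3.trans ?_
        unfold dimWith at h1 h2 ⊢
        rw [dimH_union, h1]
        exact max_le (by simp) h2
    obtain ⟨s, hs0, hs⟩ : ∃ s : NNReal, 0 < s ∧ (s : ENNReal) < dimWith d (i ⁻¹' nonConical H Z) := by
      obtain ⟨s, hs0, hs⟩ := ENNReal.lt_iff_exists_nnreal_btwn.1 hdim
      exact ⟨s, by exact_mod_cast hs0, hs⟩
    exact absurd (hle s hs0) (not_le.2 hs)
  · obtain ⟨Ch, hcount⟩ := half_count hg hS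
    have hh : Halving S (Half o) Ch := ⟨fun R w _ g => half_or hg w g, hcount⟩
    obtain ⟨z, ⟨b, hb, hgrow⟩, l, hl, hrec⟩ := core S hgr hh
    obtain ⟨g, hgz, hgn, p, q, hp, hq, hip, hiq⟩ := exists_lox hg hv hi hc hS z l hl hrec
    exact ⟨z, not_vc hg hS z g hgz hgn b (h / 2) hb (half_pos hgr.1) hgrow,
      g, hgz, hgn, p, q, hp, hq, hip, hiq⟩

end Pool.Agent.CTZ
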