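import Pool.Agent.CTZ.Sys
import Pool.Agent.Helper68.CT.Defs

/-!
# Geometry: rays, lines, ends
-/

open Filter Topology Set Pool.Agent.Helper68.CT

namespace Pool.Agent.CTZ

variable {H X Z : Type} [Group H] [MetricSpace X] [MulAction H X]

/-- the sequence `x` converges to the boundary point `p` -/
def EndsAt (x : ℕ → X) (p : Boundary X) : Prop :=
  ∃ h : ToInfinity x x, Boundary.mk ⟨x, h⟩ = p

/-- a rough geodesic ray in the orbit -/
def IsRay (o : X) (c : ℝ) (r : ℕ → H) : Prop :=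
  r 0 = 1 ∧ ∀ m n : ℕ, abs (dist (r m • o) (r n • o) - |(m : ℝ) - n|) ≤ c

/-- a rough geodesic line in the orbit -/
def IsLine (o : X) (c : ℝ) (l : ℤ → H) : Prop :=
  ∀ m n : ℤ, abs (dist (l m • o) (l n • o) - |(m : ℝ) - n|) ≤ c

/-- what we use of the geometric action -/
structure Geo (H X : Type) [Group H] [MetricSpace X] [MulAction H X] (o : X) (δ c : ℝ) : Prop where
  isom : ∀ (h : H) (x y : X), dist (h • x) (h • y) = dist x y
  δ0 : 0 ≤ δ
  c0 : 0 ≤ c
  hyp : ∀ o x y z : X, min (gromovProduct o x y) (gromovProduct o y z) - δ ≤ gromovProduct o x z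
  fin : ∀ r : ℝ, {h : H | dist o (h • o) ≤ r}.Finite
  rays : ∀ p : Boundary X, ∃ r : ℕ → H, IsRay o c r ∧ EndsAt (fun n => r n • o) p

/-- what we use of the visual metric `d` : upper bounds -/
def Vis (o : X) (C a : ℝ) (d : MetricSpace (Boundary X)) : Prop :=
  0 < C ∧ 1 < a ∧ ∀ (x y : ℕ → X) (p q : Boundary X) (s : ℝ), EndsAt x p → EndsAt y q →
    (∀ᶠ ij : ℕ × ℕ in atTop, s ≤ gromovProduct o (x ij.1) (y ij.2)) → d.dist p q ≤ C * a ^ (-s)

/-- what we use of the map `i` -/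
structure CTMap (o : X) (i : Boundary X → Z) [TopologicalSpace Z] [MulAction H Z] : Prop where
  equiv : ∀ (h : H) (x : ℕ → X) (p q : Boundary X), EndsAt x p → EndsAt (fun n => h • x n) q →
    i q = h • i p

end Pool.Agent.CTZ
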