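import Pool.Agent.CTZ.GDefs

/-!
# A convergence action with three limit points has no global fixed point
-/

open Filter Topology Set Pool.Agent.Helper68.CT

namespace Pool.Agent.CTZ

namespace K0

variable {H Z : Type} [Group H] [TopologicalSpace Z] [MulAction H Z]

theorem tendsto_of {g : ℕ → H} {b c : Z} (h : ConvergesOff g b c) {x : Z} (hx : x ≠ b) :
    Tendsto (fun n => g n • x) atTop (𝓝 c) := fun U hU =>
  (h {x} isCompact_singleton (fun hb => hx (mem_singleton_iff.1 hb).symm) U hU).mono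
    fun _ hn => hn x rfl

theorem comp {g : ℕ → H} {b c : Z} (h : ConvergesOff g b c) {φ : ℕ → ℕ}
    (hφ : Tendsto φ atTop atTop) : ConvergesOff (g ∘ φ) b c := fun K hK hb U hU =>
  hφ.eventually (h K hK hb U hU)

/-- sequences that fix `b` and converge off `b'` to `c ≠ b` have `b' = b` -/
theorem off_eq [T2Space Z] {g : ℕ → H} {b b' c : Z} (hb : ∀ n, g n • b = b)
    (h : ConvergesOff g b' c) (hc : c ≠ b) : b' = b := by
  by_contra hne
  have h1 := tendsto_of h (fun e => hne e.symm : b ≠ b')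
  simp only [hb] at h1
  exact hc (tendsto_nhds_unique h1 tendsto_const_nhds)

theorem exists_attr [CompactSpace Z] [T2Space Z] (hconv : ConvergenceAction H Z) {b : Z}
    (hb : ∀ h : H, h • b = b) {c c' : Z} (hc : c ∈ limitSet H Z) (hcb : c ≠ b) (hc'b : c' ≠ b)
    (hcc' : c ≠ c') {W : Set Z} (hW : W ∈ 𝓝 c) :
    ∃ g : H, ∃ a ∈ W, a ≠ b ∧ g • a = a ∧ ConvergesOff (fun k : ℕ => g ^ k) b a := by
  obtain ⟨g, -, b₁, hg⟩ := hc
  have hb₁ : b₁ = b := off_eq (fun n => hb (g n)) hg hcb
  subst hb₁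
  -- the closed neighbourhood
  have hN : W ∩ {b₁, c'}ᶜ ∈ 𝓝 c := by
    refine inter_mem hW ((isClosed_singleton.union isClosed_singleton).isOpen_compl.mem_nhds ?_)
    rintro (h | h)
    · exact hcb h
    · exact hcc' h
  obtain ⟨V, hV, hVc, hVsub⟩ := exists_mem_nhds_isClosed_subset hN
  have hbV : b₁ ∉ V := fun h => (hVsub h).2 (Or.inl rfl)
  have hc'V : c' ∉ V := fun h => (hVsub h).2 (Or.inr rfl)
  have hcV : c ∈ V := mem_of_mem_nhds hV
  have hK : IsCompact (V ∪ {c'}) := (hVc.union isClosed_singleton).isCompact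
  have hbK : b₁ ∉ V ∪ {c'} := by
    rintro (h | h)
    · exact hbV h
    · exact hc'b h.symm
  obtain ⟨n, hn⟩ := (hg _ hK hbK V hV).exists
  set γ : H := g n with hγ
  have hpow : ∀ k : ℕ, 1 ≤ k → ∀ z ∈ V ∪ {c'}, γ ^ k • z ∈ V := by
    intro k hk
    induction k, hk using Nat.le_induction with
    | base =>
      intro z hz
      rw [pow_one]
      exact hn z hz
    | succ k hk ih =>
      intro z hz
      rw [pow_succ', mul_smul]
      exact hn _ (Or.inl (ih z hz))
  have hne1 : ∀ k : ℕ, 1 ≤ k → γ ^ k ≠ 1 := by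
    intro k hk h1
    have := hpow k hk c' (Or.inr rfl)
    rw [h1, one_smul] at this
    exact hc'V this
  have hinj : Function.Injective (fun k : ℕ => γ ^ k) := by
    intro i j hij
    by_contra hne
    rcases lt_or_gt_of_ne hne with hlt | hlt
    · apply hne1 (j - i) (by omega)
      have h2 : γ ^ j = γ ^ i * γ ^ (j - i) := by rw [← pow_add]; congr 1; omega
      simp only at hij
      rw [h2] at hij
      exact (left_eq_mul.1 hij)
    · apply hne1 (i - j) (by omega)
      have h2 : γ ^ i = γ ^ j * γ ^ (i - j) := by rw [← pow_add]; congr 1; omega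
      simp only at hij
      rw [h2] at hij
      exact (mul_eq_left.1 hij)
  have hcc : γ • c ≠ b₁ := by
    intro h
    apply hcb
    have h1 : γ • c = γ • b₁ := by rw [h, hb]
    exact smul_left_cancel γ h1
  -- subsequential limits
  have hsub : ∀ ψ : ℕ → ℕ, StrictMono ψ → ∃ φ : ℕ → ℕ, StrictMono φ ∧ ∃ a ∈ V, γ • a = a ∧
      ConvergesOff (fun k => γ ^ (ψ (φ k))) b₁ a := by
    intro ψ hψ
    obtain ⟨φ, hφ, b', a, hba⟩ := hconv.convergence (fun k => γ ^ (ψ k))
      (fun i j h => hψ.injective (hinj h))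
    have htop : Tendsto (fun k => ψ (φ k)) atTop atTop := (hψ.comp hφ).tendsto_atTop
    have haV : a ∈ V := by
      have hx : ∃ x ∈ V ∪ {c'}, x ≠ b' := by
        by_cases h : c = b'
        · exact ⟨c', Or.inr rfl, fun h' => hcc' (h.trans h'.symm)⟩
        · exact ⟨c, Or.inl hcV, h⟩
      obtain ⟨x, hxK, hxb⟩ := hx
      have h1 := tendsto_of hba hxb
      refine hVc.mem_of_tendsto h1 ?_
      filter_upwards [htop.eventually (eventually_ge_atTop 1)] with k hk
      exact hpow _ hk x hxK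
    have hab : a ≠ b₁ := fun h => hbV (h ▸ haV)
    have hb' : b' = b₁ := off_eq (fun n => hb _) hba hab
    subst hb'
    refine ⟨φ, hφ, a, haV, ?_, hba⟩
    have h1 := tendsto_of hba hcb
    have h2 := tendsto_of hba hcc
    have h3 : Tendsto (fun k => γ • (((fun k => γ ^ (ψ k)) ∘ φ) k • c)) atTop (𝓝 (γ • a)) :=
      ((hconv.continuous_smul γ).tendsto a).comp h1
    refine tendsto_nhds_unique (h3.congr fun k => ?_) h2
    simp only [Function.comp]
    rw [smul_smul, smul_smul, ← pow_succ', ← pow_succ]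
  obtain ⟨φ₀, hφ₀, a, haV, hga, hlim⟩ := hsub id strictMono_id
  have hab : a ≠ b₁ := fun h => hbV (h ▸ haV)
  refine ⟨γ, a, (hVsub haV).1, hab, hga, ?_⟩
  intro K hK hbK U hU
  by_contra hnot
  rw [not_eventually] at hnot
  obtain ⟨ψ, hψ, hP⟩ := extraction_of_frequently_atTop hnot
  obtain ⟨φ, hφ, a', ha'V, hga', hlim'⟩ := hsub ψ hψ
  have ha' : a' = a := by
    have ha'b : a' ≠ b₁ := fun h => hbV (h ▸ ha'V)
    have h1 := tendsto_of hlim ha'b
    have h2 : ∀ k : ℕ, γ ^ k • a' = a' := by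
      intro k
      induction k with
      | zero => simp
      | succ k ih => rw [pow_succ, mul_smul, hga', ih]
    simp only [h2] at h1
    exact tendsto_nhds_unique tendsto_const_nhds h1
  subst ha'
  obtain ⟨k, hk⟩ := (hlim' K hK hbK U hU).exists
  exact hP (φ k) hk

theorem tendsto_inv [CompactSpace Z] [T2Space Z] {h : ℕ → H} {b a x : Z}
    (hh : ConvergesOff h b a) (hx : x ≠ a) : Tendsto (fun n => (h n)⁻¹ • x) atTop (𝓝 b) := by
  intro W hW
  obtain ⟨W', hW', hWo, hbW⟩ := mem_nhds_iff.1 hW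
  have hK : IsCompact W'ᶜ := hWo.isClosed_compl.isCompact
  have hU : ({x}ᶜ : Set Z) ∈ 𝓝 a := isClosed_singleton.isOpen_compl.mem_nhds (fun h => hx h.symm)
  refine (hh _ hK (fun h => h hbW) _ hU).mono fun n hn => ?_
  show (h n)⁻¹ • x ∈ W
  apply hW'
  by_contra hcon
  exact hn _ hcon (by simp)

end K0

open K0 in
theorem no_global_fixed {H Z : Type} [Group H] [TopologicalSpace Z] [CompactSpace Z]
    [TopologicalSpace.MetrizableSpace Z] [MulAction H Z] (hconv : ConvergenceAction H Z)
    (h3 : 3 ≤ (limitSet H Z).encard) (b : Z) : ∃ h : H, h • b ≠ b := by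
  by_contra hcon
  have hcon : ∀ h : H, h • b = b := fun h => by
    by_contra hne
    exact hcon ⟨h, hne⟩
  -- two limit points different from `b`
  have h2 : 1 < (limitSet H Z \ {b}).encard := by
    have h := Set.encard_le_encard_sdiff_add_encard (limitSet H Z) {b}
    rw [Set.encard_singleton] at h
    by_contra hle
    have hle := not_lt.1 hle
    have h4 : (3 : ℕ∞) ≤ 1 + 1 := h3.trans (h.trans (add_le_add_left hle 1))
    exact absurd h4 (by decide)
  obtain ⟨c₁, c₂, ⟨hc₁, hc₁b⟩, ⟨hc₂, hc₂b⟩, hc⟩ := Set.one_lt_encard_iff.1 h2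
  obtain ⟨W₁, W₂, hW₁, hW₂, hc₁W, hc₂W, hdis⟩ := t2_separation hc
  obtain ⟨g, a, haW, hab, hgfix, hga⟩ :=
    exists_attr hconv hcon hc₁ hc₁b hc₂b hc (hW₁.mem_nhds hc₁W)
  obtain ⟨h, a', ha'W, ha'b, hhfix, hha⟩ := exists_attr hconv hcon hc₂ hc₂b hc₁b hc.symm
    (hW₂.mem_nhds hc₂W)
  have haa' : a ≠ a' := fun e => Set.disjoint_left.1 hdis haW (e ▸ ha'W)
  have hgpow : ∀ k : ℕ, g ^ k • a = a := by
    intro k
    induction k with
    | zero => simp
    | succ k ih => rw [pow_succ, mul_smul, hgfix, ih]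
  have hhpow : ∀ k : ℕ, h ^ k • a' = a' := by
    intro k
    induction k with
    | zero => simp
    | succ k ih => rw [pow_succ, mul_smul, hhfix, ih]
  -- a closed neighbourhood of `b` without `a`
  obtain ⟨U₀, hU₀, hU₀c, hU₀a⟩ := exists_mem_nhds_isClosed_subset
    (isClosed_singleton.isOpen_compl.mem_nhds (fun e => hab e.symm) : ({a}ᶜ : Set Z) ∈ 𝓝 b)
  have haU : a ∉ U₀ := fun e => hU₀a e rfl
  have hy : Tendsto (fun n : ℕ => (h ^ n)⁻¹ • a) atTop (𝓝 b) := tendsto_inv hha haa'
  have hyb : ∀ n : ℕ, (h ^ n)⁻¹ • a ≠ b := by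
    intro n e
    apply hab
    rw [← hcon (h ^ n), ← e, smul_inv_smul]
  have hex : ∀ n : ℕ, ∃ m : ℕ, g ^ m • (h ^ n)⁻¹ • a ∉ U₀ := by
    intro n
    have h1 := tendsto_of hga (hyb n)
    exact (h1.eventually (hU₀c.isOpen_compl.mem_nhds haU)).exists
  classical
  set m : ℕ → ℕ := fun n => Nat.find (hex n) with hm
  have hmtop : Tendsto m atTop atTop := by
    rw [tendsto_atTop]
    intro M
    have h1 : ∀ j : ℕ, ∀ᶠ n in atTop, g ^ j • (h ^ n)⁻¹ • a ∈ U₀ := by
      intro j
      have h2 : Tendsto (fun n : ℕ => g ^ j • (h ^ n)⁻¹ • a) atTop (𝓝 (g ^ j • b)) :=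
        ((hconv.continuous_smul (g ^ j)).tendsto b).comp hy
      rw [hcon] at h2
      exact h2 hU₀
    have h3 : ∀ᶠ n in atTop, ∀ j ∈ Finset.range (M + 1), g ^ j • (h ^ n)⁻¹ • a ∈ U₀ :=
      (Finset.eventually_all _).2 fun j _ => h1 j
    filter_upwards [h3] with n hn
    have h4 : M < m n := by
      rw [hm]
      simp only
      rw [Nat.lt_find_iff]
      intro j hj
      rw [not_not]
      exact hn j (Finset.mem_range.2 (by omega))
    exact h4.le
  -- the fundamental domain
  set K' : Set Z := {z | g⁻¹ • z ∈ U₀} ∩ (interior U₀)ᶜ with hK'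
  have hK'c : IsClosed K' :=
    (hU₀c.preimage (hconv.continuous_smul g⁻¹)).inter isOpen_interior.isClosed_compl
  have hbK : b ∉ K' := fun e => e.2 (mem_interior_iff_mem_nhds.2 hU₀)
  have haK : a ∉ K' := by
    intro e
    have h1 : g⁻¹ • a ∈ U₀ := e.1
    have h2 : g⁻¹ • a = a := by rw [inv_smul_eq_iff, hgfix]
    rw [h2] at h1
    exact haU h1
  have hK'mem : ∀ n, 1 ≤ m n → g ^ (m n) • (h ^ n)⁻¹ • a ∈ K' := by
    intro n hn
    constructor
    · have h1 : g ^ (m n - 1) • (h ^ n)⁻¹ • a ∈ U₀ := by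
        by_contra hne
        have h2 := Nat.find_min (hex n) (m := m n - 1) (by
          have : m n = Nat.find (hex n) := rfl
          omega)
        exact h2 hne
      show g⁻¹ • g ^ (m n) • (h ^ n)⁻¹ • a ∈ U₀
      have h3 : g ^ (m n) = g * g ^ (m n - 1) := by
        rw [← pow_succ']
        congr 1
        omega
      rw [h3, mul_smul, inv_smul_smul]
      exact h1
    · intro h1
      exact Nat.find_spec (hex n) (interior_subset h1)
  -- the sequence
  set f : ℕ → H := fun n => g ^ (m n) * (h ^ n)⁻¹ with hf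
  obtain ⟨ψ, hψ, hmψ⟩ := strictMono_subseq_of_tendsto_atTop hmtop
  by_cases hinj : Function.Injective (f ∘ ψ)
  · obtain ⟨φ, hφ, b'', c, hlim⟩ := hconv.convergence (f ∘ ψ) hinj
    have htop : Tendsto (ψ ∘ φ) atTop atTop := (hψ.comp hφ).tendsto_atTop
    have hmtop' : Tendsto (fun k => m (ψ (φ k))) atTop atTop := hmtop.comp htop
    have F1 : b ≠ b'' → c = b := by
      intro hne
      have h1 := tendsto_of hlim hne
      simp only [hcon] at h1
      exact (tendsto_nhds_unique tendsto_const_nhds h1).symm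
    have F2 : a' ≠ b'' → c = a := by
      intro hne
      have h1 := tendsto_of hlim hne
      have h2 : Tendsto (fun k => g ^ (m (ψ (φ k))) • a') atTop (𝓝 a) :=
        (tendsto_of hga ha'b).comp hmtop'
      refine tendsto_nhds_unique (h1.congr fun k => ?_) h2
      show (g ^ (m (ψ (φ k))) * (h ^ (ψ (φ k)))⁻¹) • a' = _
      have h3 : (h ^ (ψ (φ k)))⁻¹ • a' = a' := by rw [inv_smul_eq_iff, hhpow]
      rw [mul_smul, h3]
    have F3 : a ≠ b'' → c ∈ K' := by
      intro hne
      have h1 := tendsto_of hlim hne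
      refine hK'c.mem_of_tendsto h1 ?_
      filter_upwards [hmtop'.eventually (eventually_ge_atTop 1)] with k hk
      show (g ^ (m (ψ (φ k))) * (h ^ (ψ (φ k)))⁻¹) • a ∈ K'
      rw [mul_smul]
      exact hK'mem _ hk
    by_cases hbb : b = b''
    · subst hbb
      have h1 := F3 hab
      rw [F2 ha'b] at h1
      exact haK h1
    · have hcb := F1 hbb
      by_cases ha'' : a' = b''
      · have h1 := F3 (fun e => haa' (e.trans ha''.symm))
        rw [hcb] at h1
        exact hbK h1
      · exact hab ((F2 ha'').symm.trans hcb)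
  · have key : ∀ i j : ℕ, i < j → f (ψ i) = f (ψ j) → False := by
      intro i j hij he
      have hp : ψ i < ψ j := hψ hij
      have hq : m (ψ i) < m (ψ j) := hmψ hij
      have h1 : h ^ (ψ j - ψ i) = g ^ (m (ψ j) - m (ψ i)) := by
        have e1 : g ^ m (ψ j) = g ^ m (ψ i) * g ^ (m (ψ j) - m (ψ i)) := by
          rw [← pow_add]
          congr 1
          omega
        have e2 : h ^ ψ j = h ^ ψ i * h ^ (ψ j - ψ i) := by
          rw [← pow_add]
          congr 1
          omega
        have e3 : g ^ m (ψ i) * (h ^ ψ i)⁻¹ = g ^ m (ψ j) * (h ^ ψ j)⁻¹ := he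
        rw [e1, mul_assoc] at e3
        have e4 := mul_left_cancel e3
        have e5 : h ^ ψ j = h ^ ψ i * g ^ (m (ψ j) - m (ψ i)) := by
          rw [eq_mul_inv_iff_mul_eq, inv_mul_eq_iff_eq_mul] at e4
          exact e4
        rw [e2] at e5
        exact mul_left_cancel e5
      set p := ψ j - ψ i with hpdef
      set q := m (ψ j) - m (ψ i) with hqdef
      have hp1 : 1 ≤ p := by omega
      have h2 : Tendsto (fun k : ℕ => h ^ (p * k) • a) atTop (𝓝 a') := by
        have h3 := tendsto_of hha hab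
        have h4 : Tendsto (fun k : ℕ => p * k) atTop atTop :=
          tendsto_id.const_mul_atTop' (by omega)
        exact h3.comp h4
      have h5 : ∀ k : ℕ, h ^ (p * k) • a = a := by
        intro k
        rw [pow_mul, h1, ← pow_mul]
        exact hgpow _
      simp only [h5] at h2
      exact haa' (tendsto_nhds_unique tendsto_const_nhds h2)
    simp only [Function.Injective, not_forall] at hinj
    obtain ⟨i, j, he, hij⟩ := hinj
    rcases lt_or_gt_of_ne hij with hlt | hlt
    · exact key i j hlt he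
    · exact key j i hlt he.symm

end Pool.Agent.CTZ
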