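import Pool.Agent.CTZ.CDefs
import Pool.Agent.CTZ.Top

/-!
# CTZ row B: the main inequality (product measures, mass transport)
-/

open Filter Topology Set MeasureTheory
open scoped ENNReal

namespace Pool.Agent.CTZ

/-! ## Mass transport inequality, abstract version -/

namespace MainIneq

section

variable {H Z : Type} [Group H]

/-- the number of `o` with both points in `T o` -/
noncomputable def cnt (T : H → Set Z) (z : Z × Z) : ℝ≥0∞ :=
  ∑' o : H, (T o ×ˢ T o).indicator 1 z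

/-- the proportion of these `o` which satisfy `P` -/
noncomputable def wgt (T : H → Set Z) (P : H → Prop) (z : Z × Z) : ℝ≥0∞ :=
  (∑' o : H, (T o ×ˢ T o).indicator 1 z * ({o | P o} : Set H).indicator 1 o) * (cnt T z)⁻¹

omit [Group H] in
theorem measurable_cnt [Countable H] [MeasurableSpace Z] {T : H → Set Z}
    (hT : ∀ o, MeasurableSet (T o)) : Measurable (cnt T) := by
  unfold cnt
  refine Measurable.tsum fun o => ?_
  exact measurable_one.indicator ((hT o).prod (hT o))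

omit [Group H] in
theorem measurable_wgt [Countable H] [MeasurableSpace Z] {T : H → Set Z}
    (hT : ∀ o, MeasurableSet (T o)) (P : H → Prop) : Measurable (wgt T P) := by
  classical
  unfold wgt
  refine Measurable.mul ?_ (measurable_cnt hT).inv
  refine Measurable.tsum fun o => ?_
  exact (measurable_one.indicator ((hT o).prod (hT o))).mul_const _

omit [Group H] in
theorem cnt_le_wgt_add {T : H → Set Z} {P Q : H → Prop} (h : ∀ o, P o ∨ Q o) (z : Z × Z) :
    cnt T z * (cnt T z)⁻¹ ≤ wgt T P z + wgt T Q z := by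
  classical
  unfold wgt
  rw [← add_mul, ← ENNReal.tsum_add]
  gcongr
  unfold cnt
  refine ENNReal.tsum_le_tsum fun o => ?_
  rw [← mul_add]
  have h1 : (1 : ℝ≥0∞) ≤ ({o | P o} : Set H).indicator 1 o + ({o | Q o} : Set H).indicator 1 o := by
    rcases h o with h | h
    · rw [Set.indicator_of_mem (show o ∈ {o | P o} from h)]; exact le_self_add
    · rw [Set.indicator_of_mem (show o ∈ {o | Q o} from h)]; exact le_add_self
  calc (T o ×ˢ T o).indicator (1 : Z × Z → ℝ≥0∞) z = (T o ×ˢ T o).indicator 1 z * 1 :=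
        (mul_one _).symm
    _ ≤ _ := by gcongr

omit [Group H] in
theorem sum_wgt_le {T : H → Set Z} {L : Finset H} {P : H → H → Prop} {C : ℕ}
    (hC : ∀ o, {w : H | w ∈ L ∧ P w o}.ncard ≤ C) (z : Z × Z) :
    ∑ w ∈ L, wgt T (P w) z ≤ C := by
  classical
  unfold wgt
  rw [← Finset.sum_mul, ← Summable.tsum_finsetSum fun _ _ => ENNReal.summable]
  have h1 : ∀ o : H, ∑ w ∈ L, (T o ×ˢ T o).indicator (1 : Z × Z → ℝ≥0∞) z *
      ({o | P w o} : Set H).indicator 1 o ≤
      (C : ℝ≥0∞) * (T o ×ˢ T o).indicator (1 : Z × Z → ℝ≥0∞) z := by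
    intro o
    rw [← Finset.mul_sum, mul_comm]
    gcongr
    simp only [Set.indicator_apply, Set.mem_ofPred_eq, Pi.one_apply]
    rw [Finset.sum_ite, Finset.sum_const_zero, add_zero, Finset.sum_const, nsmul_eq_mul, mul_one]
    have h2 := hC o
    have h3 : {w : H | w ∈ L ∧ P w o} = ((L.filter fun w => P w o : Finset H) : Set H) := by
      ext w
      simp
    rw [h3, Set.ncard_coe_finset] at h2
    exact_mod_cast h2
  calc (∑' o : H, ∑ w ∈ L, (T o ×ˢ T o).indicator (1 : Z × Z → ℝ≥0∞) z *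
        ({o | P w o} : Set H).indicator 1 o) * (cnt T z)⁻¹
      ≤ (∑' o : H, (C : ℝ≥0∞) * (T o ×ˢ T o).indicator (1 : Z × Z → ℝ≥0∞) z) * (cnt T z)⁻¹ := by
        gcongr with o
        exact h1 o
    _ = C * (cnt T z * (cnt T z)⁻¹) := by
        rw [ENNReal.tsum_mul_left, mul_assoc]
        rfl
    _ ≤ C * 1 := by
        gcongr
        exact ENNReal.mul_inv_le_one _
    _ = C := mul_one _

variable [MulAction H Z]

theorem mem_smul_iff {T : H → Set Z} (hT : ∀ (g v : H) (z : Z), g • z ∈ T (g * v) ↔ z ∈ T v)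
    (g o : H) (z : Z) : g • z ∈ T o ↔ z ∈ T (g⁻¹ * o) := by
  rw [← hT g (g⁻¹ * o) z, mul_inv_cancel_left]

theorem cnt_smul {T : H → Set Z} (hT : ∀ (g v : H) (z : Z), g • z ∈ T (g * v) ↔ z ∈ T v)
    (g : H) (z : Z × Z) : cnt T (g • z.1, g • z.2) = cnt T z := by
  classical
  unfold cnt
  rw [← (Equiv.mulLeft g).tsum_eq]
  refine tsum_congr fun o => ?_
  simp only [Equiv.coe_mulLeft, Set.indicator_apply, Set.mem_prod, hT, Pi.one_apply]

theorem wgt_smul {T : H → Set Z} (hT : ∀ (g v : H) (z : Z), g • z ∈ T (g * v) ↔ z ∈ T v)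
    (P : H → Prop) (g : H) (z : Z × Z) :
    wgt T P (g • z.1, g • z.2) = wgt T (fun o => P (g * o)) z := by
  classical
  unfold wgt
  rw [cnt_smul hT]
  congr 1
  rw [← (Equiv.mulLeft g).tsum_eq]
  refine tsum_congr fun o => ?_
  simp only [Equiv.coe_mulLeft, Set.indicator_apply, Set.mem_prod, hT, Pi.one_apply,
    Set.mem_ofPred_eq]

omit [Group H] [MulAction H Z] in
theorem cnt_ne_top {T : H → Set Z} {z : Z × Z} (h : {o : H | z.1 ∈ T o ∧ z.2 ∈ T o}.Finite) :
    cnt T z ≠ ⊤ := by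
  classical
  unfold cnt
  rw [tsum_eq_sum (s := h.toFinset)]
  · refine (ENNReal.sum_lt_top.2 fun o _ => ?_).ne
    refine lt_of_le_of_lt (Set.indicator_le_self' (fun _ _ => zero_le) z) ?_
    simp
  · intro o ho
    rw [Set.Finite.mem_toFinset] at ho
    rw [Set.indicator_of_notMem]
    exact ho

omit [Group H] [MulAction H Z] in
theorem cnt_ne_zero {T : H → Set Z} {z : Z × Z} (o : H) (h : z.1 ∈ T o ∧ z.2 ∈ T o) :
    cnt T z ≠ 0 := by
  classical
  unfold cnt
  intro h0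
  rw [ENNReal.tsum_eq_zero] at h0
  have := h0 o
  rw [Set.indicator_of_mem (show z ∈ T o ×ˢ T o from h)] at this
  simp at this

end

/-- The mass transport inequality. -/
theorem transport {H Z : Type} [Group H] [Countable H] [MeasurableSpace Z] [MulAction H Z]
    (hdiag : MeasurableSet {z : Z × Z | z.1 = z.2})
    (hsm : ∀ g : H, Measurable fun z : Z => g • z)
    (T : H → Set Z) (hTm : ∀ o, MeasurableSet (T o))
    (hT : ∀ (g v : H) (z : Z), g • z ∈ T (g * v) ↔ z ∈ T v)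
    (hfin : ∀ z₁ z₂ : Z, z₁ ≠ z₂ → {o : H | z₁ ∈ T o ∧ z₂ ∈ T o}.Finite)
    (L : Finset H) (hL : ∀ w ∈ L, w⁻¹ ∈ L) (half : H → H → Prop) (C : ℕ)
    (hor : ∀ w ∈ L, ∀ o, half o w ∨ half (w⁻¹ * o) w⁻¹)
    (hC : ∀ o, {w : H | w ∈ L ∧ half o w}.ncard ≤ C)
    (lam : Measure Z) [IsProbabilityMeasure lam] (hna : ∀ z, lam {z} = 0)
    (κ : H → Measure Z) (h1 : ∀ w ∈ L, κ w ≤ lam)
    (h2 : ∀ w ∈ L, κ w ≤ lam.map (fun z => w • z))
    (h3 : ∀ w ∈ L, ∀ᵐ z ∂(κ w), z ∈ T 1) :
    ∑ w ∈ L, (κ w Set.univ) ^ 2 ≤ 2 * C := by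
  classical
  have hfinite : ∀ w ∈ L, IsFiniteMeasure (κ w) := fun w hw =>
    ⟨lt_of_le_of_lt (h1 w hw Set.univ) (measure_lt_top _ _)⟩
  have hmapfin : ∀ w : H, IsProbabilityMeasure (lam.map (fun z : Z => w • z)) := fun w =>
    Measure.isProbabilityMeasure_map (hsm w).aemeasurable
  -- the pointwise lower bound
  have key : ∀ w ∈ L, (κ w Set.univ) ^ 2 ≤
      ∫⁻ z, wgt T (fun o => half o w) z ∂(lam.prod lam) +
      ∫⁻ z, wgt T (fun o => half o w⁻¹) z ∂(lam.prod lam) := by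
    intro w hw
    have := hfinite w hw
    have := hmapfin w
    have e1 : (κ w Set.univ) ^ 2 = ∫⁻ _, 1 ∂((κ w).prod (κ w)) := by
      rw [lintegral_one, ← Set.univ_prod_univ, Measure.prod_prod, sq]
    have e2 : ∀ᵐ z ∂((κ w).prod (κ w)), (1 : ℝ≥0∞) ≤
        wgt T (fun o => half o w) z + wgt T (fun o => half (w⁻¹ * o) w⁻¹) z := by
      have a1 : ∀ᵐ z ∂((κ w).prod (κ w)), z.1 ∈ T 1 := by
        have := (Measure.quasiMeasurePreserving_fst (μ := κ w) (ν := κ w)).ae (h3 w hw)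
        exact this
      have a2 : ∀ᵐ z ∂((κ w).prod (κ w)), z.2 ∈ T 1 := by
        have := (Measure.quasiMeasurePreserving_snd (μ := κ w) (ν := κ w)).ae (h3 w hw)
        exact this
      have a3 : ∀ᵐ z ∂((κ w).prod (κ w)), z.1 ≠ z.2 := by
        rw [ae_iff]
        have : {z : Z × Z | ¬ z.1 ≠ z.2} = {z : Z × Z | z.1 = z.2} := by
          ext z; simp
        rw [this]
        refine Measure.measure_prod_null_of_ae_null hdiag ?_
        refine Filter.Eventually.of_forall fun z => ?_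
        have e : Prod.mk z ⁻¹' {z : Z × Z | z.1 = z.2} = {z} := by
          ext y; simp [eq_comm]
        change κ w (Prod.mk z ⁻¹' {z : Z × Z | z.1 = z.2}) = 0
        rw [e]
        exact le_antisymm (le_trans (h1 w hw _) (hna z).le) zero_le
      filter_upwards [a1, a2, a3] with z b1 b2 b3
      have hz0 : cnt T z ≠ 0 := cnt_ne_zero 1 ⟨b1, b2⟩
      have hzt : cnt T z ≠ ⊤ := cnt_ne_top (hfin z.1 z.2 b3)
      rw [← ENNReal.mul_inv_cancel hz0 hzt]
      exact cnt_le_wgt_add (hor w hw) z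
    have m1 : Measurable (wgt T (fun o => half o w)) := measurable_wgt hTm _
    have e3 : ∫⁻ z, wgt T (fun o => half o w) z ∂((κ w).prod (κ w)) ≤
        ∫⁻ z, wgt T (fun o => half o w) z ∂(lam.prod lam) :=
      lintegral_mono' (Measure.prod_mono (h1 w hw) (h1 w hw)) le_rfl
    have e4 : ∫⁻ z, wgt T (fun o => half (w⁻¹ * o) w⁻¹) z ∂((κ w).prod (κ w)) ≤
        ∫⁻ z, wgt T (fun o => half o w⁻¹) z ∂(lam.prod lam) := by
      refine le_trans (lintegral_mono' (Measure.prod_mono (h2 w hw) (h2 w hw)) le_rfl) ?_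
      rw [Measure.map_prod_map _ _ (hsm w) (hsm w),
        lintegral_map (measurable_wgt hTm _) ((hsm w).prodMap (hsm w))]
      refine lintegral_mono fun z => le_of_eq ?_
      rw [show Prod.map (fun z : Z => w • z) (fun z : Z => w • z) z = (w • z.1, w • z.2) from rfl,
        wgt_smul hT]
      simp only [inv_mul_cancel_left]
    calc (κ w Set.univ) ^ 2 = ∫⁻ _, 1 ∂((κ w).prod (κ w)) := e1
      _ ≤ ∫⁻ z, (wgt T (fun o => half o w) z + wgt T (fun o => half (w⁻¹ * o) w⁻¹) z)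
            ∂((κ w).prod (κ w)) := lintegral_mono_ae e2
      _ = ∫⁻ z, wgt T (fun o => half o w) z ∂((κ w).prod (κ w)) +
            ∫⁻ z, wgt T (fun o => half (w⁻¹ * o) w⁻¹) z ∂((κ w).prod (κ w)) :=
          lintegral_add_left m1 _
      _ ≤ _ := add_le_add e3 e4
  have bound : ∀ P : H → H → Prop, (∀ o, {w : H | w ∈ L ∧ P w o}.ncard ≤ C) →
      ∑ w ∈ L, ∫⁻ z, wgt T (P w) z ∂(lam.prod lam) ≤ C := by
    intro P hP
    rw [← lintegral_finsetSum _ fun w _ => measurable_wgt hTm _]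
    calc ∫⁻ z, ∑ w ∈ L, wgt T (P w) z ∂(lam.prod lam) ≤ ∫⁻ _, (C : ℝ≥0∞) ∂(lam.prod lam) :=
          lintegral_mono fun z => sum_wgt_le hP z
      _ = C := by rw [lintegral_const, measure_univ, mul_one]
  have b1 : ∑ w ∈ L, ∫⁻ z, wgt T (fun o => half o w) z ∂(lam.prod lam) ≤ C :=
    bound (fun w o => half o w) hC
  have b2 : ∑ w ∈ L, ∫⁻ z, wgt T (fun o => half o w⁻¹) z ∂(lam.prod lam) ≤ C := by
    have e : ∑ w ∈ L, ∫⁻ z, wgt T (fun o => half o w⁻¹) z ∂(lam.prod lam) =
        ∑ w ∈ L, ∫⁻ z, wgt T (fun o => half o w) z ∂(lam.prod lam) := by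
      refine Finset.sum_bij' (fun w _ => w⁻¹) (fun w _ => w⁻¹) hL hL ?_ ?_ ?_
      · intro w _; exact inv_inv w
      · intro w _; exact inv_inv w
      · intro w _; rfl
    rw [e]
    exact b1
  calc ∑ w ∈ L, (κ w Set.univ) ^ 2 ≤ ∑ w ∈ L, (∫⁻ z, wgt T (fun o => half o w) z ∂(lam.prod lam) +
      ∫⁻ z, wgt T (fun o => half o w⁻¹) z ∂(lam.prod lam)) := Finset.sum_le_sum key
    _ = _ := Finset.sum_add_distrib
    _ ≤ C + C := add_le_add b1 b2
    _ = 2 * C := (two_mul _).symm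

end MainIneq

section Borel

variable {H Z : Type} [Group H] [Countable H] [TopologicalSpace Z] [CompactSpace Z]
  [TopologicalSpace.MetrizableSpace Z] [MeasurableSpace Z] [BorelSpace Z] [MulAction H Z]
  (S : LineSys H Z)

namespace MainIneq

/-- the classes of the lines through `v` -/
def TT (v : H) : Set Z := {z | ∃ l ∈ S.lines, l 0 = v ∧ S.cls l = z}

omit [Countable H] [CompactSpace Z] [TopologicalSpace.MetrizableSpace Z] [MeasurableSpace Z]
  [BorelSpace Z] in
theorem mem_TT (v : H) (z : Z) : z ∈ TT S v ↔ v⁻¹ • z ∈ Set.range S.clsOf := by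
  constructor
  · rintro ⟨l, hl, h0, rfl⟩
    refine ⟨⟨lsmul v⁻¹ l, S.smul_mem _ _ hl, ?_⟩, ?_⟩
    · simp [lsmul, h0]
    · exact S.cls_smul _ _ hl
  · rintro ⟨l, hl⟩
    refine ⟨lsmul v l.1, S.smul_mem _ _ l.2.1, ?_, ?_⟩
    · simp [lsmul]
    · rw [S.cls_smul _ _ l.2.1, show S.cls l.1 = v⁻¹ • z from hl, smul_inv_smul]

omit [CompactSpace Z] [TopologicalSpace.MetrizableSpace Z] in
theorem measurable_clsOf : Measurable S.clsOf := S.continuous_clsOf.measurable

omit [CompactSpace Z] in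
theorem measurable_TT [ContinuousConstSMul H Z] (v : H) : MeasurableSet (TT S v) := by
  have h1 : TT S v = (fun z : Z => v⁻¹ • z) ⁻¹' Set.range S.clsOf := by
    ext z
    exact mem_TT S v z
  rw [h1]
  refine (IsClosed.preimage (continuous_const_smul _) ?_).measurableSet
  exact (isCompact_range S.continuous_clsOf).isClosed

omit [Countable H] [CompactSpace Z] [TopologicalSpace.MetrizableSpace Z] [MeasurableSpace Z]
  [BorelSpace Z] in
theorem measurableSet_eval (R : ℤ) (w : H) : MeasurableSet {l : S.L0 | l.1 R = w} :=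
  (S.isClopen_eval R {w}).2.measurableSet

end MainIneq

theorem main_ineq_of_dens [ContinuousConstSMul H Z] {m : Measure S.L0} [IsProbabilityMeasure m]
    {half : H → H → Prop} {C : ℕ} (hh : Halving S half C) {K : ℝ} {R : ℕ} (hK : 0 < K)
    (hna : ∀ z : Z, m {l | S.clsOf l = z} = 0)
    (G : H → Set Z) (hG : ∀ w, MeasurableSet (G w))
    (hG1 : ∀ w ∈ S.L R, ∀ A : Set Z, MeasurableSet A →
        ENNReal.ofReal K * m {l | l.1 R = w ∧ S.clsOf l ∈ G w ∩ A} ≤ m {l | S.clsOf l ∈ A})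
    (hG2 : ∀ w ∈ S.L R, ∀ A : Set Z, MeasurableSet A →
        ENNReal.ofReal K * m {l | l.1 R = w ∧ S.clsOf l ∈ G w ∩ A} ≤ m {l | w • S.clsOf l ∈ A})
    (hG3 : m {l | S.clsOf l ∉ G (l.1 R)} ≤ ENNReal.ofReal (2 * (1 / 4))) :
    K ^ 2 ≤ 8 * S.N R * (C * S.N (R - R / 2)) := by
  classical
  have mc : Measurable S.clsOf := MainIneq.measurable_clsOf S
  have hsm : ∀ g : H, Measurable fun z : Z => g • z := fun g => (continuous_const_smul g).measurable
  let lam : Measure Z := m.map S.clsOf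
  have hlam : IsProbabilityMeasure lam := Measure.isProbabilityMeasure_map mc.aemeasurable
  let E : H → Set S.L0 := fun w => {l | l.1 R = w} ∩ S.clsOf ⁻¹' (G w)
  have hE : ∀ w, MeasurableSet (E w) := fun w =>
    (MainIneq.measurableSet_eval S R w).inter (mc (hG w))
  let κ : H → Measure Z := fun w => ENNReal.ofReal K • (m.restrict (E w)).map S.clsOf
  have hκ : ∀ w (A : Set Z), MeasurableSet A →
      κ w A = ENNReal.ofReal K * m {l | l.1 R = w ∧ S.clsOf l ∈ G w ∩ A} := by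
    intro w A hA
    change ENNReal.ofReal K • ((m.restrict (E w)).map S.clsOf) A = _
    rw [Measure.map_apply mc hA, Measure.restrict_apply (mc hA), smul_eq_mul]
    congr 2
    ext l
    constructor
    · rintro ⟨h1, h2, h3⟩
      exact ⟨h2, h3, h1⟩
    · rintro ⟨h1, h2, h3⟩
      exact ⟨h3, h1, h2⟩
  have hdiag : MeasurableSet {z : Z × Z | z.1 = z.2} :=
    (isClosed_eq continuous_fst continuous_snd).measurableSet
  have hTmem : ∀ l : S.L0, S.clsOf l ∈ MainIneq.TT S 1 := by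
    intro l
    rw [MainIneq.mem_TT, inv_one, one_smul]
    exact ⟨l, rfl⟩
  have htr := MainIneq.transport (H := H) (Z := Z) hdiag hsm (MainIneq.TT S)
    (MainIneq.measurable_TT S)
    (by
      intro g v z
      rw [MainIneq.mem_TT, MainIneq.mem_TT, smul_smul, mul_inv_rev, inv_mul_cancel_right])
    (by
      intro z₁ z₂ hz
      exact S.finF z₁ z₂ hz)
    (S.L R) (fun w hw => S.inv_mem_L hw) half (C * S.N (R - R / 2)) (hh.or R) (hh.count R) lam
    (by
      intro z
      rw [Measure.map_apply mc (measurableSet_singleton z)]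
      exact hna z)
    κ
    (by
      intro w hw
      refine Measure.le_iff.2 fun A hA => ?_
      rw [hκ w A hA, Measure.map_apply mc hA]
      exact hG1 w hw A hA)
    (by
      intro w hw
      refine Measure.le_iff.2 fun A hA => ?_
      rw [hκ w A hA, Measure.map_apply (hsm w) hA, Measure.map_apply mc (hsm w hA)]
      exact hG2 w hw A hA)
    (by
      intro w hw
      rw [ae_iff]
      change κ w {z | ¬ z ∈ MainIneq.TT S 1} = 0
      have e : {z | ¬ z ∈ MainIneq.TT S 1} = (MainIneq.TT S 1)ᶜ := rfl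
      rw [e, hκ w _ (MainIneq.measurable_TT S 1).compl]
      have e2 : {l : S.L0 | l.1 R = w ∧ S.clsOf l ∈ G w ∩ (MainIneq.TT S 1)ᶜ} = ∅ := by
        refine Set.eq_empty_of_forall_notMem fun l hl => ?_
        exact hl.2.2 (hTmem l)
      rw [e2, measure_empty, mul_zero])
  -- the total mass
  have hmass : ∑ w ∈ S.L R, κ w Set.univ = ENNReal.ofReal K * m {l | S.clsOf l ∈ G (l.1 R)} := by
    have e1 : {l : S.L0 | S.clsOf l ∈ G (l.1 R)} = ⋃ w ∈ S.L R, E w := by
      ext l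
      simp only [Set.mem_iUnion]
      constructor
      · intro h
        exact ⟨l.1 R, S.mem_L.2 ⟨l, rfl⟩, rfl, h⟩
      · rintro ⟨w, -, h1, h2⟩
        have h3 : l.1 R = w := h1
        change S.clsOf l ∈ G (l.1 R)
        rw [h3]
        exact h2
    rw [e1, measure_biUnion_finset ?_ (fun w _ => hE w), Finset.mul_sum]
    · refine Finset.sum_congr rfl fun w _ => ?_
      rw [hκ w _ MeasurableSet.univ, Set.inter_univ]
      rfl
    · intro w _ w' _ hne
      refine Set.disjoint_left.2 fun l hl hl' => hne ?_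
      exact (show l.1 R = w from hl.1).symm.trans hl'.1
  have hmE : MeasurableSet {l : S.L0 | S.clsOf l ∈ G (l.1 R)} := by
    have e1 : {l : S.L0 | S.clsOf l ∈ G (l.1 R)} = ⋃ w : H, E w := by
      ext l
      simp only [Set.mem_iUnion]
      constructor
      · intro h
        exact ⟨l.1 R, rfl, h⟩
      · rintro ⟨w, h1, h2⟩
        have h3 : l.1 R = w := h1
        change S.clsOf l ∈ G (l.1 R)
        rw [h3]
        exact h2
    rw [e1]
    exact MeasurableSet.iUnion hE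
  have hhalf : ENNReal.ofReal (1 / 2) ≤ m {l | S.clsOf l ∈ G (l.1 R)} := by
    have e2 : m {l | S.clsOf l ∉ G (l.1 R)} ≤ ENNReal.ofReal (1 / 2) := by
      refine le_trans hG3 (le_of_eq ?_)
      norm_num
    have e3 := measure_add_measure_compl (μ := m) hmE
    rw [measure_univ] at e3
    have e4 : ENNReal.ofReal (1 / 2) + ENNReal.ofReal (1 / 2) = 1 := by
      rw [← ENNReal.ofReal_add (by norm_num) (by norm_num)]
      norm_num
    have e5 : m {l | S.clsOf l ∈ G (l.1 R)}ᶜ ≤ ENNReal.ofReal (1 / 2) := e2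
    rw [← e4] at e3
    by_contra hlt
    rw [not_le] at hlt
    have : m {l | S.clsOf l ∈ G (l.1 R)} + m {l | S.clsOf l ∈ G (l.1 R)}ᶜ <
        ENNReal.ofReal (1 / 2) + ENNReal.ofReal (1 / 2) :=
      ENNReal.add_lt_add_of_lt_of_le (ne_top_of_le_ne_top ENNReal.ofReal_ne_top e5) hlt e5
    exact this.ne e3
  -- to real numbers
  let x : H → ℝ := fun w => (κ w Set.univ).toReal
  have hκfin : ∀ w, κ w Set.univ ≠ ⊤ := by
    intro w
    rw [hκ w _ MeasurableSet.univ]
    exact ENNReal.mul_ne_top ENNReal.ofReal_ne_top (measure_ne_top _ _)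
  have hx1 : K / 2 ≤ ∑ w ∈ S.L R, x w := by
    have e1 : ENNReal.ofReal (K / 2) ≤ ∑ w ∈ S.L R, κ w Set.univ := by
      rw [hmass]
      calc ENNReal.ofReal (K / 2) = ENNReal.ofReal K * ENNReal.ofReal (1 / 2) := by
            rw [← ENNReal.ofReal_mul hK.le]
            congr 1
            ring
        _ ≤ _ := by gcongr
    have e2 : ∑ w ∈ S.L R, x w = (∑ w ∈ S.L R, κ w Set.univ).toReal :=
      (ENNReal.toReal_sum fun w _ => hκfin w).symm
    rw [e2]
    exact (ENNReal.ofReal_le_iff_le_toReal (ENNReal.sum_ne_top.2 fun w _ => hκfin w)).1 e1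
  have hx2 : ∑ w ∈ S.L R, x w ^ 2 ≤ 2 * (C * S.N (R - R / 2)) := by
    have e2 : ∑ w ∈ S.L R, x w ^ 2 = (∑ w ∈ S.L R, (κ w Set.univ) ^ 2).toReal := by
      rw [ENNReal.toReal_sum fun w _ => ENNReal.pow_ne_top (hκfin w)]
      refine Finset.sum_congr rfl fun w _ => ?_
      rw [ENNReal.toReal_pow]
    rw [e2]
    have e3 : (2 * ((C * S.N (R - R / 2) : ℕ) : ℝ≥0∞)).toReal = 2 * (C * S.N (R - R / 2)) := by
      rw [ENNReal.toReal_mul, ENNReal.toReal_natCast]
      push_cast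
      rfl
    rw [← e3]
    exact ENNReal.toReal_mono (ENNReal.mul_ne_top (by simp) (ENNReal.natCast_ne_top _)) htr
  have hcs : (∑ w ∈ S.L R, x w) ^ 2 ≤ ((S.L R).card : ℝ) * ∑ w ∈ S.L R, x w ^ 2 :=
    sq_sum_le_card_mul_sum_sq
  have hN : ((S.L R).card : ℝ) = S.N R := rfl
  rw [hN] at hcs
  have h1 : (K / 2) ^ 2 ≤ (∑ w ∈ S.L R, x w) ^ 2 := by
    have : 0 ≤ K / 2 := by positivity
    gcongr
  have h2 : (S.N R : ℝ) * ∑ w ∈ S.L R, x w ^ 2 ≤ S.N R * (2 * (C * S.N (R - R / 2))) := by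
    gcongr
  nlinarith [h1, h2, hcs]

end Borel

end Pool.Agent.CTZ
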