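import Mathlib

/-!
# Line systems

An abstract system of bi-infinite lines in a group `H`, with a class map to a compact space `Z`.
-/

open Filter Topology Set MeasureTheory

namespace Pool.Agent.CTZ

section Ops

variable {H : Type} [Group H]

/-- Left translate of a line. -/
def lsmul (g : H) (l : ℤ → H) : ℤ → H := fun k => g * l k

/-- Shift of a line. -/
def lshift (j : ℤ) (l : ℤ → H) : ℤ → H := fun k => l (k + j)

/-- Reversal of a line. -/
def lrev (l : ℤ → H) : ℤ → H := fun k => l (-k)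

end Ops

/-- An abstract system of lines. -/
structure LineSys (H Z : Type) [Group H] [TopologicalSpace Z] [MulAction H Z] where
  lines : Set (ℤ → H)
  cls : (ℤ → H) → Z
  smul_mem : ∀ (g : H), ∀ l ∈ lines, lsmul g l ∈ lines
  cls_smul : ∀ (g : H), ∀ l ∈ lines, cls (lsmul g l) = g • cls l
  shift_mem : ∀ (j : ℤ), ∀ l ∈ lines, lshift j l ∈ lines
  cls_shift : ∀ (j : ℤ), ∀ l ∈ lines, cls (lshift j l) = cls l
  rev_mem : ∀ l ∈ lines, lrev l ∈ lines
  cls_rev : ∀ l ∈ lines, cls (lrev l) = cls l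
  fin : ∀ k : ℤ, {w : H | ∃ l ∈ lines, l 0 = 1 ∧ l k = w}.Finite
  closed : ∀ (s : ℕ → ℤ → H) (l : ℤ → H), (∀ n, s n ∈ lines) →
    (∀ k, ∀ᶠ n in atTop, s n k = l k) → l ∈ lines
  cont : ∀ (s : ℕ → ℤ → H) (l : ℤ → H), (∀ n, s n ∈ lines) →
    (∀ k, ∀ᶠ n in atTop, s n k = l k) → Tendsto (fun n => cls (s n)) atTop (𝓝 (cls l))
  past : ∀ R : ℕ, 0 < R → ∀ l ∈ lines, ∀ l' ∈ lines,
    (∀ i : ℕ, l (-((i * R : ℕ) : ℤ)) = l' (-((i * R : ℕ) : ℤ))) → cls l = cls l'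
  finF : ∀ z₁ z₂ : Z, z₁ ≠ z₂ →
    {v : H | (∃ l ∈ lines, l 0 = v ∧ cls l = z₁) ∧ (∃ l ∈ lines, l 0 = v ∧ cls l = z₂)}.Finite

namespace LineSys

variable {H Z : Type} [Group H] [TopologicalSpace Z] [MulAction H Z] (S : LineSys H Z)

/-- The lines through `1` at time `0`. -/
abbrev L0 : Type := {l : ℤ → H // l ∈ S.lines ∧ l 0 = 1}

instance : TopologicalSpace S.L0 :=
  TopologicalSpace.induced Subtype.val (@Pi.topologicalSpace ℤ (fun _ => H) (fun _ => ⊥))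

instance : MeasurableSpace S.L0 := borel _

instance : BorelSpace S.L0 := ⟨rfl⟩

/-- The class of a line. -/
def clsOf (l : S.L0) : Z := S.cls l.1

/-- The shift, renormalised to pass through `1` at time `0`. -/
def tau (l : S.L0) : S.L0 :=
  ⟨lsmul (l.1 1)⁻¹ (lshift 1 l.1), S.smul_mem _ _ (S.shift_mem _ _ l.2.1), by
    simp [lsmul, lshift]⟩

/-- The reversal. -/
def rev (l : S.L0) : S.L0 :=
  ⟨lrev l.1, S.rev_mem _ l.2.1, by simpa [lrev] using l.2.2⟩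

/-- The language: positions at time `k`. -/
noncomputable def L (k : ℤ) : Finset H := (S.fin k).toFinset

/-- The number of language elements. -/
noncomputable def N (n : ℕ) : ℕ := (S.L n).card

theorem mem_L {k : ℤ} {w : H} : w ∈ S.L k ↔ ∃ l : S.L0, l.1 k = w := by
  unfold L
  rw [Set.Finite.mem_toFinset]
  constructor
  · rintro ⟨l, hl, h0, hk⟩
    exact ⟨⟨l, hl, h0⟩, hk⟩
  · rintro ⟨l, hk⟩
    exact ⟨l.1, l.2.1, l.2.2, hk⟩

@[simp] theorem L0_zero (l : S.L0) : l.1 0 = 1 := l.2.2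

@[simp] theorem tau_apply (l : S.L0) (k : ℤ) : (S.tau l).1 k = (l.1 1)⁻¹ * l.1 (k + 1) := rfl

@[simp] theorem rev_apply (l : S.L0) (k : ℤ) : (S.rev l).1 k = l.1 (-k) := rfl

theorem L0_ext {l l' : S.L0} (h : ∀ k, l.1 k = l'.1 k) : l = l' := Subtype.ext (funext h)

theorem tau_iterate (n : ℕ) (l : S.L0) (k : ℤ) :
    (S.tau^[n] l).1 k = (l.1 n)⁻¹ * l.1 (k + n) := by
  induction n generalizing l k with
  | zero => simp
  | succ n ih =>
    rw [Function.iterate_succ_apply, ih]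
    simp only [tau_apply, Nat.cast_add, Nat.cast_one]
    rw [mul_inv_rev, inv_inv, mul_assoc, mul_inv_cancel_left, add_assoc]

theorem clsOf_tau (l : S.L0) : S.clsOf (S.tau l) = (l.1 1)⁻¹ • S.clsOf l := by
  unfold clsOf tau
  rw [S.cls_smul _ _ (S.shift_mem _ _ l.2.1), S.cls_shift _ _ l.2.1]

theorem clsOf_tau_iterate (n : ℕ) (l : S.L0) :
    S.clsOf (S.tau^[n] l) = (l.1 n)⁻¹ • S.clsOf l := by
  induction n generalizing l with
  | zero => simp
  | succ n ih =>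
    rw [Function.iterate_succ_apply, ih, clsOf_tau, smul_smul]
    simp only [tau_apply, Nat.cast_add, Nat.cast_one]
    rw [mul_inv_rev, inv_inv, mul_assoc, mul_inv_cancel, mul_one]

theorem clsOf_rev (l : S.L0) : S.clsOf (S.rev l) = S.clsOf l := S.cls_rev _ l.2.1

@[simp] theorem rev_rev (l : S.L0) : S.rev (S.rev l) = l := S.L0_ext fun k => by simp

theorem tau_rev_tau (l : S.L0) : S.tau (S.rev (S.tau l)) = S.rev l := S.L0_ext fun k => by
  simp

/-- The line through `1` and `w = l n`, reversed. -/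
def flip (n : ℕ) (l : S.L0) : S.L0 := S.rev (S.tau^[n] l)

theorem flip_apply (n : ℕ) (l : S.L0) (k : ℤ) :
    (S.flip n l).1 k = (l.1 n)⁻¹ * l.1 (n - k) := by
  unfold flip
  rw [rev_apply, tau_iterate]
  rw [sub_eq_neg_add]

theorem inv_mem_L {n : ℕ} {w : H} (hw : w ∈ S.L n) : w⁻¹ ∈ S.L n := by
  obtain ⟨l, rfl⟩ := S.mem_L.1 hw
  refine S.mem_L.2 ⟨S.flip n l, ?_⟩
  rw [flip_apply]
  simp

theorem exists_mem_L_add {m n : ℕ} {w : H} (hw : w ∈ S.L ((m + n : ℕ) : ℤ)) :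
    ∃ u ∈ S.L m, u⁻¹ * w ∈ S.L n := by
  obtain ⟨l, rfl⟩ := S.mem_L.1 hw
  refine ⟨l.1 m, S.mem_L.2 ⟨l, rfl⟩, S.mem_L.2 ⟨S.tau^[m] l, ?_⟩⟩
  rw [tau_iterate]
  have h : ((m + n : ℕ) : ℤ) = (n : ℤ) + m := by push_cast; ring
  rw [h]

end LineSys

end Pool.Agent.CTZ
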