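import Pool.Agent.CTZ.VDefs
import Pool.Agent.CTZ.Atoms

/-!
# Quantitative recurrence of an atom and the growth of its stabiliser
-/

open Filter Topology Set MeasureTheory

namespace Pool.Agent.CTZ

namespace V1

/-- Cauchy-Schwarz for a finite family of sets. -/
theorem sq_sum_le {α ι : Type} [MeasurableSpace α] (m : Measure α) [IsProbabilityMeasure m]
    (T : Finset ι) (P : ι → Set α) (hP : ∀ j, MeasurableSet (P j)) :
    (∑ j ∈ T, m.real (P j)) ^ 2 ≤ ∑ j ∈ T, ∑ k ∈ T, m.real (P j ∩ P k) := by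
  classical
  set a : ℝ := ∑ j ∈ T, m.real (P j) with ha
  set F : α → ℝ := fun x => ∑ j ∈ T, (P j).indicator 1 x with hF
  have hi : ∀ A : Set α, MeasurableSet A → Integrable (A.indicator (1 : α → ℝ)) m := by
    intro A hA
    exact (integrable_const (1 : ℝ)).indicator hA
  have h1 : ∫ x, F x ∂m = a := by
    rw [hF, integral_finsetSum _ fun j _ => hi _ (hP j), ha]
    refine Finset.sum_congr rfl fun j _ => ?_
    exact integral_indicator_one (hP j)
  have hsq : ∀ x, F x ^ 2 = ∑ j ∈ T, ∑ k ∈ T, (P j ∩ P k).indicator (1 : α → ℝ) x := by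
    intro x
    rw [sq, hF, Finset.sum_mul_sum]
    refine Finset.sum_congr rfl fun j _ => Finset.sum_congr rfl fun k _ => ?_
    by_cases h1 : x ∈ P j
    · by_cases h2 : x ∈ P k
      · simp [h1, h2]
      · simp [h2]
    · simp [h1]
  have h2 : ∫ x, F x ^ 2 ∂m = ∑ j ∈ T, ∑ k ∈ T, m.real (P j ∩ P k) := by
    simp only [hsq]
    rw [integral_finsetSum _ fun j _ => integrable_finsetSum _ fun k _ =>
      hi _ ((hP j).inter (hP k))]
    refine Finset.sum_congr rfl fun j _ => ?_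
    rw [integral_finsetSum _ fun k _ => hi _ ((hP j).inter (hP k))]
    exact Finset.sum_congr rfl fun k _ => integral_indicator_one ((hP j).inter (hP k))
  have hFi : Integrable F m := integrable_finsetSum _ fun j _ => hi _ (hP j)
  have hF2 : Integrable (fun x => F x ^ 2) m := by
    simp only [hsq]
    exact integrable_finsetSum _ fun j _ => integrable_finsetSum _ fun k _ =>
      hi _ ((hP j).inter (hP k))
  have h3 : ∫ x, (F x - a) ^ 2 ∂m = ∫ x, F x ^ 2 ∂m - a ^ 2 := by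
    have h4 : ∀ x, (F x - a) ^ 2 = F x ^ 2 - 2 * a * F x + a ^ 2 := fun x => by ring
    simp only [h4]
    have h5 : Integrable (fun x => F x ^ 2 - 2 * a * F x) m := hF2.sub (hFi.const_mul _)
    rw [integral_add h5 (integrable_const _),
      integral_sub hF2 (hFi.const_mul _), integral_const_mul, h1, integral_const]
    simp only [probReal_univ, smul_eq_mul, one_mul]
    ring
  have h4 : 0 ≤ ∫ x, (F x - a) ^ 2 ∂m := integral_nonneg fun x => sq_nonneg _
  rw [h3, h2] at h4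
  linarith

/-- quantitative recurrence -/
theorem recur {α : Type} [MeasurableSpace α] (m : Measure α) [IsProbabilityMeasure m]
    (τ : α → α) (hτ : MeasurePreserving τ m m) (P : Set α) (hP : MeasurableSet P)
    (h0 : 0 < m.real P) (M : ℕ) :
    ∃ R ≥ M, m.real P ^ 2 / 2 ≤ m.real (P ∩ (τ^[R]) ⁻¹' P) := by
  by_contra hcon
  push Not at hcon
  set c0 : ℝ := m.real P with hc0
  obtain ⟨N, hN⟩ := exists_nat_gt (2 / c0)
  have hN' : 2 < N * c0 := by
    rwa [div_lt_iff₀ h0] at hN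
  set M' : ℕ := M + 1 with hM'
  have hm : ∀ j : ℕ, MeasurableSet ((τ^[j * M']) ⁻¹' P) := fun j =>
    (hτ.iterate _).measurable hP
  have h1 := sq_sum_le m (Finset.range N) (fun j => (τ^[j * M']) ⁻¹' P) hm
  have h2 : ∀ j : ℕ, m.real ((τ^[j * M']) ⁻¹' P) = c0 := fun j => by
    rw [hc0, measureReal_def, measureReal_def,
      (hτ.iterate _).measure_preimage hP.nullMeasurableSet]
  have h3 : ∀ j k : ℕ, j < k →
      m.real ((τ^[j * M']) ⁻¹' P ∩ (τ^[k * M']) ⁻¹' P) < c0 ^ 2 / 2 := by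
    intro j k hjk
    have h4 : (τ^[j * M']) ⁻¹' P ∩ (τ^[k * M']) ⁻¹' P =
        (τ^[j * M']) ⁻¹' (P ∩ (τ^[(k - j) * M']) ⁻¹' P) := by
      rw [preimage_inter, ← preimage_comp, ← Function.iterate_add]
      have h5 : (k - j) * M' + j * M' = k * M' := by
        rw [← Nat.add_mul]
        congr 1
        omega
      rw [h5]
    have h5 : MeasurableSet (P ∩ (τ^[(k - j) * M']) ⁻¹' P) :=
      hP.inter ((hτ.iterate _).measurable hP)
    have h6 : m.real ((τ^[j * M']) ⁻¹' P ∩ (τ^[k * M']) ⁻¹' P) =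
        m.real (P ∩ (τ^[(k - j) * M']) ⁻¹' P) := by
      rw [h4, measureReal_def, measureReal_def,
        (hτ.iterate _).measure_preimage h5.nullMeasurableSet]
    rw [h6]
    refine hcon _ ?_
    have h7 : 1 ≤ k - j := by omega
    calc M ≤ 1 * M' := by omega
      _ ≤ (k - j) * M' := Nat.mul_le_mul_right _ h7
  have h4 : ∀ j k : ℕ, m.real ((τ^[j * M']) ⁻¹' P ∩ (τ^[k * M']) ⁻¹' P) ≤
      c0 ^ 2 / 2 + if j = k then c0 else 0 := by
    intro j k
    have h5 : 0 ≤ c0 ^ 2 / 2 := by positivity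
    rcases lt_trichotomy j k with h | h | h
    · have := h3 j k h
      rw [if_neg h.ne]
      linarith
    · subst h
      rw [inter_self, h2 j, if_pos rfl]
      linarith
    · have := h3 k j h
      rw [inter_comm, if_neg h.ne']
      linarith
  have h5 : ∑ j ∈ Finset.range N, ∑ k ∈ Finset.range N,
      m.real ((τ^[j * M']) ⁻¹' P ∩ (τ^[k * M']) ⁻¹' P) ≤ N ^ 2 * (c0 ^ 2 / 2) + N * c0 := by
    calc _ ≤ ∑ j ∈ Finset.range N, ∑ k ∈ Finset.range N,
          (c0 ^ 2 / 2 + if j = k then c0 else 0) :=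
          Finset.sum_le_sum fun j _ => Finset.sum_le_sum fun k _ => h4 j k
      _ = ∑ j ∈ Finset.range N, (N * (c0 ^ 2 / 2) + c0) := by
          refine Finset.sum_congr rfl fun j hj => ?_
          rw [Finset.sum_add_distrib, Finset.sum_ite_eq, if_pos hj]
          simp
      _ = N ^ 2 * (c0 ^ 2 / 2) + N * c0 := by
          rw [Finset.sum_const, Finset.card_range, nsmul_eq_mul]
          ring
  have h6 : ∑ j ∈ Finset.range N, m.real ((τ^[j * M']) ⁻¹' P) = N * c0 := by
    rw [Finset.sum_congr rfl fun j _ => h2 j, Finset.sum_const, Finset.card_range, nsmul_eq_mul]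
  rw [h6] at h1
  have h7 := h1.trans h5
  nlinarith

end V1

section V

variable {H Z : Type} [Group H] [Countable H] [TopologicalSpace Z] [CompactSpace Z]
  [TopologicalSpace.MetrizableSpace Z] [MeasurableSpace Z] [BorelSpace Z] [MulAction H Z]
  (S : LineSys H Z)

theorem V1.real_pos {h : ℝ} {m : Measure S.L0} (hm : S.Good h m) (z : Z)
    (hz : m {l | S.clsOf l = z} ≠ 0) : 0 < m.real {l | S.clsOf l = z} := by
  have := hm.prob
  rw [measureReal_def]
  exact ENNReal.toReal_pos hz (measure_ne_top _ _)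

theorem atom_strong {h : ℝ} {m : Measure S.L0} (hm : S.Good h m) (z : Z)
    (hz : m {l | S.clsOf l = z} ≠ 0) :
    ∃ b : ℝ, 0 < b ∧ ∃ᶠ R : ℕ in atTop,
      ENNReal.ofReal b ≤ m {l | S.clsOf l = z ∧ (l.1 R)⁻¹ • z = z} := by
  have := hm.prob
  have hpos := V1.real_pos S hm z hz
  have hzm : MeasurableSet {l : S.L0 | S.clsOf l = z} :=
    (measurable_clsOf' S) (measurableSet_singleton z)
  refine ⟨m.real {l | S.clsOf l = z} ^ 2 / 2, by positivity, ?_⟩
  rw [frequently_atTop]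
  intro M
  obtain ⟨R, hR, hR'⟩ := V1.recur m S.tau hm.inv _ hzm hpos M
  refine ⟨R, hR, ?_⟩
  have h1 : {l : S.L0 | S.clsOf l = z} ∩ (S.tau^[R]) ⁻¹' {l : S.L0 | S.clsOf l = z} =
      {l | S.clsOf l = z ∧ (l.1 R)⁻¹ • z = z} := by
    ext l
    simp only [mem_inter_iff, mem_preimage, mem_ofPred_eq, S.clsOf_tau_iterate]
    constructor
    · rintro ⟨h2, h3⟩
      rw [h2] at h3
      exact ⟨h2, h3⟩
    · rintro ⟨h2, h3⟩
      rw [h2]
      exact ⟨rfl, h3⟩
  rw [h1] at hR'
  exact ENNReal.ofReal_le_of_le_toReal hR'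

theorem atom_stab [ContinuousConstSMul H Z] {h : ℝ} (hg : S.HasGrowth h) {m : Measure S.L0}
    (hm : S.Good h m) (z : Z) (hz : m {l | S.clsOf l = z} ≠ 0) (ε : ℝ) (hε : 0 < ε) :
    ∃ b > 0, ∃ᶠ R : ℕ in atTop,
      b * Real.exp ((h - ε) * R) ≤ ({w : H | w ∈ S.L R ∧ w • z = z}.ncard : ℝ) := by
  classical
  have := hm.prob
  obtain ⟨b, hb, hfr⟩ := atom_strong S hm z hz
  have hb1 : b ≤ 1 := by
    obtain ⟨R, hR⟩ := hfr.exists
    have h1 : ENNReal.ofReal b ≤ 1 := hR.trans prob_le_one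
    rw [← ENNReal.ofReal_one] at h1
    exact (ENNReal.ofReal_le_ofReal_iff (by norm_num)).1 h1
  set δ : ℝ := b / 8 with hδ
  have hδ0 : 0 < δ := by positivity
  have hδ1 : δ ≤ 1 := by rw [hδ]; linarith
  refine ⟨b / 2, by positivity, ?_⟩
  refine (hfr.and_eventually (S.par_eventually hg (δ := δ) (ε := ε) hδ0 hδ1 hε)).mono ?_
  rintro R ⟨hbR, hp⟩
  set K : ℝ := Real.exp ((h - ε) * R) with hKdef
  have hKpos : 0 < K := Real.exp_pos _
  obtain ⟨G, hGm, hG1, hG2, hG3⟩ := exists_dens S hm hp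
  set F : Finset H := (S.L R).filter (fun w => w⁻¹ • z = z) with hF
  have hcard : {w : H | w ∈ S.L R ∧ w • z = z}.ncard = F.card := by
    rw [← Set.ncard_coe_finset]
    congr 1
    ext w
    simp only [mem_ofPred_eq, hF, Finset.coe_filter]
    refine and_congr_right fun _ => ?_
    rw [inv_smul_eq_iff]
    exact eq_comm
  rw [hcard]
  have hbR' : b ≤ m.real {l | S.clsOf l = z ∧ (l.1 R)⁻¹ • z = z} := by
    rw [measureReal_def]
    exact (ENNReal.ofReal_le_iff_le_toReal (measure_ne_top _ _)).1 hbR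
  have h1 : b ≤ 2 * δ + ∑ w ∈ F, m.real {l | l.1 R = w ∧ S.clsOf l ∈ G w ∩ {z}} := by
    have h2 : m.real {l | S.clsOf l = z ∧ (l.1 R)⁻¹ • z = z} ≤
        m.real ({l | S.clsOf l ∉ G (l.1 R)} ∪
        ⋃ w ∈ F, {l | l.1 R = w ∧ S.clsOf l ∈ G w ∩ {z}}) := by
      refine measureReal_mono ?_ (measure_ne_top _ _)
      intro l hl
      by_cases hlG : S.clsOf l ∈ G (l.1 R)
      · right
        simp only [mem_iUnion]
        exact ⟨l.1 R, Finset.mem_filter.2 ⟨S.mem_L.2 ⟨l, rfl⟩, hl.2⟩, rfl, hlG, hl.1⟩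
      · left
        exact hlG
    have h3 : m.real {l | S.clsOf l ∉ G (l.1 R)} ≤ 2 * δ := by
      rw [measureReal_def]
      exact ENNReal.toReal_le_of_le_ofReal (by positivity) hG3
    calc b ≤ _ := hbR'
      _ ≤ _ := h2
      _ ≤ m.real {l | S.clsOf l ∉ G (l.1 R)} +
          m.real (⋃ w ∈ F, {l | l.1 R = w ∧ S.clsOf l ∈ G w ∩ {z}}) :=
          measureReal_union_le _ _
      _ ≤ _ := by
          refine add_le_add h3 ?_
          exact measureReal_biUnion_finset_le _ _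
  have h4 : ∀ w ∈ F, K * m.real {l | l.1 R = w ∧ S.clsOf l ∈ G w ∩ {z}} ≤ 1 := by
    intro w hw
    have hw' := Finset.mem_filter.1 hw
    have h5 := hG2 w hw'.1 {z} (measurableSet_singleton z)
    have h5' := h5.trans prob_le_one
    have h7 := ENNReal.toReal_mono ENNReal.one_ne_top h5'
    rwa [ENNReal.toReal_mul, ENNReal.toReal_ofReal hKpos.le, ENNReal.toReal_one] at h7
  have h5 : K * (b - 2 * δ) ≤ F.card := by
    calc K * (b - 2 * δ) ≤ K * ∑ w ∈ F, m.real {l | l.1 R = w ∧ S.clsOf l ∈ G w ∩ {z}} :=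
          mul_le_mul_of_nonneg_left (by linarith) hKpos.le
      _ = ∑ w ∈ F, K * m.real {l | l.1 R = w ∧ S.clsOf l ∈ G w ∩ {z}} := Finset.mul_sum _ _ _
      _ ≤ ∑ w ∈ F, (1 : ℝ) := Finset.sum_le_sum h4
      _ = F.card := by simp
  refine le_trans ?_ h5
  have h6 : K * (b - 2 * δ) = 3 / 4 * (b * K) := by
    rw [hδ]
    ring
  rw [h6]
  have h7 : 0 < b * K := by positivity
  linarith

end V

end Pool.Agent.CTZ
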