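import Pool.Agent.CTZ.VDefs
import Pool.Agent.CTZ.GH
import Pool.Agent.CTZ.K1
import Pool.Agent.CTZ.K2
import Pool.Agent.CTZ.K4

/-!
# Row V3: growth exponents
-/

open Filter Topology Set MeasureTheory Pool.Agent.Helper68.CT
open scoped ENNReal NNReal

namespace Pool.Agent.CTZ

section V3

variable {H X Z : Type} [Group H] [MetricSpace X] [MulAction H X]

theorem V3.fin {o : X} {δ c : ℝ} (hg : Geo H X o δ c) (S : Subgroup H) (r : ℝ) :
    {s : H | s ∈ S ∧ dist o (s • o) ≤ r}.Finite :=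
  (hg.fin r).subset fun _ hs => hs.2

theorem V3.one_le {o : X} {δ c : ℝ} (hg : Geo H X o δ c) (S : Subgroup H) (n : ℕ) :
    1 ≤ {s : H | s ∈ S ∧ dist o (s • o) ≤ n}.ncard := by
  have h : (1 : H) ∈ {s : H | s ∈ S ∧ dist o (s • o) ≤ n} := by
    refine ⟨S.one_mem, ?_⟩
    rw [one_smul, dist_self]
    exact Nat.cast_nonneg n
  exact Nat.one_le_iff_ne_zero.2 (Set.ncard_ne_zero_of_mem h (V3.fin hg S n))

/-- `log (A (n + 1)) / n` tends to zero -/
theorem V3.tendsto_log (A : ℝ) (hA : 0 < A) :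
    Tendsto (fun n : ℕ => Real.log (A * (n + 1)) / n) atTop (𝓝 0) := by
  have h1 : Tendsto (fun n : ℕ => A * ((n : ℝ) + 1)) atTop atTop :=
    (tendsto_atTop_add_const_right _ _ tendsto_natCast_atTop_atTop).const_mul_atTop hA
  have h2 := Real.isLittleO_log_id_atTop.comp_tendsto h1
  have h3 : (fun n : ℕ => A * ((n : ℝ) + 1)) =O[atTop] (fun n : ℕ => (n : ℝ)) := by
    refine Asymptotics.IsBigO.of_bound (2 * A) ?_
    filter_upwards [eventually_ge_atTop 1] with n hn
    have hn' : (1 : ℝ) ≤ n := by exact_mod_cast hn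
    rw [Real.norm_of_nonneg (by positivity), Real.norm_of_nonneg (by positivity)]
    nlinarith
  exact (h2.trans_isBigO h3).tendsto_div_nhds_zero

theorem le_growthExp [TopologicalSpace Z] [MulAction H Z] {o : X} {δ c : ℝ}
    (hg : Geo H X o δ c) {i : Boundary X → Z} {S : LineSys H Z} (hS : IsSys o c i S) (z : Z)
    (h : ℝ) (hgr : ∀ ε > 0, ∃ b > 0, ∃ᶠ R : ℕ in atTop,
      b * Real.exp ((h - ε) * R) ≤ ({w : H | w ∈ S.L R ∧ w • z = z}.ncard : ℝ)) :
    ENNReal.ofReal h ≤ growthExp o (MulAction.stabilizer H z) := by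
  refine ENNReal.le_of_forall_nnreal_lt fun r hr => ?_
  have hr' : (r : ℝ) < h := by
    have := (ENNReal.lt_ofReal_iff_toReal_lt ENNReal.coe_ne_top).1 hr
    simpa using this
  obtain ⟨b, hb, hfr⟩ := hgr ((h - r) / 2) (by linarith)
  set k : ℕ := ⌈c⌉₊ with hk
  have hck : c ≤ k := Nat.le_ceil c
  unfold growthExp
  refine le_limsup_of_frequently_le ?_ (by isBoundedDefault)
  refine Tendsto.frequently (tendsto_add_atTop_nat k) ?_
  have hev : ∀ᶠ R : ℕ in atTop, r * k - Real.log b ≤ (h - r) / 2 * R :=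
    (tendsto_natCast_atTop_atTop.const_mul_atTop (by linarith : 0 < (h - r) / 2)).eventually_ge_atTop _
  refine (hfr.and_eventually (hev.and (eventually_ge_atTop 1))).mono ?_
  rintro R ⟨h1, h2, h3⟩
  have hR : (1 : ℝ) ≤ R := by exact_mod_cast h3
  have hsub : {w : H | w ∈ S.L R ∧ w • z = z} ⊆
      {s : H | s ∈ MulAction.stabilizer H z ∧ dist o (s • o) ≤ ((R + k : ℕ) : ℝ)} := by
    rintro w ⟨hw, hwz⟩
    refine ⟨MulAction.mem_stabilizer_iff.2 hwz, ?_⟩
    obtain ⟨l, rfl⟩ := S.mem_L.1 hw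
    have h := ((hS.mem l.1).1 l.2.1).1 0 R
    rw [l.2.2, one_smul, Int.cast_zero, Int.cast_natCast, zero_sub, abs_neg, Nat.abs_cast] at h
    have := (abs_le.1 h).2
    push_cast
    linarith
  have hcard := Set.ncard_le_ncard hsub (V3.fin hg _ _)
  have hcard' : ({w : H | w ∈ S.L R ∧ w • z = z}.ncard : ℝ) ≤
      ({s : H | s ∈ MulAction.stabilizer H z ∧ dist o (s • o) ≤ ((R + k : ℕ) : ℝ)}.ncard : ℝ) := by
    exact_mod_cast hcard
  have h4 := h1.trans hcard'
  have hpos : 0 < b * Real.exp ((h - (h - r) / 2) * R) := by positivity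
  have h5 := Real.log_le_log hpos h4
  rw [Real.log_mul hb.ne' (Real.exp_pos _).ne', Real.log_exp] at h5
  have h6 : (r : ℝ) ≤ Real.log
      ({s : H | s ∈ MulAction.stabilizer H z ∧ dist o (s • o) ≤ ((R + k : ℕ) : ℝ)}.ncard : ℝ) /
        ((R + k : ℕ) : ℝ) := by
    rw [le_div_iff₀ (by push_cast; positivity)]
    refine le_trans ?_ h5
    push_cast
    nlinarith
  have h7 := ENNReal.ofReal_le_ofReal h6
  rwa [ENNReal.ofReal_coe_nnreal] at h7

theorem growthExp_vc {o : X} {δ c c' : ℝ} (hg : Geo H X o δ c) (hm : Mid H o c')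
    (S : Subgroup H) (hS : ¬ NotVirtuallyCyclic S) : growthExp o S = 0 := by
  classical
  unfold NotVirtuallyCyclic at hS
  push Not at hS
  obtain ⟨K, hK, hcyc⟩ := hS
  obtain ⟨A, hA⟩ : ∃ A : ℕ, ∀ n : ℕ,
      {s : H | s ∈ S ∧ dist o (s • o) ≤ n}.ncard ≤ A * (n + 1) := by
    by_cases hinf : (S : Set H).Infinite
    · obtain ⟨g, hgS, hl⟩ := exists_loxo hg hm S hinf
      have hgn : ∀ n : ℕ, (n : ℝ) ≤ dist o (g ^ n • o) := by
        intro n
        induction n with
        | zero => simp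
        | succ n ih =>
          have := hl.step hg n
          push_cast
          linarith
      obtain ⟨A, hA⟩ := gh_linear hg.isom S g hgS hgn K hK hcyc
      refine ⟨A, fun n => ?_⟩
      rw [Set.ncard_eq_toFinset_card _ (V3.fin hg S n)]
      refine hA n _ fun s hs => ?_
      rw [Set.Finite.mem_toFinset] at hs
      exact hs
    · rw [Set.not_infinite] at hinf
      refine ⟨(S : Set H).ncard, fun n => ?_⟩
      calc {s : H | s ∈ S ∧ dist o (s • o) ≤ n}.ncard ≤ (S : Set H).ncard :=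
            Set.ncard_le_ncard (fun s hs => hs.1) hinf
        _ = (S : Set H).ncard * 1 := (mul_one _).symm
        _ ≤ (S : Set H).ncard * (n + 1) := Nat.mul_le_mul_left _ (by omega)
  have hA1 : 1 ≤ A := by
    have h0 := (V3.one_le hg S 0).trans (hA 0)
    simpa using h0
  have hA1' : (1 : ℝ) ≤ A := by exact_mod_cast hA1
  have hlim : Tendsto (fun n : ℕ => ENNReal.ofReal
      (Real.log ({s : H | s ∈ S ∧ dist o (s • o) ≤ n}.ncard) / n)) atTop (𝓝 0) := by
    have h1 := ENNReal.tendsto_ofReal (V3.tendsto_log (A : ℝ) (by linarith))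
    rw [ENNReal.ofReal_zero] at h1
    refine tendsto_of_tendsto_of_tendsto_of_le_of_le tendsto_const_nhds h1
      (fun n => bot_le) fun n => ENNReal.ofReal_le_ofReal ?_
    refine div_le_div_of_nonneg_right ?_ (Nat.cast_nonneg n)
    refine Real.log_le_log ?_ ?_
    · exact_mod_cast V3.one_le hg S n
    · exact_mod_cast hA n
  exact hlim.limsup_eq

theorem exists_annulus {o : X} {δ c : ℝ} (hg : Geo H X o δ c) (S : Subgroup H) (κ : ℝ)
    (hκ : 0 < κ) (h : ENNReal.ofReal κ < growthExp o S) :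
    ∃ᶠ n : ℕ in atTop, Real.exp (κ * n) ≤
      ({s : H | s ∈ S ∧ (n : ℝ) - 1 < dist o (s • o) ∧ dist o (s • o) ≤ n}.ncard : ℝ) := by
  classical
  by_contra hcon
  rw [Filter.not_frequently] at hcon
  obtain ⟨n₀, hn₀⟩ := eventually_atTop.1 hcon
  set N : ℕ → ℕ := fun n => {s : H | s ∈ S ∧ dist o (s • o) ≤ n}.ncard with hN
  have hstep : ∀ n : ℕ, N (n + 1) ≤ N n +
      {s : H | s ∈ S ∧ ((n + 1 : ℕ) : ℝ) - 1 < dist o (s • o) ∧
        dist o (s • o) ≤ ((n + 1 : ℕ) : ℝ)}.ncard := by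
    intro n
    have hsub : {s : H | s ∈ S ∧ dist o (s • o) ≤ ((n + 1 : ℕ) : ℝ)} ⊆
        {s : H | s ∈ S ∧ dist o (s • o) ≤ n} ∪
        {s : H | s ∈ S ∧ ((n + 1 : ℕ) : ℝ) - 1 < dist o (s • o) ∧
          dist o (s • o) ≤ ((n + 1 : ℕ) : ℝ)} := by
      rintro s ⟨h1, h2⟩
      by_cases h3 : dist o (s • o) ≤ n
      · exact Or.inl ⟨h1, h3⟩
      · refine Or.inr ⟨h1, ?_, h2⟩
        push_cast
        linarith [not_le.1 h3]
    refine (Set.ncard_le_ncard hsub ((V3.fin hg S n).union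
      ((V3.fin hg S ((n + 1 : ℕ) : ℝ)).subset fun s hs => ⟨hs.1, hs.2.2⟩))).trans ?_
    exact Set.ncard_union_le _ _
  have hbound : ∀ n : ℕ, n₀ ≤ n → (N n : ℝ) ≤ N n₀ + n * Real.exp (κ * n) := by
    intro n hn
    induction n, hn using Nat.le_induction with
    | base =>
      have : 0 ≤ (n₀ : ℝ) * Real.exp (κ * n₀) := by positivity
      linarith
    | succ n hn ih =>
      have h1 : (N (n + 1) : ℝ) ≤ N n + ({s : H | s ∈ S ∧ ((n + 1 : ℕ) : ℝ) - 1 < dist o (s • o) ∧
        dist o (s • o) ≤ ((n + 1 : ℕ) : ℝ)}.ncard : ℝ) := by exact_mod_cast hstep n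
      have h2 := not_le.1 (hn₀ (n + 1) (by omega))
      have h3 : Real.exp (κ * n) ≤ Real.exp (κ * ((n + 1 : ℕ) : ℝ)) := by
        refine Real.exp_le_exp.2 (mul_le_mul_of_nonneg_left ?_ hκ.le)
        push_cast
        linarith
      have h4 : (n : ℝ) * Real.exp (κ * n) ≤ n * Real.exp (κ * ((n + 1 : ℕ) : ℝ)) :=
        mul_le_mul_of_nonneg_left h3 (Nat.cast_nonneg n)
      push_cast at h1 h2 h4 ⊢
      linarith
  have hlim : Tendsto (fun n : ℕ => ENNReal.ofReal
      (κ + Real.log (((N n₀ : ℝ) + 1) * (n + 1)) / n)) atTop (𝓝 (ENNReal.ofReal κ)) := by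
    have h1 := (V3.tendsto_log ((N n₀ : ℝ) + 1) (by positivity)).const_add κ
    rw [add_zero] at h1
    exact ENNReal.tendsto_ofReal h1
  have hle : growthExp o S ≤ ENNReal.ofReal κ := by
    rw [← hlim.limsup_eq]
    unfold growthExp
    refine limsup_le_limsup ?_
    filter_upwards [eventually_ge_atTop n₀, eventually_ge_atTop 1] with n hn hn1
    refine ENNReal.ofReal_le_ofReal ?_
    have hnpos : (0 : ℝ) < n := by exact_mod_cast hn1
    have h1 := hbound n hn
    have h2 : (1 : ℝ) ≤ N n := by exact_mod_cast V3.one_le hg S n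
    have hE : 1 ≤ Real.exp (κ * n) := Real.one_le_exp (by positivity)
    have h3 : (N n : ℝ) ≤ ((N n₀ : ℝ) + 1) * (n + 1) * Real.exp (κ * n) := by
      refine h1.trans ?_
      have hN0 : (0 : ℝ) ≤ N n₀ := Nat.cast_nonneg _
      nlinarith [mul_nonneg hN0 hnpos.le, mul_nonneg (mul_nonneg hN0 hnpos.le)
        (Real.exp_pos (κ * n)).le, mul_le_mul_of_nonneg_left hE hN0]
    have h4 := Real.log_le_log (by linarith) h3
    rw [Real.log_mul (by positivity) (Real.exp_pos _).ne', Real.log_exp] at h4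
    have h5 : κ + Real.log (((N n₀ : ℝ) + 1) * (n + 1)) / n =
        (Real.log (((N n₀ : ℝ) + 1) * (n + 1)) + κ * n) / n := by
      field_simp
      ring
    rw [h5]
    exact div_le_div_of_nonneg_right h4 hnpos.le
  exact absurd h (not_lt.2 hle)

end V3

end Pool.Agent.CTZ
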