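import Pool.Agent.CTZ.VDefs
import Pool.Agent.CTZ.K4

/-!
# Row V4: four separated letters
-/

set_option autoImplicit false

open Filter Topology Set MeasureTheory Pool.Agent.Helper68.CT

namespace Pool.Agent.CTZ

section V4

variable {H X Z : Type} [Group H] [MetricSpace X] [MulAction H X]

/-- the two constants of a loxodromic element and a conjugate -/
theorem V4.conj_bounds {o : X} {δ c : ℝ} (hg : Geo H X o δ c) (s : H) :
    (∀ x y : H, gromovProduct o ((s * x * s⁻¹) • o) ((s * y * s⁻¹) • o) ≤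
      gromovProduct o (x • o) (y • o) + 3 * dist o (s • o)) ∧
    ∀ x : H, dist o (x • o) - 2 * dist o (s • o) ≤ dist o ((s * x * s⁻¹) • o) := by
  set S : ℝ := dist o (s • o) with hS
  have hnear : ∀ x : H, dist ((s * x * s⁻¹) • o) (s • x • o) = S := by
    intro x
    rw [mul_smul, mul_smul, hg.isom, hg.isom, dist_comm, GG.dist_inv hg]
  constructor
  · intro x y
    have h1 := K4.gp_move o ((s * x * s⁻¹) • o) ((s * y * s⁻¹) • o) (s • x • o) (s • y • o)
    rw [hnear, hnear] at h1
    have h2 := (abs_le.1 (gp_base o (s • o) (s • x • o) (s • y • o))).2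
    rw [gp_smul hg s] at h2
    linarith
  · intro x
    have h1 := dist_triangle (s • o) o ((s * x * s⁻¹) • o)
    have h2 := dist_triangle (s • o) ((s * x * s⁻¹) • o) (s • x • o)
    rw [hnear, hg.isom] at h2
    rw [dist_comm (s • o) o] at h1
    linarith

theorem four_letters {o : X} {δ c : ℝ} (hg : Geo H X o δ c) (g s : H) (hl : Lox o δ g) (T : ℝ)
    (hT : ∀ m n : ℤ, gromovProduct o (g ^ m • o) ((s * g * s⁻¹) ^ n • o) ≤ T) :
    ∃ T₁ : ℝ, 0 ≤ T₁ ∧ ∀ D : ℝ, ∃ N : ℕ, ∀ f : Fin 4 → H,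
      f = ![g ^ N, (g⁻¹) ^ N, (s * g * s⁻¹) ^ N, ((s * g * s⁻¹)⁻¹) ^ N] →
      (∀ a, D < dist o (f a • o)) ∧
      (∀ a b, a ≠ b → gromovProduct o (f a • o) (f b • o) ≤ T₁) ∧
      (∀ k : ℕ, gromovProduct o (f 0 • o) ((s * g * s⁻¹) ^ k • o) ≤ T₁ ∧
        gromovProduct o (f 1 • o) ((s * g * s⁻¹) ^ k • o) ≤ T₁ ∧
        gromovProduct o (f 2 • o) (g ^ k • o) ≤ T₁ ∧
        gromovProduct o (f 3 • o) (g ^ k • o) ≤ T₁) := by
  obtain ⟨hst, T₀, hT₀⟩ := K4.lox_bounds hg g hl
  obtain ⟨hcg, hcl⟩ := V4.conj_bounds hg s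
  set S : ℝ := dist o (s • o) with hS
  have hS0 : 0 ≤ S := dist_nonneg
  set T' : ℝ := max T (T₀ + 3 * S) with hT'
  have hTT' : T ≤ T' := le_max_left _ _
  have hT1' : T₀ + 3 * S ≤ T' := le_max_right _ _
  have hT0 : 0 ≤ T₀ := le_trans (K4.gp_nonneg _ _ _) (hT₀ 0 0)
  have hT0' : 0 ≤ T := le_trans (K4.gp_nonneg _ _ _) (hT 0 0)
  refine ⟨T', by linarith, fun D => ?_⟩
  obtain ⟨N, hN⟩ := exists_nat_gt (D + 2 * S)
  refine ⟨N, fun f hf => ?_⟩
  have f0 : f 0 = g ^ N := by rw [hf]; rfl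
  have f1 : f 1 = (g⁻¹) ^ N := by rw [hf]; rfl
  have f2 : f 2 = (s * g * s⁻¹) ^ N := by rw [hf]; rfl
  have f3 : f 3 = ((s * g * s⁻¹)⁻¹) ^ N := by rw [hf]; rfl
  have hlen : (N : ℝ) ≤ dist o (g ^ N • o) := by
    have h7 := GG.le_pow g hst N 0
    simp only [pow_zero, one_smul, dist_self, zero_add] at h7
    exact h7
  have c2 : (s * g * s⁻¹) ^ N = s * g ^ N * s⁻¹ := conj_pow
  have c3 : ((s * g * s⁻¹)⁻¹) ^ N = s * (g⁻¹) ^ N * s⁻¹ := by
    rw [inv_pow, c2, mul_inv_rev, mul_inv_rev, inv_inv, inv_pow, mul_assoc]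
  have hlen1 : dist o ((g⁻¹) ^ N • o) = dist o (g ^ N • o) := by
    rw [inv_pow, GG.dist_inv hg]
  -- products between the two cyclic groups
  have hx : ∀ m n : ℕ, gromovProduct o (g ^ m • o) ((s * g * s⁻¹) ^ n • o) ≤ T' := by
    intro m n
    have := hT m n
    rw [zpow_natCast, zpow_natCast] at this
    linarith
  have hx' : ∀ m n : ℕ, gromovProduct o (g⁻¹ ^ m • o) ((s * g * s⁻¹) ^ n • o) ≤ T' := by
    intro m n
    have := hT (-m) n
    rw [zpow_neg, zpow_natCast, zpow_natCast, ← inv_pow] at this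
    linarith
  have hy : ∀ m n : ℕ, gromovProduct o (g ^ m • o) (((s * g * s⁻¹)⁻¹) ^ n • o) ≤ T' := by
    intro m n
    have := hT m (-n)
    rw [zpow_neg, zpow_natCast, zpow_natCast, ← inv_pow] at this
    linarith
  have hy' : ∀ m n : ℕ, gromovProduct o (g⁻¹ ^ m • o) (((s * g * s⁻¹)⁻¹) ^ n • o) ≤ T' := by
    intro m n
    have := hT (-m) (-n)
    rw [zpow_neg, zpow_neg, zpow_natCast, zpow_natCast, ← inv_pow, ← inv_pow] at this
    linarith
  have h01 : gromovProduct o ((g⁻¹) ^ N • o) (g ^ N • o) ≤ T' := by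
    have := hT₀ N N
    linarith
  have h23 : gromovProduct o (((s * g * s⁻¹)⁻¹) ^ N • o) ((s * g * s⁻¹) ^ N • o) ≤ T' := by
    rw [c2, c3]
    have h1 := hcg ((g⁻¹) ^ N) (g ^ N)
    have h2 := hT₀ N N
    linarith
  refine ⟨?_, ?_, ?_⟩
  · intro a
    fin_cases a
    · change D < dist o (f 0 • o)
      rw [f0]
      linarith
    · change D < dist o (f 1 • o)
      rw [f1, hlen1]
      linarith
    · change D < dist o (f 2 • o)
      rw [f2, c2]
      have := hcl (g ^ N)
      linarith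
    · change D < dist o (f 3 • o)
      rw [f3, c3]
      have := hcl ((g⁻¹) ^ N)
      rw [hlen1] at this
      linarith
  · intro a b hab
    -- it is enough to look at `a < b`
    have key : ∀ a b : Fin 4, a < b → gromovProduct o (f a • o) (f b • o) ≤ T' := by
      intro a b hab
      fin_cases a <;> fin_cases b
      · exact absurd hab (by decide)
      · change gromovProduct o (f 0 • o) (f 1 • o) ≤ T'
        rw [f0, f1, gp_comm]
        exact h01
      · change gromovProduct o (f 0 • o) (f 2 • o) ≤ T'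
        rw [f0, f2]
        exact hx _ _
      · change gromovProduct o (f 0 • o) (f 3 • o) ≤ T'
        rw [f0, f3]
        exact hy _ _
      · exact absurd hab (by decide)
      · exact absurd hab (by decide)
      · change gromovProduct o (f 1 • o) (f 2 • o) ≤ T'
        rw [f1, f2]
        exact hx' _ _
      · change gromovProduct o (f 1 • o) (f 3 • o) ≤ T'
        rw [f1, f3]
        exact hy' _ _
      · exact absurd hab (by decide)
      · exact absurd hab (by decide)
      · exact absurd hab (by decide)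
      · change gromovProduct o (f 2 • o) (f 3 • o) ≤ T'
        rw [f2, f3, gp_comm]
        exact h23
      · exact absurd hab (by decide)
      · exact absurd hab (by decide)
      · exact absurd hab (by decide)
      · exact absurd hab (by decide)
    rcases lt_or_gt_of_ne hab with h | h
    · exact key a b h
    · rw [gp_comm]
      exact key b a h
  · intro k
    rw [f0, f1, f2, f3]
    refine ⟨hx _ _, hx' _ _, ?_, ?_⟩
    · rw [gp_comm]
      exact hx _ _
    · rw [gp_comm]
      exact hy _ _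

end V4

end Pool.Agent.CTZ
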