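import Pool.Agent.CTZ.VDefs
import Pool.Agent.CTZ.K4

/-!
# Row V5: the large alphabet
-/

open Filter Topology Set MeasureTheory Pool.Agent.Helper68.CT

namespace Pool.Agent.CTZ

section W

variable {H X Z : Type} [Group H] [MetricSpace X] [MulAction H X]

/-- a separated subset of a finite set -/
theorem V5.exists_sep (B : Finset H) (h1 : (1 : H) ∈ B) (hinv : ∀ x ∈ B, x⁻¹ ∈ B) (N : ℕ) :
    ∀ A : Finset H, A.card ≤ N → ∃ A' : Finset H, A' ⊆ A ∧ A.card ≤ B.card * A'.card ∧
      ∀ s ∈ A', ∀ t ∈ A', s ≠ t → s⁻¹ * t ∉ B := by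
  classical
  induction N with
  | zero =>
    intro A hA
    have : A = ∅ := Finset.card_eq_zero.1 (by omega)
    subst this
    exact ⟨∅, Finset.Subset.refl _, by simp, by simp⟩
  | succ N ih =>
    intro A hA
    rcases A.eq_empty_or_nonempty with rfl | ⟨s, hs⟩
    · exact ⟨∅, Finset.Subset.refl _, by simp, by simp⟩
    · have hcard := Finset.card_filter_add_card_filter_not (s := A) (fun t => s⁻¹ * t ∈ B)
      have hB : (A.filter (fun t => s⁻¹ * t ∈ B)).card ≤ B.card := by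
        refine Finset.card_le_card_of_injOn (fun t => s⁻¹ * t) ?_ ?_
        · intro t ht
          exact (Finset.mem_filter.1 ht).2
        · intro t _ t' _ htt
          exact mul_left_cancel htt
      have hsA : s ∈ A.filter (fun t => s⁻¹ * t ∈ B) := by
        rw [Finset.mem_filter]
        exact ⟨hs, by simpa using h1⟩
      have hpos := Finset.card_pos.2 ⟨s, hsA⟩
      obtain ⟨A', hA'1, hA'2, hA'3⟩ := ih (A.filter (fun t => ¬ s⁻¹ * t ∈ B)) (by omega)
      have hmem : ∀ t ∈ A', t ∈ A ∧ ¬ s⁻¹ * t ∈ B := fun t ht => Finset.mem_filter.1 (hA'1 ht)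
      have hsn : s ∉ A' := fun h => (hmem s h).2 (by simpa using h1)
      refine ⟨insert s A', ?_, ?_, ?_⟩
      · intro t ht
        rcases Finset.mem_insert.1 ht with rfl | ht
        · exact hs
        · exact (hmem t ht).1
      · rw [Finset.card_insert_of_notMem hsn, Nat.mul_add, Nat.mul_one]
        omega
      · intro x hx y hy hxy
        rcases Finset.mem_insert.1 hx with hx1 | hx1
        · rcases Finset.mem_insert.1 hy with hy1 | hy1
          · exact absurd (hx1.trans hy1.symm) hxy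
          · rw [hx1]
            exact (hmem y hy1).2
        · rcases Finset.mem_insert.1 hy with hy1 | hy1
          · intro hB'
            have := hinv _ hB'
            rw [mul_inv_rev, inv_inv, hy1] at this
            exact (hmem x hx1).2 this
          · exact hA'3 x hx1 y hy1 hxy

/-- a good letter -/
theorem V5.exists_good {o : X} {δ c : ℝ} (hg : Geo H X o δ c) (f : Fin 4 → H) (T₁ : ℝ)
    (hT₁ : 0 ≤ T₁) (hpair : ∀ a b, a ≠ b → gromovProduct o (f a • o) (f b • o) ≤ T₁)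
    (σ : Fin 4 → Fin 4) (hσ : ∀ a, (f a)⁻¹ = f (σ a))
    (hbig : ∀ a, 10 * T₁ + 100 * δ + 100 ≤ dist o (f a • o)) (s : H) :
    ∃ b : Fin 4, gromovProduct o (s⁻¹ • o) (f b • o) ≤ T₁ + δ ∧
      gromovProduct o (s • o) (f (σ b) • o) ≤ T₁ + δ := by
  have hδ := hg.δ0
  have bad : ∀ (x : H) (a b : Fin 4), a ≠ b → T₁ + δ < gromovProduct o (x • o) (f a • o) →
      T₁ + δ < gromovProduct o (x • o) (f b • o) → False := by
    intro x a b hab ha hb
    have h1 := hg.hyp o (f a • o) (x • o) (f b • o)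
    rw [gp_comm o (f a • o) (x • o)] at h1
    have h2 := hpair a b hab
    have h3 := lt_min ha hb
    linarith
  have hinj : ∀ a b, a ≠ b → σ a ≠ σ b := by
    intro a b hab h
    have h1 : f a = f b := by
      have : (f a)⁻¹ = (f b)⁻¹ := by rw [hσ, hσ, h]
      exact inv_injective this
    have h2 := hpair a b hab
    rw [h1] at h2
    have h3 := hbig b
    unfold gromovProduct at h2
    rw [dist_self] at h2
    linarith
  by_contra hcon
  push Not at hcon
  have key : ∀ b : Fin 4, T₁ + δ < gromovProduct o (s⁻¹ • o) (f b • o) ∨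
      T₁ + δ < gromovProduct o (s • o) (f (σ b) • o) := by
    intro b
    by_cases hb : gromovProduct o (s⁻¹ • o) (f b • o) ≤ T₁ + δ
    · exact Or.inr (hcon b hb)
    · exact Or.inl (not_le.1 hb)
  have n01 : (0 : Fin 4) ≠ 1 := by decide
  have n02 : (0 : Fin 4) ≠ 2 := by decide
  have n12 : (1 : Fin 4) ≠ 2 := by decide
  rcases key 0 with h0 | h0
  · rcases key 1 with h1 | h1
    · exact bad _ _ _ n01 h0 h1
    · rcases key 2 with h2 | h2
      · exact bad _ _ _ n02 h0 h2
      · exact bad _ _ _ (hinj _ _ n12) h1 h2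
  · rcases key 1 with h1 | h1
    · rcases key 2 with h2 | h2
      · exact bad _ _ _ n12 h1 h2
      · exact bad _ _ _ (hinj _ _ n02) h0 h2
    · exact bad _ _ _ (hinj _ _ n01) h0 h1

theorem exists_alphabet {o : X} {δ c : ℝ} (hg : Geo H X o δ c) (f : Fin 4 → H) (T₁ : ℝ)
    (hT₁ : 0 ≤ T₁) (hpair : ∀ a b, a ≠ b → gromovProduct o (f a • o) (f b • o) ≤ T₁)
    (σ : Fin 4 → Fin 4) (hσ : ∀ a, (f a)⁻¹ = f (σ a))
    (hbig : ∀ a, 10 * T₁ + 100 * δ + 100 ≤ dist o (f a • o)) :
    ∃ K : ℝ, 0 < K ∧ ∃ n₀ : ℕ, ∀ n ≥ n₀, ∀ A : Finset H,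
      (∀ s ∈ A, (n : ℝ) - 1 < dist o (s • o) ∧ dist o (s • o) ≤ n) →
      ∃ (b : Fin 4) (A' : Finset H), A' ⊆ A ∧ (A.card : ℝ) ≤ K * A'.card ∧
        PG o δ (T₁ + 4 * δ) n (fun s : A' => (s : H) * f b) ∧
        ∀ s ∈ A', gromovProduct o (s⁻¹ • o) (f b • o) ≤ T₁ + δ := by
  classical
  have hδ := hg.δ0
  choose β hβ1 hβ2 using V5.exists_good hg f T₁ hT₁ hpair σ hσ hbig
  set B : Finset H := (hg.fin (2 * T₁ + 6 * δ + 4)).toFinset with hB
  have hmemB : ∀ x : H, x ∈ B ↔ dist o (x • o) ≤ 2 * T₁ + 6 * δ + 4 := fun x => by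
    rw [hB, Set.Finite.mem_toFinset]
    rfl
  have h1B : (1 : H) ∈ B := by
    rw [hmemB, one_smul, dist_self]
    linarith
  have hinvB : ∀ x ∈ B, x⁻¹ ∈ B := fun x hx => by
    rw [hmemB] at hx ⊢
    rw [GG.dist_inv hg]
    exact hx
  have hBpos : 0 < B.card := Finset.card_pos.2 ⟨1, h1B⟩
  obtain ⟨n₀, hn₀⟩ := exists_nat_gt (2 * T₁ + 3 * δ + 1)
  refine ⟨4 * B.card, by positivity, n₀, fun n hn A hA => ?_⟩
  have hn' : 2 * T₁ + 3 * δ + 1 < n := lt_of_lt_of_le hn₀ (by exact_mod_cast hn)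
  -- the most frequent letter
  obtain ⟨b, -, hb⟩ := Finset.exists_max_image (Finset.univ : Finset (Fin 4))
    (fun b => (A.filter (fun s => β s = b)).card) ⟨0, Finset.mem_univ _⟩
  have hsum : A.card ≤ 4 * (A.filter (fun s => β s = b)).card := by
    have h1 := Finset.card_eq_sum_card_fiberwise (s := A) (t := (Finset.univ : Finset (Fin 4)))
      (f := β) (fun x _ => by simp)
    rw [h1]
    refine (Finset.sum_le_card_nsmul _ _ _ hb).trans ?_
    simp
  obtain ⟨A', hA'1, hA'2, hA'3⟩ := V5.exists_sep B h1B hinvB _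
    (A.filter (fun s => β s = b)) le_rfl
  have hmem : ∀ s ∈ A', s ∈ A ∧ β s = b := fun s hs => Finset.mem_filter.1 (hA'1 hs)
  have g1 : ∀ s ∈ A', gromovProduct o (s⁻¹ • o) (f b • o) ≤ T₁ + δ := fun s hs => by
    have := hβ1 s
    rw [(hmem s hs).2] at this
    exact this
  have g2 : ∀ s ∈ A', gromovProduct o (s • o) (f (σ b) • o) ≤ T₁ + δ := fun s hs => by
    have := hβ2 s
    rw [(hmem s hs).2] at this
    exact this
  have hfb := hbig b
  have hlen : ∀ s ∈ A', (n : ℝ) - 1 + dist o (f b • o) - 2 * T₁ - 2 * δ ≤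
      dist o ((s * f b) • o) := fun s hs => by
    have h1 := K4.len_mul hg s (f b)
    have h2 := g1 s hs
    have h3 := (hA s (hmem s hs).1).1
    linarith
  have hspl : ∀ s ∈ A', (n : ℝ) - 1 - T₁ - δ ≤
      gromovProduct o (s • o) ((s * f b) • o) := fun s hs => by
    have h1 := K4.gp_split hg s (f b)
    have h2 := g1 s hs
    have h3 := (hA s (hmem s hs).1).1
    linarith
  have hinv : ∀ s ∈ A', dist o (f b • o) - T₁ - δ ≤
      gromovProduct o (f (σ b) • o) ((s * f b)⁻¹ • o) := fun s hs => by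
    have h1 := K4.gp_split hg (f b)⁻¹ s⁻¹
    rw [inv_inv, GG.dist_inv hg, gp_comm o (f b • o) (s⁻¹ • o)] at h1
    have h2 := g1 s hs
    rw [mul_inv_rev, ← hσ, h1]
    linarith
  refine ⟨b, A', fun s hs => (hmem s hs).1, ?_, ⟨?_, ?_, ?_, ?_, ?_⟩, g1⟩
  · have h1 : A.card ≤ 4 * (B.card * A'.card) := hsum.trans (Nat.mul_le_mul_left 4 hA'2)
    have h2 : (A.card : ℝ) ≤ ((4 * (B.card * A'.card) : ℕ) : ℝ) := by exact_mod_cast h1
    rw [mul_assoc]
    push_cast at h2
    exact h2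
  · linarith
  · rintro ⟨s, hs⟩ ⟨t, ht⟩
    by_contra hcon
    push Not at hcon
    dsimp only at hcon
    have h1 := hg.hyp o (f (σ b) • o) ((s * f b)⁻¹ • o) ((t * f b) • o)
    have h2 := hg.hyp o (f (σ b) • o) ((t * f b) • o) (t • o)
    rw [gp_comm o ((t * f b) • o) (t • o), gp_comm o (f (σ b) • o) (t • o)] at h2
    have h3 := hinv s hs
    have h4 := hspl t ht
    have h5 := g2 t ht
    have h6 : T₁ + 4 * δ < gromovProduct o (f (σ b) • o) ((s * f b)⁻¹ • o) := by linarith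
    have h7 := lt_min h6 hcon
    have h8 : T₁ + 2 * δ < gromovProduct o (f (σ b) • o) ((t * f b) • o) := by linarith
    have h9 : T₁ + 2 * δ < gromovProduct o (t • o) ((t * f b) • o) := by linarith
    have h10 := lt_min h8 h9
    linarith
  · rintro ⟨s, hs⟩ ⟨t, ht⟩ hst
    have hst' : s ≠ t := fun h => hst (Subtype.ext h)
    by_contra hcon
    push Not at hcon
    dsimp only at hcon
    have h1 := hg.hyp o (s • o) ((s * f b) • o) ((t * f b) • o)
    have h2 := hg.hyp o (s • o) ((t * f b) • o) (t • o)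
    rw [gp_comm o ((t * f b) • o) (t • o)] at h2
    have h3 := hspl s hs
    have h4 := hspl t ht
    have h5 : (n : ℝ) - 1 - T₁ - δ ≤ gromovProduct o ((s * f b) • o) ((t * f b) • o) := by
      linarith
    have h6 := le_min h3 h5
    have h7 : (n : ℝ) - 1 - T₁ - 2 * δ ≤ gromovProduct o (s • o) ((t * f b) • o) := by linarith
    have h8 : (n : ℝ) - 1 - T₁ - 2 * δ ≤ gromovProduct o (t • o) ((t * f b) • o) := by linarith
    have h9 := le_min h7 h8
    have h10 := K4.len_mul hg s⁻¹ t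
    rw [inv_inv, GG.dist_inv hg] at h10
    have h11 := (hA s (hmem s hs).1).2
    have h12 := (hA t (hmem t ht).1).2
    have h13 := hA'3 s hs t ht hst'
    rw [hmemB] at h13
    apply h13
    rw [h10]
    linarith
  · rintro ⟨s, hs⟩
    have h1 := hlen s hs
    have h2 : (0 : ℝ) ≤ n := Nat.cast_nonneg n
    dsimp only
    linarith
  · rintro ⟨s, hs⟩
    have h1 := hlen s hs
    dsimp only
    linarith

end W

end Pool.Agent.CTZ
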