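import Pool.Agent.CTZ.VDefs
import Pool.Agent.CTZ.K4

/-!
# Row V6: ping-pong words over a finite alphabet
-/

set_option autoImplicit false

open Filter Topology Set MeasureTheory Pool.Agent.Helper68.CT

namespace Pool.Agent.CTZ

section V6

variable {H X Z : Type} [Group H] [MetricSpace X] [MulAction H X]

/-- first letter -/
theorem V6.succ' {ι : Type} (u : ι → H) (ω : ℕ → ι) (n : ℕ) :
    wp u ω (n + 1) = u (ω 0) * wp u (fun k => ω (k + 1)) n := by
  induction n with
  | zero => simp [wp]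
  | succ n ih =>
    rw [wp, ih, mul_assoc]
    rfl

theorem V6.add {ι : Type} (u : ι → H) (ω : ℕ → ι) (m n : ℕ) :
    wp u ω (m + n) = wp u ω m * wp u (fun k => ω (m + k)) n := by
  induction n with
  | zero => simp [wp]
  | succ n ih =>
    rw [← add_assoc, wp, ih, mul_assoc]
    rfl

theorem V6.congr {ι : Type} (u : ι → H) (ω ω' : ℕ → ι) (n : ℕ) (h : ∀ k < n, ω k = ω' k) :
    wp u ω n = wp u ω' n := by
  induction n with
  | zero => rfl
  | succ n ih =>
    rw [wp, wp, ih (fun k hk => h k (by omega)), h n (by omega)]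

/-- a word and the next letter -/
theorem PG.letter {ι : Type} {o : X} {δ c T M : ℝ} (hg : Geo H X o δ c) {u : ι → H}
    (h : PG o δ T M u) (n : ℕ) (ω : ℕ → ι) (b : ι) :
    gromovProduct o ((wp u ω n)⁻¹ • o) (u b • o) ≤ T + δ := by
  have hδ := hg.δ0
  have hT := h.T0
  induction n generalizing b with
  | zero =>
    have : gromovProduct o ((wp u ω 0)⁻¹ • o) (u b • o) = 0 := by
      simp [wp, gromovProduct]
    rw [this]
    linarith
  | succ n ih =>
    have h1 : gromovProduct o ((u (ω n))⁻¹ • o) ((wp u ω (n + 1))⁻¹ • o) =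
        dist o (u (ω n) • o) - gromovProduct o ((wp u ω n)⁻¹ • o) (u (ω n) • o) := by
      have := K4.gp_split hg (u (ω n))⁻¹ (wp u ω n)⁻¹
      rw [wp, mul_inv_rev, this, GG.dist_inv hg, inv_inv, gp_comm o (u (ω n) • o)]
    have h2 := ih (ω n)
    have h3 := h.big (ω n)
    have h4 := hg.hyp o ((u (ω n))⁻¹ • o) ((wp u ω (n + 1))⁻¹ • o) (u b • o)
    have h5 := h.gp (ω n) b
    by_contra hcon
    push Not at hcon
    have h6 : T + δ < gromovProduct o ((u (ω n))⁻¹ • o) ((wp u ω (n + 1))⁻¹ • o) := by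
      rw [h1]; linarith
    have := lt_min h6 hcon
    linarith

/-- a letter and a word -/
theorem PG.word {ι : Type} {o : X} {δ c T M : ℝ} (hg : Geo H X o δ c) {u : ι → H}
    (h : PG o δ T M u) (n : ℕ) (ω : ℕ → ι) (a : ι) :
    gromovProduct o ((u a)⁻¹ • o) (wp u ω n • o) ≤ T + δ := by
  have hδ := hg.δ0
  have hT := h.T0
  induction n generalizing ω a with
  | zero =>
    have : gromovProduct o ((u a)⁻¹ • o) (wp u ω 0 • o) = 0 := by
      simp [wp, gromovProduct, dist_comm]
    rw [this]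
    linarith
  | succ n ih =>
    have h1 : gromovProduct o (u (ω 0) • o) (wp u ω (n + 1) • o) =
        dist o (u (ω 0) • o) -
          gromovProduct o ((u (ω 0))⁻¹ • o) (wp u (fun k => ω (k + 1)) n • o) := by
      rw [V6.succ', K4.gp_split hg]
    have h2 := ih (fun k => ω (k + 1)) (ω 0)
    have h3 := h.big (ω 0)
    have h4 := hg.hyp o ((u a)⁻¹ • o) (wp u ω (n + 1) • o) (u (ω 0) • o)
    rw [gp_comm o (wp u ω (n + 1) • o) (u (ω 0) • o)] at h4
    have h5 := h.gp a (ω 0)
    by_contra hcon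
    push Not at hcon
    have h6 : T + δ < gromovProduct o (u (ω 0) • o) (wp u ω (n + 1) • o) := by
      rw [h1]; linarith
    have := lt_min hcon h6
    linarith

/-- the first letter of a word -/
theorem PG.first {ι : Type} {o : X} {δ c T M : ℝ} (hg : Geo H X o δ c) {u : ι → H}
    (h : PG o δ T M u) (n : ℕ) (ω : ℕ → ι) :
    dist o (u (ω 0) • o) - T - δ ≤
      gromovProduct o (u (ω 0) • o) (wp u ω (n + 1) • o) := by
  rw [V6.succ', K4.gp_split hg]
  have := h.word hg n (fun k => ω (k + 1)) (ω 0)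
  linarith

/-- an inverse word and a word -/
theorem PG.words {ι : Type} {o : X} {δ c T M : ℝ} (hg : Geo H X o δ c) {u : ι → H}
    (h : PG o δ T M u) (m n : ℕ) (ω ω' : ℕ → ι) :
    gromovProduct o ((wp u ω m)⁻¹ • o) (wp u ω' n • o) ≤ T + 2 * δ := by
  have hδ := hg.δ0
  have hT := h.T0
  rcases n with _ | n
  · have : gromovProduct o ((wp u ω m)⁻¹ • o) (wp u ω' 0 • o) = 0 := by
      simp [wp, gromovProduct, dist_comm]
    rw [this]
    linarith
  · have h1 := h.first hg n ω'
    have h2 := h.big (ω' 0)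
    have h3 := h.letter hg m ω (ω' 0)
    have h4 := hg.hyp o ((wp u ω m)⁻¹ • o) (wp u ω' (n + 1) • o) (u (ω' 0) • o)
    rw [gp_comm o (wp u ω' (n + 1) • o) (u (ω' 0) • o)] at h4
    by_contra hcon
    push Not at hcon
    have h6 : T + 2 * δ < gromovProduct o (u (ω' 0) • o) (wp u ω' (n + 1) • o) := by
      linarith
    have := lt_min hcon h6
    linarith

/-- different first letters -/
theorem PG.diff {ι : Type} {o : X} {δ c T M : ℝ} (hg : Geo H X o δ c) {u : ι → H}
    (h : PG o δ T M u) (m n : ℕ) (ω ω' : ℕ → ι) (hne : ω 0 ≠ ω' 0) :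
    gromovProduct o (wp u ω m • o) (wp u ω' n • o) ≤ M + 2 * δ := by
  have hδ := hg.δ0
  have hT := h.T0
  have s1 := h.sep _ _ hne
  have hM : 0 ≤ M := le_trans (K4.gp_nonneg _ _ _) s1
  rcases m with _ | m
  · have : gromovProduct o (wp u ω 0 • o) (wp u ω' n • o) = 0 := by
      simp [wp, gromovProduct]
    rw [this]
    linarith
  rcases n with _ | n
  · have : gromovProduct o (wp u ω (m + 1) • o) (wp u ω' 0 • o) = 0 := by
      have e : wp u ω' 0 = 1 := rfl
      rw [e, one_smul]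
      unfold gromovProduct
      rw [dist_self, dist_comm o]
      ring
    rw [this]
    linarith
  have f1 := h.first hg m ω
  have f2 := h.first hg n ω'
  have b1 := h.bigM (ω 0)
  have b2 := h.bigM (ω' 0)
  -- the first letter of `ω` and the word of `ω'`
  have k1 : gromovProduct o (u (ω 0) • o) (wp u ω' (n + 1) • o) ≤ M + δ := by
    have h4 := hg.hyp o (u (ω 0) • o) (wp u ω' (n + 1) • o) (u (ω' 0) • o)
    rw [gp_comm o (wp u ω' (n + 1) • o) (u (ω' 0) • o)] at h4
    by_contra hcon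
    push Not at hcon
    have h6 : M + δ < gromovProduct o (u (ω' 0) • o) (wp u ω' (n + 1) • o) := by linarith
    have := lt_min hcon h6
    linarith
  have h4 := hg.hyp o (u (ω 0) • o) (wp u ω (m + 1) • o) (wp u ω' (n + 1) • o)
  by_contra hcon
  push Not at hcon
  have h6 : M + 2 * δ < gromovProduct o (u (ω 0) • o) (wp u ω (m + 1) • o) := by linarith
  have := lt_min h6 hcon
  linarith

theorem PG.step {ι : Type} {o : X} {δ c T M : ℝ} (hg : Geo H X o δ c) {u : ι → H}
    (h : PG o δ T M u) (ω : ℕ → ι) (n : ℕ) :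
    dist o (wp u ω n • o) + 1 ≤ dist o (wp u ω (n + 1) • o) := by
  have hδ := hg.δ0
  have hT := h.T0
  have h1 := K4.len_mul hg (wp u ω n) (u (ω n))
  have h2 := h.letter hg n ω (ω n)
  have h3 := h.big (ω n)
  rw [wp, h1]
  linarith

theorem PG.le_len {ι : Type} {o : X} {δ c T M : ℝ} (hg : Geo H X o δ c) {u : ι → H}
    (h : PG o δ T M u) (ω : ℕ → ι) (n : ℕ) : (n : ℝ) ≤ dist o (wp u ω n • o) := by
  induction n with
  | zero => simp [wp]
  | succ n ih =>
    have := h.step hg ω n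
    push_cast
    linarith

/-- the products of the prefixes with the whole word are large -/
theorem PG.gp_prefix {ι : Type} {o : X} {δ c T M : ℝ} (hg : Geo H X o δ c) {u : ι → H}
    (h : PG o δ T M u) (ω : ℕ → ι) (m n : ℕ) (hmn : m ≤ n) :
    dist o (wp u ω m • o) - T - 2 * δ ≤
      gromovProduct o (wp u ω m • o) (wp u ω n • o) := by
  obtain ⟨k, rfl⟩ := Nat.exists_eq_add_of_le hmn
  rw [V6.add, K4.gp_split hg]
  have := h.words hg m k ω (fun j => ω (m + j))
  linarith

theorem PG.toInf {ι : Type} {o : X} {δ c T M : ℝ} (hg : Geo H X o δ c) {u : ι → H}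
    (h : PG o δ T M u) (ω : ℕ → ι) :
    ToInfinity (fun n => wp u ω n • o) (fun n => wp u ω n • o) := by
  refine toInfinity_of o fun s => ?_
  obtain ⟨N, hN⟩ := exists_nat_ge (s + T + 2 * δ)
  filter_upwards [eventually_ge_atTop ((N, N) : ℕ × ℕ)] with ij hij
  have h1 : N ≤ ij.1 := hij.1
  have h2 : N ≤ ij.2 := hij.2
  have h1' : (N : ℝ) ≤ ij.1 := by exact_mod_cast h1
  have h2' : (N : ℝ) ≤ ij.2 := by exact_mod_cast h2
  rcases le_total ij.1 ij.2 with h3 | h3
  · have h4 := h.gp_prefix hg ω _ _ h3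
    have h5 := h.le_len hg ω ij.1
    linarith
  · have h4 := h.gp_prefix hg ω _ _ h3
    have h5 := h.le_len hg ω ij.2
    rw [gp_comm]
    linarith

theorem PG.ends {ι : Type} {o : X} {δ c T M : ℝ} (hg : Geo H X o δ c) {u : ι → H}
    (h : PG o δ T M u) (ω : ℕ → ι) : ∃ p, EndsAt (fun n => wp u ω n • o) p :=
  ⟨_, h.toInf hg ω, rfl⟩

/-- the length of a word is at most linear -/
theorem V6.len_le {ι : Type} {o : X} {δ c : ℝ} (hg : Geo H X o δ c) (u : ι → H) (L : ℝ)
    (hL : ∀ b, dist o (u b • o) ≤ L) (ω : ℕ → ι) (n : ℕ) :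
    dist o (wp u ω n • o) ≤ L * n := by
  induction n with
  | zero => simp [wp]
  | succ n ih =>
    have h1 := K4.len_mul_le hg (wp u ω n) (u (ω n))
    have h2 := hL (ω n)
    rw [wp]
    push_cast
    linarith

/-- words that differ at the letter `n` have products at most linear in `n` -/
theorem PG.gp_sep {ι : Type} {o : X} {δ c T M : ℝ} (hg : Geo H X o δ c) {u : ι → H}
    (h : PG o δ T M u) (L : ℝ) (hL : ∀ a, dist o (u a • o) ≤ L) (ω ω' : ℕ → ι) (n : ℕ)
    (hlt : ∀ k < n, ω k = ω' k) (hne : ω n ≠ ω' n) (m m' : ℕ) :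
    gromovProduct o (wp u ω m • o) (wp u ω' m' • o) ≤ L * n + (L + 2 * δ) := by
  have hδ := hg.δ0
  have hT := h.T0
  have hL0 : 0 ≤ L := le_trans dist_nonneg (hL (ω n))
  have hML : M ≤ L := by
    have h1 := h.bigM (ω n)
    have h2 := hL (ω n)
    linarith
  have hn0 : (0 : ℝ) ≤ n := Nat.cast_nonneg n
  rcases Nat.le_total m n with hm | hm
  · have h1 := V6.len_le hg u L hL ω m
    have h2 := K4.gp_le_left o (wp u ω m • o) (wp u ω' m' • o)
    have h3 : (m : ℝ) ≤ n := by exact_mod_cast hm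
    nlinarith [mul_le_mul_of_nonneg_left h3 hL0]
  rcases Nat.le_total m' n with hm' | hm'
  · have h1 := V6.len_le hg u L hL ω' m'
    have h2 := K4.gp_le_right o (wp u ω m • o) (wp u ω' m' • o)
    have h3 : (m' : ℝ) ≤ n := by exact_mod_cast hm'
    nlinarith [mul_le_mul_of_nonneg_left h3 hL0]
  obtain ⟨k, rfl⟩ := Nat.exists_eq_add_of_le hm
  obtain ⟨k', rfl⟩ := Nat.exists_eq_add_of_le hm'
  have e : wp u ω' n = wp u ω n := (V6.congr u ω ω' n hlt).symm
  have h1 := (abs_le.1 (gp_base o (wp u ω n • o) (wp u ω (n + k) • o)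
    (wp u ω' (n + k') • o))).2
  rw [V6.add u ω n k, V6.add u ω' n k', e, mul_smul, mul_smul,
    gp_smul hg (wp u ω n)] at h1
  have h2 := h.diff hg k k' (fun j => ω (n + j)) (fun j => ω' (n + j)) (by simpa using hne)
  have h3 := V6.len_le hg u L hL ω n
  rw [V6.add u ω n k, V6.add u ω' n k', e, mul_smul, mul_smul]
  linarith

end V6

end Pool.Agent.CTZ
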