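import Pool.Agent.CTZ.VDefs
import Pool.Agent.CTZ.K5

/-!
# Row V7: the dimension of a ping-pong set over a finite alphabet
-/

set_option autoImplicit false

open Filter Topology Set MeasureTheory Pool.Agent.Helper68.CT

namespace Pool.Agent.CTZ

/-- codes over `q` digits, separated geometrically -/
theorem dimH_ge_of_digits_q {Y : Type} [MetricSpace Y] (q : ℕ) (hq : 2 ≤ q) (E : Set Y)
    (e : (ℕ → Fin q) → Y) (he : ∀ x, e x ∈ E) (c θ : ℝ) (hc : 0 < c) (hθ : 0 < θ) (hθ1 : θ < 1)
    (h : ∀ (x y : ℕ → Fin q) (n : ℕ), (∀ k < n, x k = y k) → x n ≠ y n →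
      c * θ ^ n ≤ dist (e x) (e y)) :
    ENNReal.ofReal (Real.log q / (-Real.log θ)) ≤ dimH E := by
  classical
  have hq0 : (0 : ℝ) < q := by exact_mod_cast (by omega : 0 < q)
  have hq1 : (1 : ℝ) < q := by exact_mod_cast (by omega : 1 < q)
  have : NeZero q := ⟨by omega⟩
  have hlog : Real.log θ < 0 := Real.log_neg hθ hθ1
  have hlog2 : 0 < Real.log q := Real.log_pos hq1
  set s : ℝ := Real.log q / (-Real.log θ) with hs
  have hs0 : 0 < s := div_pos hlog2 (by linarith)
  have hθs : θ ^ s = 1 / q := by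
    rw [Real.rpow_def_of_pos hθ]
    have hne : Real.log θ ≠ 0 := hlog.ne
    have : Real.log θ * s = -Real.log q := by
      rw [hs]
      field_simp
    rw [this, Real.exp_neg, Real.exp_log hq0, one_div]
  -- first difference
  have hdiff : ∀ x y : ℕ → Fin q, x ≠ y → ∃ n, (∀ i < n, x i = y i) ∧ x n ≠ y n := by
    intro x y hxy
    have h1 : ∃ n, x n ≠ y n := by
      by_contra hcon
      push Not at hcon
      exact hxy (funext hcon)
    refine ⟨Nat.find h1, fun i hi => ?_, Nat.find_spec h1⟩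
    by_contra h2
    exact Nat.find_min h1 hi h2
  have hinj : Function.Injective e := by
    intro x y hxy
    by_contra hne
    obtain ⟨n, h1, h2⟩ := hdiff x y hne
    have h3 := h x y n h1 h2
    rw [hxy, dist_self] at h3
    have : 0 < c * θ ^ n := by positivity
    linarith
  set f : Y → ℝ := fun y => if hy : ∃ x, e x = y then Real.ofDigits hy.choose else 0 with hf
  have hfe : ∀ x, f (e x) = Real.ofDigits x := by
    intro x
    have hy : ∃ x', e x' = e x := ⟨x, rfl⟩
    have h1 : f (e x) = Real.ofDigits hy.choose := dif_pos hy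
    rw [h1, hinj hy.choose_spec]
  have hcs : 0 < c ^ (-s) := Real.rpow_pos_of_pos hc _
  have hold : HolderOnWith (Real.toNNReal (c ^ (-s))) (Real.toNNReal s) f (range e) := by
    rintro _ ⟨x, rfl⟩ _ ⟨y, rfl⟩
    rw [hfe, hfe]
    by_cases hxy : x = y
    · rw [hxy, edist_self]
      exact bot_le
    obtain ⟨n, h1, h2⟩ := hdiff x y hxy
    have h3 := h x y n h1 h2
    have h4 := Real.abs_ofDigits_sub_ofDigits_le (b := q) h1
    have h5 : |Real.ofDigits x - Real.ofDigits y| ≤ c ^ (-s) * dist (e x) (e y) ^ s := by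
      refine h4.trans ?_
      have h6 : (c * θ ^ n) ^ s ≤ dist (e x) (e y) ^ s :=
        Real.rpow_le_rpow (by positivity) h3 hs0.le
      have h7 : (c * θ ^ n) ^ s = c ^ s * (1 / q) ^ n := by
        rw [Real.mul_rpow hc.le (by positivity), ← Real.rpow_natCast θ n, ← Real.rpow_mul hθ.le,
          mul_comm (n : ℝ) s, Real.rpow_mul hθ.le, hθs, Real.rpow_natCast]
      rw [h7] at h6
      calc ((q : ℝ) ^ n)⁻¹ = c ^ (-s) * (c ^ s * (1 / q) ^ n) := by
            rw [← mul_assoc, ← Real.rpow_add hc, neg_add_cancel, Real.rpow_zero, one_mul, one_div,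
              inv_pow]
        _ ≤ _ := mul_le_mul_of_nonneg_left h6 hcs.le
    rw [edist_dist, edist_dist, Real.dist_eq]
    have h8 : (Real.toNNReal s : ℝ) = s := Real.coe_toNNReal _ hs0.le
    rw [h8, ENNReal.ofReal_rpow_of_nonneg dist_nonneg hs0.le]
    have h9 : ((Real.toNNReal (c ^ (-s)) : NNReal) : ENNReal) = ENNReal.ofReal (c ^ (-s)) := rfl
    rw [h9, ← ENNReal.ofReal_mul hcs.le]
    exact ENNReal.ofReal_le_ofReal h5
  have h1 := hold.dimH_image_le (Real.toNNReal_pos.2 hs0)
  have h2 : Set.Icc (0 : ℝ) 1 ⊆ f '' range e := by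
    intro t ht
    obtain ⟨x, -, hx⟩ := Real.ofDigits_SurjOn (b := q) (by omega) ht
    exact ⟨e x, ⟨x, rfl⟩, by rw [hfe, hx]⟩
  have h3 : dimH (Set.Icc (0 : ℝ) 1) = 1 := by
    have : (interior (Set.Icc (0 : ℝ) 1)).Nonempty := by
      rw [interior_Icc]
      exact ⟨1 / 2, by norm_num, by norm_num⟩
    rw [Real.dimH_of_nonempty_interior this]
    simp
  have h4 : (1 : ENNReal) ≤ dimH (range e) / ((Real.toNNReal s : NNReal) : ENNReal) := by
    rw [← h3]
    exact (dimH_mono h2).trans h1
  have h5 : ENNReal.ofReal s ≤ dimH (range e) := by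
    have h6 : ((Real.toNNReal s : NNReal) : ENNReal) = ENNReal.ofReal s := rfl
    rw [h6] at h4
    have h7 : ENNReal.ofReal s ≠ 0 := by
      rw [Ne, ENNReal.ofReal_eq_zero]
      linarith
    rw [ENNReal.le_div_iff_mul_le (Or.inl h7) (Or.inl ENNReal.ofReal_ne_top), one_mul] at h4
    exact h4
  exact h5.trans (dimH_mono (by rintro _ ⟨x, rfl⟩; exact he x))

section V7

variable {H X Z : Type} [Group H] [MetricSpace X] [MulAction H X]

/-- lower bound of the dimension, from the statements of row V6 -/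
theorem pg_dim_of {ι : Type} [Fintype ι] {o : X} {δ c : ℝ} (hg : Geo H X o δ c) {u : ι → H}
    (hι : 2 ≤ Fintype.card ι) (L C' : ℝ) (hL0 : 0 < L)
    (hends : ∀ ω : ℕ → ι, ∃ p, EndsAt (fun n => wp u ω n • o) p)
    (hsep : ∀ (ω ω' : ℕ → ι) (n : ℕ), (∀ k < n, ω k = ω' k) → ω n ≠ ω' n →
      ∀ m m' : ℕ, gromovProduct o (wp u ω m • o) (wp u ω' m' • o) ≤ L * n + C')
    {a : ℝ} (ha : 1 < a) {d : MetricSpace (Boundary X)} (hd : IsVisual a o d)
    (E : Set (Boundary X))
    (hE : ∀ (ω : ℕ → ι) (p : Boundary X), EndsAt (fun n => wp u ω n • o) p → p ∈ E) :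
    ENNReal.ofReal (Real.log (Fintype.card ι) / (L * Real.log a)) ≤ dimWith d E := by
  obtain ⟨C, hC, hlow⟩ := visual_lower hg ha hd
  choose e he using hends
  have ha0 : 0 < a := by linarith
  unfold dimWith
  let _ := d
  let g : Fin (Fintype.card ι) ≃ ι := (Fintype.equivFin ι).symm
  have h0 := dimH_ge_of_digits_q (Fintype.card ι) hι E (fun x => e (fun n => g (x n)))
    (fun x => hE _ _ (he _)) (C * a ^ (-C')) (a ^ (-L)) (by positivity) (by positivity)
    (Real.rpow_lt_one_of_one_lt_of_neg ha (by linarith)) (by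
      intro x y n hxy hn
      have h1 := hsep (fun n => g (x n)) (fun n => g (y n)) n (fun k hk => by
        show g (x k) = g (y k)
        rw [hxy k hk]) (fun h => hn (g.injective h))
      have h2 := hlow _ _ _ _ (L * n + C') (he (fun n => g (x n))) (he (fun n => g (y n))) h1
      refine le_trans (le_of_eq ?_) h2
      rw [← Real.rpow_natCast, ← Real.rpow_mul ha0.le, mul_assoc, ← Real.rpow_add ha0]
      congr 2
      ring)
  have h1 : -Real.log (a ^ (-L)) = L * Real.log a := by
    rw [Real.log_rpow ha0]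
    ring
  rw [h1] at h0
  exact h0

end V7

end Pool.Agent.CTZ
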