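import Pool.Agent.CTZ.V6
import Pool.Agent.CTZ.V7

/-!
# Row V7: the dimension of a ping-pong set over a finite alphabet (final form)
-/

set_option autoImplicit false

open Filter Topology Set MeasureTheory Pool.Agent.Helper68.CT

namespace Pool.Agent.CTZ

theorem pg_dim {H X : Type} [Group H] [MetricSpace X] [MulAction H X]
    {ι : Type} [Fintype ι] {o : X} {δ c T M : ℝ} (hg : Geo H X o δ c) {u : ι → H}
    (h : PG o δ T M u) (hι : 2 ≤ Fintype.card ι) (L : ℝ) (hL0 : 0 < L)
    (hL : ∀ a, dist o (u a • o) ≤ L) {a : ℝ} (ha : 1 < a) {d : MetricSpace (Boundary X)}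
    (hd : IsVisual a o d) (E : Set (Boundary X))
    (hE : ∀ (ω : ℕ → ι) (p : Boundary X), EndsAt (fun n => wp u ω n • o) p → p ∈ E) :
    ENNReal.ofReal (Real.log (Fintype.card ι) / (L * Real.log a)) ≤ dimWith d E :=
  pg_dim_of hg hι L (L + 2 * δ) hL0 (h.ends hg)
    (fun ω ω' n hlt hne m m' => h.gp_sep hg L hL ω ω' n hlt hne m m') ha hd E hE

end Pool.Agent.CTZ
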