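import Pool.Agent.CTZ.VDefs
import Pool.Agent.CTZ.K4
import Pool.Agent.CTZ.V6

/-!
# Row V8: ends of ping-pong words over any alphabet are in the fibre
-/

set_option autoImplicit false

open Filter Topology Set MeasureTheory Pool.Agent.Helper68.CT

namespace Pool.Agent.CTZ

section V8

variable {H X Z : Type} [Group H] [MetricSpace X] [MulAction H X]

/-- a word and the next letter -/
theorem V8.letter {ι : Type} {o : X} {δ c T M : ℝ} (hg : Geo H X o δ c) {u : ι → H}
    (h : PG o δ T M u) (n : ℕ) (ω : ℕ → ι) (b : ι) :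
    gromovProduct o ((wp u ω n)⁻¹ • o) (u b • o) ≤ T + δ := by
  have hδ := hg.δ0
  have hT := h.T0
  induction n generalizing b with
  | zero =>
    have : gromovProduct o ((wp u ω 0)⁻¹ • o) (u b • o) = 0 := by
      simp [wp, gromovProduct]
    rw [this]
    linarith
  | succ n ih =>
    have h1 : gromovProduct o ((u (ω n))⁻¹ • o) ((wp u ω (n + 1))⁻¹ • o) =
        dist o (u (ω n) • o) - gromovProduct o ((wp u ω n)⁻¹ • o) (u (ω n) • o) := by
      have := K4.gp_split hg (u (ω n))⁻¹ (wp u ω n)⁻¹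
      rw [wp, mul_inv_rev, this, GG.dist_inv hg, inv_inv, gp_comm o (u (ω n) • o)]
    have h2 := ih (ω n)
    have h3 := h.big (ω n)
    have h4 := hg.hyp o ((u (ω n))⁻¹ • o) ((wp u ω (n + 1))⁻¹ • o) (u b • o)
    have h5 := h.gp (ω n) b
    by_contra hcon
    push Not at hcon
    have h6 : T + δ < gromovProduct o ((u (ω n))⁻¹ • o) ((wp u ω (n + 1))⁻¹ • o) := by
      rw [h1]; linarith
    have := lt_min h6 hcon
    linarith

/-- the product of the inverse of a word with a far away sequence stays small -/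
theorem V8.inv_gp {ι : Type} {o : X} {δ c T M : ℝ} (hg : Geo H X o δ c) {u : ι → H}
    (h : PG o δ T M u) (x : X) (B : ℝ)
    (hB : ∀ b, gromovProduct o ((u b)⁻¹ • o) x ≤ B)
    (hB2 : ∀ b, B + T + 5 * δ < dist o (u b • o)) (ω : ℕ → ι) (n : ℕ) :
    gromovProduct o ((wp u ω n)⁻¹ • o) x ≤ B + δ := by
  have hδ := hg.δ0
  have hB0 : 0 ≤ B := le_trans (K4.gp_nonneg _ _ _) (hB (ω 0))
  cases n with
  | zero =>
    have : gromovProduct o ((wp u ω 0)⁻¹ • o) x = 0 := by
      unfold gromovProduct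
      simp [wp]
    rw [this]
    linarith
  | succ n =>
    by_contra hcon
    push Not at hcon
    have h1 : gromovProduct o ((u (ω n))⁻¹ • o) ((wp u ω (n + 1))⁻¹ • o) =
        dist o (u (ω n) • o) - gromovProduct o ((wp u ω n)⁻¹ • o) (u (ω n) • o) := by
      have := K4.gp_split hg (u (ω n))⁻¹ (wp u ω n)⁻¹
      rw [wp, mul_inv_rev, this, GG.dist_inv hg, inv_inv, gp_comm o (u (ω n) • o)]
    have h2 := V8.letter hg h n ω (ω n)
    have h6 : B + δ < gromovProduct o ((u (ω n))⁻¹ • o) ((wp u ω (n + 1))⁻¹ • o) := by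
      rw [h1]
      have := hB2 (ω n)
      linarith
    have h7 := hg.hyp o ((u (ω n))⁻¹ • o) ((wp u ω (n + 1))⁻¹ • o) x
    have h8 := lt_min h6 hcon
    have h9 := hB (ω n)
    linarith

/-- the end of a ping-pong word over any alphabet is in the fibre -/
theorem pg_mem [TopologicalSpace Z] [T2Space Z] [MulAction H Z] {ι : Type}
    {o : X} {δ c T M : ℝ} (hg : Geo H X o δ c) {C a : ℝ} {d : MetricSpace (Boundary X)}
    (hv : Vis o C a d) {i : Boundary X → Z} (hi : CTMap (H := H) o i) (hc : ContinuousWith d i)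
    {u : ι → H} (h : PG o δ T M u) (z : Z) (hu : ∀ b, u b • z = z) (x : ℕ → X) (e : Boundary X)
    (he : EndsAt x e) (hie : i e = z) (B : ℝ)
    (hB : ∀ b k, gromovProduct o ((u b)⁻¹ • o) (x k) ≤ B) (hB2 : ∀ b, B + T + 5 * δ < dist o (u b • o))
    (ω : ℕ → ι) (p : Boundary X) (hp : EndsAt (fun n => wp u ω n • o) p) : i p = z := by
  have hδ := hg.δ0
  have hT := h.T0
  have hB0 : 0 ≤ B := le_trans (K4.gp_nonneg _ _ _) (hB (ω 0) 0)
  have hst : ∀ n : ℕ, dist o (wp u ω n • o) + 1 ≤ dist o (wp u ω (n + 1) • o) :=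
    fun n => h.step hg ω n
  have hpre : ∀ m n : ℕ, m ≤ n → dist o (wp u ω m • o) - T - 2 * δ ≤
      gromovProduct o (wp u ω m • o) (wp u ω n • o) := fun m n hmn => h.gp_prefix hg ω m n hmn
  have hlen : ∀ n : ℕ, (n : ℝ) ≤ dist o (wp u ω n • o) := by
    intro n
    induction n with
    | zero => simp
    | succ n ih =>
      have := hst n
      push_cast
      linarith
  have hq : ∀ n : ℕ, ∃ q, EndsAt (fun k => wp u ω n • x k) q := fun n => he.smul hg _
  choose q hq using hq
  have hiq : ∀ n, i (q n) = z := by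
    intro n
    rw [hi.equiv (wp u ω n) x e (q n) he (hq n), hie]
    clear hq
    induction n with
    | zero => simp [wp]
    | succ n ih =>
      have : wp u ω (n + 1) = wp u ω n * u (ω n) := rfl
      rw [this, mul_smul, hu, ih]
  -- the distances
  have hd : ∀ n : ℕ, d.dist (q n) p ≤ C * a ^ (-((n : ℝ) - (B + T + 4 * δ))) := by
    intro n
    refine hv.2.2 _ _ _ _ _ (hq n) hp ?_
    filter_upwards [eventually_ge_atTop ((n, n) : ℕ × ℕ)] with ij hij
    have h2 : n ≤ ij.2 := hij.2
    have h3 := hpre n ij.2 h2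
    have h4 := hg.hyp o (wp u ω n • x ij.1) (wp u ω n • o) (wp u ω ij.2 • o)
    have h5 : gromovProduct o (wp u ω n • x ij.1) (wp u ω n • o) =
        dist o (wp u ω n • o) - gromovProduct o ((wp u ω n)⁻¹ • o) (x ij.1) := by
      have e1 : dist (wp u ω n • x ij.1) (wp u ω n • o) = dist o (x ij.1) := by
        rw [hg.isom, dist_comm]
      have e2 : dist o (wp u ω n • x ij.1) = dist ((wp u ω n)⁻¹ • o) (x ij.1) := by
        have := hg.isom (wp u ω n) ((wp u ω n)⁻¹ • o) (x ij.1)
        rw [← this, smul_inv_smul]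
      have e3 : dist o ((wp u ω n)⁻¹ • o) = dist o (wp u ω n • o) := by
        have h := hg.isom (wp u ω n) o ((wp u ω n)⁻¹ • o)
        rw [smul_inv_smul] at h
        rw [← h, dist_comm]
      unfold gromovProduct
      rw [e1, e2, e3]
      ring
    have h6 := V8.inv_gp hg h (x ij.1) B (fun b => hB b _) hB2 ω n
    have h7 := hlen n
    have h8 : (n : ℝ) - (B + T + 3 * δ) ≤
        gromovProduct o (wp u ω n • x ij.1) (wp u ω n • o) := by
      rw [h5]; linarith
    have h9 : (n : ℝ) - (B + T + 3 * δ) ≤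
        min (gromovProduct o (wp u ω n • x ij.1) (wp u ω n • o))
          (gromovProduct o (wp u ω n • o) (wp u ω ij.2 • o)) :=
      le_min h8 (by linarith)
    linarith
  let _ := d
  have hlim : Tendsto q atTop (𝓝 p) := by
    rw [tendsto_iff_dist_tendsto_zero]
    have h0 : Tendsto (fun n : ℕ => C * a ^ (-((n : ℝ) - (B + T + 4 * δ)))) atTop (𝓝 0) := by
      have h1 : (fun n : ℕ => C * a ^ (-((n : ℝ) - (B + T + 4 * δ)))) =
          fun n : ℕ => C * a ^ (B + T + 4 * δ) * (a⁻¹) ^ n := by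
        funext n
        have ha : 0 < a := by linarith [hv.2.1]
        have : -((n : ℝ) - (B + T + 4 * δ)) = (B + T + 4 * δ) + -(n : ℝ) := by ring
        rw [this, Real.rpow_add ha, Real.rpow_neg ha.le, Real.rpow_natCast, inv_pow, mul_assoc]
      rw [h1]
      have ha1 : a⁻¹ < 1 := inv_lt_one_of_one_lt₀ hv.2.1
      have ha0 : 0 ≤ a⁻¹ := inv_nonneg.2 (by linarith [hv.2.1])
      have := (tendsto_pow_atTop_nhds_zero_of_lt_one ha0 ha1).const_mul
        (C * a ^ (B + T + 4 * δ))
      simpa using this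
    exact squeeze_zero (fun n => dist_nonneg) hd h0
  have hcont : Continuous i := hc
  have h1 : Tendsto (fun n => i (q n)) atTop (𝓝 (i p)) := (hcont.tendsto p).comp hlim
  have h2 : Tendsto (fun n => i (q n)) atTop (𝓝 z) := by
    simp only [hiq]
    exact tendsto_const_nhds
  exact tendsto_nhds_unique h1 h2

end V8

end Pool.Agent.CTZ
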