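import Pool.Agent.CTZ.Crit
import Pool.Agent.CTZ.V1
import Pool.Agent.CTZ.V3
import Pool.Agent.CTZ.V4
import Pool.Agent.CTZ.V5
import Pool.Agent.CTZ.V7b
import Pool.Agent.CTZ.V8

/-!
# The exact dimension formula: fibres, upper bound, assembly
-/

open Filter Topology Set MeasureTheory Pool.Agent.Helper68.CT

namespace Pool.Agent.CTZ

variable {H X Z : Type} [Group H] [MetricSpace X] [MulAction H X]

/-- the dimension of a fibre over a point with a stabiliser that is not virtually cyclic -/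
theorem fibre_dim [TopologicalSpace Z] [CompactSpace Z] [TopologicalSpace.MetrizableSpace Z]
    [MulAction H Z] {o : X} {δ c c' : ℝ} (hg : Geo H X o δ c) (hm : Mid H o c')
    {a : ℝ} (ha : 1 < a) {d : MetricSpace (Boundary X)} (hd : IsVisual a o d)
    {i : Boundary X → Z} (hi : CTMap (H := H) o i) (hc : ContinuousWith d i)
    (hconv : ConvergenceAction H Z) (h3 : 3 ≤ (limitSet H Z).encard)
    (hH : NotVirtuallyCyclic H) (z : Z)
    (hz : NotVirtuallyCyclic (MulAction.stabilizer H z)) :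
    z ∈ nonConical H Z ∧ growthExp o (MulAction.stabilizer H z) ≤
      dimWith d (i ⁻¹' {z}) * ENNReal.ofReal (Real.log a) := by
  classical
  have hδ := hg.δ0
  have hloga : 0 < Real.log a := Real.log_pos ha
  obtain ⟨C, hv⟩ := exists_vis ha o hd
  obtain ⟨hns, hrange⟩ := basics hg hm hv hi hc hconv h3 hH
  set S := MulAction.stabilizer H z with hSdef
  obtain ⟨g₀, hg₀S, hl₀⟩ := exists_loxo hg hm S (infinite_of_notVC S hz)
  obtain ⟨p₀, q₀, hp₀, hq₀, -⟩ := hl₀.exists_ends hg
  -- orientation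
  obtain ⟨g, hgS, hl, hgi⟩ : ∃ g ∈ S, Lox o δ g ∧ ∀ p, EndsAt (fun n => g ^ n • o) p → i p = z := by
    rcases fixed_end hg hv hi hc hconv hrange (show g₀ • z = z from hg₀S) hp₀ hq₀ with h | h
    · exact ⟨g₀, hg₀S, hl₀, fun p hp => by rw [hp.unique hp₀, h]⟩
    · exact ⟨g₀⁻¹, S.inv_mem hg₀S, hl₀.inv hg, fun p hp => by rw [hp.unique hq₀, h]⟩
  obtain ⟨s, hsS, T, hT⟩ := exists_indep hg S hz g hgS hl
  obtain ⟨p, q, hp, hq, -⟩ := hl.exists_ends hg
  have hip : i p = z := hgi p hp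
  obtain ⟨r, hr⟩ := hp.smul hg s
  have hsz : s • z = z := hsS
  have hgz : g • z = z := hgS
  have hir : i r = z := by rw [hi.equiv s _ p r hp hr, hip, hsz]
  have hthird' := conj_gp hg hT
  have hpr : p ≠ r := by
    refine ends_ne hg hp hr (T + dist o (s • o)) fun m n => ?_
    have := hthird' m n
    rwa [zpow_natCast, zpow_natCast] at this
  have hznc : z ∈ nonConical H Z := by
    refine ⟨?_, not_conical hg hv hi hc hrange hpr hip hir⟩
    rw [← hip]
    exact mem_limitSet hg hv hi hc hconv hns hp hq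
  refine ⟨hznc, ?_⟩
  -- the letters
  obtain ⟨T₁, hT₁, hfour⟩ := four_letters hg g s hl T hT
  set ls : ℝ := dist o (s • o) with hls
  have hls0 : 0 ≤ ls := dist_nonneg
  obtain ⟨N, hN⟩ := hfour (10 * T₁ + 100 * δ + 100 + 2 * ls)
  set h : H := s * g * s⁻¹ with hhdef
  set f : Fin 4 → H := ![g ^ N, (g⁻¹) ^ N, h ^ N, (h⁻¹) ^ N] with hf
  obtain ⟨hbig, hpair, hray⟩ := hN f rfl
  have hfz : ∀ b, f b • z = z := by
    have e1 : g ∈ S := hgS
    have e2 : h ∈ S := S.mul_mem (S.mul_mem hsS hgS) (S.inv_mem hsS)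
    have : ∀ b, f b ∈ S := by
      intro b
      fin_cases b
      · exact S.pow_mem e1 N
      · exact S.pow_mem (S.inv_mem e1) N
      · exact S.pow_mem e2 N
      · exact S.pow_mem (S.inv_mem e2) N
    exact this
  set σ : Fin 4 → Fin 4 := ![1, 0, 3, 2] with hσdef
  have hσ : ∀ b, (f b)⁻¹ = f (σ b) := by
    intro b
    fin_cases b <;> simp [hf, hσdef]
  -- a sequence that ends in the fibre and is far from the inverse letters
  have hseq : ∀ b : Fin 4, ∃ (x : ℕ → X) (e : Boundary X), EndsAt x e ∧ i e = z ∧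
      ∀ k, gromovProduct o (f (σ b) • o) (x k) ≤ T₁ + ls := by
    intro b
    have hA : ∀ b', (∀ k : ℕ, gromovProduct o (f b' • o) (h ^ k • o) ≤ T₁) →
        ∀ k, gromovProduct o (f b' • o) (s • g ^ k • o) ≤ T₁ + ls := by
      intro b' hb' k
      have h1 := hb' k
      have h2 := conj_dist hg s g k
      rw [zpow_natCast, zpow_natCast] at h2
      have h4 := gp_dist_right o (f b' • o) (h ^ k • o) (s • g ^ k • o)
      rw [h2] at h4
      have := abs_le.1 h4
      linarith [this.1, this.2]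
    fin_cases b
    · exact ⟨fun k => s • g ^ k • o, r, hr, hir, hA 1 fun k => (hray k).2.1⟩
    · exact ⟨fun k => s • g ^ k • o, r, hr, hir, hA 0 fun k => (hray k).1⟩
    · exact ⟨fun k => g ^ k • o, p, hp, hip, fun k => by
        have := (hray k).2.2.2
        show gromovProduct o (f 3 • o) (g ^ k • o) ≤ T₁ + ls
        linarith⟩
    · exact ⟨fun k => g ^ k • o, p, hp, hip, fun k => by
        have := (hray k).2.2.1
        show gromovProduct o (f 2 • o) (g ^ k • o) ≤ T₁ + ls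
        linarith⟩
  obtain ⟨K, hK, n₀, halph⟩ := exists_alphabet hg f T₁ hT₁ hpair σ hσ
    (fun b => by have := hbig b; linarith)
  set F : ℝ := ∑ b, dist o (f b • o) with hF
  have hF0 : 0 ≤ F := Finset.sum_nonneg fun _ _ => dist_nonneg
  have hFle : ∀ b, dist o (f b • o) ≤ F := fun b =>
    Finset.single_le_sum (f := fun b => dist o (f b • o)) (fun _ _ => dist_nonneg)
      (Finset.mem_univ b)
  -- the estimate for one `n`
  have key : ∀ κ : ℝ, 0 < κ → ENNReal.ofReal κ < growthExp o S →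
      ENNReal.ofReal κ ≤ dimWith d (i ⁻¹' {z}) * ENNReal.ofReal (Real.log a) := by
    intro κ hκ hκg
    by_contra hcon
    rw [not_le] at hcon
    have hDtop : dimWith d (i ⁻¹' {z}) ≠ ⊤ := by
      intro htop
      rw [htop, ENNReal.top_mul (by simpa using hloga)] at hcon
      exact absurd hcon (by simp)
    set D : ℝ := (dimWith d (i ⁻¹' {z})).toReal with hD
    have hD0 : 0 ≤ D := ENNReal.toReal_nonneg
    have hDD : dimWith d (i ⁻¹' {z}) = ENNReal.ofReal D := (ENNReal.ofReal_toReal hDtop).symm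
    rw [hDD, ← ENNReal.ofReal_mul hD0, ENNReal.ofReal_lt_ofReal_iff hκ] at hcon
    have hfreq := exists_annulus hg S κ hκ hκg
    have hb : Tendsto (fun n : ℕ => (κ - D * Real.log a) * (n : ℝ)) atTop atTop :=
      tendsto_natCast_atTop_atTop.const_mul_atTop (by linarith)
    have hb2 : Tendsto (fun n : ℕ => κ * (n : ℝ)) atTop atTop :=
      tendsto_natCast_atTop_atTop.const_mul_atTop hκ
    obtain ⟨n, hn, ⟨hn1, hn2⟩, hn3, hn4⟩ := (hfreq.and_eventually
      (((eventually_ge_atTop n₀).and (tendsto_natCast_atTop_atTop.eventually_gt_atTop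
        (T₁ + ls))).and ((hb.eventually_gt_atTop (Real.log K + D * Real.log a * F)).and
        (hb2.eventually_gt_atTop (Real.log K + Real.log 2))))).exists
    have hfin : {s : H | s ∈ S ∧ (n : ℝ) - 1 < dist o (s • o) ∧ dist o (s • o) ≤ n}.Finite :=
      (hg.fin n).subset fun s hs => hs.2.2
    obtain ⟨b, A', hA'sub, hA'card, hPG, hA'gp⟩ := halph n hn1 hfin.toFinset
      (fun s hs => ((hfin.mem_toFinset).1 hs).2)
    have hcard : Real.exp (κ * n) ≤ K * A'.card := by
      rw [← Set.ncard_eq_toFinset_card _ hfin] at hA'card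
      exact hn.trans hA'card
    have hcard2 : Real.exp (κ * n) / K ≤ A'.card := by
      rw [div_le_iff₀ hK]
      linarith
    have hlogcard : κ * n - Real.log K ≤ Real.log A'.card := by
      have h1 : Real.log (Real.exp (κ * n) / K) = κ * n - Real.log K := by
        rw [Real.log_div (Real.exp_pos _).ne' hK.ne', Real.log_exp]
      rw [← h1]
      exact Real.log_le_log (by positivity) hcard2
    have hcardpos : (0 : ℝ) < A'.card := lt_of_lt_of_le (by positivity) hcard2
    have hι : 2 ≤ Fintype.card A' := by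
      rw [Fintype.card_coe]
      have h1 : Real.log 2 < Real.log A'.card := by linarith
      have h2 := (Real.log_lt_log_iff (by norm_num) hcardpos).1 h1
      have h3 : (2 : ℕ) < A'.card := by exact_mod_cast h2
      exact h3.le
    have hn0 : (0 : ℝ) < n := by linarith
    have hL0 : 0 < (n : ℝ) + F := by linarith
    have hL : ∀ t : A', dist o (((t : H) * f b) • o) ≤ (n : ℝ) + F := by
      intro t
      have h1 := K4.len_mul_le hg (t : H) (f b)
      have h2 := ((hfin.mem_toFinset).1 (hA'sub t.2)).2.2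
      have h3 := hFle b
      linarith
    obtain ⟨x, e, he, hie, hx⟩ := hseq b
    have hdim := pg_dim hg hPG hι ((n : ℝ) + F) hL0 hL ha hd (i ⁻¹' {z}) (fun ω p' hp' => by
      show i p' = z
      refine pg_mem hg hv hi hc hPG z ?_ x e he hie (T₁ + ls + δ) ?_ ?_ ω p' hp'
      · intro t
        have h1 : (t : H) • z = z := ((hfin.mem_toFinset).1 (hA'sub t.2)).1
        rw [mul_smul, hfz, h1]
      · intro t k
        have h1 := hA'gp t t.2
        have h2 : (((t : H) * f b)⁻¹) = f (σ b) * (t : H)⁻¹ := by rw [mul_inv_rev, hσ]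
        have h3 := K4.gp_split hg (f (σ b)) (t : H)⁻¹
        rw [← h2, ← hσ, inv_inv, GG.dist_inv hg, hσ, gp_comm o (f b • o)] at h3
        have h4 := hg.hyp o (f (σ b) • o) ((((t : H) * f b)⁻¹) • o) (x k)
        have h5 := hx k
        have h6 := hbig b
        by_contra hcon'
        rw [not_le] at hcon'
        have h7 : T₁ + ls + δ < min (gromovProduct o (f (σ b) • o) ((((t : H) * f b)⁻¹) • o))
            (gromovProduct o ((((t : H) * f b)⁻¹) • o) (x k)) := by
          refine lt_min ?_ hcon'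
          rw [h3]
          linarith
        linarith
      · intro t
        have h1 := hPG.bigM t
        linarith)
    rw [hDD, ENNReal.ofReal_le_ofReal_iff hD0, Fintype.card_coe,
      div_le_iff₀ (mul_pos hL0 hloga)] at hdim
    nlinarith
  refine le_of_forall_lt_imp_le_of_dense fun t ht => ?_
  rcases eq_or_ne t 0 with rfl | ht0
  · simp
  have htt : t ≠ ⊤ := (lt_of_lt_of_le ht le_top).ne
  have h1 : ENNReal.ofReal t.toReal = t := ENNReal.ofReal_toReal htt
  rw [← h1] at ht ⊢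
  exact key _ (ENNReal.toReal_pos ht0 htt) ht

/-- the upper bound of the dimension from one cylinder length -/
theorem dim_le_of_card [TopologicalSpace Z] [CompactSpace Z] [TopologicalSpace.MetrizableSpace Z]
    [MulAction H Z] {o : X} {δ c : ℝ} (hg : Geo H X o δ c) {C a : ℝ}
    {d : MetricSpace (Boundary X)} (hv : Vis o C a d) {i : Boundary X → Z}
    (hi : CTMap (H := H) o i) (hc : ContinuousWith d i) (hconv : ConvergenceAction H Z)
    {S : LineSys H Z} (hS : IsSys o c i S) (s : NNReal) (R : ℕ) (hR : 0 < R)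
    (hN : (S.N R : ℝ) < Real.exp ((s : ℝ) * Real.log a * R)) :
    dimWith d (i ⁻¹' nonConical H Z) ≤ s := by
  classical
  have ha : 1 < a := hv.2.1
  have hN' : ((S.L (R : ℤ)).card : ℝ) < a ^ ((s : ℝ) * R) := by
    have : a ^ ((s : ℝ) * R) = Real.exp ((s : ℝ) * Real.log a * R) := by
      rw [Real.rpow_def_of_pos (by linarith)]
      ring_nf
    rw [this]; exact hN
  by_cases hconst : ∀ p q, i p = i q
  · refine dim_le hg hv _ (S.L R) R hR s hN' fun ξ hξ => ?_
    obtain ⟨r, hr, hrξ⟩ := hg.rays ξ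
    exact ⟨r, hr, hrξ, eventually_lang hg hv hi hc hconv hS hξ (Or.inr hconst) hr hrξ R⟩
  · have hsub : i ⁻¹' nonConical H Z ⊆
        {ξ : Boundary X | ¬ ∃ ζ₁ ζ₂, ζ₁ ≠ ξ ∧ ζ₂ ≠ ξ ∧ i ζ₁ ≠ i ζ₂} ∪
          {ξ | i ξ ∈ nonConical H Z ∧ ∃ ζ₁ ζ₂, ζ₁ ≠ ξ ∧ ζ₂ ≠ ξ ∧ i ζ₁ ≠ i ζ₂} := by
      intro ξ hξ
      by_cases h : ∃ ζ₁ ζ₂, ζ₁ ≠ ξ ∧ ζ₂ ≠ ξ ∧ i ζ₁ ≠ i ζ₂
      · exact Or.inr ⟨hξ, h⟩
      · exact Or.inl h
    have h1 : dimWith d {ξ : Boundary X | ¬ ∃ ζ₁ ζ₂, ζ₁ ≠ ξ ∧ ζ₂ ≠ ξ ∧ i ζ₁ ≠ i ζ₂} = 0 := by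
      unfold dimWith
      exact dimH_finite (special_finite i hconst)
    have h2 : dimWith d {ξ | i ξ ∈ nonConical H Z ∧
        ∃ ζ₁ ζ₂, ζ₁ ≠ ξ ∧ ζ₂ ≠ ξ ∧ i ζ₁ ≠ i ζ₂} ≤ s := by
      refine dim_le hg hv _ (S.L R) R hR s hN' fun ξ hξ => ?_
      obtain ⟨r, hr, hrξ⟩ := hg.rays ξ
      exact ⟨r, hr, hrξ, eventually_lang hg hv hi hc hconv hS hξ.1 (Or.inl hξ.2) hr hrξ R⟩
    have h3 : dimWith d (i ⁻¹' nonConical H Z) ≤
        dimWith d ({ξ : Boundary X | ¬ ∃ ζ₁ ζ₂, ζ₁ ≠ ξ ∧ ζ₂ ≠ ξ ∧ i ζ₁ ≠ i ζ₂} ∪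
          {ξ | i ξ ∈ nonConical H Z ∧ ∃ ζ₁ ζ₂, ζ₁ ≠ ξ ∧ ζ₂ ≠ ξ ∧ i ζ₁ ≠ i ζ₂}) := by
      unfold dimWith
      exact dimH_mono hsub
    refine h3.trans ?_
    unfold dimWith at h1 h2 ⊢
    rw [dimH_union, h1]
    exact max_le (by simp) h2

/-- an atom gives a point stabiliser with the whole growth -/
theorem core_stab [TopologicalSpace Z] [CompactSpace Z] [TopologicalSpace.MetrizableSpace Z]
    [MulAction H Z] {o : X} {δ c : ℝ} (hg : Geo H X o δ c) {i : Boundary X → Z}
    (hconv : ConvergenceAction H Z) {S : LineSys H Z} (hS : IsSys o c i S) {h : ℝ}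
    (hgr : S.HasGrowth h) :
    ∃ z : Z, ENNReal.ofReal h ≤ growthExp o (MulAction.stabilizer H z) := by
  classical
  have : Countable H := countable_of_geo hg
  let _ : MeasurableSpace Z := borel Z
  have : BorelSpace Z := ⟨rfl⟩
  have : ContinuousConstSMul H Z := ⟨hconv.continuous_smul⟩
  obtain ⟨Ch, hcount⟩ := half_count hg hS
  have hh : Halving S (Half o) Ch := ⟨fun R w _ g => half_or hg w g, hcount⟩
  obtain ⟨m, hm⟩ := S.exists_good hgr
  obtain ⟨z, hz⟩ := exists_atom S hgr hm hh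
  exact ⟨z, le_growthExp hg hS z h fun ε hε => atom_stab S hgr hm z hz ε hε⟩

/-- The upper bound. -/
theorem upper [TopologicalSpace Z] [CompactSpace Z] [TopologicalSpace.MetrizableSpace Z]
    [MulAction H Z] {o : X} {δ c : ℝ} (hg : Geo H X o δ c) {C a : ℝ}
    {d : MetricSpace (Boundary X)} (hv : Vis o C a d) {i : Boundary X → Z}
    (hi : CTMap (H := H) o i) (hc : ContinuousWith d i) (hconv : ConvergenceAction H Z)
    [Nonempty (Boundary X)] :
    ∃ z : Z, dimWith d (i ⁻¹' nonConical H Z) * ENNReal.ofReal (Real.log a) ≤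
      growthExp o (MulAction.stabilizer H z) := by
  classical
  have ha : 1 < a := hv.2.1
  have hloga : 0 < Real.log a := Real.log_pos ha
  have : Nonempty Z := ⟨i (Classical.arbitrary _)⟩
  obtain ⟨S, hS⟩ := exists_sys hg hv hi hc
  rcases S.growth_dichotomy with hsmall | ⟨h, hgr⟩
  · have h0 : dimWith d (i ⁻¹' nonConical H Z) = 0 := by
      by_contra hne
      obtain ⟨s, hs0, hs⟩ := ENNReal.lt_iff_exists_nnreal_btwn.1 (pos_iff_ne_zero.2 hne)
      have hs0' : 0 < s := by exact_mod_cast hs0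
      obtain ⟨R, hR, hN⟩ := hsmall ((s : ℝ) * Real.log a)
        (mul_pos (by exact_mod_cast hs0') hloga)
      exact absurd (dim_le_of_card hg hv hi hc hconv hS s R hR hN) (not_le.2 hs)
    refine ⟨Classical.arbitrary Z, ?_⟩
    rw [h0, zero_mul]
    exact zero_le
  · obtain ⟨z, hz⟩ := core_stab hg hconv hS hgr
    refine ⟨z, le_trans ?_ hz⟩
    have h0 : 0 < h := hgr.1
    have key : ∀ s : NNReal, h < (s : ℝ) * Real.log a → dimWith d (i ⁻¹' nonConical H Z) ≤ s := by
      intro s hs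
      obtain ⟨R, hR1, hR2⟩ := ((hgr.2.2 (((s : ℝ) * Real.log a - h) / 2) (by linarith)).and
        (eventually_gt_atTop 0)).exists
      refine dim_le_of_card hg hv hi hc hconv hS s R hR2 (lt_of_le_of_lt hR1 ?_)
      have hR0 : (0 : ℝ) < R := by exact_mod_cast hR2
      refine Real.exp_lt_exp.2 ?_
      have : h + ((s : ℝ) * Real.log a - h) / 2 < (s : ℝ) * Real.log a := by linarith
      exact mul_lt_mul_of_pos_right this hR0
    by_contra hcon
    rw [not_le] at hcon
    have h1 : ENNReal.ofReal (h / Real.log a) < dimWith d (i ⁻¹' nonConical H Z) := by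
      by_contra hle
      rw [not_lt] at hle
      have h2 : dimWith d (i ⁻¹' nonConical H Z) * ENNReal.ofReal (Real.log a) ≤
          ENNReal.ofReal (h / Real.log a) * ENNReal.ofReal (Real.log a) :=
        mul_le_mul_left hle _
      rw [← ENNReal.ofReal_mul (by positivity), div_mul_cancel₀ _ hloga.ne'] at h2
      exact absurd hcon (not_lt.2 h2)
    obtain ⟨s, hs0, hs⟩ := ENNReal.lt_iff_exists_nnreal_btwn.1 h1
    have h2 : h < (s : ℝ) * Real.log a := by
      have h3 : ENNReal.ofReal (h / Real.log a) < ENNReal.ofReal (s : ℝ) := by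
        rwa [ENNReal.ofReal_coe_nnreal]
      have h4 := (ENNReal.ofReal_lt_ofReal_iff_of_nonneg (by positivity)).1 h3
      rwa [div_lt_iff₀ hloga] at h4
    exact absurd (key s h2) (not_le.2 hs)

end Pool.Agent.CTZ
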