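import Pool.Agent.CTZ.GDefs

/-!
# The dimension formula: definitions
-/

open Filter Topology Set Pool.Agent.Helper68.CT

namespace Pool.Agent.CTZ

variable {H X : Type} [Group H] [MetricSpace X] [MulAction H X]

/-- product of the first `n` letters -/
def wp {ι : Type} (u : ι → H) (ω : ℕ → ι) : ℕ → H
  | 0 => 1
  | n + 1 => wp u ω n * u (ω n)

/-- ping-pong data for an arbitrary alphabet -/
structure PG {ι : Type} (o : X) (δ T M : ℝ) (u : ι → H) : Prop where
  T0 : 0 ≤ T
  gp : ∀ a b, gromovProduct o ((u a)⁻¹ • o) (u b • o) ≤ T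
  sep : ∀ a b, a ≠ b → gromovProduct o (u a • o) (u b • o) ≤ M
  big : ∀ a, 4 * T + 20 * δ + 20 ≤ dist o (u a • o)
  bigM : ∀ a, M + T + 10 * δ + 1 ≤ dist o (u a • o)

/-- The growth exponent of a subgroup `S` of `H` for the action on `X`: the upper limit of
`log #{s ∈ S : d(o, s o) ≤ n} / n`. -/
noncomputable def growthExp (o : X) (S : Subgroup H) : ENNReal :=
  limsup (fun n : ℕ => ENNReal.ofReal
    (Real.log ({s : H | s ∈ S ∧ dist o (s • o) ≤ n}.ncard) / n)) atTop

end Pool.Agent.CTZ
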