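import Pool.Agent.CTZ.V9

/-!
# The exact dimension formula
-/

open Filter Topology Set MeasureTheory Pool.Agent.Helper68.CT

namespace Pool.Agent.CTZ

/-- The exact dimension formula. -/
theorem formula {H X Z : Type} [Group H] [MetricSpace X] [MulAction H X] [TopologicalSpace Z]
    [MulAction H Z] [ProperSpace X] [CompactSpace Z] [TopologicalSpace.MetrizableSpace Z]
    (i : Boundary X → Z) (hH : NotVirtuallyCyclic H) (hX : GeodesicSpace X)
    (hhyp : GromovHyperbolic X) (hgeo : GeometricAction H X) (hconv : ConvergenceAction H Z)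
    (h3 : 3 ≤ (limitSet H Z).encard) (hi : Equivariant H i) (o : X) (a : ℝ) (ha : 1 < a)
    (d : MetricSpace (Boundary X)) (hd : IsVisual a o d) (hc : ContinuousWith d i) :
    -- the formula
    dimWith d (i ⁻¹' nonConical H Z) =
      (⨆ z : Z, growthExp o (MulAction.stabilizer H z)) / ENNReal.ofReal (Real.log a) ∧
    -- the suprema over the points and over the fibres are attained at one point
    (∃ z : Z,
      dimWith d (i ⁻¹' nonConical H Z) =
        growthExp o (MulAction.stabilizer H z) / ENNReal.ofReal (Real.log a) ∧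
      dimWith d (i ⁻¹' nonConical H Z) = dimWith d (i ⁻¹' nonConical H Z ∩ i ⁻¹' {z})) ∧
    -- the lower bound for every fibre
    (∀ z : Z, growthExp o (MulAction.stabilizer H z) / ENNReal.ofReal (Real.log a) ≤
      dimWith d (i ⁻¹' nonConical H Z ∩ i ⁻¹' {z})) ∧
    -- points with large stabilisers are not conical
    (∀ z : Z, NotVirtuallyCyclic (MulAction.stabilizer H z) → z ∈ nonConical H Z) ∧
    -- the criterion
    (0 < dimWith d (i ⁻¹' nonConical H Z) ↔
      ∃ z : Z, NotVirtuallyCyclic (MulAction.stabilizer H z)) ∧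
    ((∀ g : H, ¬ IsOfFinOrder g → ∃ y z : Z, y ≠ z ∧ g • y = y ∧ g • z = z) →
      dimWith d (i ⁻¹' nonConical H Z) = 0) := by
  classical
  obtain ⟨hcrit, hcrit2⟩ := criterion i hH hX hhyp hgeo hconv h3 hi o a ha d hd hc
  obtain ⟨δ, c, hg⟩ := exists_geo hX hhyp hgeo o
  obtain ⟨c', hm⟩ := exists_mid (H := H) hX hgeo o
  obtain ⟨C, hv⟩ := exists_vis ha o hd
  have hi' := CTMap.of_equivariant (H := H) o hi
  have hloga : 0 < Real.log a := Real.log_pos ha
  have hl0 : ENNReal.ofReal (Real.log a) ≠ 0 := by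
    rw [Ne, ENNReal.ofReal_eq_zero]
    linarith
  have hlt : ENNReal.ofReal (Real.log a) ≠ ⊤ := ENNReal.ofReal_ne_top
  obtain ⟨-, hrange⟩ := basics hg hm hv hi' hc hconv h3 hH
  have hne : Nonempty (Boundary X) := by
    by_contra hne
    rw [not_nonempty_iff] at hne
    rw [Set.range_eq_empty, Set.encard_empty] at hrange
    exact absurd hrange (by decide)
  have hmono : ∀ {s t : Set (Boundary X)}, s ⊆ t → dimWith d s ≤ dimWith d t := by
    intro s t hst
    unfold dimWith
    exact dimH_mono hst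
  have hfib : ∀ z : Z, growthExp o (MulAction.stabilizer H z) / ENNReal.ofReal (Real.log a) ≤
      dimWith d (i ⁻¹' nonConical H Z ∩ i ⁻¹' {z}) := by
    intro z
    by_cases hz : NotVirtuallyCyclic (MulAction.stabilizer H z)
    · obtain ⟨hzn, hle⟩ := fibre_dim hg hm ha hd hi' hc hconv h3 hH z hz
      have hsub : i ⁻¹' {z} ⊆ i ⁻¹' nonConical H Z ∩ i ⁻¹' {z} := by
        intro ξ hξ
        have : i ξ = z := hξ
        exact ⟨by show i ξ ∈ nonConical H Z; rw [this]; exact hzn, hξ⟩
      rw [ENNReal.div_le_iff hl0 hlt]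
      refine hle.trans ?_
      exact mul_le_mul_left (hmono hsub) _
    · rw [growthExp_vc hg hm _ hz, ENNReal.zero_div]
      exact zero_le
  have hle : ∀ z : Z, growthExp o (MulAction.stabilizer H z) / ENNReal.ofReal (Real.log a) ≤
      dimWith d (i ⁻¹' nonConical H Z) := fun z => (hfib z).trans (hmono inter_subset_left)
  obtain ⟨z, hz⟩ := upper hg hv hi' hc hconv
  have hz' : dimWith d (i ⁻¹' nonConical H Z) ≤
      growthExp o (MulAction.stabilizer H z) / ENNReal.ofReal (Real.log a) := by
    rw [ENNReal.le_div_iff_mul_le (Or.inl hl0) (Or.inl hlt)]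
    exact hz
  refine ⟨le_antisymm ?_ ?_, ⟨z, le_antisymm hz' (hle z), ?_⟩, hfib, fun z hz => ?_, hcrit, hcrit2⟩
  · refine hz'.trans (ENNReal.div_le_div_right ?_ _)
    exact le_iSup (fun z => growthExp o (MulAction.stabilizer H z)) z
  · rw [ENNReal.div_le_iff hl0 hlt]
    refine iSup_le fun z => ?_
    rw [← ENNReal.div_le_iff hl0 hlt]
    exact hle z
  · exact le_antisymm (hz'.trans (hfib z)) (hmono inter_subset_left)
  · exact (fibre_dim hg hm ha hd hi' hc hconv h3 hH z hz).1

end Pool.Agent.CTZ
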